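import Mathlib

/-!
# Interpolation sets for the analytic Zygmund class: definitions
-/

namespace Pool.Agent.H82.Zyg

open Complex Metric Set

/-- The Zygmund class of `ℂ`. -/
def ZygC (φ : ℂ → ℂ) : Prop :=
  Continuous φ ∧ ∃ C : ℝ, ∀ z h : ℂ, ‖φ (z + h) + φ (z - h) - 2 * φ z‖ ≤ C * ‖h‖

/-- The class `Λ_*`: functions holomorphic in the open unit disc and continuous on the closed disc,
with boundary function in the Zygmund class of the circle. (Only the values of `f` on the closed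
unit disc matter.) -/
def LamStar (f : ℂ → ℂ) : Prop :=
  DifferentiableOn ℂ f (ball 0 1) ∧ ContinuousOn f (closedBall 0 1) ∧
    ∃ C : ℝ, ∀ t h : ℝ, ‖f (exp ((t + h : ℝ) * I)) + f (exp ((t - h : ℝ) * I)) -
      2 * f (exp (t * I))‖ ≤ C * |h|

/-- `X` is an interpolation set for `Λ_*`. -/
def IsInterp (X : Set ℂ) : Prop :=
  ∀ φ : ℂ → ℂ, ZygC φ → ∃ f : ℂ → ℂ, LamStar f ∧ ∀ x ∈ X, f x = φ x

/-- Condition (K) with constant `c`: every arc `I` of the unit circle contains a point whose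
distance from `X` is at least `c |I|`. -/
def KCond (c : ℝ) (X : Set ℂ) : Prop :=
  ∀ a b : ℝ, a < b → b - a ≤ 2 * Real.pi → ∃ t ∈ Icc a b, ∀ x ∈ X,
    c * (b - a) ≤ ‖exp (t * I) - x‖

/-- The sine of the angle at `x` between the directions of `y` and `z`. -/
noncomputable def sinAng (x y z : ℂ) : ℝ :=
  |((y - x) * (starRingEnd ℂ) (z - x)).im| / (‖y - x‖ * ‖z - x‖)

/-- The quantity on the right of the three point condition. -/
noncomputable def kap (x y z : ℂ) : ℝ :=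
  ‖x - z‖ / max ‖x - z‖ (1 - ‖x‖) *
    (1 + Real.log (max ‖x - z‖ (1 - ‖x‖) / max ‖x - y‖ (1 - ‖x‖)))

/-- The quantity on the left of the three point condition. -/
noncomputable def lft (x y z : ℂ) : ℝ :=
  1 + Real.log (‖x - z‖ / ‖x - y‖) + sinAng x y z * Real.log (4 / ‖x - z‖)

/-- The three point condition with constant `C`: it is about the triangles with vertices in `X`
whose shortest side is `xy`. -/
def TCond (C : ℝ) (X : Set ℂ) : Prop :=
  ∀ x ∈ X, ∀ y ∈ X, ∀ z ∈ X, x ≠ y → ‖x - y‖ ≤ ‖x - z‖ → ‖x - y‖ ≤ ‖y - z‖ →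
    lft x y z ≤ C * kap x y z

/-- The pair condition with constant `C` (a normalised consequence of the three point condition,
used only for the quantitative statement about finite sets). -/
def PCond (C : ℝ) (X : Set ℂ) : Prop :=
  ∀ x ∈ X, ∀ y ∈ X, x ≠ y →
    1 + Real.log (2 / ‖x - y‖) ≤ C * (1 + Real.log (2 / max ‖x - y‖ (1 - ‖x‖)))

/-- Properties of the distance function `D z = dist (z, X) + 1 - |z|` used in the estimates. -/
structure DistLike (D : ℂ → ℝ) : Prop where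
  pos : ∀ z : ℂ, ‖z‖ < 1 → 0 < D z
  one_sub_le : ∀ z : ℂ, 1 - ‖z‖ ≤ D z
  lip : ∀ z w : ℂ, D z ≤ D w + 2 * ‖z - w‖
  le_three : ∀ z : ℂ, ‖z‖ < 1 → D z ≤ 3

/-- The holomorphic weight `h`, which is comparable to a large power of `D`. -/
structure Peak (B : ℝ) (k : ℕ) (D : ℂ → ℝ) (h : ℂ → ℂ) : Prop where
  diff : ∃ r > 1, DifferentiableOn ℂ h (ball 0 r)
  ne : ∀ z : ℂ, ‖z‖ ≤ 1 → h z ≠ 0
  d1 : ∀ z : ℂ, ‖z‖ < 1 → ‖deriv h z‖ * D z ≤ B * ‖h z‖
  d2 : ∀ z : ℂ, ‖z‖ < 1 → ‖deriv (deriv h) z‖ * D z ^ 2 ≤ B * ‖h z‖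
  ratio : ∀ z w : ℂ, ‖z‖ < 1 → ‖w‖ < 1 →
    ‖h z‖ * (1 + ‖z - w‖ / D z) ^ 3 ≤ B * (‖h w‖ * (1 + ‖z - w‖ / D w) ^ k)

end Pool.Agent.H82.Zyg
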