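import Mathlib
import Pool.Agent.H82.Zyg.Defs

/-!
# Slopes of `φ` at pairs of points of `X`: definitions
-/

namespace Pool.Agent.H82.Zyg

/-- The divided difference. -/
noncomputable def slp (φ : ℂ → ℂ) (x y : ℂ) : ℂ := (φ x - φ y) / (x - y)

/-- The scale of the pair `(x, y)`, seen from `x`. -/
noncomputable def scl (x y : ℂ) : ℝ := max ‖x - y‖ (1 - ‖x‖)

/-- The hyperbolic type distance of the locations `(x, R)` and `(y, S)`. -/
noncomputable def qd (x : ℂ) (R : ℝ) (y : ℂ) (S : ℝ) : ℝ :=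
  Real.log ((‖x - y‖ + R + S) ^ 2 / (R * S))

end Pool.Agent.H82.Zyg
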