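import Mathlib
import Pool.Agent.H82.Zyg.SlopeDefs

/-!
# McShane extension of the slopes
-/

namespace Pool.Agent.H82.Zyg

open Complex Metric Set

lemma qd_comm (x : ℂ) (R : ℝ) (y : ℂ) (S : ℝ) : qd x R y S = qd y S x R := by
  unfold qd
  rw [norm_sub_rev, mul_comm R S, add_assoc, add_assoc, add_comm R S]

lemma four_le_qd_arg (x : ℂ) {R : ℝ} (y : ℂ) {S : ℝ} (hR : 0 < R) (hS : 0 < S) :
    4 ≤ (‖x - y‖ + R + S) ^ 2 / (R * S) := by
  rw [le_div_iff₀ (by positivity)]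
  have h := norm_nonneg (x - y)
  have h2 : (R + S) ^ 2 ≤ (‖x - y‖ + R + S) ^ 2 := by
    apply pow_le_pow_left₀ (by positivity)
    linarith
  nlinarith [sq_nonneg (R - S)]

lemma qd_nonneg (x : ℂ) {R : ℝ} (y : ℂ) {S : ℝ} (hR : 0 < R) (hS : 0 < S) : 0 ≤ qd x R y S :=
  Real.log_nonneg (by linarith [four_le_qd_arg x y hR hS])

lemma qd_triangle (x : ℂ) {R : ℝ} (y : ℂ) {S : ℝ} (z : ℂ) {T : ℝ} (hR : 0 < R) (hS : 0 < S)
    (hT : 0 < T) : qd x R z T ≤ qd x R y S + qd y S z T := by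
  unfold qd
  have h1 := norm_nonneg (x - y)
  have h2 := norm_nonneg (y - z)
  have h3 := norm_nonneg (x - z)
  have h4 : ‖x - z‖ ≤ ‖x - y‖ + ‖y - z‖ := norm_sub_le_norm_sub_add_norm_sub _ _ _
  rw [← Real.log_mul (by positivity) (by positivity)]
  apply Real.log_le_log (by positivity)
  rw [div_mul_div_comm, div_le_div_iff₀ (by positivity) (by positivity)]
  have h5 : S * (‖x - z‖ + R + T) ≤ (‖x - y‖ + R + S) * (‖y - z‖ + S + T) := by
    calc S * (‖x - z‖ + R + T) ≤ S * (‖x - y‖ + ‖y - z‖ + R + T) := by gcongr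
      _ ≤ _ := by
        have : 0 ≤ ‖x - y‖ * ‖y - z‖ + ‖x - y‖ * T + R * ‖y - z‖ + R * T + S ^ 2 := by
          positivity
        nlinarith
  calc (‖x - z‖ + R + T) ^ 2 * (R * S * (S * T)) =
        (S * (‖x - z‖ + R + T)) ^ 2 * (R * T) := by ring
    _ ≤ ((‖x - y‖ + R + S) * (‖y - z‖ + S + T)) ^ 2 * (R * T) := by gcongr
    _ = _ := by ring

/-- Real McShane extension. -/
lemma mcshane_real {K : ℝ} (T : Finset (ℂ × ℝ × ℝ)) (hT : T.Nonempty)
    (hpos : ∀ q ∈ T, 0 < q.2.1)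
    (h : ∀ q ∈ T, ∀ q' ∈ T, q.2.2 ≤ q'.2.2 + K * qd q.1 q.2.1 q'.1 q'.2.1) (hK : 0 ≤ K) :
    ∃ c : ℂ → ℝ → ℝ, (∀ x R x' R', 0 < R → 0 < R' → |c x R - c x' R'| ≤ K * qd x R x' R') ∧
      ∀ q ∈ T, ∀ x R, 0 < R → |c x R - q.2.2| ≤ K * qd x R q.1 q.2.1 := by
  set c : ℂ → ℝ → ℝ := fun x R => T.inf' hT fun q => q.2.2 + K * qd x R q.1 q.2.1 with hc
  have key : ∀ x R x' R', 0 < R → 0 < R' → c x R ≤ c x' R' + K * qd x R x' R' := by
    intro x R x' R' hR hR'
    rw [← sub_le_iff_le_add]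
    simp only [hc]
    rw [Finset.le_inf'_iff]
    intro q hq
    rw [sub_le_iff_le_add]
    refine (Finset.inf'_le _ hq).trans ?_
    have := qd_triangle x x' q.1 hR hR' (hpos q hq)
    nlinarith
  refine ⟨c, ?_, ?_⟩
  · intro x R x' R' hR hR'
    rw [abs_sub_le_iff]
    constructor
    · have := key x R x' R' hR hR'
      linarith
    · have := key x' R' x R hR' hR
      rw [qd_comm] at this
      linarith
  · intro q hq x R hR
    rw [abs_sub_le_iff]
    constructor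
    · have : c x R ≤ q.2.2 + K * qd x R q.1 q.2.1 := Finset.inf'_le _ hq
      linarith
    · have : q.2.2 - K * qd x R q.1 q.2.1 ≤ c x R := by
        simp only [hc]
        rw [Finset.le_inf'_iff]
        intro q' hq'
        have h1 := h q hq q' hq'
        have h2 := qd_triangle q.1 x q'.1 (hpos q hq) hR (hpos q' hq')
        rw [qd_comm q.1 q.2.1 x R] at h2
        nlinarith
      linarith

/-- Complex McShane extension. -/
lemma mcshane {K : ℝ} (T : Finset (ℂ × ℝ × ℂ)) (hT : T.Nonempty) (hpos : ∀ q ∈ T, 0 < q.2.1)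
    (h : ∀ q ∈ T, ∀ q' ∈ T, ‖q.2.2 - q'.2.2‖ ≤ K * qd q.1 q.2.1 q'.1 q'.2.1) (hK : 0 ≤ K) :
    ∃ c : ℂ → ℝ → ℂ, (∀ x R x' R', 0 < R → 0 < R' →
        ‖c x R - c x' R'‖ ≤ 2 * K * qd x R x' R') ∧
      ∀ q ∈ T, ∀ x R, 0 < R → ‖c x R - q.2.2‖ ≤ 2 * K * qd x R q.1 q.2.1 := by
  classical
  obtain ⟨c1, h1, h1'⟩ := mcshane_real (K := K) (T.image fun q => (q.1, q.2.1, q.2.2.re))
    (hT.image _) (by
      intro q hq
      obtain ⟨p, hp, rfl⟩ := Finset.mem_image.mp hq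
      exact hpos p hp) (by
      intro q hq q' hq'
      obtain ⟨p, hp, rfl⟩ := Finset.mem_image.mp hq
      obtain ⟨p', hp', rfl⟩ := Finset.mem_image.mp hq'
      simp only
      have := (Complex.re_le_norm (p.2.2 - p'.2.2)).trans (h p hp p' hp')
      rw [Complex.sub_re] at this
      linarith) hK
  obtain ⟨c2, h2, h2'⟩ := mcshane_real (K := K) (T.image fun q => (q.1, q.2.1, q.2.2.im))
    (hT.image _) (by
      intro q hq
      obtain ⟨p, hp, rfl⟩ := Finset.mem_image.mp hq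
      exact hpos p hp) (by
      intro q hq q' hq'
      obtain ⟨p, hp, rfl⟩ := Finset.mem_image.mp hq
      obtain ⟨p', hp', rfl⟩ := Finset.mem_image.mp hq'
      simp only
      have := (Complex.im_le_norm (p.2.2 - p'.2.2)).trans (h p hp p' hp')
      rw [Complex.sub_im] at this
      linarith) hK
  refine ⟨fun x R => ⟨c1 x R, c2 x R⟩, ?_, ?_⟩
  · intro x R x' R' hR hR'
    refine (Complex.norm_le_abs_re_add_abs_im _).trans ?_
    rw [Complex.sub_re, Complex.sub_im]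
    have e1 := h1 x R x' R' hR hR'
    have e2 := h2 x R x' R' hR hR'
    simp only
    linarith
  · intro q hq x R hR
    refine (Complex.norm_le_abs_re_add_abs_im _).trans ?_
    rw [Complex.sub_re, Complex.sub_im]
    have e1 := h1' _ (Finset.mem_image_of_mem _ hq) x R hR
    have e2 := h2' _ (Finset.mem_image_of_mem _ hq) x R hR
    simp only at e1 e2 ⊢
    linarith

end Pool.Agent.H82.Zyg
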