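import Mathlib
import Pool.Agent.H82.Zyg.SlopeDefs
import Pool.Agent.H82.Zyg.McShane

/-!
# The slopes of Zygmund functions
-/

namespace Pool.Agent.H82.Zyg

open Complex Metric Set

lemma half_le_log_two : 1 / 2 ≤ Real.log 2 := by
  have := Real.log_two_gt_d9
  linarith

section Zyg

variable {φ : ℂ → ℂ} (hφ : ∀ z h, ‖φ (z + h) + φ (z - h) - 2 * φ z‖ ≤ ‖h‖)

/-- The increments. -/
noncomputable def Dn (φ : ℂ → ℂ) (x h : ℂ) : ℂ := φ (x + h) - φ x

include hφ

lemma Dn_neg (x h : ℂ) : ‖Dn φ x h + Dn φ x (-h)‖ ≤ ‖h‖ := by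
  have := hφ x h
  unfold Dn
  rwa [show φ (x + h) - φ x + (φ (x + -h) - φ x) = φ (x + h) + φ (x - h) - 2 * φ x by
    rw [← sub_eq_add_neg x h]; ring]

lemma Dn_add (x h k : ℂ) : ‖Dn φ x (h + k) - Dn φ x h - Dn φ x k‖ ≤ ‖h‖ + ‖k‖ := by
  have h1 := hφ (x + (h + k) / 2) ((h + k) / 2)
  have h2 := hφ (x + (h + k) / 2) ((h - k) / 2)
  have e1 : x + (h + k) / 2 + (h + k) / 2 = x + (h + k) := by ring
  have e2 : x + (h + k) / 2 - (h + k) / 2 = x := by ring
  have e3 : x + (h + k) / 2 + (h - k) / 2 = x + h := by ring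
  have e4 : x + (h + k) / 2 - (h - k) / 2 = x + k := by ring
  rw [e1, e2] at h1
  rw [e3, e4] at h2
  have e5 : Dn φ x (h + k) - Dn φ x h - Dn φ x k =
      (φ (x + (h + k)) + φ x - 2 * φ (x + (h + k) / 2)) -
      (φ (x + h) + φ (x + k) - 2 * φ (x + (h + k) / 2)) := by
    unfold Dn; ring
  rw [e5]
  refine (norm_sub_le _ _).trans ((add_le_add h1 h2).trans ?_)
  rw [norm_div, norm_div, RCLike.norm_ofNat]
  have h3 := norm_add_le h k
  have h4 := norm_sub_le h k
  linarith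

lemma Dn_two (x h : ℂ) : ‖Dn φ x (2 * h) - 2 * Dn φ x h‖ ≤ ‖h‖ := by
  have h1 := hφ (x + h) h
  have e1 : x + h + h = x + 2 * h := by ring
  have e2 : x + h - h = x := by ring
  rw [e1, e2] at h1
  rwa [show Dn φ x (2 * h) - 2 * Dn φ x h = φ (x + 2 * h) + φ x - 2 * φ (x + h) by
    unfold Dn; ring]

variable (hφ1 : ∀ z, ‖z‖ ≤ 8 → ‖φ z‖ ≤ 1)
include hφ1

omit hφ in
lemma Dn_bound {x h : ℂ} (hx : ‖x‖ ≤ 1) (hh : ‖h‖ ≤ 4) : ‖Dn φ x h‖ ≤ 2 := by
  unfold Dn
  have h1 := hφ1 (x + h) (by have := norm_add_le x h; linarith)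
  have h2 := hφ1 x (by linarith)
  have := norm_sub_le (φ (x + h)) (φ x)
  linarith

lemma Dn_unit {x h : ℂ} (hx : ‖x‖ ≤ 1) (hh : ‖h‖ ≤ 4) (n : ℕ) : ∀ t : ℝ, 0 ≤ t → t ≤ 1 →
    ‖Dn φ x (t * h) - t * Dn φ x h‖ ≤ ‖h‖ / 2 + 4 / 2 ^ n := by
  induction n with
  | zero =>
    intro t ht0 ht1
    have h1 : ‖Dn φ x (t * h)‖ ≤ 2 := by
      refine Dn_bound hφ1 hx ?_
      rw [norm_mul, Complex.norm_real, Real.norm_of_nonneg ht0]
      have := norm_nonneg h
      nlinarith
    have h2 : ‖(t : ℂ) * Dn φ x h‖ ≤ 2 := by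
      rw [norm_mul, Complex.norm_real, Real.norm_of_nonneg ht0]
      have := Dn_bound hφ1 hx hh
      have := norm_nonneg (Dn φ x h)
      nlinarith
    have := norm_sub_le (Dn φ x (t * h)) (t * Dn φ x h)
    have := norm_nonneg h
    rw [pow_zero, div_one]
    linarith
  | succ n ih =>
    intro t ht0 ht1
    have hp : (4 : ℝ) / 2 ^ (n + 1) = (4 / 2 ^ n) / 2 := by rw [pow_succ]; field_simp
    rw [hp]
    have hn := norm_nonneg h
    rcases le_total t (1 / 2) with ht | ht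
    · have h1 := Dn_two hφ x (t * h)
      have h2 := ih (2 * t) (by linarith) (by linarith)
      have e1 : 2 * (Dn φ x (t * h) - t * Dn φ x h) =
          (Dn φ x (((2 * t : ℝ) : ℂ) * h) - ((2 * t : ℝ) : ℂ) * Dn φ x h) -
          (Dn φ x (2 * (t * h)) - 2 * Dn φ x (t * h)) := by
        push_cast
        rw [mul_assoc 2 (t : ℂ) h]
        ring
      have e2 : ‖2 * (Dn φ x (t * h) - t * Dn φ x h)‖ ≤ (‖h‖ / 2 + 4 / 2 ^ n) + ‖(t : ℂ) * h‖ := by
        rw [e1]
        exact (norm_sub_le _ _).trans (add_le_add h2 h1)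
      rw [norm_mul, RCLike.norm_ofNat, norm_mul, Complex.norm_real, Real.norm_of_nonneg ht0] at e2
      nlinarith
    · have h1 := hφ (x + t * h) ((1 - t) * h)
      have h2 := ih (2 * t - 1) (by linarith) (by linarith)
      have e1 : 2 * (Dn φ x (t * h) - t * Dn φ x h) =
          (Dn φ x (((2 * t - 1 : ℝ) : ℂ) * h) - ((2 * t - 1 : ℝ) : ℂ) * Dn φ x h) -
          (φ (x + t * h + (1 - t) * h) + φ (x + t * h - (1 - t) * h) - 2 * φ (x + t * h)) := by
        have e3 : x + t * h + (1 - t) * h = x + h := by ring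
        have e4 : x + t * h - (1 - t) * h = x + ((2 * t - 1 : ℝ) : ℂ) * h := by push_cast; ring
        rw [e3, e4]
        unfold Dn
        push_cast
        ring
      have e2 : ‖2 * (Dn φ x (t * h) - t * Dn φ x h)‖ ≤
          (‖h‖ / 2 + 4 / 2 ^ n) + ‖(1 - (t : ℂ)) * h‖ := by
        rw [e1]
        exact (norm_sub_le _ _).trans (add_le_add h2 h1)
      have e5 : (1 - (t : ℂ)) = ((1 - t : ℝ) : ℂ) := by push_cast; ring
      rw [norm_mul, RCLike.norm_ofNat, norm_mul, e5, Complex.norm_real,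
        Real.norm_of_nonneg (by linarith)] at e2
      nlinarith

lemma Dn_unit' {x h : ℂ} (hx : ‖x‖ ≤ 1) (hh : ‖h‖ ≤ 4) {t : ℝ} (ht0 : 0 ≤ t) (ht1 : t ≤ 1) :
    ‖Dn φ x (t * h) - t * Dn φ x h‖ ≤ ‖h‖ / 2 := by
  have h1 : Filter.Tendsto (fun n : ℕ => ‖h‖ / 2 + 4 / 2 ^ n) Filter.atTop
      (nhds (‖h‖ / 2 + 0)) := by
    refine tendsto_const_nhds.add ?_
    have := (tendsto_pow_atTop_nhds_zero_of_lt_one (show (0 : ℝ) ≤ 1 / 2 by norm_num)
      (by norm_num)).const_mul 4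
    rw [mul_zero] at this
    refine this.congr fun n => ?_
    rw [one_div, inv_pow]; ring
  rw [add_zero] at h1
  exact ge_of_tendsto' h1 fun n => Dn_unit hφ hφ1 hx hh n t ht0 ht1

lemma Dn_real {x h : ℂ} (hx : ‖x‖ ≤ 1) (hh : ‖h‖ ≤ 4) {t : ℝ} (ht : |t| ≤ 2) :
    ‖Dn φ x (t * h) - t * Dn φ x h‖ ≤ 4 * ‖h‖ := by
  have hn := norm_nonneg h
  -- nonnegative `t`
  have key : ∀ s : ℝ, 0 ≤ s → s ≤ 2 → ‖Dn φ x (s * h) - s * Dn φ x h‖ ≤ 2 * ‖h‖ := by
    intro s hs0 hs2
    have h1 := Dn_unit' hφ hφ1 hx hh (t := s / 2) (by linarith) (by linarith)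
    have h2 := Dn_two hφ x (((s / 2 : ℝ) : ℂ) * h)
    have e1 : Dn φ x (s * h) - s * Dn φ x h =
        (Dn φ x (2 * (((s / 2 : ℝ) : ℂ) * h)) - 2 * Dn φ x (((s / 2 : ℝ) : ℂ) * h)) +
        2 * (Dn φ x (((s / 2 : ℝ) : ℂ) * h) - ((s / 2 : ℝ) : ℂ) * Dn φ x h) := by
      have : 2 * (((s / 2 : ℝ) : ℂ) * h) = s * h := by push_cast; ring
      rw [this]; push_cast; ring
    rw [e1]
    refine (norm_add_le _ _).trans ?_
    rw [norm_mul 2, RCLike.norm_ofNat]
    rw [norm_mul, Complex.norm_real, Real.norm_of_nonneg (by linarith)] at h2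
    nlinarith
  rcases le_total 0 t with htt | htt
  · have := key t htt ((le_abs_self t).trans ht)
    linarith
  · rw [abs_of_nonpos htt] at ht
    have h1 := key (-t) (by linarith) ht
    have h2 := Dn_neg hφ x (((-t : ℝ) : ℂ) * h)
    have e1 : Dn φ x (t * h) - t * Dn φ x h =
        (Dn φ x (((-t : ℝ) : ℂ) * h) + Dn φ x (-(((-t : ℝ) : ℂ) * h))) -
        (Dn φ x (((-t : ℝ) : ℂ) * h) - ((-t : ℝ) : ℂ) * Dn φ x h) := by
      have : -(((-t : ℝ) : ℂ) * h) = t * h := by push_cast; ring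
      rw [this]; push_cast; ring
    rw [e1]
    refine (norm_sub_le _ _).trans ?_
    rw [norm_mul, Complex.norm_real, Real.norm_of_nonneg (by linarith)] at h2
    nlinarith

lemma Dn_log_aux {x : ℂ} (hx : ‖x‖ ≤ 1) (n : ℕ) : ∀ h : ℂ, ‖h‖ ≤ 2 → 2 < 2 ^ n * ‖h‖ →
    ‖Dn φ x h‖ ≤ ‖h‖ * (1 + Real.log (4 / ‖h‖)) := by
  induction n with
  | zero =>
    intro h h1 h2
    rw [pow_zero, one_mul] at h2
    linarith
  | succ n ih =>
    intro h h1 h2
    have hpos : 0 < ‖h‖ := by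
      by_contra hcon
      have : ‖h‖ = 0 := le_antisymm (not_lt.mp hcon) (norm_nonneg _)
      rw [this] at h2
      norm_num at h2
    have e0 : ‖2 * h‖ = 2 * ‖h‖ := by rw [norm_mul, RCLike.norm_ofNat]
    have e1 := Dn_two hφ x h
    have e2 : ‖2 * Dn φ x h‖ ≤ ‖Dn φ x (2 * h)‖ + ‖h‖ := by
      have := norm_sub_le (Dn φ x (2 * h)) (Dn φ x (2 * h) - 2 * Dn φ x h)
      rw [sub_sub_cancel] at this
      linarith
    rw [norm_mul, RCLike.norm_ofNat] at e2
    have hl := half_le_log_two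
    rcases le_or_gt (2 * ‖h‖) 2 with h3 | h3
    · have e3 := ih (2 * h) (by rw [e0]; exact h3) (by
        rw [e0]
        rw [pow_succ] at h2
        linarith)
      rw [e0] at e3
      have e4 : Real.log (4 / (2 * ‖h‖)) = Real.log (4 / ‖h‖) - Real.log 2 := by
        rw [← Real.log_div (by positivity) (by norm_num)]
        congr 1
        field_simp
      rw [e4] at e3
      nlinarith
    · have e3 : ‖Dn φ x (2 * h)‖ ≤ 2 := Dn_bound hφ1 hx (by rw [e0]; linarith)
      have e4 : Real.log 2 ≤ Real.log (4 / ‖h‖) := by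
        apply Real.log_le_log (by norm_num)
        rw [le_div_iff₀ hpos]
        linarith
      nlinarith

lemma Dn_log {x h : ℂ} (hx : ‖x‖ ≤ 1) (h2 : ‖h‖ ≤ 2) (h0 : h ≠ 0) :
    ‖Dn φ x h‖ ≤ ‖h‖ * (1 + Real.log (4 / ‖h‖)) := by
  have hpos : 0 < ‖h‖ := norm_pos_iff.mpr h0
  obtain ⟨n, hn⟩ := pow_unbounded_of_one_lt (2 / ‖h‖) (show (1 : ℝ) < 2 by norm_num)
  rw [div_lt_iff₀ hpos] at hn
  exact Dn_log_aux hφ hφ1 hx n h h2 hn

omit hφ1 in
lemma Dn_scale (x : ℂ) {h : ℂ} (h0 : h ≠ 0) (n : ℕ) :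
    ‖Dn φ x (2 ^ n * h) / (2 ^ n * h) - Dn φ x h / h‖ ≤ n / 2 := by
  induction n with
  | zero => simp
  | succ n ih =>
    have h1 := Dn_two hφ x (2 ^ n * h)
    have hne : (2 : ℂ) ^ n * h ≠ 0 := mul_ne_zero (pow_ne_zero _ two_ne_zero) h0
    have hpos : 0 < ‖(2 : ℂ) ^ n * h‖ := norm_pos_iff.mpr hne
    have e1 : Dn φ x (2 ^ (n + 1) * h) / (2 ^ (n + 1) * h) - Dn φ x h / h =
        (Dn φ x (2 * (2 ^ n * h)) - 2 * Dn φ x (2 ^ n * h)) / (2 * (2 ^ n * h)) +
        (Dn φ x (2 ^ n * h) / (2 ^ n * h) - Dn φ x h / h) := by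
      have : (2 : ℂ) ^ (n + 1) * h = 2 * (2 ^ n * h) := by rw [pow_succ]; ring
      rw [this]
      field_simp
      ring
    rw [e1]
    refine (norm_add_le _ _).trans ?_
    have e2 : ‖(Dn φ x (2 * (2 ^ n * h)) - 2 * Dn φ x (2 ^ n * h)) / (2 * (2 ^ n * h))‖ ≤ 1 / 2 := by
      rw [norm_div, div_le_iff₀ (norm_pos_iff.mpr (mul_ne_zero two_ne_zero hne)), norm_mul 2,
        RCLike.norm_ofNat]
      linarith
    push_cast
    linarith

omit hφ hφ1 in
lemma slp_eq (x y : ℂ) : slp φ x y = Dn φ x (y - x) / (y - x) := by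
  unfold slp Dn
  rw [add_sub_cancel, ← neg_sub (φ y), ← neg_sub y, neg_div_neg_eq]

/-- (Z4) -/
lemma slope_three_aux {x y z : ℂ} (hx : ‖x‖ ≤ 1) (hz : ‖z‖ ≤ 1)
    (hxy : x ≠ y) (hr : ‖x - y‖ ≤ ‖x - z‖) : ‖slp φ x y - slp φ x z‖ ≤ 20 * lft x y z := by
  set u := y - x with hu
  set v := z - x with hv
  have hu0 : u ≠ 0 := sub_ne_zero.mpr hxy.symm
  have hrp : 0 < ‖u‖ := norm_pos_iff.mpr hu0
  have e1 : ‖x - y‖ = ‖u‖ := norm_sub_rev _ _
  have e2 : ‖x - z‖ = ‖v‖ := norm_sub_rev _ _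
  rw [e1, e2] at hr
  have hRp : 0 < ‖v‖ := hrp.trans_le hr
  have hv0 : v ≠ 0 := norm_pos_iff.mp hRp
  have hR2 : ‖v‖ ≤ 2 := by
    have := norm_sub_le z x
    rw [← hv] at this
    linarith
  obtain ⟨n, hn1, hn2⟩ := exists_nat_pow_near (show 1 ≤ ‖v‖ / ‖u‖ by rwa [one_le_div hrp])
    (show (1 : ℝ) < 2 by norm_num)
  rw [le_div_iff₀ hrp] at hn1
  rw [div_lt_iff₀ hrp, pow_succ] at hn2
  set u' : ℂ := 2 ^ n * u with hu'
  have hu'n : ‖u'‖ = 2 ^ n * ‖u‖ := by rw [hu', norm_mul, norm_pow, RCLike.norm_ofNat]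
  have hu'0 : u' ≠ 0 := mul_ne_zero (pow_ne_zero _ two_ne_zero) hu0
  have hu'p : 0 < ‖u'‖ := norm_pos_iff.mpr hu'0
  have hu'R : ‖u'‖ ≤ ‖v‖ := by rw [hu'n]; exact hn1
  have hu'R2 : ‖v‖ < 2 * ‖u'‖ := by rw [hu'n]; linarith
  -- the slopes along the doubling
  have s1 := Dn_scale hφ x hu0 n
  rw [← hu'] at s1
  have hnlog : (n : ℝ) / 2 ≤ Real.log (‖v‖ / ‖u‖) := by
    have h1 : Real.log ((2 : ℝ) ^ n) ≤ Real.log (‖v‖ / ‖u‖) := by
      apply Real.log_le_log (by positivity)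
      rw [le_div_iff₀ hrp]; exact hn1
    rw [Real.log_pow] at h1
    have := half_le_log_two
    have hn0 : (0 : ℝ) ≤ n := by positivity
    nlinarith
  -- the decomposition of v
  set ζ : ℂ := v / u' with hζ
  have hζn : ‖ζ‖ ≤ 2 := by
    rw [hζ, norm_div, div_le_iff₀ hu'p]; linarith
  have hlam : |ζ.re| ≤ 2 := (Complex.abs_re_le_norm ζ).trans hζn
  have hmu : |ζ.im| ≤ 2 := (Complex.abs_im_le_norm ζ).trans hζn
  have hvζ : v = ζ.re * u' + ζ.im * (I * u') := by
    have h1 : v = ζ * u' := by rw [hζ]; field_simp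
    have h2 : ζ = ζ.re + ζ.im * I := (Complex.re_add_im ζ).symm
    calc v = ζ * u' := h1
      _ = (ζ.re + ζ.im * I) * u' := by rw [← h2]
      _ = _ := by ring
  have hmus : |ζ.im| ≤ 2 * sinAng x y z := by
    have hc : ((2 : ℂ) ^ n) = ((2 ^ n : ℝ) : ℂ) := by push_cast; ring
    have hre : u'.re = 2 ^ n * u.re := by rw [hu', hc, Complex.re_ofReal_mul]
    have him : u'.im = 2 ^ n * u.im := by rw [hu', hc, Complex.im_ofReal_mul]
    have h1 : ζ.im = -(2 ^ n * (u * (starRingEnd ℂ) v).im) / ‖u'‖ ^ 2 := by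
      rw [hζ, Complex.div_im, Complex.normSq_eq_norm_sq, hre, him, Complex.mul_im,
        Complex.conj_re, Complex.conj_im]
      ring
    have h2 : |ζ.im| = 2 ^ n * |(u * (starRingEnd ℂ) v).im| / ‖u'‖ ^ 2 := by
      rw [h1, abs_div, abs_neg, abs_mul, abs_of_pos (by positivity : (0 : ℝ) < 2 ^ n),
        abs_of_pos (by positivity : 0 < ‖u'‖ ^ 2)]
    have h3 : |(u * (starRingEnd ℂ) v).im| = sinAng x y z * (‖u‖ * ‖v‖) := by
      unfold sinAng
      rw [← hu, ← hv]
      field_simp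
    have hs0 : 0 ≤ sinAng x y z := by unfold sinAng; positivity
    rw [h2, h3, div_le_iff₀ (by positivity)]
    calc 2 ^ n * (sinAng x y z * (‖u‖ * ‖v‖)) = sinAng x y z * (‖u'‖ * ‖v‖) := by
          rw [hu'n]; ring
      _ ≤ sinAng x y z * (‖u'‖ * (2 * ‖u'‖)) := by gcongr
      _ = _ := by ring
  -- comparison of the slopes at the same scale
  have d0 := Dn_add hφ x (ζ.re * u') (ζ.im * (I * u'))
  have hu'2 : ‖u'‖ ≤ 2 := hu'R.trans hR2
  have hIu : ‖I * u'‖ = ‖u'‖ := by rw [norm_mul, Complex.norm_I, one_mul]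
  have d1 := Dn_real hφ hφ1 hx (h := u') (by linarith) hlam
  have d2 := Dn_real hφ hφ1 hx (h := I * u') (by rw [hIu]; linarith) hmu
  have hIu0 : I * u' ≠ 0 := mul_ne_zero Complex.I_ne_zero hu'0
  have d3 := Dn_log hφ hφ1 hx (h := I * u') (by rw [hIu]; exact hu'2) hIu0
  have d4 := Dn_log hφ hφ1 hx (h := u') hu'2 hu'0
  rw [hIu] at d2 d3
  have hlogu : 0 ≤ Real.log (4 / ‖u'‖) := Real.log_nonneg (by rw [one_le_div hu'p]; linarith)
  have hlogR : Real.log (4 / ‖u'‖) ≤ Real.log (4 / ‖v‖) + 1 := by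
    have h1 : Real.log (4 / ‖u'‖) ≤ Real.log (2 * (4 / ‖v‖)) := by
      apply Real.log_le_log (by positivity)
      rw [div_le_iff₀ hu'p, mul_div_assoc', div_mul_eq_mul_div, le_div_iff₀ hRp]
      nlinarith
    rw [Real.log_mul (by norm_num) (by positivity)] at h1
    have := Real.log_two_lt_d9
    linarith
  have hlogRn : 0 ≤ Real.log (4 / ‖v‖) := Real.log_nonneg (by rw [one_le_div hRp]; linarith)
  have hs0 : 0 ≤ sinAng x y z := by unfold sinAng; positivity
  have hs1 : sinAng x y z ≤ 1 := by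
    unfold sinAng
    rw [← hu, ← hv, div_le_one (by positivity)]
    refine (Complex.abs_im_le_norm _).trans ?_
    rw [norm_mul, RCLike.norm_conj]
  have main : ‖Dn φ x v - v * (Dn φ x u' / u')‖ ≤
      ‖v‖ * (4 * sinAng x y z * Real.log (4 / ‖v‖) + 20) := by
    have e3 : Dn φ x v - v * (Dn φ x u' / u') =
        (Dn φ x (ζ.re * u' + ζ.im * (I * u')) - Dn φ x (ζ.re * u') - Dn φ x (ζ.im * (I * u'))) +
        (Dn φ x (ζ.re * u') - ζ.re * Dn φ x u') +
        (Dn φ x (ζ.im * (I * u')) - ζ.im * Dn φ x (I * u')) +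
        (ζ.im * Dn φ x (I * u') - ζ.im * (I * Dn φ x u')) := by
      rw [← hvζ]
      have h2 : v * (Dn φ x u' / u') = ζ.re * Dn φ x u' + ζ.im * (I * Dn φ x u') := by
        nth_rewrite 1 [hvζ]
        field_simp
      rw [h2]
      ring
    have e4 : ‖(ζ.re : ℂ) * u'‖ + ‖(ζ.im : ℂ) * (I * u')‖ ≤ 4 * ‖u'‖ := by
      rw [norm_mul, norm_mul (ζ.im : ℂ), Complex.norm_real, Complex.norm_real, hIu,
        Real.norm_eq_abs, Real.norm_eq_abs]
      nlinarith
    have e5 : ‖(ζ.im : ℂ) * Dn φ x (I * u') - ζ.im * (I * Dn φ x u')‖ ≤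
        2 * sinAng x y z * (2 * (‖u'‖ * (1 + Real.log (4 / ‖u'‖)))) := by
      rw [← mul_sub, norm_mul, Complex.norm_real, Real.norm_eq_abs]
      have h1 : ‖Dn φ x (I * u') - I * Dn φ x u'‖ ≤
          2 * (‖u'‖ * (1 + Real.log (4 / ‖u'‖))) := by
        refine (norm_sub_le _ _).trans ?_
        rw [norm_mul, Complex.norm_I, one_mul]
        linarith
      gcongr
    have e6 : ‖Dn φ x v - v * (Dn φ x u' / u')‖ ≤ 4 * ‖u'‖ + 4 * ‖u'‖ + 4 * ‖u'‖ +
        2 * sinAng x y z * (2 * (‖u'‖ * (1 + Real.log (4 / ‖u'‖)))) := by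
      rw [e3]
      refine (norm_add_le _ _).trans (add_le_add ((norm_add_le _ _).trans
        (add_le_add ((norm_add_le _ _).trans (add_le_add ?_ d1)) d2)) e5)
      exact d0.trans e4
    refine e6.trans ?_
    have e7 : 2 * sinAng x y z * (2 * (‖u'‖ * (1 + Real.log (4 / ‖u'‖)))) ≤
        ‖v‖ * (4 * sinAng x y z * Real.log (4 / ‖v‖) + 8) := by
      calc _ = ‖u'‖ * (4 * sinAng x y z * (1 + Real.log (4 / ‖u'‖))) := by ring
        _ ≤ ‖v‖ * (4 * sinAng x y z * (1 + (Real.log (4 / ‖v‖) + 1))) := by gcongr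
        _ ≤ _ := by
          gcongr ‖v‖ * ?_
          nlinarith
    linarith
  have s2 : ‖Dn φ x v / v - Dn φ x u' / u'‖ ≤ 4 * sinAng x y z * Real.log (4 / ‖v‖) + 20 := by
    have e3 : Dn φ x v / v - Dn φ x u' / u' = (Dn φ x v - v * (Dn φ x u' / u')) / v := by
      field_simp
    rw [e3, norm_div, div_le_iff₀ hRp]
    linarith
  rw [slp_eq, slp_eq, ← hu, ← hv]
  have s3 : ‖Dn φ x u / u - Dn φ x v / v‖ ≤ ‖Dn φ x u' / u' - Dn φ x u / u‖ +
      ‖Dn φ x v / v - Dn φ x u' / u'‖ := by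
    have : Dn φ x u / u - Dn φ x v / v = -(Dn φ x u' / u' - Dn φ x u / u) -
      (Dn φ x v / v - Dn φ x u' / u') := by ring
    rw [this]
    refine (norm_sub_le _ _).trans ?_
    rw [norm_neg]
  unfold lft
  rw [e1, e2]
  have hlr : 0 ≤ Real.log (‖v‖ / ‖u‖) := Real.log_nonneg (by rwa [one_le_div hrp])
  have := mul_nonneg hs0 hlogRn
  linarith

end Zyg

lemma abs_log_div_le {a b : ℝ} (ha : 0 < a) (hb : 0 < b) (h1 : a ≤ 2 * b) (h2 : b ≤ 2 * a) :
    |Real.log (a / b)| ≤ 1 := by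
  have hl := Real.log_two_lt_d9
  rw [abs_le]
  constructor
  · have h3 : Real.log (b / a) ≤ Real.log 2 := by
      apply Real.log_le_log (by positivity)
      rw [div_le_iff₀ ha]; exact h2
    have h4 : Real.log (a / b) = -Real.log (b / a) := by
      rw [← Real.log_inv, inv_div]
    linarith
  · have h3 : Real.log (a / b) ≤ Real.log 2 := by
      apply Real.log_le_log (by positivity)
      rw [div_le_iff₀ hb]; exact h1
    linarith

lemma abs_log_tri {a b c : ℝ} (ha : 0 < a) (hb : 0 < b) (hc : 0 < c) :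
    |Real.log (a / c)| ≤ |Real.log (a / b)| + |Real.log (b / c)| := by
  have : Real.log (a / c) = Real.log (a / b) + Real.log (b / c) := by
    rw [← Real.log_mul (by positivity) (by positivity)]
    congr 1
    field_simp
  rw [this]
  exact abs_add_le _ _

lemma abs_log_comm (a b : ℝ) : |Real.log (a / b)| = |Real.log (b / a)| := by
  rw [← inv_div, Real.log_inv, abs_neg]

section pairs

variable {C : ℝ} {X : Set ℂ} (hX1 : ∀ x ∈ X, ‖x‖ < 1) (hT : TCond C X) {φ : ℂ → ℂ}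
  (hφ : ∀ z h, ‖φ (z + h) + φ (z - h) - 2 * φ z‖ ≤ ‖h‖) (hφ1 : ∀ z, ‖z‖ ≤ 8 → ‖φ z‖ ≤ 1)
include hX1 hT hφ hφ1

lemma scl_pos {x : ℂ} (hx : x ∈ X) (y : ℂ) : 0 < scl x y :=
  lt_of_lt_of_le (by linarith [hX1 x hx] : 0 < 1 - ‖x‖) (le_max_right _ _)

/-- The three point condition, with the larger distance bound. -/
lemma slope_vertex_aux {a b d : ℂ} (ha : a ∈ X) (hb : b ∈ X) (hd : d ∈ X) (hab : a ≠ b)
    (h1 : ‖a - b‖ ≤ ‖a - d‖) (h2 : ‖a - b‖ ≤ ‖b - d‖) :
    ‖slp φ a b - slp φ a d‖ ≤ 20 * |C| * (1 + Real.log (scl a d / scl a b)) := by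
  have e1 := slope_three_aux hφ hφ1 (hX1 a ha).le (hX1 d hd).le hab h1
  have e2 := hT a ha b hb d hd hab h1 h2
  have hm : 0 < scl a b := scl_pos hX1 hT hφ hφ1 ha b
  have hM : 0 < scl a d := scl_pos hX1 hT hφ hφ1 ha d
  have hmM : scl a b ≤ scl a d := max_le_max h1 le_rfl
  have hlog : 0 ≤ Real.log (scl a d / scl a b) := Real.log_nonneg (by rwa [one_le_div hm])
  have e3 : kap a b d ≤ 1 + Real.log (scl a d / scl a b) := by
    have : kap a b d = ‖a - d‖ / scl a d * (1 + Real.log (scl a d / scl a b)) := rfl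
    rw [this]
    have h3 : ‖a - d‖ / scl a d ≤ 1 := (div_le_one hM).mpr (le_max_left _ _)
    nlinarith
  have e4 : 0 ≤ kap a b d := by
    have : kap a b d = ‖a - d‖ / scl a d * (1 + Real.log (scl a d / scl a b)) := rfl
    rw [this]
    positivity
  have e5 : C * kap a b d ≤ |C| * (1 + Real.log (scl a d / scl a b)) :=
    mul_le_mul (le_abs_self C) e3 e4 (abs_nonneg C)
  linarith

lemma slope_vertex' {a b d : ℂ} (ha : a ∈ X) (hb : b ∈ X) (hd : d ∈ X) (hab : a ≠ b)
    (hbd : b ≠ d) (h1 : ‖a - b‖ ≤ ‖a - d‖) :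
    ‖slp φ a b - slp φ a d‖ ≤ 20 * |C| * (1 + |Real.log (scl a b / scl a d)|) := by
  have hm : 0 < scl a b := scl_pos hX1 hT hφ hφ1 ha b
  have hM : 0 < scl a d := scl_pos hX1 hT hφ hφ1 ha d
  have hmM : scl a b ≤ scl a d := max_le_max h1 le_rfl
  have hlog : 0 ≤ Real.log (scl a d / scl a b) := Real.log_nonneg (by rwa [one_le_div hm])
  rw [abs_log_comm, abs_of_nonneg hlog]
  rcases le_or_gt ‖a - b‖ ‖b - d‖ with h2 | h2
  · exact slope_vertex_aux hX1 hT hφ hφ1 ha hb hd hab h1 h2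
  · -- the shortest side is `b d`
    have hab0 : 0 < ‖a - b‖ := norm_pos_iff.mpr (sub_ne_zero.mpr hab)
    have hbd0 : 0 < ‖b - d‖ := norm_pos_iff.mpr (sub_ne_zero.mpr hbd)
    have had0 : 0 < ‖a - d‖ := hab0.trans_le h1
    have had : a ≠ d := sub_ne_zero.mp (norm_pos_iff.mp had0)
    have e1 := slope_vertex_aux hX1 hT hφ hφ1 hb hd ha hbd (by rw [norm_sub_rev b a]; exact h2.le)
      (by rw [norm_sub_rev d a]; linarith)
    have e2 : slp φ a b - slp φ a d = ((b - d) / (a - d)) * (slp φ b a - slp φ b d) := by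
      unfold slp
      have h3 : a - b ≠ 0 := sub_ne_zero.mpr hab
      have h3' : b - a ≠ 0 := sub_ne_zero.mpr hab.symm
      have h4 : b - d ≠ 0 := sub_ne_zero.mpr hbd
      have h5 : a - d ≠ 0 := sub_ne_zero.mpr had
      have h6 : (φ b - φ a) / (b - a) = (φ a - φ b) / (a - b) := by
        rw [← neg_sub (φ a), ← neg_sub a, neg_div_neg_eq]
      rw [h6]
      field_simp
      ring
    have hρ1 : 1 ≤ ‖a - b‖ / ‖b - d‖ := by rw [one_le_div hbd0]; exact h2.le
    have e3 : Real.log (scl b a / scl b d) ≤ ‖a - b‖ / ‖b - d‖ - 1 := by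
      have hη : 0 < 1 - ‖b‖ := by linarith [hX1 b hb]
      have h3 : scl b a / scl b d ≤ ‖a - b‖ / ‖b - d‖ := by
        have hs : 0 < scl b d := scl_pos hX1 hT hφ hφ1 hb d
        rw [div_le_div_iff₀ hs hbd0]
        unfold scl
        rw [norm_sub_rev b a]
        rcases le_total ‖a - b‖ (1 - ‖b‖) with h | h
        · rw [max_eq_right h, max_eq_right (h2.le.trans h)]
          nlinarith
        · rw [max_eq_left h]
          have := le_max_left ‖b - d‖ (1 - ‖b‖)
          gcongr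
      have h4 : 0 < scl b a / scl b d := div_pos (scl_pos hX1 hT hφ hφ1 hb a)
        (scl_pos hX1 hT hφ hφ1 hb d)
      exact (Real.log_le_log h4 h3).trans (Real.log_le_sub_one_of_pos (by positivity))
    rw [e2, norm_mul, norm_div, norm_sub_rev (slp φ b a)]
    calc ‖b - d‖ / ‖a - d‖ * ‖slp φ b d - slp φ b a‖
        ≤ ‖b - d‖ / ‖a - b‖ * (20 * |C| * (1 + (‖a - b‖ / ‖b - d‖ - 1))) := by
          have h3 : ‖slp φ b d - slp φ b a‖ ≤ 20 * |C| * (1 + (‖a - b‖ / ‖b - d‖ - 1)) :=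
            e1.trans (by gcongr)
          gcongr
      _ = 20 * |C| := by field_simp; ring
      _ ≤ _ := by
          have : 0 ≤ 20 * |C| := by positivity
          nlinarith

/-- (T'') -/
lemma slope_vertex {a b d : ℂ} (ha : a ∈ X) (hb : b ∈ X) (hd : d ∈ X) (hab : a ≠ b)
    (had : a ≠ d) :
    ‖slp φ a b - slp φ a d‖ ≤ 20 * |C| * (1 + |Real.log (scl a b / scl a d)|) := by
  rcases eq_or_ne b d with rfl | hbd
  · rw [sub_self, norm_zero]; positivity
  rcases le_total ‖a - b‖ ‖a - d‖ with h | h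
  · exact slope_vertex' hX1 hT hφ hφ1 ha hb hd hab hbd h
  · rw [norm_sub_rev, abs_log_comm]
    exact slope_vertex' hX1 hT hφ hφ1 ha hd hb had hbd.symm h

end pairs

lemma qd_lower (x : ℂ) {R : ℝ} (y : ℂ) {S : ℝ} (hR : 0 < R) (hS : 0 < S) :
    1 ≤ qd x R y S ∧ |Real.log (R / S)| ≤ qd x R y S := by
  have h0 := norm_nonneg (x - y)
  constructor
  · have h1 : Real.log 4 ≤ qd x R y S := Real.log_le_log (by norm_num) (four_le_qd_arg x y hR hS)
    have h2 : (4 : ℝ) = 2 ^ 2 := by norm_num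
    rw [h2, Real.log_pow] at h1
    have := Real.log_two_gt_d9
    push_cast at h1
    linarith
  · have key : ∀ a b : ℝ, 0 < a → 0 < b → a ^ 2 ≤ (‖x - y‖ + R + S) ^ 2 → a * b = R * S →
        Real.log (a / b) ≤ qd x R y S := by
      intro a b ha hb h1 h2
      unfold qd
      apply Real.log_le_log (by positivity)
      rw [div_le_div_iff₀ hb (by positivity), ← h2]
      calc a * (a * b) = a ^ 2 * b := by ring
        _ ≤ _ := by gcongr
    rw [abs_le]
    constructor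
    · have := key S R hS hR (pow_le_pow_left₀ hS.le (by linarith) 2) (mul_comm _ _)
      rw [← inv_div, Real.log_inv] at this
      linarith
    · exact key R S hR hS (pow_le_pow_left₀ hR.le (by linarith) 2) rfl

lemma log_le_qd {x : ℂ} {R : ℝ} {y : ℂ} {S : ℝ} (hR : 0 < R) (hS : 0 < S) {L : ℝ} (hL : 0 < L)
    (hL' : L ≤ ‖x - y‖) : Real.log (L / R) ≤ qd x R y S ∧ Real.log (L / S) ≤ qd x R y S := by
  have h0 := norm_nonneg (x - y)
  unfold qd
  constructor
  · apply Real.log_le_log (by positivity)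
    rw [div_le_div_iff₀ hR (by positivity)]
    calc L * (R * S) = (L * S) * R := by ring
      _ ≤ ((‖x - y‖ + R + S) * (‖x - y‖ + R + S)) * R := by
        gcongr <;> linarith
      _ = _ := by ring
  · apply Real.log_le_log (by positivity)
    rw [div_le_div_iff₀ hS (by positivity)]
    calc L * (R * S) = (L * R) * S := by ring
      _ ≤ ((‖x - y‖ + R + S) * (‖x - y‖ + R + S)) * S := by
        gcongr <;> linarith
      _ = _ := by ring

section lip

variable {C : ℝ} {X : Set ℂ} (hX1 : ∀ x ∈ X, ‖x‖ < 1) (hT : TCond C X) {φ : ℂ → ℂ}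
  (hφ : ∀ z h, ‖φ (z + h) + φ (z - h) - 2 * φ z‖ ≤ ‖h‖) (hφ1 : ∀ z, ‖z‖ ≤ 8 → ‖φ z‖ ≤ 1)
include hX1 hT hφ hφ1

lemma slope_lip_aux {x y x' y' : ℂ} (hx : x ∈ X) (hy : y ∈ X) (hx' : x' ∈ X) (hy' : y' ∈ X)
    (hxy : x ≠ y) (hxy' : x' ≠ y') (hRR : scl x' y' ≤ scl x y) :
    ‖slp φ x y - slp φ x' y'‖ ≤ 100 * |C| * qd x (scl x y) x' (scl x' y') := by
  set R := scl x y with hR
  set R' := scl x' y' with hR'
  have hR0 : 0 < R := scl_pos hX1 hT hφ hφ1 hx y
  have hR0' : 0 < R' := scl_pos hX1 hT hφ hφ1 hx' y'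
  obtain ⟨q1, q2⟩ := qd_lower x x' hR0 hR0'
  set q := qd x R x' R' with hq
  have hηx : 0 < 1 - ‖x‖ := by linarith [hX1 x hx]
  have hηx' : 0 < 1 - ‖x'‖ := by linarith [hX1 x' hx']
  have hηR : 1 - ‖x‖ ≤ R := le_max_right _ _
  have hηR' : 1 - ‖x'‖ ≤ R' := le_max_right _ _
  have hC : 0 ≤ 20 * |C| := by positivity
  rcases eq_or_ne x x' with rfl | hxx
  · -- same vertex
    have h1 := slope_vertex hX1 hT hφ hφ1 hx hy hy' hxy hxy'
    rw [← hR, ← hR'] at h1
    nlinarith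
  · have hL : 0 < ‖x - x'‖ := norm_pos_iff.mpr (sub_ne_zero.mpr hxx)
    set L := ‖x - x'‖ with hLdef
    have hηη : |‖x‖ - ‖x'‖| ≤ L := abs_norm_sub_norm_le x x'
    rw [abs_le] at hηη
    -- the chain over `slp x x'`
    have chain : ∀ a b : ℝ, |Real.log (R / scl x x')| ≤ a → |Real.log (scl x' x / R')| ≤ b →
        ‖slp φ x y - slp φ x' y'‖ ≤ 20 * |C| * (2 + a + b) := by
      intro a b ha hb
      have h1 := slope_vertex hX1 hT hφ hφ1 hx hy hx' hxy hxx
      have h2 := slope_vertex hX1 hT hφ hφ1 hx' hx hy' hxx.symm hxy'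
      rw [← hR] at h1
      rw [← hR'] at h2
      have h3 : ‖slp φ x y - slp φ x' y'‖ ≤ ‖slp φ x y - slp φ x x'‖ +
          ‖slp φ x' x - slp φ x' y'‖ := by
        have := norm_sub_le_norm_sub_add_norm_sub (slp φ x y) (slp φ x x') (slp φ x' y')
        have e : slp φ x x' = slp φ x' x := by
          unfold slp
          rw [← neg_sub (φ x'), ← neg_sub x', neg_div_neg_eq]
        rw [← e]
        exact this
      calc _ ≤ 20 * |C| * (1 + a) + 20 * |C| * (1 + b) := by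
            refine h3.trans (add_le_add (h1.trans ?_) (h2.trans ?_)) <;> gcongr
        _ = _ := by ring
    have hsx : scl x x' = max L (1 - ‖x‖) := rfl
    have hsx' : scl x' x = max L (1 - ‖x'‖) := by unfold scl; rw [norm_sub_rev x' x]
    -- comparison at the second vertex
    have second : ∀ A : ℝ, 0 < A → A ≤ 2 * R → R ≤ 2 * A → |Real.log (A / R')| ≤ 1 + q := by
      intro A hA h1 h2
      refine (abs_log_tri hA hR0 hR0').trans (add_le_add (abs_log_div_le hA hR0 h1 h2) q2)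
    rcases le_or_gt R L with hRL | hRL
    · -- far apart
      have e1 : scl x x' = L := by rw [hsx]; exact max_eq_left (hηR.trans hRL)
      have e2 : scl x' x = L := by rw [hsx']; exact max_eq_left (hηR'.trans (hRR.trans hRL))
      obtain ⟨l1, l2⟩ := log_le_qd (x := x) (y := x') hR0 hR0' hL le_rfl
      have a1 : |Real.log (R / scl x x')| ≤ q := by
        rw [e1, abs_log_comm, abs_of_nonneg (Real.log_nonneg (by rwa [one_le_div hR0]))]
        exact l1
      have a2 : |Real.log (scl x' x / R')| ≤ q := by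
        rw [e2, abs_of_nonneg (Real.log_nonneg (by rw [one_le_div hR0']; exact hRR.trans hRL))]
        exact l2
      refine (chain q q a1 a2).trans ?_
      nlinarith
    · rcases le_or_gt ‖x - y‖ (1 - ‖x‖) with hin | hout
      · -- the scale is the distance to the circle
        have eR : R = 1 - ‖x‖ := max_eq_right hin
        have e1 : scl x x' = R := by rw [hsx, max_eq_right (by linarith)]; exact eR.symm
        have a1 : |Real.log (R / scl x x')| ≤ 0 := by
          rw [e1, div_self hR0.ne', Real.log_one, abs_zero]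
        have a2 : |Real.log (scl x' x / R')| ≤ 1 + q := by
          refine second _ (by rw [hsx']; exact lt_max_of_lt_left hL) ?_ ?_
          · rw [hsx']
            exact max_le (by linarith) (by linarith [hηη.1, hηη.2])
          · rw [hsx']
            have h1 := le_max_left L (1 - ‖x'‖)
            have h2 := le_max_right L (1 - ‖x'‖)
            linarith [hηη.1, hηη.2]
        refine (chain 0 (1 + q) a1 a2).trans ?_
        nlinarith
      · have eR : R = ‖x - y‖ := max_eq_left hout.le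
        rcases le_or_gt L (R / 2) with hsmall | hbig
        · -- `x'` close to `x`, use `y` as the other point
          have hxy2 : x' ≠ y := by
            rintro rfl
            rw [← hLdef] at eR
            linarith
          have hd1 : ‖x' - y‖ ≤ 3 / 2 * R := by
            have := norm_sub_le_norm_sub_add_norm_sub x' x y
            rw [norm_sub_rev x' x] at this
            linarith
          have hd2 : R / 2 ≤ ‖x' - y‖ := by
            have := norm_sub_le_norm_sub_add_norm_sub x x' y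
            linarith
          have h1 := slope_vertex hX1 hT hφ hφ1 hy hx hx' hxy.symm hxy2.symm
          have h2 := slope_vertex hX1 hT hφ hφ1 hx' hy hy' hxy2 hxy'
          rw [← hR'] at h2
          have e1 : ∀ a b : ℂ, slp φ a b = slp φ b a := by
            intro a b
            unfold slp
            rw [← neg_sub (φ b), ← neg_sub b, neg_div_neg_eq]
          rw [e1 y x, e1 y x'] at h1
          have a1 : |Real.log (scl y x / scl y x')| ≤ 1 := by
            have hηy : 0 < 1 - ‖y‖ := by linarith [hX1 y hy]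
            apply abs_log_div_le (lt_max_of_lt_right hηy) (lt_max_of_lt_right hηy)
            · rw [norm_sub_rev y x, norm_sub_rev y x', ← eR]
              refine max_le ?_ ?_
              · have := le_max_left ‖x' - y‖ (1 - ‖y‖)
                linarith
              · have := le_max_right ‖x' - y‖ (1 - ‖y‖)
                linarith
            · rw [norm_sub_rev y x, norm_sub_rev y x', ← eR]
              refine max_le ?_ ?_
              · have := le_max_left R (1 - ‖y‖)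
                linarith
              · have := le_max_right R (1 - ‖y‖)
                linarith
          have a2 : |Real.log (scl x' y / R')| ≤ 1 + q := by
            refine second _ (lt_max_of_lt_right hηx') ?_ ?_
            · exact max_le (by linarith) (by linarith [hηη.1, hηη.2])
            · have := le_max_left ‖x' - y‖ (1 - ‖x'‖)
              unfold scl
              linarith
          have h3 := norm_sub_le_norm_sub_add_norm_sub (slp φ x y) (slp φ x' y) (slp φ x' y')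
          have h4 : ‖slp φ x y - slp φ x' y'‖ ≤ 20 * |C| * (1 + 1) + 20 * |C| * (1 + (1 + q)) := by
            refine h3.trans (add_le_add (h1.trans ?_) (h2.trans ?_)) <;> gcongr
          nlinarith
        · -- comparable distances
          have a1 : |Real.log (R / scl x x')| ≤ 1 := by
            have hs : 0 < scl x x' := scl_pos hX1 hT hφ hφ1 hx x'
            apply abs_log_div_le hR0 hs
            · rw [hsx]
              have := le_max_left L (1 - ‖x‖)
              linarith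
            · rw [hsx]
              exact max_le (by linarith) (by linarith)
          have a2 : |Real.log (scl x' x / R')| ≤ 1 + q := by
            refine second _ (by rw [hsx']; exact lt_max_of_lt_left hL) ?_ ?_
            · rw [hsx']
              exact max_le (by linarith) (by linarith [hηη.1, hηη.2])
            · rw [hsx']
              have h1 := le_max_left L (1 - ‖x'‖)
              linarith
          refine (chain 1 (1 + q) a1 a2).trans ?_
          nlinarith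

end lip

/-- (Z4) -/
theorem slope_three : ∃ K : ℝ, 0 < K ∧ ∀ φ : ℂ → ℂ,
    (∀ z h, ‖φ (z + h) + φ (z - h) - 2 * φ z‖ ≤ ‖h‖) → (∀ z, ‖z‖ ≤ 8 → ‖φ z‖ ≤ 1) →
    ∀ x y z : ℂ, ‖x‖ ≤ 1 → ‖y‖ ≤ 1 → ‖z‖ ≤ 1 → x ≠ y → ‖x - y‖ ≤ ‖x - z‖ →
      ‖slp φ x y - slp φ x z‖ ≤ K * lft x y z :=
  ⟨20, by norm_num, fun _ hφ hφ1 _ _ _ hx _ hz hxy hr =>
    slope_three_aux hφ hφ1 hx hz hxy hr⟩

/-- slopes are Lipschitz for the hyperbolic type distance -/
theorem slope_lip (C : ℝ) : ∃ K : ℝ, 0 < K ∧ ∀ X : Set ℂ, (∀ x ∈ X, ‖x‖ < 1) →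
    TCond C X → PCond C X → ∀ φ : ℂ → ℂ,
    (∀ z h, ‖φ (z + h) + φ (z - h) - 2 * φ z‖ ≤ ‖h‖) → (∀ z, ‖z‖ ≤ 8 → ‖φ z‖ ≤ 1) →
    (∀ x ∈ X, ∀ y ∈ X, ∀ x' ∈ X, ∀ y' ∈ X, x ≠ y → x' ≠ y' →
      ‖slp φ x y - slp φ x' y'‖ ≤ K * qd x (scl x y) x' (scl x' y')) ∧
    (∀ x ∈ X, ∀ y ∈ X, x ≠ y → ‖slp φ x y‖ ≤ K * (1 + Real.log (2 / scl x y))) := by
  refine ⟨100 * |C| + 1, by positivity, ?_⟩
  intro X hX1 hT hP φ hφ hφ1
  constructor
  · intro x hx y hy x' hx' y' hy' hxy hxy'
    have hR0 : 0 < scl x y := scl_pos hX1 hT hφ hφ1 hx y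
    have hR0' : 0 < scl x' y' := scl_pos hX1 hT hφ hφ1 hx' y'
    have hq := (qd_lower x x' hR0 hR0').1
    have key : ‖slp φ x y - slp φ x' y'‖ ≤ 100 * |C| * qd x (scl x y) x' (scl x' y') := by
      rcases le_total (scl x' y') (scl x y) with h | h
      · exact slope_lip_aux hX1 hT hφ hφ1 hx hy hx' hy' hxy hxy' h
      · rw [norm_sub_rev, qd_comm]
        exact slope_lip_aux hX1 hT hφ hφ1 hx' hy' hx hy hxy' hxy h
    linarith
  · intro x hx y hy hxy
    have h1 := hP x hx y hy hxy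
    have hx1 := hX1 x hx
    have hy1 := hX1 y hy
    have hpos : 0 < ‖y - x‖ := norm_pos_iff.mpr (sub_ne_zero.mpr hxy.symm)
    have hle : ‖y - x‖ ≤ 2 := by
      have := norm_sub_le y x
      linarith
    have h2 := Dn_log hφ hφ1 hx1.le hle (sub_ne_zero.mpr hxy.symm)
    have hs : 0 < scl x y := scl_pos hX1 hT hφ hφ1 hx y
    have hs2 : scl x y ≤ 2 := by
      refine max_le (by rw [norm_sub_rev]; exact hle) ?_
      have := norm_nonneg x
      linarith
    have hlog : 0 ≤ Real.log (2 / scl x y) := Real.log_nonneg (by rwa [one_le_div hs])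
    have hlog2 : 0 ≤ Real.log (2 / ‖y - x‖) := Real.log_nonneg (by rwa [one_le_div hpos])
    rw [slp_eq, norm_div, div_le_iff₀ hpos]
    have h3 : Real.log (4 / ‖y - x‖) = Real.log 2 + Real.log (2 / ‖y - x‖) := by
      rw [← Real.log_mul (by norm_num) (by positivity)]
      congr 1
      ring
    have h4 := Real.log_two_lt_d9
    rw [norm_sub_rev x y] at h1
    have h1' : 1 + Real.log (2 / ‖y - x‖) ≤ |C| * (1 + Real.log (2 / scl x y)) := by
      refine h1.trans ?_
      have e : max ‖y - x‖ (1 - ‖x‖) = scl x y := by unfold scl; rw [norm_sub_rev]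
      rw [e]
      gcongr
      exact le_abs_self C
    have h5 : 1 + Real.log (4 / ‖y - x‖) ≤ (100 * |C| + 1) * (1 + Real.log (2 / scl x y)) := by
      have h6 : 1 + Real.log (4 / ‖y - x‖) ≤ 2 * (|C| * (1 + Real.log (2 / scl x y))) := by
        rw [h3]
        linarith
      have h7 : 0 ≤ |C| * (1 + Real.log (2 / scl x y)) := by positivity
      linarith
    calc ‖Dn φ x (y - x)‖ ≤ ‖y - x‖ * (1 + Real.log (4 / ‖y - x‖)) := h2
      _ ≤ ‖y - x‖ * ((100 * |C| + 1) * (1 + Real.log (2 / scl x y))) := by gcongr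
      _ = _ := by ring

end Pool.Agent.H82.Zyg
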