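import Mathlib
import Pool.Agent.H82.Zyg.Defs

/-!
# MP_425ce8_an, module Z: Zygmund boundary values and the second derivative (helper94)
-/

namespace Pool.Agent.H82.Zyg

open Complex Metric Set MeasureTheory

namespace SD

/-! ### slopes and local affine approximation -/

lemma deriv_diff {f : ℂ → ℂ} (hf : DifferentiableOn ℂ f (ball 0 1)) {z : ℂ}
    (hz : z ∈ ball (0 : ℂ) 1) : HasDerivAt (deriv f) (deriv (deriv f) z) z :=
  ((hf.deriv isOpen_ball).differentiableAt (isOpen_ball.mem_nhds hz)).hasDerivAt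

lemma A_nonneg {f : ℂ → ℂ} {A : ℝ}
    (h2 : ∀ z ∈ ball (0 : ℂ) 1, ‖deriv (deriv f) z‖ ≤ A / (1 - ‖z‖)) : 0 ≤ A := by
  have h := h2 0 (by simp)
  simp only [norm_zero, sub_zero, div_one] at h
  exact (norm_nonneg _).trans h

/-- Change of the derivative along a segment from a point of norm `≤ 1 - t` to a point of the
closed unit disc. -/
lemma deriv_seg {f : ℂ → ℂ} {A : ℝ} (hf : DifferentiableOn ℂ f (ball 0 1))
    (h2 : ∀ z ∈ ball (0 : ℂ) 1, ‖deriv (deriv f) z‖ ≤ A / (1 - ‖z‖))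
    {p w : ℂ} {t : ℝ} (ht : 0 < t) (hp : ‖p‖ ≤ 1 - t) (hw : ‖w‖ ≤ 1) {τ : ℝ} (h0 : 0 ≤ τ)
    (h1 : τ < 1) :
    ‖deriv f (p + τ * (w - p)) - deriv f p‖ ≤ A * ‖w - p‖ / t * (-Real.log (1 - τ)) := by
  have hA := A_nonneg h2
  have hnorm : ∀ x : ℝ, 0 ≤ x → x < 1 → ‖p + (x : ℂ) * (w - p)‖ ≤ 1 - (1 - x) * t := by
    intro x hx0 hx1
    have e : p + (x : ℂ) * (w - p) = ((1 - x : ℝ) : ℂ) * p + (x : ℂ) * w := by
      push_cast; ring
    rw [e]
    calc ‖((1 - x : ℝ) : ℂ) * p + (x : ℂ) * w‖ ≤ (1 - x) * ‖p‖ + x * ‖w‖ := by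
          refine (norm_add_le _ _).trans ?_
          rw [norm_mul, norm_mul, Complex.norm_real, Complex.norm_real, Real.norm_eq_abs,
            Real.norm_eq_abs, abs_of_nonneg (by linarith), abs_of_nonneg hx0]
      _ ≤ (1 - x) * (1 - t) + x * 1 := by
          have := mul_le_mul_of_nonneg_left hp (by linarith : 0 ≤ 1 - x)
          have := mul_le_mul_of_nonneg_left hw hx0
          linarith
      _ = 1 - (1 - x) * t := by ring
  have hball : ∀ x : ℝ, 0 ≤ x → x < 1 → p + (x : ℂ) * (w - p) ∈ ball (0 : ℂ) 1 := by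
    intro x hx0 hx1
    rw [mem_ball_zero_iff]
    have := hnorm x hx0 hx1
    have : 0 < (1 - x) * t := mul_pos (by linarith) ht
    linarith
  have hder : ∀ x : ℝ, 0 ≤ x → x < 1 →
      HasDerivAt (fun x : ℝ => deriv f (p + (x : ℂ) * (w - p)) - deriv f p)
        (deriv (deriv f) (p + (x : ℂ) * (w - p)) * (w - p)) x := by
    intro x hx0 hx1
    have h3 : HasDerivAt (fun x : ℝ => p + (x : ℂ) * (w - p)) (w - p) x := by
      have := ((Complex.ofRealCLM.hasDerivAt (x := x)).mul_const (w - p)).const_add p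
      simpa using this
    have h4 := (deriv_diff hf (hball x hx0 hx1)).scomp x h3
    have h5 := h4.sub_const (deriv f p)
    simpa [mul_comm] using h5
  have key := image_norm_le_of_norm_deriv_right_le_deriv_boundary'
    (f := fun x : ℝ => deriv f (p + (x : ℂ) * (w - p)) - deriv f p) (a := 0) (b := τ)
    (f' := fun x : ℝ => deriv (deriv f) (p + (x : ℂ) * (w - p)) * (w - p))
    (fun x hx => (hder x hx.1 (hx.2.trans_lt h1)).continuousAt.continuousWithinAt)
    (fun x hx => (hder x hx.1 (hx.2.trans h1)).hasDerivWithinAt)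
    (B := fun x => A * ‖w - p‖ / t * (-Real.log (1 - x)))
    (B' := fun x => A * ‖w - p‖ / t * (1 / (1 - x)))
    (by simp)
    (fun x hx => by
      have : (1 - x) ≠ 0 := by have := hx.2; linarith
      fun_prop (disch := assumption))
    (fun x hx => by
      have hx1 : 0 < 1 - x := by have := hx.2; linarith
      have h6 : HasDerivAt (fun y : ℝ => 1 - y) (-1) x := by
        simpa using (hasDerivAt_id x).const_sub 1
      have h7 := (h6.log hx1.ne').neg.const_mul (A * ‖w - p‖ / t)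
      have h8 : -(-1 / (1 - x)) = 1 / (1 - x) := by ring
      rw [h8] at h7
      exact h7.hasDerivWithinAt)
    (fun x hx => by
      have hx1 : 0 < 1 - x := by have := hx.2; linarith
      have hb := hball x hx.1 (hx.2.trans h1)
      have hn := hnorm x hx.1 (hx.2.trans h1)
      rw [norm_mul]
      have h9 : ‖deriv (deriv f) (p + (x : ℂ) * (w - p))‖ ≤ A / ((1 - x) * t) := by
        refine (h2 _ hb).trans ?_
        apply div_le_div_of_nonneg_left hA (mul_pos hx1 ht)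
        linarith
      calc _ ≤ A / ((1 - x) * t) * ‖w - p‖ := mul_le_mul_of_nonneg_right h9 (norm_nonneg _)
        _ = A * ‖w - p‖ / t * (1 / (1 - x)) := by field_simp)
  exact key (right_mem_Icc.2 h0)

lemma taylor_seg_gen {f : ℂ → ℂ} {A : ℝ} (hf : DifferentiableOn ℂ f (ball 0 1))
    (h2 : ∀ z ∈ ball (0 : ℂ) 1, ‖deriv (deriv f) z‖ ≤ A / (1 - ‖z‖))
    {p w : ℂ} {t : ℝ} (ht : 0 < t) (hp : ‖p‖ ≤ 1 - t) (hw : ‖w‖ ≤ 1)
    (hcl : ContinuousOn (fun x : ℝ => f (p + (x : ℂ) * (w - p))) (Icc 0 1)) :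
    ‖f w - f p - deriv f p * (w - p)‖ ≤ A * ‖w - p‖ ^ 2 / t := by
  have hA := A_nonneg h2
  have hnorm : ∀ x : ℝ, 0 ≤ x → x ≤ 1 → ‖p + (x : ℂ) * (w - p)‖ ≤ 1 - (1 - x) * t := by
    intro x hx0 hx1
    have e : p + (x : ℂ) * (w - p) = ((1 - x : ℝ) : ℂ) * p + (x : ℂ) * w := by
      push_cast; ring
    rw [e]
    calc ‖((1 - x : ℝ) : ℂ) * p + (x : ℂ) * w‖ ≤ (1 - x) * ‖p‖ + x * ‖w‖ := by
          refine (norm_add_le _ _).trans ?_
          rw [norm_mul, norm_mul, Complex.norm_real, Complex.norm_real, Real.norm_eq_abs,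
            Real.norm_eq_abs, abs_of_nonneg (by linarith), abs_of_nonneg hx0]
      _ ≤ (1 - x) * (1 - t) + x * 1 := by
          have := mul_le_mul_of_nonneg_left hp (by linarith : 0 ≤ 1 - x)
          have := mul_le_mul_of_nonneg_left hw hx0
          linarith
      _ = 1 - (1 - x) * t := by ring
  have hball : ∀ x : ℝ, 0 ≤ x → x < 1 → p + (x : ℂ) * (w - p) ∈ ball (0 : ℂ) 1 := by
    intro x hx0 hx1
    rw [mem_ball_zero_iff]
    have := hnorm x hx0 hx1.le
    have : 0 < (1 - x) * t := mul_pos (by linarith) ht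
    linarith
  have hline : ∀ x : ℝ, HasDerivAt (fun x : ℝ => p + (x : ℂ) * (w - p)) (w - p) x := by
    intro x
    have := ((Complex.ofRealCLM.hasDerivAt (x := x)).mul_const (w - p)).const_add p
    simpa using this
  have hder : ∀ x : ℝ, 0 ≤ x → x < 1 →
      HasDerivAt (fun x : ℝ => f (p + (x : ℂ) * (w - p)) - f p - (x : ℂ) * (deriv f p * (w - p)))
        ((deriv f (p + (x : ℂ) * (w - p)) - deriv f p) * (w - p)) x := by
    intro x hx0 hx1
    have h4 := ((hf.differentiableAt (isOpen_ball.mem_nhds (hball x hx0 hx1))).hasDerivAt).scomp x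
      (hline x)
    have h5 : HasDerivAt
        (fun x : ℝ => f (p + (x : ℂ) * (w - p)) - f p - (x : ℂ) * (deriv f p * (w - p))) _ x :=
      (h4.sub_const (f p)).sub
      ((Complex.ofRealCLM.hasDerivAt (x := x)).mul_const (deriv f p * (w - p)))
    refine h5.congr_deriv ?_
    simp only [smul_eq_mul, Complex.ofRealCLM_apply, Complex.ofReal_one]
    ring
  have hcont : ContinuousOn (fun x : ℝ => f (p + (x : ℂ) * (w - p)) - f p -
      (x : ℂ) * (deriv f p * (w - p))) (Icc 0 1) := by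
    exact ContinuousOn.sub (ContinuousOn.sub hcl continuousOn_const) (by fun_prop)
  have key := image_norm_le_of_norm_deriv_right_le_deriv_boundary'
    (a := 0) (b := 1) hcont
    (f' := fun x : ℝ => (deriv f (p + (x : ℂ) * (w - p)) - deriv f p) * (w - p))
    (fun x hx => (hder x hx.1 hx.2).hasDerivWithinAt)
    (B := fun x => A * ‖w - p‖ ^ 2 / t * (x + (1 - x) * Real.log (1 - x)))
    (B' := fun x => A * ‖w - p‖ ^ 2 / t * (-Real.log (1 - x)))
    (by simp)
    (by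
      have h6 : Continuous fun x : ℝ => (1 - x) * Real.log (1 - x) :=
        Real.continuous_mul_log.comp (continuous_const.sub continuous_id)
      exact (continuous_const.mul (continuous_id.add h6)).continuousOn)
    (fun x hx => by
      have hx1 : 0 < 1 - x := by have := hx.2; linarith
      have h6 : HasDerivAt (fun y : ℝ => 1 - y) (-1) x := by
        simpa using (hasDerivAt_id x).const_sub 1
      have h7 : HasDerivAt
          (fun x => A * ‖w - p‖ ^ 2 / t * (x + (1 - x) * Real.log (1 - x))) _ x :=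
        ((hasDerivAt_id x).add (h6.mul (h6.log hx1.ne'))).const_mul
        (A * ‖w - p‖ ^ 2 / t)
      refine (h7.congr_deriv ?_).hasDerivWithinAt
      have : (1 - x) * (-1 / (1 - x)) = -1 := by field_simp
      rw [this]; ring)
    (fun x hx => by
      have h9 := deriv_seg hf h2 ht hp hw hx.1 hx.2
      rw [norm_mul]
      calc _ ≤ (A * ‖w - p‖ / t * (-Real.log (1 - x))) * ‖w - p‖ :=
            mul_le_mul_of_nonneg_right h9 (norm_nonneg _)
        _ = A * ‖w - p‖ ^ 2 / t * (-Real.log (1 - x)) := by ring)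
  have := key (right_mem_Icc.2 zero_le_one)
  simpa using this

lemma taylor_seg {f : ℂ → ℂ} {A : ℝ} (hf : DifferentiableOn ℂ f (ball 0 1))
    (hc : ContinuousOn f (closedBall 0 1))
    (h2 : ∀ z ∈ ball (0 : ℂ) 1, ‖deriv (deriv f) z‖ ≤ A / (1 - ‖z‖))
    {p w : ℂ} {t : ℝ} (ht : 0 < t) (hp : ‖p‖ ≤ 1 - t) (hw : ‖w‖ ≤ 1) :
    ‖f w - f p - deriv f p * (w - p)‖ ≤ A * ‖w - p‖ ^ 2 / t := by
  refine taylor_seg_gen hf h2 ht hp hw (hc.comp (by fun_prop) fun x hx => ?_)
  have h3 : p + (x : ℂ) * (w - p) ∈ segment ℝ p w := by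
    rw [segment_eq_image']
    exact ⟨x, hx, by simp⟩
  have hp1 : p ∈ closedBall (0 : ℂ) 1 := by rw [mem_closedBall_zero_iff]; linarith
  have hw1 : w ∈ closedBall (0 : ℂ) 1 := by rw [mem_closedBall_zero_iff]; exact hw
  exact (convex_closedBall (0 : ℂ) 1).segment_subset hp1 hw1 h3

/-- Taylor estimate inside the open disc. -/
lemma taylor_seg_open {f : ℂ → ℂ} {A : ℝ} (hf : DifferentiableOn ℂ f (ball 0 1))
    (h2 : ∀ z ∈ ball (0 : ℂ) 1, ‖deriv (deriv f) z‖ ≤ A / (1 - ‖z‖))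
    {p w : ℂ} {t : ℝ} (ht : 0 < t) (hp : ‖p‖ ≤ 1 - t) (hw : ‖w‖ < 1) :
    ‖f w - f p - deriv f p * (w - p)‖ ≤ A * ‖w - p‖ ^ 2 / t := by
  refine taylor_seg_gen hf h2 ht hp hw.le (hf.continuousOn.comp (by fun_prop) fun x hx => ?_)
  have h3 : p + (x : ℂ) * (w - p) ∈ segment ℝ p w := by
    rw [segment_eq_image']
    exact ⟨x, hx, by simp⟩
  have hp1 : p ∈ ball (0 : ℂ) 1 := by rw [mem_ball_zero_iff]; linarith
  have hw1 : w ∈ ball (0 : ℂ) 1 := by rw [mem_ball_zero_iff]; exact hw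
  exact (convex_ball (0 : ℂ) 1).segment_subset hp1 hw1 h3

end SD

/-- Local affine approximation. -/
theorem local_affine : ∃ K : ℝ, 0 < K ∧ ∀ (f : ℂ → ℂ) (A : ℝ),
    DifferentiableOn ℂ f (ball 0 1) → ContinuousOn f (closedBall 0 1) →
    (∀ z ∈ ball (0 : ℂ) 1, ‖deriv (deriv f) z‖ ≤ A / (1 - ‖z‖)) →
    ∀ x w : ℂ, ‖x‖ ≤ 1 → ‖w‖ ≤ 1 → ∀ t : ℝ, 0 < t → t ≤ 1 → ‖w - x‖ ≤ 2 * t →
      ‖f w - f x - deriv f ((1 - t) * x) * (w - x)‖ ≤ K * A * t := by
  refine ⟨10, by norm_num, ?_⟩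
  intro f A hf hc h2 x w hx hw t ht ht1 hwx
  have hA := SD.A_nonneg h2
  have hp : ‖((1 - t : ℝ) : ℂ) * x‖ ≤ 1 - t := by
    rw [norm_mul, Complex.norm_real, Real.norm_eq_abs, abs_of_nonneg (by linarith)]
    nlinarith [norm_nonneg x]
  have e : ((1 - t : ℝ) : ℂ) = 1 - (t : ℂ) := by push_cast; ring
  rw [e] at hp
  set p : ℂ := (1 - (t : ℂ)) * x with hpdef
  have hxp : ‖x - p‖ ≤ t := by
    have : x - p = (t : ℂ) * x := by rw [hpdef]; ring
    rw [this, norm_mul, Complex.norm_real, Real.norm_eq_abs, abs_of_pos ht]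
    nlinarith [norm_nonneg x]
  have hwp : ‖w - p‖ ≤ 3 * t := by
    have : w - p = (w - x) + (x - p) := by ring
    rw [this]
    exact (norm_add_le _ _).trans (by linarith)
  have h3 := SD.taylor_seg hf hc h2 ht hp hw
  have h4 := SD.taylor_seg hf hc h2 ht hp hx
  have h5 : A * ‖w - p‖ ^ 2 / t ≤ 9 * A * t := by
    rw [div_le_iff₀ ht]
    have : ‖w - p‖ ^ 2 ≤ (3 * t) ^ 2 := pow_le_pow_left₀ (norm_nonneg _) hwp 2
    nlinarith [mul_le_mul_of_nonneg_left this hA]
  have h6 : A * ‖x - p‖ ^ 2 / t ≤ A * t := by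
    rw [div_le_iff₀ ht]
    have : ‖x - p‖ ^ 2 ≤ t ^ 2 := pow_le_pow_left₀ (norm_nonneg _) hxp 2
    nlinarith [mul_le_mul_of_nonneg_left this hA]
  have h7 : f w - f x - deriv f p * (w - x) =
      (f w - f p - deriv f p * (w - p)) - (f x - f p - deriv f p * (x - p)) := by ring
  rw [h7]
  refine (norm_sub_le _ _).trans ?_
  linarith

theorem slope_change (f : ℂ → ℂ) (A : ℝ)
    (hf : DifferentiableOn ℂ f (ball 0 1))
    (h2 : ∀ z ∈ ball (0 : ℂ) 1, ‖deriv (deriv f) z‖ ≤ A / (1 - ‖z‖))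
    (x : ℂ) (hx : ‖x‖ ≤ 1) (s t : ℝ) (hs : 0 < s) (hst : s ≤ t) (ht : t ≤ 1) :
    ‖deriv f ((1 - s) * x) - deriv f ((1 - t) * x)‖ ≤
      A * Real.log ((1 - (1 - t) * ‖x‖) / (1 - (1 - s) * ‖x‖)) := by
  have hA := SD.A_nonneg h2
  have hpos : ∀ y : ℝ, s ≤ y → y ≤ 1 → 0 < 1 - (1 - y) * ‖x‖ := by
    intro y hy hy1
    have : (1 - y) * ‖x‖ ≤ (1 - y) * 1 := mul_le_mul_of_nonneg_left hx (by linarith)
    linarith
  have hnorm : ∀ y : ℝ, y ≤ 1 → ‖(1 - (y : ℂ)) * x‖ = (1 - y) * ‖x‖ := by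
    intro y hy1
    have e : (1 - (y : ℂ)) = ((1 - y : ℝ) : ℂ) := by push_cast; ring
    rw [e, norm_mul, Complex.norm_real, Real.norm_eq_abs, abs_of_nonneg (by linarith)]
  have hball : ∀ y : ℝ, s ≤ y → y ≤ 1 → (1 - (y : ℂ)) * x ∈ ball (0 : ℂ) 1 := by
    intro y hy hy1
    rw [mem_ball_zero_iff, hnorm y hy1]
    have := hpos y hy hy1
    linarith
  have hder : ∀ y : ℝ, s ≤ y → y ≤ 1 →
      HasDerivAt (fun y : ℝ => deriv f ((1 - (y : ℂ)) * x) - deriv f ((1 - (s : ℂ)) * x))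
        (deriv (deriv f) ((1 - (y : ℂ)) * x) * (-x)) y := by
    intro y hy hy1
    have h3 : HasDerivAt (fun y : ℝ => (1 - (y : ℂ)) * x) (-x) y := by
      have := ((Complex.ofRealCLM.hasDerivAt (x := y)).const_sub 1).mul_const x
      simpa using this
    have h4 := (SD.deriv_diff hf (hball y hy hy1)).scomp y h3
    have h5 := h4.sub_const (deriv f ((1 - (s : ℂ)) * x))
    simpa [mul_comm] using h5
  have key := image_norm_le_of_norm_deriv_right_le_deriv_boundary'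
    (f := fun y : ℝ => deriv f ((1 - (y : ℂ)) * x) - deriv f ((1 - (s : ℂ)) * x))
    (a := s) (b := t)
    (f' := fun y : ℝ => deriv (deriv f) ((1 - (y : ℂ)) * x) * (-x))
    (fun y hy => (hder y hy.1 (hy.2.trans ht)).continuousAt.continuousWithinAt)
    (fun y hy => (hder y hy.1 (hy.2.le.trans ht)).hasDerivWithinAt)
    (B := fun y => A * (Real.log (1 - (1 - y) * ‖x‖) - Real.log (1 - (1 - s) * ‖x‖)))
    (B' := fun y => A * (‖x‖ / (1 - (1 - y) * ‖x‖)))
    (by simp)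
    (fun y hy => by
      have h1 := (hpos y hy.1 (hy.2.trans ht)).ne'
      fun_prop (disch := assumption))
    (fun y hy => by
      have h1 := hpos y hy.1 (hy.2.le.trans ht)
      have h6 : HasDerivAt (fun y : ℝ => 1 - (1 - y) * ‖x‖) ‖x‖ y := by
        have := (((hasDerivAt_id y).const_sub 1).mul_const ‖x‖).const_sub 1
        simpa using this
      exact (((h6.log h1.ne').sub_const _).const_mul A).hasDerivWithinAt)
    (fun y hy => by
      have h1 := hpos y hy.1 (hy.2.le.trans ht)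
      rw [norm_mul, norm_neg]
      have h7 := h2 _ (hball y hy.1 (hy.2.le.trans ht))
      rw [hnorm y (hy.2.le.trans ht)] at h7
      calc _ ≤ A / (1 - (1 - y) * ‖x‖) * ‖x‖ := mul_le_mul_of_nonneg_right h7 (norm_nonneg _)
        _ = A * (‖x‖ / (1 - (1 - y) * ‖x‖)) := by ring)
  have := key (right_mem_Icc.2 hst)
  rw [norm_sub_rev]
  rw [Real.log_div (hpos t hst ht).ne' (hpos s le_rfl (hst.trans ht)).ne']
  exact this

/-! ### The bound of the second derivative by the Zygmund constant of the boundary values -/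

namespace SD

open Real in
lemma second_deriv_formula {f : ℂ → ℂ} (hd : DifferentiableOn ℂ f (ball 0 1))
    (hc : ContinuousOn f (closedBall 0 1)) {w : ℂ} (hw : w ∈ ball (0 : ℂ) 1) :
    (∮ z in C(0, 1), (z - w) ^ (-3 : ℤ) * f z) = (2 * π * I : ℂ) * (deriv (deriv f) w / 2) := by
  have hnb : ball (0 : ℂ) 1 ∈ nhds w := isOpen_ball.mem_nhds hw
  have hncb : closedBall (0 : ℂ) 1 ∈ nhds w := Filter.mem_of_superset hnb ball_subset_closedBall
  set g1 := dslope f w with hg1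
  set g2 := dslope g1 w with hg2
  have h1d : DifferentiableOn ℂ g1 (ball 0 1) := (Complex.differentiableOn_dslope hnb).2 hd
  have h1c : ContinuousOn g1 (closedBall 0 1) :=
    (continuousOn_dslope hncb).2 ⟨hc, hd.differentiableAt hnb⟩
  have h2d : DifferentiableOn ℂ g2 (ball 0 1) := (Complex.differentiableOn_dslope hnb).2 h1d
  have h2c : ContinuousOn g2 (closedBall 0 1) :=
    (continuousOn_dslope hncb).2 ⟨h1c, h1d.differentiableAt hnb⟩
  have hval : g2 w = deriv (deriv f) w / 2 := by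
    obtain ⟨p, hp⟩ := hd.analyticAt hnb
    have h3 := hp.has_fpower_series_iterate_dslope_fslope 2
    have h4 := h3.coeff_zero 1
    have h5 : g2 w = p.coeff 2 := by
      have h6 := FormalMultilinearSeries.coeff_iterate_fslope (p := p) 2 0
      have h7 : (FormalMultilinearSeries.fslope^[2] p).coeff 0 = g2 w := by
        rw [FormalMultilinearSeries.coeff]
        exact h4
      rw [← h7, h6]
    have h8 : iteratedDeriv 2 f w = (2 : ℕ).factorial • p.coeff 2 := by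
      obtain ⟨r, hr⟩ := hp
      exact (hr.factorial_smul 1 2).symm
    rw [iteratedDeriv_succ, iteratedDeriv_one] at h8
    rw [h5, h8]
    simp [Nat.factorial]
  have hC := circleIntegral_sub_inv_smul_of_differentiable_on_off_countable (f := g2)
    (Set.countable_empty) hw h2c (fun x hx => h2d.differentiableAt (isOpen_ball.mem_nhds hx.1))
  rw [hval, smul_eq_mul] at hC
  rw [← hC]
  have hne : ∀ z ∈ sphere (0 : ℂ) 1, z - w ≠ 0 := by
    intro z hz h
    rw [mem_sphere_zero_iff_norm] at hz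
    rw [mem_ball_zero_iff] at hw
    rw [sub_eq_zero.1 h] at hz
    linarith
  have hfun : ∀ z ∈ sphere (0 : ℂ) 1, (z - w)⁻¹ • g2 z =
      (z - w) ^ (-3 : ℤ) * f z - (f w * (z - w) ^ (-3 : ℤ) + deriv f w * (z - w) ^ (-2 : ℤ)) := by
    intro z hz
    have h0 := hne z hz
    have hzw : z ≠ w := fun h => h0 (by rw [h, sub_self])
    have e2 : (z - w) • g2 z = g1 z - g1 w := sub_smul_dslope g1 w z
    have e1 : (z - w) • g1 z = f z - f w := sub_smul_dslope f w z
    have e0 : g1 w = deriv f w := dslope_same f w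
    rw [e0] at e2
    simp only [smul_eq_mul] at e1 e2 ⊢
    have e3 : g1 z = (z - w)⁻¹ * (f z - f w) := by rw [← e1]; field_simp
    have e4 : g2 z = (z - w)⁻¹ * (g1 z - deriv f w) := by rw [← e2]; field_simp
    rw [e4, e3]
    have z3 : (z - w) ^ (-3 : ℤ) = (z - w)⁻¹ * (z - w)⁻¹ * (z - w)⁻¹ := by
      rw [show (-3 : ℤ) = -(3 : ℕ) by norm_num, zpow_neg, zpow_natCast]
      rw [pow_succ, pow_two, mul_inv, mul_inv]
    have z2 : (z - w) ^ (-2 : ℤ) = (z - w)⁻¹ * (z - w)⁻¹ := by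
      rw [show (-2 : ℤ) = -(2 : ℕ) by norm_num, zpow_neg, zpow_natCast]
      rw [pow_two, mul_inv]
    rw [z3, z2]
    ring
  have hcz : ∀ n : ℤ, ContinuousOn (fun z : ℂ => (z - w) ^ n) (sphere (0 : ℂ) 1) := by
    intro n z hz
    exact ((continuousAt_id.sub continuousAt_const).zpow₀ n (Or.inl (hne z hz))).continuousWithinAt
  have hcf : ContinuousOn f (sphere (0 : ℂ) 1) := by
    exact hc.mono sphere_subset_closedBall
  rw [circleIntegral.integral_congr zero_le_one hfun]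
  have i1 : CircleIntegrable (fun z : ℂ => (z - w) ^ (-3 : ℤ) * f z) 0 1 :=
    ((hcz _).mul hcf).circleIntegrable zero_le_one
  have i3 : CircleIntegrable (fun z : ℂ => f w * (z - w) ^ (-3 : ℤ)) 0 1 :=
    (continuousOn_const.mul (hcz _)).circleIntegrable zero_le_one
  have i2 : CircleIntegrable (fun z : ℂ => deriv f w * (z - w) ^ (-2 : ℤ)) 0 1 :=
    (continuousOn_const.mul (hcz _)).circleIntegrable zero_le_one
  have i23 : CircleIntegrable (fun z : ℂ => f w * (z - w) ^ (-3 : ℤ) +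
      deriv f w * (z - w) ^ (-2 : ℤ)) 0 1 := i3.add i2
  rw [circleIntegral.integral_sub i1 i23, circleIntegral.integral_add i3 i2,
    circleIntegral.integral_const_mul, circleIntegral.integral_const_mul,
    circleIntegral.integral_sub_zpow_of_ne (by norm_num),
    circleIntegral.integral_sub_zpow_of_ne (by norm_num)]
  simp

lemma second_zero {f : ℂ → ℂ} (hd : DifferentiableOn ℂ f (ball 0 1))
    (hc : ContinuousOn f (closedBall 0 1)) {ρ : ℝ} (h0 : 0 ≤ ρ) (h1 : ρ < 1) :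
    (∮ z in C(0, 1), z * (1 - ρ * z) ^ (-3 : ℤ) * f z) = 0 := by
  have hne : ∀ z ∈ closedBall (0 : ℂ) 1, 1 - (ρ : ℂ) * z ≠ 0 := by
    intro z hz h
    rw [mem_closedBall_zero_iff] at hz
    have h2 : ‖(ρ : ℂ) * z‖ = 1 := by
      rw [← sub_eq_zero.1 h]; simp
    rw [norm_mul, Complex.norm_real, Real.norm_eq_abs, abs_of_nonneg h0] at h2
    nlinarith [norm_nonneg z]
  apply circleIntegral_eq_zero_of_differentiable_on_off_countable zero_le_one Set.countable_empty
  · intro z hz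
    refine ContinuousWithinAt.mul ?_ (hc z hz)
    have h3 : ContinuousAt (fun z : ℂ => (1 - (ρ : ℂ) * z) ^ (-3 : ℤ)) z := by
      have h4 : ContinuousAt (fun z : ℂ => (1 - (ρ : ℂ) * z)) z := by fun_prop
      exact h4.zpow₀ _ (Or.inl (hne z hz))
    exact (continuousAt_id.mul h3).continuousWithinAt
  · intro z hz
    have hz1 := isOpen_ball.mem_nhds hz.1
    refine DifferentiableAt.mul ?_ (hd.differentiableAt hz1)
    have h3 : DifferentiableAt ℂ (fun z : ℂ => (1 - (ρ : ℂ) * z) ^ (-3 : ℤ)) z := by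
      have h4 : DifferentiableAt ℂ (fun z : ℂ => (1 - (ρ : ℂ) * z)) z := by fun_prop
      exact h4.zpow (Or.inl (hne z (ball_subset_closedBall hz.1)))
    exact differentiableAt_id.mul h3

/-- The kernel. -/
noncomputable def qk (ρ θ : ℝ) : ℂ := exp (θ * I) ^ 2 * (1 - ρ * exp (θ * I)) ^ (-3 : ℤ)

lemma one_sub_ne {ρ : ℝ} (h0 : 0 ≤ ρ) (h1 : ρ < 1) (θ : ℝ) : 1 - (ρ : ℂ) * exp (θ * I) ≠ 0 := by
  intro h
  have h2 : ‖(ρ : ℂ) * exp (θ * I)‖ = 1 := by
    rw [← sub_eq_zero.1 h]; simp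
  rw [norm_mul, Complex.norm_real, Real.norm_eq_abs, abs_of_nonneg h0, Complex.norm_exp_ofReal_mul_I]
    at h2
  linarith

lemma qk_neg (ρ θ : ℝ) : qk ρ (-θ) = (starRingEnd ℂ) (qk ρ θ) := by
  unfold qk
  have h : exp (((-θ : ℝ) : ℂ) * I) = (starRingEnd ℂ) (exp (θ * I)) := by
    rw [← Complex.exp_conj]
    simp
  rw [h, map_mul, map_pow, map_zpow₀, map_sub, map_mul, map_one, Complex.conj_ofReal]

lemma qk_conj_eq (ρ θ : ℝ) : (starRingEnd ℂ) (qk ρ θ) =
    exp (θ * I) * (exp (θ * I) - ρ) ^ (-3 : ℤ) := by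
  rw [← qk_neg]
  unfold qk
  have h : exp (((-θ : ℝ) : ℂ) * I) = (exp (θ * I))⁻¹ := by
    rw [← Complex.exp_neg]; congr 1; push_cast; ring
  rw [h]
  have hne : exp ((θ : ℂ) * I) ≠ 0 := Complex.exp_ne_zero _
  have h2 : 1 - (ρ : ℂ) * (exp (θ * I))⁻¹ = (exp (θ * I))⁻¹ * (exp (θ * I) - ρ) := by
    field_simp
  rw [h2, mul_zpow, ← mul_assoc]
  congr 1
  rw [show (-3 : ℤ) = -(3 : ℕ) by norm_num, zpow_neg, zpow_natCast, inv_pow, inv_pow, inv_inv]
  field_simp

lemma qk_continuous {ρ : ℝ} (h0 : 0 ≤ ρ) (h1 : ρ < 1) : Continuous (qk ρ) := by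
  unfold qk
  refine Continuous.mul (by fun_prop) ?_
  refine continuous_iff_continuousAt.2 fun θ => ?_
  have h4 : ContinuousAt (fun θ : ℝ => (1 - (ρ : ℂ) * exp (θ * I))) θ := by fun_prop
  exact h4.zpow₀ _ (Or.inl (one_sub_ne h0 h1 θ))

lemma bdry_cont {f : ℂ → ℂ} (hc : ContinuousOn f (closedBall 0 1)) :
    Continuous (fun θ : ℝ => f (exp (θ * I))) := by
  refine continuous_iff_continuousAt.2 fun θ => ?_
  have hmem : ∀ t : ℝ, exp ((t : ℂ) * I) ∈ closedBall (0 : ℂ) 1 := by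
    intro t
    rw [mem_closedBall_zero_iff, Complex.norm_exp_ofReal_mul_I]
  have h1 : ContinuousOn (fun θ : ℝ => f (exp (θ * I))) univ :=
    hc.comp (by fun_prop) fun t _ => hmem t
  exact h1.continuousAt Filter.univ_mem

open Real in
lemma main_formula {f : ℂ → ℂ} (hd : DifferentiableOn ℂ f (ball 0 1))
    (hc : ContinuousOn f (closedBall 0 1)) {ρ : ℝ} (h0 : 0 ≤ ρ) (h1 : ρ < 1) :
    ∫ θ in (0 : ℝ)..(2 * π), ((2 * (qk ρ θ).re : ℝ) : ℂ) * f (cexp (θ * I)) =
      π * deriv (deriv f) ρ := by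
  have hw : (ρ : ℂ) ∈ ball (0 : ℂ) 1 := by
    rw [mem_ball_zero_iff, Complex.norm_real, Real.norm_eq_abs, abs_of_nonneg h0]; exact h1
  have e1 := second_deriv_formula hd hc hw
  have e2 := second_zero hd hc h0 h1
  simp only [circleIntegral, deriv_circleMap, circleMap, smul_eq_mul, zero_add, ofReal_one,
    one_mul] at e1 e2
  have c1 := bdry_cont hc
  have c2 := qk_continuous h0 h1
  have e3 : ∫ θ in (0 : ℝ)..(2 * π), (starRingEnd ℂ) (qk ρ θ) * f (cexp (θ * I)) =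
      π * deriv (deriv f) ρ := by
    have : ∫ θ in (0 : ℝ)..(2 * π), I * ((starRingEnd ℂ) (qk ρ θ) * f (cexp (θ * I))) =
        2 * π * I * (deriv (deriv f) ρ / 2) := by
      rw [← e1]
      refine intervalIntegral.integral_congr fun θ _ => ?_
      simp only [qk_conj_eq]
      ring
    rw [intervalIntegral.integral_const_mul] at this
    have h3 : I * ((∫ θ in (0 : ℝ)..(2 * π), (starRingEnd ℂ) (qk ρ θ) * f (cexp (θ * I))) -
      π * deriv (deriv f) ρ) = 0 := by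
      rw [mul_sub, this]; ring
    rcases mul_eq_zero.1 h3 with h | h
    · exact absurd h Complex.I_ne_zero
    · exact sub_eq_zero.1 h
  have e4 : ∫ θ in (0 : ℝ)..(2 * π), qk ρ θ * f (cexp (θ * I)) = 0 := by
    have : ∫ θ in (0 : ℝ)..(2 * π), I * (qk ρ θ * f (cexp (θ * I))) = 0 := by
      rw [← e2]
      refine intervalIntegral.integral_congr fun θ _ => ?_
      simp only [qk]
      ring
    rw [intervalIntegral.integral_const_mul] at this
    rcases mul_eq_zero.1 this with h | h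
    · exact absurd h Complex.I_ne_zero
    · exact h
  have e5 : ∀ θ : ℝ, ((2 * (qk ρ θ).re : ℝ) : ℂ) * f (cexp (θ * I)) =
      qk ρ θ * f (cexp (θ * I)) + (starRingEnd ℂ) (qk ρ θ) * f (cexp (θ * I)) := by
    intro θ
    rw [← add_mul, Complex.add_conj]
  simp only [e5]
  have i1 : IntervalIntegrable (fun θ => qk ρ θ * f (cexp (θ * I))) volume 0 (2 * π) :=
    (c2.mul c1).intervalIntegrable _ _
  have i2 : IntervalIntegrable (fun θ => (starRingEnd ℂ) (qk ρ θ) * f (cexp (θ * I))) volume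
    0 (2 * π) := ((Complex.continuous_conj.comp c2).mul c1).intervalIntegrable _ _
  rw [intervalIntegral.integral_add i1 i2, e3, e4, zero_add]

open Real in
lemma half_formula {f : ℂ → ℂ} (hd : DifferentiableOn ℂ f (ball 0 1))
    (hc : ContinuousOn f (closedBall 0 1)) {ρ : ℝ} (h0 : 0 ≤ ρ) (h1 : ρ < 1) :
    ∫ θ in (0 : ℝ)..π, ((2 * (qk ρ θ).re : ℝ) : ℂ) *
      (f (cexp (θ * I)) + f (cexp ((-θ : ℝ) * I))) = π * deriv (deriv f) ρ := by
  rw [← main_formula hd hc h0 h1]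
  have c1 := bdry_cont hc
  have c2 := qk_continuous h0 h1
  set F : ℝ → ℂ := fun θ => ((2 * (qk ρ θ).re : ℝ) : ℂ) * f (cexp (θ * I)) with hF
  have cF : Continuous F := by
    refine Continuous.mul ?_ c1
    exact Complex.continuous_ofReal.comp (continuous_const.mul (Complex.continuous_re.comp c2))
  have hper : Function.Periodic F (2 * π) := by
    intro θ
    have h2 : cexp (((θ + 2 * π : ℝ) : ℂ) * I) = cexp (θ * I) := by
      have : (((θ + 2 * π : ℝ) : ℂ) * I) = θ * I + 2 * π * I := by push_cast; ring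
      rw [this, Complex.exp_add, Complex.exp_two_pi_mul_I, mul_one]
    simp only [hF, qk, h2]
  have h3 := hper.intervalIntegral_add_eq 0 (-π)
  rw [zero_add, show -π + 2 * π = π by ring] at h3
  rw [h3, ← intervalIntegral.integral_add_adjacent_intervals (b := 0)
    (cF.intervalIntegrable _ _) (cF.intervalIntegrable _ _)]
  have h4 := intervalIntegral.integral_comp_neg (a := 0) (b := π) F
  rw [neg_zero] at h4
  have i1 : IntervalIntegrable (fun θ => F (-θ)) volume 0 π :=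
    (cF.comp continuous_neg).intervalIntegrable _ _
  rw [← h4, add_comm, ← intervalIntegral.integral_add (cF.intervalIntegrable _ _) i1]
  refine intervalIntegral.integral_congr fun θ _ => ?_
  simp only [hF, qk_neg, Complex.conj_re]
  ring

open Real in
lemma diff_formula {f : ℂ → ℂ} (hd : DifferentiableOn ℂ f (ball 0 1))
    (hc : ContinuousOn f (closedBall 0 1)) {ρ : ℝ} (h0 : 0 ≤ ρ) (h1 : ρ < 1) :
    ∫ θ in (0 : ℝ)..π, ((2 * (qk ρ θ).re : ℝ) : ℂ) *
      (f (cexp (θ * I)) + f (cexp ((-θ : ℝ) * I)) - 2 * f 1) = π * deriv (deriv f) ρ := by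
  have h2 := half_formula hd hc h0 h1
  have h3 := half_formula (f := fun _ => f 1) (by fun_prop) (by fun_prop) h0 h1
  have c1 := bdry_cont hc
  have c2 := qk_continuous h0 h1
  have c3 : Continuous fun θ : ℝ => ((2 * (qk ρ θ).re : ℝ) : ℂ) :=
    Complex.continuous_ofReal.comp (continuous_const.mul (Complex.continuous_re.comp c2))
  have c4 : Continuous fun θ : ℝ => f (cexp ((-θ : ℝ) * I)) := c1.comp continuous_neg
  have hd0 : deriv (deriv fun _ : ℂ => f 1) (ρ : ℂ) = 0 := by simp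
  rw [hd0, mul_zero] at h3
  rw [← h2, ← sub_zero (∫ θ in (0 : ℝ)..π, ((2 * (qk ρ θ).re : ℝ) : ℂ) *
      (f (cexp (θ * I)) + f (cexp ((-θ : ℝ) * I)))), ← h3, ← intervalIntegral.integral_sub]
  · refine intervalIntegral.integral_congr fun θ _ => ?_
    ring
  · exact (c3.mul (c1.add c4)).intervalIntegrable _ _
  · exact (c3.mul continuous_const).intervalIntegrable _ _

open Real in
lemma norm_lower {ρ θ : ℝ} (h0 : 0 ≤ ρ) (_h1 : ρ < 1) (t0 : 0 ≤ θ) (t1 : θ ≤ π) :
    (1 - ρ + θ / π) / 2 ≤ ‖1 - (ρ : ℂ) * cexp (θ * I)‖ := by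
  have hπ := Real.pi_pos
  have a1 : 1 - ρ ≤ ‖1 - (ρ : ℂ) * cexp (θ * I)‖ := by
    have h2 : ‖(ρ : ℂ) * cexp (θ * I)‖ = ρ := by
      rw [norm_mul, Complex.norm_real, Real.norm_eq_abs, abs_of_nonneg h0,
        Complex.norm_exp_ofReal_mul_I, mul_one]
    have h3 := norm_sub_norm_le (1 : ℂ) ((ρ : ℂ) * cexp (θ * I))
    rw [h2, norm_one] at h3
    exact h3
  have a2 : θ / π ≤ ‖1 - (ρ : ℂ) * cexp (θ * I)‖ := by
    have hsq : ‖1 - (ρ : ℂ) * cexp (θ * I)‖ ^ 2 = 1 - 2 * ρ * Real.cos θ + ρ ^ 2 := by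
      have e1 : 1 - (ρ : ℂ) * cexp (θ * I) = ⟨1 - ρ * Real.cos θ, -(ρ * Real.sin θ)⟩ := by
        apply Complex.ext
        · simp [Complex.exp_ofReal_mul_I_re]
        · simp [Complex.exp_ofReal_mul_I_im]
      rw [← Complex.normSq_eq_norm_sq, e1, Complex.normSq_mk]
      have := Real.sin_sq_add_cos_sq θ
      linear_combination ρ ^ 2 * this
    have hle : (θ / π) ^ 2 ≤ 1 - 2 * ρ * Real.cos θ + ρ ^ 2 := by
      rcases le_total θ (π / 2) with h | h
      · have h2 := Real.mul_le_sin t0 h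
        have h3 : 0 ≤ θ / π := by positivity
        have h4 : θ / π ≤ Real.sin θ := by
          have : 2 / π * θ = 2 * (θ / π) := by ring
          linarith
        have h5 := Real.sin_sq_add_cos_sq θ
        nlinarith [sq_nonneg (ρ - Real.cos θ)]
      · have h2 : Real.cos θ ≤ 0 := Real.cos_nonpos_of_pi_div_two_le_of_le h (by linarith)
        have h3 : θ / π ≤ 1 := by rw [div_le_one hπ]; exact t1
        have h4 : 0 ≤ θ / π := by positivity
        nlinarith [mul_nonneg h0 (neg_nonneg.2 h2)]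
    rw [← hsq] at hle
    exact le_of_sq_le_sq hle (norm_nonneg _)
  linarith

open Real in
lemma norm_qk_le {ρ θ : ℝ} (h0 : 0 ≤ ρ) (h1 : ρ < 1) (t0 : 0 ≤ θ) (t1 : θ ≤ π) :
    |2 * (qk ρ θ).re| * θ ≤ 16 * π / (1 - ρ + θ / π) ^ 2 := by
  have hπ := Real.pi_pos
  have hl := norm_lower h0 h1 t0 t1
  have hθ : 0 ≤ θ / π := by positivity
  set b := 1 - ρ + θ / π with hb
  have hb0 : 0 < b := by rw [hb]; linarith
  have h2 : ‖qk ρ θ‖ ≤ 8 / b ^ 3 := by
    unfold qk
    rw [norm_mul, norm_pow, Complex.norm_exp_ofReal_mul_I, one_pow, one_mul, norm_zpow,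
      show (-3 : ℤ) = -(3 : ℕ) by norm_num, zpow_neg, zpow_natCast]
    have h3 : (b / 2) ^ 3 ≤ ‖1 - (ρ : ℂ) * cexp (θ * I)‖ ^ 3 :=
      pow_le_pow_left₀ (by positivity) hl 3
    have h4 : 8 / b ^ 3 = ((b / 2) ^ 3)⁻¹ := by
      rw [div_pow, inv_div]; norm_num
    rw [h4]
    exact inv_anti₀ (by positivity) h3
  have h5 : |2 * (qk ρ θ).re| ≤ 16 / b ^ 3 := by
    rw [abs_mul, abs_two]
    have := Complex.abs_re_le_norm (qk ρ θ)
    have e : 16 / b ^ 3 = 2 * (8 / b ^ 3) := by ring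
    rw [e]
    linarith
  have h6 : θ ≤ π * b := by
    have : θ = π * (θ / π) := by field_simp
    rw [hb]
    nlinarith
  calc |2 * (qk ρ θ).re| * θ ≤ 16 / b ^ 3 * (π * b) :=
        mul_le_mul h5 h6 t0 (by positivity)
    _ = 16 * π / b ^ 2 := by field_simp

open Real in
lemma real_bound {f : ℂ → ℂ} {C : ℝ} (hd : DifferentiableOn ℂ f (ball 0 1))
    (hc : ContinuousOn f (closedBall 0 1))
    (hZ : ∀ t h : ℝ, ‖f (cexp ((t + h : ℝ) * I)) + f (cexp ((t - h : ℝ) * I)) -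
      2 * f (cexp (t * I))‖ ≤ C * |h|) {ρ : ℝ} (h0 : 0 ≤ ρ) (h1 : ρ < 1) :
    ‖deriv (deriv f) ρ‖ ≤ 16 * π * C / (1 - ρ) := by
  have hπ := Real.pi_pos
  have hC : 0 ≤ C := by
    have := hZ 0 1
    rw [abs_one, mul_one] at this
    exact (norm_nonneg _).trans this
  have h2 := diff_formula hd hc h0 h1
  have ha : 0 < 1 - ρ := by linarith
  have hpos : ∀ θ ∈ uIcc (0 : ℝ) π, 0 < 1 - ρ + θ / π := by
    intro θ hθ
    rw [uIcc_of_le hπ.le] at hθ
    have : 0 ≤ θ / π := div_nonneg hθ.1 hπ.le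
    linarith
  have hint : ∫ θ in (0 : ℝ)..π, C * (16 * π / (1 - ρ + θ / π) ^ 2) =
      16 * π ^ 2 * C * (1 / (1 - ρ) - 1 / (1 - ρ + 1)) := by
    have hder : ∀ θ ∈ uIcc (0 : ℝ) π, HasDerivAt
        (fun θ : ℝ => -(16 * π ^ 2 * C) * (1 - ρ + θ / π)⁻¹)
        (C * (16 * π / (1 - ρ + θ / π) ^ 2)) θ := by
      intro θ hθ
      have h3 : HasDerivAt (fun θ : ℝ => 1 - ρ + θ / π) (1 / π) θ :=
        ((hasDerivAt_id θ).div_const π).const_add (1 - ρ)
      have h4 := (h3.inv (hpos θ hθ).ne').const_mul (-(16 * π ^ 2 * C))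
      refine h4.congr_deriv ?_
      have := (hpos θ hθ).ne'
      field_simp
    rw [intervalIntegral.integral_eq_sub_of_hasDerivAt hder]
    · rw [div_self hπ.ne']
      simp
      ring
    · apply ContinuousOn.intervalIntegrable
      intro θ hθ
      have h5 : (1 - ρ + θ / π) ^ 2 ≠ 0 := pow_ne_zero _ (hpos θ hθ).ne'
      have h6 : ContinuousAt (fun θ : ℝ => C * (16 * π / (1 - ρ + θ / π) ^ 2)) θ := by
        fun_prop (disch := assumption)
      exact h6.continuousWithinAt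
  have hbd : ‖∫ θ in (0 : ℝ)..π, ((2 * (qk ρ θ).re : ℝ) : ℂ) *
      (f (cexp (θ * I)) + f (cexp ((-θ : ℝ) * I)) - 2 * f 1)‖ ≤
      ∫ θ in (0 : ℝ)..π, C * (16 * π / (1 - ρ + θ / π) ^ 2) := by
    refine intervalIntegral.norm_integral_le_of_norm_le hπ.le ?_ ?_
    · refine Filter.Eventually.of_forall fun θ hθ => ?_
      have hθ0 : 0 ≤ θ := hθ.1.le
      have h7 := hZ 0 θ
      rw [zero_add, zero_sub, abs_of_nonneg hθ0] at h7
      rw [Complex.ofReal_zero, zero_mul, Complex.exp_zero] at h7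
      rw [norm_mul, Complex.norm_real, Real.norm_eq_abs]
      calc |2 * (qk ρ θ).re| * ‖f (cexp (θ * I)) + f (cexp ((-θ : ℝ) * I)) - 2 * f 1‖
          ≤ |2 * (qk ρ θ).re| * (C * θ) := mul_le_mul_of_nonneg_left h7 (abs_nonneg _)
        _ = C * (|2 * (qk ρ θ).re| * θ) := by ring
        _ ≤ C * (16 * π / (1 - ρ + θ / π) ^ 2) :=
          mul_le_mul_of_nonneg_left (norm_qk_le h0 h1 hθ0 hθ.2) hC
    · apply ContinuousOn.intervalIntegrable
      intro θ hθ
      have h5 : (1 - ρ + θ / π) ^ 2 ≠ 0 := pow_ne_zero _ (hpos θ hθ).ne'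
      have h6 : ContinuousAt (fun θ : ℝ => C * (16 * π / (1 - ρ + θ / π) ^ 2)) θ := by
        fun_prop (disch := assumption)
      exact h6.continuousWithinAt
  rw [h2, hint, norm_mul, Complex.norm_real, Real.norm_eq_abs, abs_of_pos hπ] at hbd
  have h8 : π * ‖deriv (deriv f) ρ‖ ≤ π * (16 * π * C / (1 - ρ)) := by
    refine hbd.trans ?_
    have h9 : 0 ≤ 1 / (1 - ρ + 1) := by positivity
    have h10 : 0 ≤ 16 * π ^ 2 * C := by positivity
    calc 16 * π ^ 2 * C * (1 / (1 - ρ) - 1 / (1 - ρ + 1)) ≤ 16 * π ^ 2 * C * (1 / (1 - ρ)) :=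
          mul_le_mul_of_nonneg_left (by linarith) h10
      _ = π * (16 * π * C / (1 - ρ)) := by ring
  exact le_of_mul_le_mul_left h8 hπ

end SD

open Real in
theorem second_deriv_bound : ∃ K : ℝ, 0 < K ∧ ∀ (f : ℂ → ℂ) (C : ℝ),
    DifferentiableOn ℂ f (ball 0 1) → ContinuousOn f (closedBall 0 1) →
    (∀ t h : ℝ, ‖f (cexp ((t + h : ℝ) * I)) + f (cexp ((t - h : ℝ) * I)) -
      2 * f (cexp (t * I))‖ ≤ C * |h|) →
    ∀ z ∈ ball (0 : ℂ) 1, ‖deriv (deriv f) z‖ ≤ K * C / (1 - ‖z‖) := by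
  refine ⟨16 * π, by positivity, ?_⟩
  intro f C hd hc hZ z hz
  rw [mem_ball_zero_iff] at hz
  set c : ℂ := cexp (arg z * I) with hcdef
  have hcn : ‖c‖ = 1 := Complex.norm_exp_ofReal_mul_I _
  have hzc : c * (‖z‖ : ℂ) = z := by
    rw [mul_comm]; exact Complex.norm_mul_exp_arg_mul_I z
  set F : ℂ → ℂ := fun ζ => f (c * ζ) with hF
  have hmapb : ∀ ζ ∈ ball (0 : ℂ) 1, c * ζ ∈ ball (0 : ℂ) 1 := by
    intro ζ hζ
    rw [mem_ball_zero_iff] at hζ ⊢
    rw [norm_mul, hcn, one_mul]; exact hζ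
  have hmapc : ∀ ζ ∈ closedBall (0 : ℂ) 1, c * ζ ∈ closedBall (0 : ℂ) 1 := by
    intro ζ hζ
    rw [mem_closedBall_zero_iff] at hζ ⊢
    rw [norm_mul, hcn, one_mul]; exact hζ
  have hFd : DifferentiableOn ℂ F (ball 0 1) := hd.comp (by fun_prop) hmapb
  have hFc : ContinuousOn F (closedBall 0 1) := hc.comp (by fun_prop) hmapc
  have hFZ : ∀ t h : ℝ, ‖F (cexp ((t + h : ℝ) * I)) + F (cexp ((t - h : ℝ) * I)) -
      2 * F (cexp (t * I))‖ ≤ C * |h| := by
    intro t h
    have e : ∀ s : ℝ, c * cexp (s * I) = cexp ((arg z + s : ℝ) * I) := by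
      intro s
      rw [hcdef, ← Complex.exp_add]; congr 1; push_cast; ring
    have := hZ (arg z + t) h
    simp only [hF, e]
    rw [← add_assoc, ← add_sub_assoc]
    exact this
  have h1 := SD.real_bound hFd hFc hFZ (norm_nonneg z) hz
  have h2 : deriv F = fun ζ => c * deriv f (c * ζ) := by
    funext ζ
    rw [hF, deriv_comp_mul_left]
    rfl
  have h3 : deriv (deriv F) (‖z‖ : ℂ) = c * (c * deriv (deriv f) z) := by
    rw [h2, deriv_const_mul_field, deriv_comp_mul_left, hzc]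
    rfl
  rw [h3, norm_mul, norm_mul, hcn, one_mul, one_mul] at h1
  exact h1

end Pool.Agent.H82.Zyg
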