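import Mathlib
import Pool.Agent.H82.Zyg.Defs
import Pool.Agent.H82.Zyg.SecondDeriv

/-!
# MP_425ce8_an, module T5: passage from finite sets to closed sets (helper94)
-/

namespace Pool.Agent.H82.Zyg

open Complex Metric Set MeasureTheory Filter Topology

namespace Lim

/-! ### Estimates for one function on the open disc -/

lemma deriv_near {f : ℂ → ℂ} {A B : ℝ} (hf : DifferentiableOn ℂ f (ball 0 1))
    (h2 : ∀ z ∈ ball (0 : ℂ) 1, ‖deriv (deriv f) z‖ ≤ A / (1 - ‖z‖)) (h1 : ‖deriv f 0‖ ≤ B)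
    {x : ℂ} (hx : ‖x‖ ≤ 1) {s : ℝ} (hs : 0 < s) (hs1 : s ≤ 1) :
    ‖deriv f ((1 - s) * x)‖ ≤ B + A * Real.log (1 / s) := by
  have hA := SD.A_nonneg h2
  have h3 := slope_change f A hf h2 x hx s 1 hs hs1 le_rfl
  have e : ((1 : ℂ) - ((1 : ℝ) : ℂ)) * x = 0 := by simp
  rw [e] at h3
  have h4 : (1 - s) * ‖x‖ ≤ 1 - s := by
    nlinarith [norm_nonneg x]
  have h5 : Real.log ((1 - (1 - 1) * ‖x‖) / (1 - (1 - s) * ‖x‖)) ≤ Real.log (1 / s) := by
    have : (1 - (1 - 1) * ‖x‖) = 1 := by ring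
    rw [this]
    apply Real.log_le_log
    · apply div_pos one_pos; linarith
    · apply div_le_div_of_nonneg_left zero_le_one hs; linarith
  have h6 : deriv f ((1 - s) * x) = (deriv f ((1 - s) * x) - deriv f 0) + deriv f 0 := by ring
  rw [h6]
  refine (norm_add_le _ _).trans ?_
  have := mul_le_mul_of_nonneg_left h5 hA
  linarith

lemma local_affine_open {f : ℂ → ℂ} {A : ℝ} (hf : DifferentiableOn ℂ f (ball 0 1))
    (h2 : ∀ z ∈ ball (0 : ℂ) 1, ‖deriv (deriv f) z‖ ≤ A / (1 - ‖z‖))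
    {x w : ℂ} (hx : ‖x‖ < 1) (hw : ‖w‖ < 1) {t : ℝ} (ht : 0 < t) (ht1 : t ≤ 1)
    (hwx : ‖w - x‖ ≤ 2 * t) :
    ‖f w - f x - deriv f ((1 - t) * x) * (w - x)‖ ≤ 10 * A * t := by
  have hA := SD.A_nonneg h2
  have hp : ‖((1 - t : ℝ) : ℂ) * x‖ ≤ 1 - t := by
    rw [norm_mul, Complex.norm_real, Real.norm_eq_abs, abs_of_nonneg (by linarith)]
    nlinarith [norm_nonneg x]
  have e : ((1 - t : ℝ) : ℂ) = 1 - (t : ℂ) := by push_cast; ring
  rw [e] at hp
  set p : ℂ := (1 - (t : ℂ)) * x with hpdef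
  have hxp : ‖x - p‖ ≤ t := by
    have : x - p = (t : ℂ) * x := by rw [hpdef]; ring
    rw [this, norm_mul, Complex.norm_real, Real.norm_eq_abs, abs_of_pos ht]
    nlinarith [norm_nonneg x]
  have hwp : ‖w - p‖ ≤ 3 * t := by
    have : w - p = (w - x) + (x - p) := by ring
    rw [this]
    exact (norm_add_le _ _).trans (by linarith)
  have h3 := SD.taylor_seg_open hf h2 ht hp hw
  have h4 := SD.taylor_seg_open hf h2 ht hp hx
  have h5 : A * ‖w - p‖ ^ 2 / t ≤ 9 * A * t := by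
    rw [div_le_iff₀ ht]
    have : ‖w - p‖ ^ 2 ≤ (3 * t) ^ 2 := pow_le_pow_left₀ (norm_nonneg _) hwp 2
    nlinarith [mul_le_mul_of_nonneg_left this hA]
  have h6 : A * ‖x - p‖ ^ 2 / t ≤ A * t := by
    rw [div_le_iff₀ ht]
    have : ‖x - p‖ ^ 2 ≤ t ^ 2 := pow_le_pow_left₀ (norm_nonneg _) hxp 2
    nlinarith [mul_le_mul_of_nonneg_left this hA]
  have h7 : f w - f x - deriv f p * (w - x) =
      (f w - f p - deriv f p * (w - p)) - (f x - f p - deriv f p * (x - p)) := by ring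
  rw [h7]
  refine (norm_sub_le _ _).trans ?_
  linarith

lemma log_inv_le {t : ℝ} (ht : 0 < t) : Real.log (1 / t) * t ≤ 2 * √t := by
  have hs : 0 < √t := Real.sqrt_pos.2 ht
  have h1 : Real.log (1 / t) = 2 * Real.log (1 / √t) := by
    have : 1 / t = (1 / √t) ^ 2 := by
      rw [div_pow, one_pow, Real.sq_sqrt ht.le]
    rw [this, Real.log_pow]; norm_num
  have h2 : Real.log (1 / √t) ≤ 1 / √t := by
    have := Real.log_le_sub_one_of_pos (one_div_pos.2 hs)
    linarith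
  rw [h1]
  have h3 : √t * √t = t := Real.mul_self_sqrt ht.le
  calc 2 * Real.log (1 / √t) * t ≤ 2 * (1 / √t) * t := by
        apply mul_le_mul_of_nonneg_right _ ht.le
        linarith
    _ = 2 * √t := by
        field_simp
        nlinarith

lemma holder_small {f : ℂ → ℂ} {A B : ℝ} (hf : DifferentiableOn ℂ f (ball 0 1))
    (h2 : ∀ z ∈ ball (0 : ℂ) 1, ‖deriv (deriv f) z‖ ≤ A / (1 - ‖z‖)) (h1 : ‖deriv f 0‖ ≤ B)
    {x w : ℂ} (hx : ‖x‖ < 1) (hw : ‖w‖ < 1) (hwx : ‖w - x‖ ≤ 1) :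
    ‖f w - f x‖ ≤ (12 * A + B) * √‖w - x‖ := by
  have hA := SD.A_nonneg h2
  have hB : 0 ≤ B := (norm_nonneg _).trans h1
  rcases eq_or_ne w x with rfl | hne
  · simp
  have ht : 0 < ‖w - x‖ := norm_pos_iff.2 (sub_ne_zero.2 hne)
  set t := ‖w - x‖ with htdef
  have h3 := local_affine_open hf h2 hx hw ht hwx (by linarith)
  have h4 := deriv_near hf h2 h1 hx.le ht hwx
  have h5 : f w - f x = (f w - f x - deriv f ((1 - t) * x) * (w - x)) +
      deriv f ((1 - t) * x) * (w - x) := by ring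
  have h6 : t ≤ √t := by
    rw [Real.le_sqrt ht.le ht.le] 
    nlinarith
  have h7 := log_inv_le ht
  rw [h5]
  calc _ ≤ 10 * A * t + (B + A * Real.log (1 / t)) * t := by
        refine (norm_add_le _ _).trans (add_le_add h3 ?_)
        rw [norm_mul]
        exact mul_le_mul_of_nonneg_right h4 (norm_nonneg _)
    _ = 10 * A * t + B * t + A * (Real.log (1 / t) * t) := by ring
    _ ≤ 10 * A * √t + B * √t + A * (2 * √t) := by
        have a1 := mul_le_mul_of_nonneg_left h6 hA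
        have a2 := mul_le_mul_of_nonneg_left h6 hB
        have a3 := mul_le_mul_of_nonneg_left h7 hA
        linarith
    _ = (12 * A + B) * √t := by ring

lemma holder {f : ℂ → ℂ} {A B : ℝ} (hf : DifferentiableOn ℂ f (ball 0 1))
    (h2 : ∀ z ∈ ball (0 : ℂ) 1, ‖deriv (deriv f) z‖ ≤ A / (1 - ‖z‖)) (h1 : ‖deriv f 0‖ ≤ B)
    {x w : ℂ} (hx : ‖x‖ < 1) (hw : ‖w‖ < 1) :
    ‖f w - f x‖ ≤ 2 * (12 * A + B) * √‖w - x‖ := by
  have hA := SD.A_nonneg h2
  have hB : 0 ≤ B := (norm_nonneg _).trans h1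
  set m : ℂ := (x + w) / 2 with hm
  have hm1 : ‖m‖ < 1 := by
    rw [hm, norm_div, Complex.norm_two]
    have := norm_add_le x w
    linarith
  have e1 : ‖w - m‖ = ‖w - x‖ / 2 := by
    have : w - m = (w - x) / 2 := by rw [hm]; ring
    rw [this, norm_div, Complex.norm_two]
  have e2 : ‖m - x‖ = ‖w - x‖ / 2 := by
    have : m - x = (w - x) / 2 := by rw [hm]; ring
    rw [this, norm_div, Complex.norm_two]
  have h0 : ‖w - x‖ ≤ 2 := (norm_sub_le _ _).trans (by linarith)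
  have h3 := holder_small hf h2 h1 hm1 hw (by rw [e1]; linarith)
  have h4 := holder_small hf h2 h1 hx hm1 (by rw [e2]; linarith)
  rw [e1] at h3
  rw [e2] at h4
  have h5 : √(‖w - x‖ / 2) ≤ √‖w - x‖ := Real.sqrt_le_sqrt (by linarith [norm_nonneg (w - x)])
  have h6 : f w - f x = (f w - f m) + (f m - f x) := by ring
  rw [h6]
  refine (norm_add_le _ _).trans ?_
  have h7 : 0 ≤ 12 * A + B := by positivity
  have := mul_le_mul_of_nonneg_left h5 h7
  linarith

/-! ### Extension to the closed disc -/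

lemma extension {f : ℂ → ℂ} {A B : ℝ} (hf : DifferentiableOn ℂ f (ball 0 1))
    (h2 : ∀ z ∈ ball (0 : ℂ) 1, ‖deriv (deriv f) z‖ ≤ A / (1 - ‖z‖)) (h1 : ‖deriv f 0‖ ≤ B) :
    ∃ F : ℂ → ℂ, DifferentiableOn ℂ F (ball 0 1) ∧ ContinuousOn F (closedBall 0 1) ∧
      (∀ z ∈ ball (0 : ℂ) 1, F z = f z) ∧
      (∀ z ∈ ball (0 : ℂ) 1, ‖deriv (deriv F) z‖ ≤ A / (1 - ‖z‖)) ∧ ‖deriv F 0‖ ≤ B := by
  have hA := SD.A_nonneg h2
  have hB : 0 ≤ B := (norm_nonneg _).trans h1
  have huc : UniformContinuousOn f (ball 0 1) := by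
    rw [Metric.uniformContinuousOn_iff]
    intro ε hε
    set L := 2 * (12 * A + B) + 1 with hL
    have hL0 : 0 < L := by positivity
    refine ⟨(ε / L) ^ 2, by positivity, ?_⟩
    intro x hx y hy hxy
    rw [mem_ball_zero_iff] at hx hy
    rw [dist_eq_norm] at hxy ⊢
    have h3 := holder hf h2 h1 hy hx
    have h4 : √‖x - y‖ < ε / L := by
      rw [Real.sqrt_lt' (by positivity)]
      exact hxy
    calc ‖f x - f y‖ ≤ 2 * (12 * A + B) * √‖x - y‖ := h3
      _ ≤ L * √‖x - y‖ := mul_le_mul_of_nonneg_right (by rw [hL]; linarith) (Real.sqrt_nonneg _)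
      _ < L * (ε / L) := mul_lt_mul_of_pos_left h4 hL0
      _ = ε := by field_simp
  have hcl : closure (ball (0 : ℂ) 1) = closedBall 0 1 := closure_ball _ one_ne_zero
  have hlim : ∀ x ∈ closedBall (0 : ℂ) 1, ∃ y, Tendsto f (𝓝[ball 0 1] x) (𝓝 y) := by
    intro x hx
    rw [← hcl, mem_closure_iff_nhdsWithin_neBot] at hx
    have hc : Cauchy (𝓝[ball (0 : ℂ) 1] x) := cauchy_nhds.mono' hx nhdsWithin_le_nhds
    have hm : Cauchy (map f (𝓝[ball (0 : ℂ) 1] x)) :=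
      hc.map_of_le huc (le_principal_iff.2 self_mem_nhdsWithin)
    exact CompleteSpace.complete hm
  have heq : ∀ z ∈ ball (0 : ℂ) 1, extendFrom (ball 0 1) f z = f z :=
    extendFrom_extends hf.continuousOn
  have hd1 : ∀ z ∈ ball (0 : ℂ) 1, deriv (extendFrom (ball 0 1) f) z = deriv f z := by
    intro z hz
    apply Filter.EventuallyEq.deriv_eq
    filter_upwards [isOpen_ball.mem_nhds hz] with w hw using heq w hw
  refine ⟨extendFrom (ball 0 1) f, hf.congr heq, ?_, heq, ?_, ?_⟩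
  · rw [← hcl]
    exact continuousOn_extendFrom subset_rfl (fun x hx => hlim x (hcl ▸ hx))
  · intro z hz
    have : deriv (deriv (extendFrom (ball 0 1) f)) z = deriv (deriv f) z := by
      apply Filter.EventuallyEq.deriv_eq
      filter_upwards [isOpen_ball.mem_nhds hz] with w hw using hd1 w hw
    rw [this]
    exact h2 z hz
  · rw [hd1 0 (by simp)]
    exact h1

lemma exp_close (t h : ℝ) : ‖exp ((t + h : ℝ) * I) - exp (t * I)‖ ≤ |h| := by
  have e : exp ((t + h : ℝ) * I) - exp (t * I) = exp (t * I) * (exp (I * h) - 1) := by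
    rw [mul_sub, ← Complex.exp_add, mul_one]
    congr 2
    push_cast; ring
  rw [e, norm_mul, Complex.norm_exp_ofReal_mul_I, one_mul]
  exact Real.norm_exp_I_mul_ofReal_sub_one_le

lemma exp_second (t h : ℝ) : ‖exp ((t + h : ℝ) * I) + exp ((t - h : ℝ) * I) - 2 * exp (t * I)‖ ≤
    h ^ 2 := by
  have e : exp ((t + h : ℝ) * I) + exp ((t - h : ℝ) * I) - 2 * exp (t * I) =
      exp (t * I) * ((2 * Real.cos h - 2 : ℝ) : ℂ) := by
    have e1 : exp ((t + h : ℝ) * I) = exp (t * I) * exp (h * I) := by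
      rw [← Complex.exp_add]; congr 1; push_cast; ring
    have e2 : exp ((t - h : ℝ) * I) = exp (t * I) * exp (-(h : ℂ) * I) := by
      rw [← Complex.exp_add]; congr 1; push_cast; ring
    rw [e1, e2]
    push_cast
    rw [Complex.two_cos]
    ring
  rw [e, norm_mul, Complex.norm_exp_ofReal_mul_I, one_mul, Complex.norm_real, Real.norm_eq_abs,
    abs_le]
  have h1 := Real.one_sub_sq_div_two_le_cos (x := h)
  have h2 := Real.cos_le_one h
  constructor <;> nlinarith [sq_nonneg h]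

lemma lamStar_of_bounds {F : ℂ → ℂ} {A B : ℝ} (hd : DifferentiableOn ℂ F (ball 0 1))
    (hc : ContinuousOn F (closedBall 0 1))
    (h2 : ∀ z ∈ ball (0 : ℂ) 1, ‖deriv (deriv F) z‖ ≤ A / (1 - ‖z‖)) (h1 : ‖deriv F 0‖ ≤ B) :
    LamStar F := by
  have hA := SD.A_nonneg h2
  have hB : 0 ≤ B := (norm_nonneg _).trans h1
  obtain ⟨K, hK, hloc⟩ := local_affine
  obtain ⟨M, hM⟩ := (isCompact_closedBall (0 : ℂ) 1).exists_bound_of_continuousOn hc
  have hM0 : 0 ≤ M := (norm_nonneg _).trans (hM 0 (by simp))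
  refine ⟨hd, hc, 2 * K * A + B + 2 * A + 4 * M, ?_⟩
  intro t h
  have hn : ∀ s : ℝ, ‖exp (s * I)‖ = 1 := Complex.norm_exp_ofReal_mul_I
  have hmem : ∀ s : ℝ, exp ((s : ℂ) * I) ∈ closedBall (0 : ℂ) 1 := fun s => by
    rw [mem_closedBall_zero_iff, hn]
  rcases le_or_gt |h| 1 with hh | hh
  · rcases eq_or_ne h 0 with rfl | hne
    · simp
      ring_nf
    · have hτ : 0 < |h| := abs_pos.2 hne
      have b1 := hloc F A hd hc h2 (exp (t * I)) (exp ((t + h : ℝ) * I)) (hn t).le (hn _).le |h| hτ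
        hh ((exp_close t h).trans (by linarith))
      have b2 := hloc F A hd hc h2 (exp (t * I)) (exp ((t - h : ℝ) * I)) (hn t).le (hn _).le |h| hτ
        hh (by
          have := exp_close t (-h)
          rw [abs_neg, ← sub_eq_add_neg] at this
          linarith)
      have b3 := exp_second t h
      have b4 := deriv_near hd h2 h1 (hn t).le hτ hh
      set p : ℂ := (1 - (|h| : ℝ)) * exp (t * I) with hp
      have e : F (exp ((t + h : ℝ) * I)) + F (exp ((t - h : ℝ) * I)) - 2 * F (exp (t * I)) =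
          (F (exp ((t + h : ℝ) * I)) - F (exp (t * I)) -
            deriv F p * (exp ((t + h : ℝ) * I) - exp (t * I))) +
          (F (exp ((t - h : ℝ) * I)) - F (exp (t * I)) -
            deriv F p * (exp ((t - h : ℝ) * I) - exp (t * I))) +
          deriv F p * (exp ((t + h : ℝ) * I) + exp ((t - h : ℝ) * I) - 2 * exp (t * I)) := by ring
      have h4 : Real.log (1 / |h|) * |h| ≤ 1 := by
        have := Real.log_le_sub_one_of_pos (one_div_pos.2 hτ)
        have h5 : (1 / |h| - 1) * |h| ≤ 1 := by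
          rw [sub_mul, one_div, inv_mul_cancel₀ hτ.ne']; linarith
        exact (mul_le_mul_of_nonneg_right this hτ.le).trans h5
      have h6 : ‖deriv F p‖ * h ^ 2 ≤ (B + A) * |h| := by
        have h7 : 0 ≤ Real.log (1 / |h|) := Real.log_nonneg (by
          rw [le_div_iff₀ hτ]; linarith)
        calc ‖deriv F p‖ * h ^ 2 ≤ (B + A * Real.log (1 / |h|)) * h ^ 2 :=
              mul_le_mul_of_nonneg_right b4 (sq_nonneg h)
          _ = (B * |h| + A * (Real.log (1 / |h|) * |h|)) * |h| := by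
              rw [← sq_abs h]; ring
          _ ≤ (B * 1 + A * 1) * |h| := by
              apply mul_le_mul_of_nonneg_right _ hτ.le
              exact add_le_add (mul_le_mul_of_nonneg_left hh hB) (mul_le_mul_of_nonneg_left h4 hA)
          _ = (B + A) * |h| := by ring
      rw [e]
      refine (norm_add_le _ _).trans ?_
      have c1 : ‖deriv F p * (exp ((t + h : ℝ) * I) + exp ((t - h : ℝ) * I) - 2 * exp (t * I))‖ ≤
          (B + A) * |h| := by
        rw [norm_mul]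
        exact (mul_le_mul_of_nonneg_left b3 (norm_nonneg _)).trans h6
      have c2 := (norm_add_le (F (exp ((t + h : ℝ) * I)) - F (exp (t * I)) -
            deriv F p * (exp ((t + h : ℝ) * I) - exp (t * I)))
          (F (exp ((t - h : ℝ) * I)) - F (exp (t * I)) -
            deriv F p * (exp ((t - h : ℝ) * I) - exp (t * I))))
      have c3 : 0 ≤ A * |h| := by positivity
      have c4 : 0 ≤ M * |h| := by positivity
      nlinarith
  · have a1 := hM _ (hmem (t + h))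
    have a2 := hM _ (hmem (t - h))
    have a3 := hM _ (hmem t)
    have h3 : ‖F (exp ((t + h : ℝ) * I)) + F (exp ((t - h : ℝ) * I)) - 2 * F (exp (t * I))‖ ≤
        4 * M := by
      refine (norm_sub_le _ _).trans ?_
      have := norm_add_le (F (exp ((t + h : ℝ) * I))) (F (exp ((t - h : ℝ) * I)))
      rw [norm_mul, Complex.norm_two]
      linarith
    have c1 : 0 ≤ 2 * K * A + B + 2 * A := by positivity
    calc _ ≤ 4 * M := h3
      _ ≤ (2 * K * A + B + 2 * A + 4 * M) * 1 := by linarith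
      _ ≤ _ := mul_le_mul_of_nonneg_left hh.le (by positivity)

/-! ### Limits along an ultrafilter -/

lemma local_est {f : ℂ → ℂ} {K : ℝ} (hf : DifferentiableOn ℂ f (ball 0 1))
    (h2 : ∀ z ∈ ball (0 : ℂ) 1, ‖deriv (deriv f) z‖ ≤ K / (1 - ‖z‖)) {z : ℂ} {δ : ℝ}
    (_hδ : 0 < δ) (hz : ‖z‖ + δ < 1) {w : ℂ} (hw : ‖w - z‖ ≤ δ) :
    ‖deriv f w - deriv f z‖ ≤ K / (1 - (‖z‖ + δ)) * ‖w - z‖ ∧
    ‖f w - f z - deriv f z * (w - z)‖ ≤ K / (1 - (‖z‖ + δ)) * ‖w - z‖ ^ 2 := by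
  have hK := SD.A_nonneg h2
  set M := K / (1 - (‖z‖ + δ)) with hM
  have hM0 : 0 ≤ M := div_nonneg hK (by linarith)
  have hin : ∀ u ∈ closedBall z ‖w - z‖, ‖u‖ ≤ ‖z‖ + δ := by
    intro u hu
    rw [mem_closedBall, dist_eq_norm] at hu
    have : u = z + (u - z) := by ring
    rw [this]
    exact (norm_add_le _ _).trans (by linarith)
  have hinb : ∀ u ∈ closedBall z ‖w - z‖, u ∈ ball (0 : ℂ) 1 := fun u hu => by
    rw [mem_ball_zero_iff]; linarith [hin u hu]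
  have hwm : w ∈ closedBall z ‖w - z‖ := by rw [mem_closedBall, dist_eq_norm]
  have hzm : z ∈ closedBall z ‖w - z‖ := mem_closedBall_self (norm_nonneg _)
  have hbd : ∀ u ∈ closedBall z ‖w - z‖, ‖deriv (deriv f) u‖ ≤ M := by
    intro u hu
    refine (h2 u (hinb u hu)).trans ?_
    apply div_le_div_of_nonneg_left hK (by linarith)
    linarith [hin u hu]
  have key : ∀ u ∈ closedBall z ‖w - z‖, ‖deriv f u - deriv f z‖ ≤ M * ‖u - z‖ := by
    intro u hu
    exact (convex_closedBall z ‖w - z‖).norm_image_sub_le_of_norm_hasDerivWithin_le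
      (fun v hv => (SD.deriv_diff hf (hinb v hv)).hasDerivWithinAt) hbd hzm hu
  refine ⟨key w hwm, ?_⟩
  have hg : ∀ u ∈ closedBall z ‖w - z‖, HasDerivWithinAt (fun u => f u - deriv f z * u)
      (deriv f u - deriv f z) (closedBall z ‖w - z‖) u := by
    intro u hu
    have h3 := (hf.differentiableAt (isOpen_ball.mem_nhds (hinb u hu))).hasDerivAt
    have h4 := h3.sub ((hasDerivAt_id u).const_mul (deriv f z))
    rw [mul_one] at h4
    exact h4.hasDerivWithinAt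
  have h5 := (convex_closedBall z ‖w - z‖).norm_image_sub_le_of_norm_hasDerivWithin_le
    (C := M * ‖w - z‖) hg (fun u hu => by
      refine (key u hu).trans (mul_le_mul_of_nonneg_left ?_ hM0)
      rwa [mem_closedBall, dist_eq_norm] at hu) hzm hwm
  have e : f w - f z - deriv f z * (w - z) = (f w - deriv f z * w) - (f z - deriv f z * z) := by
    ring
  rw [e]
  calc _ ≤ M * ‖w - z‖ * ‖w - z‖ := h5
    _ = M * ‖w - z‖ ^ 2 := by ring

lemma exists_limit {K : ℝ} {g : ℕ → ℂ → ℂ} (hd : ∀ n, DifferentiableOn ℂ (g n) (ball 0 1))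
    (h2 : ∀ n, ∀ z ∈ ball (0 : ℂ) 1, ‖deriv (deriv (g n)) z‖ ≤ K / (1 - ‖z‖))
    (h1 : ∀ n, ‖deriv (g n) 0‖ ≤ K) (h0 : ∀ n, ‖g n 0‖ ≤ K) (U : Ultrafilter ℕ) :
    ∃ f : ℂ → ℂ, DifferentiableOn ℂ f (ball 0 1) ∧
      (∀ z ∈ ball (0 : ℂ) 1, ‖deriv (deriv f) z‖ ≤ K / (1 - ‖z‖)) ∧ ‖deriv f 0‖ ≤ K ∧
      ∀ z ∈ ball (0 : ℂ) 1, Tendsto (fun n => g n z) U (𝓝 (f z)) := by
  have hK : 0 ≤ K := (norm_nonneg _).trans (h0 0)
  have hlim : ∀ (c : ℕ → ℂ) (R : ℝ), (∀ n, ‖c n‖ ≤ R) → ∃ y, Tendsto c U (𝓝 y) := by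
    intro c R hR
    obtain ⟨y, -, hy⟩ := (isCompact_closedBall (0 : ℂ) R).ultrafilter_le_nhds (U.map c) (by
      rw [le_principal_iff]
      have hm : c ⁻¹' closedBall (0 : ℂ) R ∈ (U : Filter ℕ) := Filter.univ_mem' fun n => by
        rw [mem_preimage, mem_closedBall_zero_iff]; exact hR n
      exact hm)
    exact ⟨y, hy⟩
  have hfex : ∀ z : ℂ, ∃ y, z ∈ ball (0 : ℂ) 1 → Tendsto (fun n => g n z) U (𝓝 y) := by
    intro z
    by_cases hz : z ∈ ball (0 : ℂ) 1
    · rw [mem_ball_zero_iff] at hz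
      obtain ⟨y, hy⟩ := hlim (fun n => g n z) (K + 2 * (12 * K + K) * √‖z - 0‖) (fun n => by
        have h3 := holder (hd n) (h2 n) (h1 n) (x := 0) (w := z) (by simp) hz
        have : g n z = g n 0 + (g n z - g n 0) := by ring
        rw [this]
        exact (norm_add_le _ _).trans (add_le_add (h0 n) h3))
      exact ⟨y, fun _ => hy⟩
    · exact ⟨0, fun h => absurd h hz⟩
  choose f hf using hfex
  have hgex : ∀ z : ℂ, ∃ y, z ∈ ball (0 : ℂ) 1 → Tendsto (fun n => deriv (g n) z) U (𝓝 y) := by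
    intro z
    by_cases hz : z ∈ ball (0 : ℂ) 1
    · rw [mem_ball_zero_iff] at hz
      obtain ⟨y, hy⟩ := hlim (fun n => deriv (g n) z)
        (K + K / (1 - (‖(0 : ℂ)‖ + (‖z‖ + 1) / 2)) * ‖z - 0‖) (fun n => by
        have h3 := (local_est (hd n) (h2 n) (z := 0) (δ := (‖z‖ + 1) / 2)
          (by linarith [norm_nonneg z]) (by simp; linarith) (w := z) (by simp; linarith)).1
        have : deriv (g n) z = deriv (g n) 0 + (deriv (g n) z - deriv (g n) 0) := by ring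
        rw [this]
        exact (norm_add_le _ _).trans (add_le_add (h1 n) h3))
      exact ⟨y, fun _ => hy⟩
    · exact ⟨0, fun h => absurd h hz⟩
  choose f' hf' using hgex
  have hle : ∀ (z w : ℂ) (δ : ℝ), 0 < δ → ‖z‖ + δ < 1 → ‖w - z‖ ≤ δ →
      ‖f' w - f' z‖ ≤ K / (1 - (‖z‖ + δ)) * ‖w - z‖ ∧
      ‖f w - f z - f' z * (w - z)‖ ≤ K / (1 - (‖z‖ + δ)) * ‖w - z‖ ^ 2 := by
    intro z w δ hδ hz hw
    have hzb : z ∈ ball (0 : ℂ) 1 := by rw [mem_ball_zero_iff]; linarith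
    have hwb : w ∈ ball (0 : ℂ) 1 := by
      rw [mem_ball_zero_iff]
      have : w = z + (w - z) := by ring
      rw [this]
      exact (norm_add_le _ _).trans_lt (by linarith)
    constructor
    · have h3 : Tendsto (fun n => ‖deriv (g n) w - deriv (g n) z‖) U (𝓝 ‖f' w - f' z‖) :=
        ((hf' w hwb).sub (hf' z hzb)).norm
      exact le_of_tendsto h3 (Eventually.of_forall fun n =>
        (local_est (hd n) (h2 n) hδ hz hw).1)
    · have h3 : Tendsto (fun n => ‖g n w - g n z - deriv (g n) z * (w - z)‖) U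
          (𝓝 ‖f w - f z - f' z * (w - z)‖) :=
        (((hf w hwb).sub (hf z hzb)).sub ((hf' z hzb).mul_const _)).norm
      exact le_of_tendsto h3 (Eventually.of_forall fun n =>
        (local_est (hd n) (h2 n) hδ hz hw).2)
  have hder : ∀ z ∈ ball (0 : ℂ) 1, HasDerivAt f (f' z) z := by
    intro z hz
    rw [mem_ball_zero_iff] at hz
    set δ := (1 - ‖z‖) / 2 with hδ
    have hδ0 : 0 < δ := by linarith
    have hzδ : ‖z‖ + δ < 1 := by linarith
    have h3 : (fun w => f w - f z - f' z * (w - z)) =O[𝓝 z] fun w => ‖w - z‖ ^ 2 := by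
      refine Asymptotics.IsBigO.of_bound (K / (1 - (‖z‖ + δ))) ?_
      filter_upwards [Metric.closedBall_mem_nhds z hδ0] with w hw
      rw [mem_closedBall, dist_eq_norm] at hw
      have := (hle z w δ hδ0 hzδ hw).2
      rw [norm_pow, norm_norm]
      exact this
    have h4 := (h3.hasFDerivAt one_lt_two).hasDerivAt
    have h5 : HasDerivAt (fun w => f z + f' z * (w - z)) (f' z) z := by
      have := (((hasDerivAt_id z).sub_const z).const_mul (f' z)).const_add (f z)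
      simpa using this
    have h6 := h4.add h5
    have e : ((fun w => f w - f z - f' z * (w - z)) + fun w => f z + f' z * (w - z)) = f := by
      funext w; simp only [Pi.add_apply]; ring
    rw [e] at h6
    simpa using h6
  have hd1 : DifferentiableOn ℂ f (ball 0 1) := fun z hz =>
    (hder z hz).differentiableAt.differentiableWithinAt
  have hdf : ∀ z ∈ ball (0 : ℂ) 1, deriv f z = f' z := fun z hz => (hder z hz).deriv
  refine ⟨f, hd1, ?_, ?_, fun z hz => hf z hz⟩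
  · intro z hz
    have hz' := hz
    rw [mem_ball_zero_iff] at hz'
    have hcont : Tendsto (fun δ : ℝ => K / (1 - (‖z‖ + δ))) (𝓝[>] 0) (𝓝 (K / (1 - ‖z‖))) := by
      have h3 : ContinuousAt (fun δ : ℝ => K / (1 - (‖z‖ + δ))) 0 := by
        have : (1 - (‖z‖ + (0 : ℝ))) ≠ 0 := by rw [add_zero]; linarith
        fun_prop (disch := assumption)
      have h4 := h3.tendsto
      rw [add_zero] at h4
      exact h4.mono_left nhdsWithin_le_nhds
    refine ge_of_tendsto hcont ?_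
    have hpos : (0 : ℝ) < 1 - ‖z‖ := by linarith
    filter_upwards [Ioo_mem_nhdsGT hpos] with δ hδ
    have hzδ : ‖z‖ + δ < 1 := by linarith [hδ.2]
    refine (SD.deriv_diff hd1 hz).le_of_lip' (div_nonneg hK (by linarith)) ?_
    filter_upwards [Metric.closedBall_mem_nhds z hδ.1, isOpen_ball.mem_nhds hz] with w hw hwb
    rw [mem_closedBall, dist_eq_norm] at hw
    rw [hdf w hwb, hdf z hz]
    exact (hle z w δ hδ.1 hzδ hw).1
  · rw [hdf 0 (by simp)]
    exact le_of_tendsto (hf' 0 (by simp)).norm (Eventually.of_forall fun n => h1 n)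

/-! ### The conditions for finite subsets moved into the open disc -/

lemma sinAng_nonneg (x y z : ℂ) : 0 ≤ sinAng x y z :=
  div_nonneg (abs_nonneg _) (mul_nonneg (norm_nonneg _) (norm_nonneg _))

lemma one_le_lft {x y z : ℂ} (hxy : x ≠ y) (h1 : ‖x - y‖ ≤ ‖x - z‖) (h2 : ‖x - z‖ ≤ 2) :
    1 + Real.log (‖x - z‖ / ‖x - y‖) ≤ lft x y z ∧ 1 ≤ lft x y z := by
  have hr : 0 < ‖x - y‖ := norm_pos_iff.2 (sub_ne_zero.2 hxy)
  have hR : 0 < ‖x - z‖ := hr.trans_le h1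
  have a1 : 0 ≤ Real.log (‖x - z‖ / ‖x - y‖) := Real.log_nonneg (by
    rw [le_div_iff₀ hr]; linarith)
  have a2 : 0 ≤ Real.log (4 / ‖x - z‖) := Real.log_nonneg (by
    rw [le_div_iff₀ hR]; linarith)
  have a3 := mul_nonneg (sinAng_nonneg x y z) a2
  unfold lft
  constructor <;> linarith

lemma kap_nonneg {x y z : ℂ} (hxy : x ≠ y) (h1 : ‖x - y‖ ≤ ‖x - z‖) : 0 ≤ kap x y z := by
  have hr : 0 < ‖x - y‖ := norm_pos_iff.2 (sub_ne_zero.2 hxy)
  have hm : 0 < max ‖x - y‖ (1 - ‖x‖) := lt_max_of_lt_left hr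
  have hM : 0 < max ‖x - z‖ (1 - ‖x‖) := lt_max_of_lt_left (hr.trans_le h1)
  have a1 : 0 ≤ Real.log (max ‖x - z‖ (1 - ‖x‖) / max ‖x - y‖ (1 - ‖x‖)) := Real.log_nonneg (by
    rw [le_div_iff₀ hm, one_mul]
    exact max_le_max h1 le_rfl)
  unfold kap
  exact mul_nonneg (div_nonneg (norm_nonneg _) hM.le) (by linarith)

lemma pcond_of_tcond {X : Set ℂ} (hXD : X ⊆ closedBall 0 1) {C : ℝ} (hT : TCond C X) :
    ∃ C' : ℝ, 0 < C' ∧ PCond C' X := by
  by_cases hX : ∃ p ∈ X, ∃ q ∈ X, p ≠ q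
  swap
  · refine ⟨1, one_pos, ?_⟩
    intro x hx y hy hxy
    exact absurd ⟨x, hx, y, hy, hxy⟩ hX
  obtain ⟨p, hp, q, hq, hpq⟩ := hX
  have hδ : 0 < ‖p - q‖ := norm_pos_iff.2 (sub_ne_zero.2 hpq)
  set δ := ‖p - q‖ with hδdef
  have hn : ∀ x ∈ X, ‖x‖ ≤ 1 := fun x hx => mem_closedBall_zero_iff.1 (hXD hx)
  have h2 : ∀ x ∈ X, ∀ y ∈ X, ‖x - y‖ ≤ 2 := fun x hx y hy =>
    (norm_sub_le _ _).trans (by linarith [hn x hx, hn y hy])
  have hδ2 : δ ≤ 2 := h2 p hp q hq
  have l8 : 0 ≤ Real.log (8 / δ) := Real.log_nonneg (by rw [le_div_iff₀ hδ]; linarith)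
  refine ⟨|C| + 1 + Real.log (8 / δ), by positivity, ?_⟩
  intro x hx y hy hxy
  have hr : 0 < ‖x - y‖ := norm_pos_iff.2 (sub_ne_zero.2 hxy)
  set r := ‖x - y‖ with hrdef
  have hm : 0 < max r (1 - ‖x‖) := lt_max_of_lt_left hr
  have hm2 : max r (1 - ‖x‖) ≤ 2 := max_le (h2 x hx y hy) (by linarith [norm_nonneg x])
  have lm : 0 ≤ Real.log (2 / max r (1 - ‖x‖)) := Real.log_nonneg (by
    rw [le_div_iff₀ hm]; linarith)
  rcases le_or_gt r (δ / 4) with hsmall | hbig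
  · obtain ⟨z, hz, hzR⟩ : ∃ z ∈ X, δ / 2 ≤ ‖x - z‖ := by
      by_contra hcon
      push Not at hcon
      have a1 := hcon p hp
      have a2 := hcon q hq
      have : p - q = (x - q) - (x - p) := by ring
      have a3 : δ ≤ ‖x - q‖ + ‖x - p‖ := by
        rw [hδdef, this]; exact norm_sub_le _ _
      linarith
    have hR1 : r ≤ ‖x - z‖ := by linarith
    have hR2 : r ≤ ‖y - z‖ := by
      have e : x - z = (x - y) + (y - z) := by ring
      have a1 : ‖x - z‖ ≤ r + ‖y - z‖ := by rw [e]; exact norm_add_le _ _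
      linarith
    have hRpos : 0 < ‖x - z‖ := by linarith
    have hT1 := hT x hx y hy z hz hxy hR1 hR2
    have hl := (one_le_lft hxy hR1 (h2 x hx z hz)).1
    have hM : 0 < max ‖x - z‖ (1 - ‖x‖) := lt_max_of_lt_left hRpos
    have hM2 : max ‖x - z‖ (1 - ‖x‖) ≤ 2 := max_le (h2 x hx z hz) (by linarith [norm_nonneg x])
    have hk : kap x y z ≤ 1 + Real.log (2 / max r (1 - ‖x‖)) := by
      unfold kap
      have b1 : ‖x - z‖ / max ‖x - z‖ (1 - ‖x‖) ≤ 1 := by
        rw [div_le_one hM]; exact le_max_left _ _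
      have b2 : 0 ≤ Real.log (max ‖x - z‖ (1 - ‖x‖) / max ‖x - y‖ (1 - ‖x‖)) :=
        Real.log_nonneg (by
          rw [le_div_iff₀ hm, one_mul]
          exact max_le_max hR1 le_rfl)
      have b3 : Real.log (max ‖x - z‖ (1 - ‖x‖) / max ‖x - y‖ (1 - ‖x‖)) ≤
          Real.log (2 / max r (1 - ‖x‖)) := by
        apply Real.log_le_log (div_pos hM hm)
        exact div_le_div_of_nonneg_right hM2 hm.le
      have b4 : 0 ≤ ‖x - z‖ / max ‖x - z‖ (1 - ‖x‖) := div_nonneg (norm_nonneg _) hM.le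
      nlinarith
    have hk0 := kap_nonneg hxy hR1
    have e1 : Real.log (2 / r) = Real.log (2 / ‖x - z‖) + Real.log (‖x - z‖ / r) := by
      rw [← Real.log_mul (by positivity) (by positivity)]
      congr 1
      field_simp
    have e2 : Real.log (2 / ‖x - z‖) ≤ Real.log (8 / δ) := by
      apply Real.log_le_log (by positivity)
      rw [div_le_div_iff₀ hRpos hδ]
      linarith
    have e3 : C * kap x y z ≤ |C| * (1 + Real.log (2 / max r (1 - ‖x‖))) := by
      calc C * kap x y z ≤ |C| * kap x y z := mul_le_mul_of_nonneg_right (le_abs_self C) hk0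
        _ ≤ _ := mul_le_mul_of_nonneg_left hk (abs_nonneg C)
    nlinarith [mul_nonneg l8 lm]
  · have e1 : Real.log (2 / r) ≤ Real.log (8 / δ) := by
      apply Real.log_le_log (by positivity)
      rw [div_le_div_iff₀ hr hδ]
      linarith
    have e2 : 0 ≤ |C| * (1 + Real.log (2 / max r (1 - ‖x‖))) := by positivity
    nlinarith [mul_nonneg l8 lm]

lemma kcond_scale {X : Set ℂ} (hXD : X ⊆ closedBall 0 1) {c : ℝ} (hK : KCond c X) {F : Set ℂ}
    (hF : F ⊆ X) {s : ℝ} (hs0 : 0 < s) (hs1 : s < 1) :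
    KCond (c / 2) ((fun x : ℂ => (s : ℂ) * x) '' F) := by
  intro a b hab hab2
  obtain ⟨t, ht, h⟩ := hK a b hab hab2
  refine ⟨t, ht, ?_⟩
  rintro _ ⟨x, hx, rfl⟩
  have h1 := h x (hF hx)
  have hn : ‖x‖ ≤ 1 := mem_closedBall_zero_iff.1 (hXD (hF hx))
  simp only
  have hsn : ‖(s : ℂ) * x‖ ≤ s := by
    rw [norm_mul, Complex.norm_real, Real.norm_eq_abs, abs_of_pos hs0]
    nlinarith
  have a1 : 1 - s ≤ ‖exp (t * I) - s * x‖ := by
    have := norm_sub_norm_le (exp (t * I)) ((s : ℂ) * x)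
    rw [Complex.norm_exp_ofReal_mul_I] at this
    linarith
  have a2 : c * (b - a) - (1 - s) ≤ ‖exp (t * I) - s * x‖ := by
    have e : exp (t * I) - x = (exp (t * I) - s * x) + (-((1 - s : ℝ) : ℂ) * x) := by
      push_cast; ring
    have e2 : ‖(-((1 - s : ℝ) : ℂ) * x)‖ ≤ 1 - s := by
      rw [norm_mul, norm_neg, Complex.norm_real, Real.norm_eq_abs, abs_of_pos (by linarith)]
      nlinarith [norm_nonneg x]
    rw [e] at h1
    have := norm_add_le (exp (t * I) - s * x) (-((1 - s : ℝ) : ℂ) * x)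
    linarith
  linarith

lemma cont_scale (x : ℂ) : Continuous fun s : ℝ => (s : ℂ) * x := by fun_prop

lemma cont_lft {x y z : ℂ} (hxy : x ≠ y) (hxz : x ≠ z) :
    ContinuousAt (fun s : ℝ => lft (s * x) (s * y) (s * z)) 1 := by
  have c1 : ContinuousAt (fun s : ℝ => ‖(s : ℂ) * x - s * y‖) 1 := by fun_prop
  have c2 : ContinuousAt (fun s : ℝ => ‖(s : ℂ) * x - s * z‖) 1 := by fun_prop
  have c1' : ContinuousAt (fun s : ℝ => ‖(s : ℂ) * y - s * x‖) 1 := by fun_prop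
  have c2' : ContinuousAt (fun s : ℝ => ‖(s : ℂ) * z - s * x‖) 1 := by fun_prop
  have c3 : ContinuousAt (fun s : ℝ => |(((s : ℂ) * y - s * x) *
      (starRingEnd ℂ) ((s : ℂ) * z - s * x)).im|) 1 := by
    have : Continuous (fun s : ℝ => |(((s : ℂ) * y - s * x) *
      (starRingEnd ℂ) ((s : ℂ) * z - s * x)).im|) := by
      refine continuous_abs.comp (Complex.continuous_im.comp ?_)
      exact Continuous.mul (by fun_prop) (Complex.continuous_conj.comp (by fun_prop))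
    exact this.continuousAt
  have n1 : ‖((1 : ℝ) : ℂ) * x - ((1 : ℝ) : ℂ) * y‖ ≠ 0 := by
    simpa [sub_eq_zero] using hxy
  have n2 : ‖((1 : ℝ) : ℂ) * x - ((1 : ℝ) : ℂ) * z‖ ≠ 0 := by
    simpa [sub_eq_zero] using hxz
  have n1' : ‖((1 : ℝ) : ℂ) * y - ((1 : ℝ) : ℂ) * x‖ ≠ 0 := by
    simpa [sub_eq_zero] using hxy.symm
  have n2' : ‖((1 : ℝ) : ℂ) * z - ((1 : ℝ) : ℂ) * x‖ ≠ 0 := by
    simpa [sub_eq_zero] using hxz.symm
  unfold lft sinAng
  refine ContinuousAt.add (ContinuousAt.add continuousAt_const ?_) (ContinuousAt.mul ?_ ?_)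
  · exact (c2.div c1 n1).log (div_ne_zero n2 n1)
  · exact c3.div (c1'.mul c2') (mul_ne_zero n1' n2')
  · exact (continuousAt_const.div c2 n2).log (div_ne_zero (by norm_num) n2)

lemma cont_max {x y : ℂ} :
    ContinuousAt (fun s : ℝ => max ‖(s : ℂ) * x - s * y‖ (1 - ‖(s : ℂ) * x‖)) 1 := by fun_prop

lemma max_ne {x y : ℂ} (hxy : x ≠ y) :
    max ‖((1 : ℝ) : ℂ) * x - ((1 : ℝ) : ℂ) * y‖ (1 - ‖((1 : ℝ) : ℂ) * x‖) ≠ 0 := by
  have h : 0 < ‖((1 : ℝ) : ℂ) * x - ((1 : ℝ) : ℂ) * y‖ := by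
    simpa [sub_eq_zero] using hxy
  exact (lt_max_of_lt_left h).ne'

lemma cont_kap {x y z : ℂ} (hxy : x ≠ y) (hxz : x ≠ z) :
    ContinuousAt (fun s : ℝ => kap (s * x) (s * y) (s * z)) 1 := by
  have c2 : ContinuousAt (fun s : ℝ => ‖(s : ℂ) * x - s * z‖) 1 := by fun_prop
  unfold kap
  refine ContinuousAt.mul (c2.div cont_max (max_ne hxz)) (ContinuousAt.add continuousAt_const ?_)
  exact (cont_max.div cont_max (max_ne hxy)).log (div_ne_zero (max_ne hxz) (max_ne hxy))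

lemma tcond_scale {X : Set ℂ} (hXD : X ⊆ closedBall 0 1) {C : ℝ} (hT : TCond C X) {F : Set ℂ}
    (hF : F ⊆ X) (hfin : F.Finite) {D : ℝ} (hD : 2 * C ≤ D) :
    ∀ᶠ s : ℝ in 𝓝[<] 1, TCond D ((fun x : ℂ => (s : ℂ) * x) '' F) := by
  have h1 : ∀ x ∈ F, ∀ y ∈ F, ∀ z ∈ F, ∀ᶠ s : ℝ in 𝓝[<] 1,
      (x ≠ y → ‖x - y‖ ≤ ‖x - z‖ → ‖x - y‖ ≤ ‖y - z‖ →
        lft (s * x) (s * y) (s * z) ≤ D * kap (s * x) (s * y) (s * z)) := by
    intro x hx y hy z hz
    by_cases hc : x ≠ y ∧ ‖x - y‖ ≤ ‖x - z‖ ∧ ‖x - y‖ ≤ ‖y - z‖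
    swap
    · exact Eventually.of_forall fun s a b c => absurd ⟨a, b, c⟩ hc
    obtain ⟨hxy, ha, hb⟩ := hc
    have hr : 0 < ‖x - y‖ := norm_pos_iff.2 (sub_ne_zero.2 hxy)
    have hxz : x ≠ z := by
      rintro rfl
      rw [sub_self, norm_zero] at ha
      linarith
    have hn : ∀ x ∈ X, ‖x‖ ≤ 1 := fun x hx => mem_closedBall_zero_iff.1 (hXD hx)
    have hxz2 : ‖x - z‖ ≤ 2 :=
      (norm_sub_le _ _).trans (by linarith [hn x (hF hx), hn z (hF hz)])
    have h2 := hT x (hF hx) y (hF hy) z (hF hz) hxy ha hb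
    have h3 := (one_le_lft hxy ha hxz2).2
    have hk0 := kap_nonneg hxy ha
    have hlt : lft x y z < D * kap x y z := by
      have h4 : 2 * C * kap x y z ≤ D * kap x y z := mul_le_mul_of_nonneg_right hD hk0
      linarith
    have hcont : ContinuousAt (fun s : ℝ => D * kap (s * x) (s * y) (s * z) -
        lft (s * x) (s * y) (s * z)) 1 :=
      (continuousAt_const.mul (cont_kap hxy hxz)).sub (cont_lft hxy hxz)
    have h5 : 0 < D * kap (((1 : ℝ) : ℂ) * x) (((1 : ℝ) : ℂ) * y) (((1 : ℝ) : ℂ) * z) -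
        lft (((1 : ℝ) : ℂ) * x) (((1 : ℝ) : ℂ) * y) (((1 : ℝ) : ℂ) * z) := by
      simp only [Complex.ofReal_one, one_mul]
      linarith
    have h6 := (hcont.tendsto.mono_left nhdsWithin_le_nhds : Tendsto _ (𝓝[<] (1 : ℝ)) _).eventually
      (lt_mem_nhds h5)
    filter_upwards [h6] with s hs _ _ _
    linarith
  have h2 : ∀ᶠ s : ℝ in 𝓝[<] 1, ∀ x ∈ F, ∀ y ∈ F, ∀ z ∈ F,
      (x ≠ y → ‖x - y‖ ≤ ‖x - z‖ → ‖x - y‖ ≤ ‖y - z‖ →
        lft (s * x) (s * y) (s * z) ≤ D * kap (s * x) (s * y) (s * z)) := by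
    rw [hfin.eventually_all]
    intro x hx
    rw [hfin.eventually_all]
    intro y hy
    rw [hfin.eventually_all]
    intro z hz
    exact h1 x hx y hy z hz
  have hs0 : ∀ᶠ s : ℝ in 𝓝[<] 1, 0 < s :=
    (lt_mem_nhds one_pos).filter_mono nhdsWithin_le_nhds
  filter_upwards [h2, hs0] with s hs hspos
  rintro _ ⟨x, hx, rfl⟩ _ ⟨y, hy, rfl⟩ _ ⟨z, hz, rfl⟩ hxy ha hb
  have hsc : ∀ u v : ℂ, ‖(s : ℂ) * u - s * v‖ = s * ‖u - v‖ := by
    intro u v
    rw [← mul_sub, norm_mul, Complex.norm_real, Real.norm_eq_abs, abs_of_pos hspos]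
  simp only [hsc] at ha hb
  refine hs x hx y hy z hz (fun h => hxy (by rw [h])) ?_ ?_
  · exact le_of_mul_le_mul_left ha hspos
  · exact le_of_mul_le_mul_left hb hspos

lemma pcond_scale {X : Set ℂ} (hXD : X ⊆ closedBall 0 1) {C : ℝ} (hP : PCond C X)
    {F : Set ℂ} (hF : F ⊆ X) (hfin : F.Finite) {D : ℝ} (hD : 2 * C ≤ D) :
    ∀ᶠ s : ℝ in 𝓝[<] 1, PCond D ((fun x : ℂ => (s : ℂ) * x) '' F) := by
  have hn : ∀ x ∈ X, ‖x‖ ≤ 1 := fun x hx => mem_closedBall_zero_iff.1 (hXD hx)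
  have h1 : ∀ x ∈ F, ∀ y ∈ F, ∀ᶠ s : ℝ in 𝓝[<] 1, (x ≠ y →
      1 + Real.log (2 / ‖(s : ℂ) * x - s * y‖) ≤
        D * (1 + Real.log (2 / max ‖(s : ℂ) * x - s * y‖ (1 - ‖(s : ℂ) * x‖)))) := by
    intro x hx y hy
    by_cases hxy : x = y
    · exact Eventually.of_forall fun s a => absurd hxy a
    have hr : 0 < ‖x - y‖ := norm_pos_iff.2 (sub_ne_zero.2 hxy)
    have hr2 : ‖x - y‖ ≤ 2 :=
      (norm_sub_le _ _).trans (by linarith [hn x (hF hx), hn y (hF hy)])
    have h2 := hP x (hF hx) y (hF hy) hxy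
    have hm : 0 < max ‖x - y‖ (1 - ‖x‖) := lt_max_of_lt_left hr
    have hm2 : max ‖x - y‖ (1 - ‖x‖) ≤ 2 := max_le hr2 (by linarith [norm_nonneg x])
    have lm : 0 ≤ Real.log (2 / max ‖x - y‖ (1 - ‖x‖)) := Real.log_nonneg (by
      rw [le_div_iff₀ hm]; linarith)
    have lr : 0 ≤ Real.log (2 / ‖x - y‖) := Real.log_nonneg (by
      rw [le_div_iff₀ hr]; linarith)
    have hlt : 1 + Real.log (2 / ‖x - y‖) <
        D * (1 + Real.log (2 / max ‖x - y‖ (1 - ‖x‖))) := by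
      have h4 : 2 * C * (1 + Real.log (2 / max ‖x - y‖ (1 - ‖x‖))) ≤
          D * (1 + Real.log (2 / max ‖x - y‖ (1 - ‖x‖))) :=
        mul_le_mul_of_nonneg_right hD (by linarith)
      linarith
    have c1 : ContinuousAt (fun s : ℝ => ‖(s : ℂ) * x - s * y‖) 1 := by fun_prop
    have n1 : ‖((1 : ℝ) : ℂ) * x - ((1 : ℝ) : ℂ) * y‖ ≠ 0 := by
      simpa [sub_eq_zero] using hxy
    have hcont : ContinuousAt (fun s : ℝ => D * (1 + Real.log (2 / max ‖(s : ℂ) * x - s * y‖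
        (1 - ‖(s : ℂ) * x‖))) - (1 + Real.log (2 / ‖(s : ℂ) * x - s * y‖))) 1 := by
      refine ContinuousAt.sub (ContinuousAt.mul continuousAt_const
        (ContinuousAt.add continuousAt_const ?_)) (ContinuousAt.add continuousAt_const ?_)
      · exact (continuousAt_const.div cont_max (max_ne hxy)).log
          (div_ne_zero two_ne_zero (max_ne hxy))
      · exact (continuousAt_const.div c1 n1).log (div_ne_zero two_ne_zero n1)
    have h5 : 0 < D * (1 + Real.log (2 / max ‖((1 : ℝ) : ℂ) * x - ((1 : ℝ) : ℂ) * y‖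
        (1 - ‖((1 : ℝ) : ℂ) * x‖))) -
        (1 + Real.log (2 / ‖((1 : ℝ) : ℂ) * x - ((1 : ℝ) : ℂ) * y‖)) := by
      simp only [Complex.ofReal_one, one_mul]
      linarith
    have h6 := (hcont.tendsto.mono_left nhdsWithin_le_nhds : Tendsto _ (𝓝[<] (1 : ℝ)) _).eventually
      (lt_mem_nhds h5)
    filter_upwards [h6] with s hs _
    linarith
  have h2 : ∀ᶠ s : ℝ in 𝓝[<] 1, ∀ x ∈ F, ∀ y ∈ F, (x ≠ y →
      1 + Real.log (2 / ‖(s : ℂ) * x - s * y‖) ≤
        D * (1 + Real.log (2 / max ‖(s : ℂ) * x - s * y‖ (1 - ‖(s : ℂ) * x‖)))) := by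
    rw [hfin.eventually_all]
    intro x hx
    rw [hfin.eventually_all]
    intro y hy
    exact h1 x hx y hy
  filter_upwards [h2] with s hs
  rintro _ ⟨x, hx, rfl⟩ _ ⟨y, hy, rfl⟩ hxy
  exact hs x hx y hy (fun h => hxy (by rw [h]))

lemma lamStar_const_mul {F : ℂ → ℂ} (h : LamStar F) (M : ℂ) : LamStar fun z => M * F z := by
  obtain ⟨hd, hc, C, hC⟩ := h
  refine ⟨hd.const_mul M, continuousOn_const.mul hc, ‖M‖ * C, ?_⟩
  intro t h
  have e : M * F (exp ((t + h : ℝ) * I)) + M * F (exp ((t - h : ℝ) * I)) - 2 * (M * F (exp (t * I)))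
      = M * (F (exp ((t + h : ℝ) * I)) + F (exp ((t - h : ℝ) * I)) - 2 * F (exp (t * I))) := by
    ring
  simp only
  rw [e, norm_mul, mul_assoc]
  exact mul_le_mul_of_nonneg_left (hC t h) (norm_nonneg _)

end Lim

/-! ## The quantitative statement for finite sets, and the passage to closed sets -/

/-- The quantitative sufficiency for finite subsets of the open disc. -/
def FiniteSuff (c C K : ℝ) : Prop :=
  ∀ X : Finset ℂ, (∀ x ∈ X, ‖x‖ < 1) → KCond c X → TCond C X → PCond C X →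
    ∀ φ : ℂ → ℂ, Continuous φ → (∀ z h, ‖φ (z + h) + φ (z - h) - 2 * φ z‖ ≤ ‖h‖) →
      (∀ z, ‖z‖ ≤ 8 → ‖φ z‖ ≤ 1) →
      ∃ f : ℂ → ℂ, DifferentiableOn ℂ f (ball 0 1) ∧
        (∀ z ∈ ball (0 : ℂ) 1, ‖deriv (deriv f) z‖ ≤ K / (1 - ‖z‖)) ∧
        ‖f 0‖ ≤ K ∧ ‖deriv f 0‖ ≤ K ∧ ∀ x ∈ X, f x = φ x

theorem interp_of_finite (hfin : ∀ c C : ℝ, 0 < c → ∃ K : ℝ, FiniteSuff c C K)
    {X : Set ℂ} (_hX : IsClosed X) (hXD : X ⊆ closedBall 0 1) {c C : ℝ} (hc : 0 < c)
    (hK : KCond c X) (hT : TCond C X) : IsInterp X := by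
  intro φ hφ
  obtain ⟨hφc, C0, hC0⟩ := hφ
  rcases X.eq_empty_or_nonempty with rfl | hne
  · refine ⟨fun _ => 0, ⟨by fun_prop, by fun_prop, 0, by simp⟩, by simp⟩
  -- normalisation of `φ`
  obtain ⟨B0, hB0⟩ := (isCompact_closedBall (0 : ℂ) 8).exists_bound_of_continuousOn
    hφc.continuousOn
  set M : ℝ := |C0| + |B0| + 1 with hM
  have hM0 : 0 < M := by positivity
  set ψ : ℂ → ℂ := fun z => (M : ℂ)⁻¹ * φ z with hψ
  have hMn : ‖(M : ℂ)⁻¹‖ = M⁻¹ := by
    rw [norm_inv, Complex.norm_real, Real.norm_eq_abs, abs_of_pos hM0]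
  have hψc : Continuous ψ := continuous_const.mul hφc
  have hψ1 : ∀ z h, ‖ψ (z + h) + ψ (z - h) - 2 * ψ z‖ ≤ ‖h‖ := by
    intro z h
    have e : ψ (z + h) + ψ (z - h) - 2 * ψ z =
        (M : ℂ)⁻¹ * (φ (z + h) + φ (z - h) - 2 * φ z) := by
      simp only [hψ]; ring
    rw [e, norm_mul, hMn, inv_mul_le_iff₀ hM0]
    refine (hC0 z h).trans (mul_le_mul_of_nonneg_right ?_ (norm_nonneg _))
    have := le_abs_self C0
    have := abs_nonneg B0
    linarith
  have hψ2 : ∀ z, ‖z‖ ≤ 8 → ‖ψ z‖ ≤ 1 := by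
    intro z hz
    simp only [hψ]
    rw [norm_mul, hMn, inv_mul_le_iff₀ hM0]
    refine (hB0 z (mem_closedBall_zero_iff.2 hz)).trans ?_
    have := le_abs_self B0
    have := abs_nonneg C0
    linarith
  -- a dense sequence and the finite sets
  have : Nonempty X := hne.to_subtype
  obtain ⟨d, hd⟩ := TopologicalSpace.exists_dense_seq X
  obtain ⟨C', hC', hP⟩ := Lim.pcond_of_tcond hXD hT
  obtain ⟨K, hKfin⟩ := hfin (c / 2) (max (2 * C) (2 * C')) (by positivity)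
  set F : ℕ → Finset ℂ := fun n => (Finset.range (n + 1)).image fun i => (d i : ℂ) with hF
  have hFX : ∀ n, ((F n : Finset ℂ) : Set ℂ) ⊆ X := by
    intro n x hx
    simp only [hF, Finset.coe_image, Set.mem_image] at hx
    obtain ⟨i, -, rfl⟩ := hx
    exact (d i).2
  have hchoose : ∀ n : ℕ, ∃ s : ℝ, 1 - 1 / ((n : ℝ) + 1) < s ∧ 0 < s ∧ s < 1 ∧
      TCond (max (2 * C) (2 * C')) ((fun x : ℂ => (s : ℂ) * x) '' (F n : Set ℂ)) ∧
      PCond (max (2 * C) (2 * C')) ((fun x : ℂ => (s : ℂ) * x) '' (F n : Set ℂ)) := by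
    intro n
    have e1 := Lim.tcond_scale hXD hT (hFX n) (F n).finite_toSet (le_max_left (2 * C) (2 * C'))
    have e2 := Lim.pcond_scale hXD hP (hFX n) (F n).finite_toSet (le_max_right (2 * C) (2 * C'))
    have e3 : ∀ᶠ s : ℝ in 𝓝[<] 1, 1 - 1 / ((n : ℝ) + 1) < s :=
      (lt_mem_nhds (by
        have : 0 < 1 / ((n : ℝ) + 1) := by positivity
        linarith)).filter_mono nhdsWithin_le_nhds
    have e4 : ∀ᶠ s : ℝ in 𝓝[<] 1, 0 < s :=
      (lt_mem_nhds one_pos).filter_mono nhdsWithin_le_nhds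
    have e5 : ∀ᶠ s : ℝ in 𝓝[<] 1, s < 1 := self_mem_nhdsWithin
    obtain ⟨s, h1, h2, h3, h4, h5⟩ := (e1.and (e2.and (e3.and (e4.and e5)))).exists
    exact ⟨s, h3, h4, h5, h1, h2⟩
  choose s hs1 hs0 hslt hsT hsP using hchoose
  have hn : ∀ x ∈ X, ‖x‖ ≤ 1 := fun x hx => mem_closedBall_zero_iff.1 (hXD hx)
  have hsn : ∀ n, ∀ x ∈ X, ‖(s n : ℂ) * x‖ < 1 := by
    intro n x hx
    rw [norm_mul, Complex.norm_real, Real.norm_eq_abs, abs_of_pos (hs0 n)]
    have := mul_le_mul_of_nonneg_left (hn x hx) (hs0 n).le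
    linarith [hslt n]
  have hex : ∀ n : ℕ, ∃ f : ℂ → ℂ, DifferentiableOn ℂ f (ball 0 1) ∧
        (∀ z ∈ ball (0 : ℂ) 1, ‖deriv (deriv f) z‖ ≤ K / (1 - ‖z‖)) ∧
        ‖f 0‖ ≤ K ∧ ‖deriv f 0‖ ≤ K ∧ ∀ i ≤ n, f (s n * d i) = ψ (s n * d i) := by
    intro n
    set Y : Finset ℂ := (F n).image fun x : ℂ => (s n : ℂ) * x with hY
    have hYc : (Y : Set ℂ) = (fun x : ℂ => (s n : ℂ) * x) '' (F n : Set ℂ) := by
      rw [hY, Finset.coe_image]
    obtain ⟨f, f1, f2, f3, f4, f5⟩ := hKfin Y (fun y hy => by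
        have : y ∈ (Y : Set ℂ) := hy
        rw [hYc] at this
        obtain ⟨x, hx, rfl⟩ := this
        exact hsn n x (hFX n hx))
      (by rw [hYc]; exact Lim.kcond_scale hXD hK (hFX n) (hs0 n) (hslt n))
      (by rw [hYc]; exact hsT n) (by rw [hYc]; exact hsP n) ψ hψc hψ1 hψ2
    refine ⟨f, f1, f2, f3, f4, fun i hi => f5 _ ?_⟩
    rw [hY, Finset.mem_image]
    refine ⟨d i, ?_, rfl⟩
    simp only [hF, Finset.mem_image, Finset.mem_range]
    exact ⟨i, by omega, rfl⟩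
  choose g g1 g2 g3 g4 g5 using hex
  obtain ⟨f, f1, f2, f3, f4⟩ := Lim.exists_limit g1 g2 g4 g3 (hyperfilter ℕ)
  obtain ⟨G, G1, G2, G3, G4, G5⟩ := Lim.extension f1 f2 f3
  have hGL : LamStar G := Lim.lamStar_of_bounds G1 G2 G4 G5
  have hUle : ((hyperfilter ℕ : Ultrafilter ℕ) : Filter ℕ) ≤ atTop := by
    rw [← Nat.cofinite_eq_atTop]; exact hyperfilter_le_cofinite
  have hslim : Tendsto s atTop (𝓝 1) := by
    refine tendsto_of_tendsto_of_tendsto_of_le_of_le (g := fun n : ℕ => 1 - 1 / ((n : ℝ) + 1))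
      (h := fun _ => (1 : ℝ)) ?_ tendsto_const_nhds (fun n => (hs1 n).le) (fun n => (hslt n).le)
    have := (tendsto_const_nhds (x := (1 : ℝ))).sub tendsto_one_div_add_atTop_nhds_zero_nat
    simpa using this
  -- the values at the points of the dense sequence
  have hval : ∀ i, G (d i) = ψ (d i) := by
    intro i
    have hxn := hn (d i) (d i).2
    have hpts : Tendsto (fun n => (s n : ℂ) * d i) (hyperfilter ℕ) (𝓝 (d i : ℂ)) := by
      have h1 : Tendsto (fun n => (s n : ℂ) * d i) atTop (𝓝 (((1 : ℝ) : ℂ) * d i)) :=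
        ((Complex.continuous_ofReal.tendsto 1).comp hslim).mul_const _
      simp only [Complex.ofReal_one, one_mul] at h1
      exact h1.mono_left hUle
    have hbound : ∀ z ∈ ball (0 : ℂ) 1, ‖G z - ψ (d i)‖ ≤ 2 * (12 * K + K) * √‖z - d i‖ := by
      intro z hz
      rw [G3 z hz]
      have t1 : Tendsto (fun n => ‖g n z - ψ ((s n : ℂ) * d i)‖) (hyperfilter ℕ)
          (𝓝 ‖f z - ψ (d i)‖) :=
        ((f4 z hz).sub ((hψc.tendsto _).comp hpts)).norm
      have t2 : Tendsto (fun n => 2 * (12 * K + K) * √‖z - (s n : ℂ) * d i‖) (hyperfilter ℕ)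
          (𝓝 (2 * (12 * K + K) * √‖z - d i‖)) := by
        refine Tendsto.const_mul _ ?_
        exact (Real.continuous_sqrt.tendsto _).comp ((tendsto_const_nhds.sub hpts).norm)
      refine le_of_tendsto_of_tendsto t1 t2 ?_
      have hev : ∀ᶠ n in ((hyperfilter ℕ : Ultrafilter ℕ) : Filter ℕ), i ≤ n :=
        (eventually_ge_atTop i).filter_mono hUle
      filter_upwards [hev] with n hin
      rw [← g5 n i hin]
      exact Lim.holder (g1 n) (g2 n) (g4 n) (hsn n (d i) (d i).2) (mem_ball_zero_iff.1 hz)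
    have hcl : (d i : ℂ) ∈ closure (ball (0 : ℂ) 1) := by
      rw [closure_ball _ one_ne_zero]; exact hXD (d i).2
    have := mem_closure_iff_nhdsWithin_neBot.1 hcl
    have hG : Tendsto G (𝓝[ball 0 1] (d i : ℂ)) (𝓝 (G (d i))) :=
      (G2 (d i) (hXD (d i).2)).mono_left (nhdsWithin_mono _ ball_subset_closedBall)
    have h1 : Tendsto (fun z => ‖G z - ψ (d i)‖) (𝓝[ball 0 1] (d i : ℂ))
        (𝓝 ‖G (d i) - ψ (d i)‖) := (hG.sub_const _).norm
    have h2 : Tendsto (fun z : ℂ => 2 * (12 * K + K) * √‖z - d i‖) (𝓝[ball 0 1] (d i : ℂ))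
        (𝓝 (2 * (12 * K + K) * √‖(d i : ℂ) - d i‖)) := by
      have : Continuous fun z : ℂ => 2 * (12 * K + K) * √‖z - d i‖ := by fun_prop
      exact (this.tendsto _).mono_left nhdsWithin_le_nhds
    have h3 := le_of_tendsto_of_tendsto h1 h2 (by
      filter_upwards [self_mem_nhdsWithin] with z hz using hbound z hz)
    simp only [sub_self, norm_zero, Real.sqrt_zero, mul_zero] at h3
    exact sub_eq_zero.1 (norm_eq_zero.1 (le_antisymm h3 (norm_nonneg _)))
  have hall : ∀ x ∈ X, G x = ψ x := by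
    have c1 : Continuous fun x : X => G x := (G2.mono hXD).domRestrict
    have c2 : Continuous fun x : X => ψ x := hψc.comp continuous_subtype_val
    have := hd.equalizer c1 c2 (funext fun i => hval i)
    intro x hx
    exact congrFun this ⟨x, hx⟩
  refine ⟨fun z => (M : ℂ) * G z, Lim.lamStar_const_mul hGL M, fun x hx => ?_⟩
  simp only
  rw [hall x hx]
  simp only [hψ]
  rw [← mul_assoc, mul_inv_cancel₀ (by exact_mod_cast hM0.ne'), one_mul]

end Pool.Agent.H82.Zyg
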