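import Mathlib
import Pool.Agent.H82.Zyg.Defs

/-!
# The tree of occupied arcs
-/

namespace Pool.Agent.H82.Zyg

open Complex Metric Set Finset

/-- The point of the unit circle with index `i` in generation `j`. -/
noncomputable def cpt (M j i : ℕ) : ℂ := exp (((2 * Real.pi * i / M ^ j : ℝ) : ℂ) * I)

lemma norm_cpt (M j i : ℕ) : ‖cpt M j i‖ = 1 := Complex.norm_exp_ofReal_mul_I _

lemma norm_exp_sub_exp_le (a b : ℝ) : ‖exp ((a : ℂ) * I) - exp ((b : ℂ) * I)‖ ≤ |a - b| := by
  have h1 : exp ((a : ℂ) * I) - exp ((b : ℂ) * I) =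
      exp ((b : ℂ) * I) * (exp (I * ((a - b : ℝ) : ℂ)) - 1) := by
    rw [mul_sub, ← Complex.exp_add, mul_one]
    congr 2
    push_cast
    ring
  rw [h1, norm_mul, Complex.norm_exp_ofReal_mul_I, one_mul]
  exact Real.norm_exp_I_mul_ofReal_sub_one_le

lemma norm_cpt_sub_le (M j i l i' : ℕ) :
    ‖cpt M j i - cpt M l i'‖ ≤ 2 * Real.pi * |(i : ℝ) / M ^ j - i' / M ^ l| := by
  refine (norm_exp_sub_exp_le _ _).trans (le_of_eq ?_)
  rw [← abs_of_pos Real.two_pi_pos, ← abs_mul]
  congr 1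
  rw [abs_of_pos Real.two_pi_pos]
  ring

/-- The arc with index `i` in generation `j` is occupied. -/
def Occ (X : Set ℂ) (M j i : ℕ) : Prop := ∃ x ∈ X, ‖cpt M j i - x‖ ≤ 4 * Real.pi / M ^ j

lemma lt_div_add_one_mul (i : ℕ) {M : ℕ} (hM : 0 < M) : i < (i / M + 1) * M := by
  have h4 := Nat.div_add_mod i M
  have h5 := Nat.mod_lt i hM
  calc i = M * (i / M) + i % M := h4.symm
    _ < M * (i / M) + M := by omega
    _ = (i / M + 1) * M := by ring

lemma div_close {M : ℕ} (hM : 0 < M) (j n i : ℕ) :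
    |(i : ℝ) / M ^ (j + n) - ((i / M ^ n : ℕ) : ℝ) / M ^ j| ≤ 1 / M ^ j := by
  have hMr : (0 : ℝ) < M := by exact_mod_cast hM
  have h0 : (0 : ℝ) < (M : ℝ) ^ n := by positivity
  have h1 : ((i / M ^ n : ℕ) : ℝ) ≤ i / (M : ℝ) ^ n := by
    have := Nat.cast_div_le (α := ℝ) (m := i) (n := M ^ n)
    simpa using this
  have h2 : (i : ℝ) / (M : ℝ) ^ n < ((i / M ^ n : ℕ) : ℝ) + 1 := by
    rw [div_lt_iff₀ h0]
    have h3 : i < (i / M ^ n + 1) * M ^ n := lt_div_add_one_mul i (by positivity)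
    exact_mod_cast h3
  have h3 : (i : ℝ) / M ^ (j + n) = (i / M ^ n) / M ^ j := by
    rw [pow_add]; field_simp
  rw [h3, ← sub_div, abs_div, abs_of_pos (show (0 : ℝ) < (M : ℝ) ^ j by positivity)]
  gcongr
  rw [abs_le]
  constructor <;> linarith

lemma norm_cpt_anc {M : ℕ} (hM : 0 < M) (j n i : ℕ) :
    ‖cpt M (j + n) i - cpt M j (i / M ^ n)‖ ≤ 2 * Real.pi / M ^ j := by
  refine (norm_cpt_sub_le _ _ _ _ _).trans ?_
  calc _ ≤ 2 * Real.pi * (1 / M ^ j) :=
        mul_le_mul_of_nonneg_left (div_close hM j n i) (by positivity)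
    _ = _ := by ring

lemma Occ.parent {X : Set ℂ} {M : ℕ} (hM : 2 ≤ M) {j i : ℕ} (h : Occ X M (j + 1) i) :
    Occ X M j (i / M) := by
  obtain ⟨x, hx, h1⟩ := h
  refine ⟨x, hx, ?_⟩
  have h2 := norm_cpt_anc (show 0 < M by omega) j 1 i
  rw [pow_one] at h2
  have hMr : (2 : ℝ) ≤ M := by exact_mod_cast hM
  have hpi := Real.pi_pos
  calc ‖cpt M j (i / M) - x‖ ≤ ‖cpt M j (i / M) - cpt M (j + 1) i‖ + ‖cpt M (j + 1) i - x‖ :=
        norm_sub_le_norm_sub_add_norm_sub _ _ _
    _ ≤ 2 * Real.pi / M ^ j + 4 * Real.pi / M ^ (j + 1) := by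
        rw [norm_sub_rev]; exact add_le_add h2 h1
    _ ≤ 2 * Real.pi / M ^ j + 2 * Real.pi / M ^ j := by
        gcongr 2 * Real.pi / M ^ j + ?_
        rw [pow_succ, div_le_div_iff₀ (by positivity) (by positivity)]
        have : (0 : ℝ) < (M : ℝ) ^ j := by positivity
        nlinarith [mul_pos hpi this]
    _ = _ := by ring

/-- By (K), every arc has an unoccupied child. -/
lemma exists_free_child {X : Set ℂ} {c : ℝ} (hK : KCond c X) {M : ℕ} (hM : 2 ≤ M)
    (hcM : 3 < c * M) (j i : ℕ) : ∃ i' : ℕ, i' / M = i ∧ ¬ Occ X M (j + 1) i' := by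
  have hMr : (2 : ℝ) ≤ M := by exact_mod_cast hM
  have hpi := Real.pi_pos
  have hMj : (0 : ℝ) < (M : ℝ) ^ j := by positivity
  have hMj1 : (1 : ℝ) ≤ (M : ℝ) ^ j := one_le_pow₀ (by linarith)
  obtain ⟨t, ht, htx⟩ := hK (2 * Real.pi * i / M ^ j) (2 * Real.pi * (i + 1) / M ^ j)
    (by gcongr; linarith) (by
      rw [← sub_div, div_le_iff₀ hMj]
      nlinarith)
  have hba : 2 * Real.pi * ((i : ℝ) + 1) / M ^ j - 2 * Real.pi * i / M ^ j =
      2 * Real.pi / M ^ j := by ring
  rw [hba] at htx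
  set s : ℝ := (t - 2 * Real.pi * i / M ^ j) * M ^ (j + 1) / (2 * Real.pi) with hs
  have hs0 : 0 ≤ s := by
    have := ht.1
    have h2 : 0 ≤ t - 2 * Real.pi * i / M ^ j := by linarith
    positivity
  have hsM : s ≤ M := by
    have h2 : t - 2 * Real.pi * i / M ^ j ≤ 2 * Real.pi / M ^ j := by
      have := ht.2; linarith
    calc s ≤ (2 * Real.pi / M ^ j) * M ^ (j + 1) / (2 * Real.pi) := by
          rw [hs]; gcongr
      _ = M := by rw [pow_succ]; field_simp
  set k : ℕ := min ⌊s⌋₊ (M - 1) with hk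
  have hkM : k < M := lt_of_le_of_lt (min_le_right _ _) (by omega)
  have hks : |s - k| ≤ 1 := by
    rw [abs_le]
    rcases le_total ⌊s⌋₊ (M - 1) with h | h
    · have h2 : k = ⌊s⌋₊ := min_eq_left h
      rw [h2]
      have h3 := Nat.floor_le hs0
      have h4 := Nat.lt_floor_add_one s
      constructor <;> linarith
    · have h2 : k = M - 1 := min_eq_right h
      have h3 : ((M - 1 : ℕ) : ℝ) ≤ s := le_trans (by exact_mod_cast h) (Nat.floor_le hs0)
      have h4 : ((M - 1 : ℕ) : ℝ) = M - 1 := by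
        rw [Nat.cast_sub (by omega)]; simp
      rw [h2, h4]
      rw [h4] at h3
      constructor <;> linarith
  refine ⟨M * i + k, ?_, ?_⟩
  · rw [Nat.mul_add_div (by omega), Nat.div_eq_of_lt hkM, add_zero]
  · rintro ⟨x, hx, h1⟩
    have h2 := htx x hx
    have h3 : ‖exp ((t : ℂ) * I) - cpt M (j + 1) (M * i + k)‖ ≤ 2 * Real.pi / M ^ (j + 1) := by
      refine (norm_exp_sub_exp_le _ _).trans ?_
      have h4 : t - 2 * Real.pi * ((M * i + k : ℕ) : ℝ) / M ^ (j + 1) =
          (2 * Real.pi / M ^ (j + 1)) * (s - k) := by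
        rw [hs]
        push_cast
        field_simp
        ring
      rw [h4, abs_mul, abs_of_pos (by positivity)]
      calc _ ≤ 2 * Real.pi / (M : ℝ) ^ (j + 1) * 1 := by gcongr
        _ = _ := mul_one _
    have h4 : c * (2 * Real.pi / M ^ j) ≤ 2 * Real.pi / M ^ (j + 1) + 4 * Real.pi / M ^ (j + 1) :=
      h2.trans ((norm_sub_le_norm_sub_add_norm_sub _ (cpt M (j + 1) (M * i + k)) _).trans
        (add_le_add h3 h1))
    have h5 : c * (2 * Real.pi / M ^ j) = (c * M) * (2 * Real.pi / M ^ (j + 1)) := by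
      rw [pow_succ]; field_simp
    have h6 : 2 * Real.pi / M ^ (j + 1) + 4 * Real.pi / M ^ (j + 1) =
      3 * (2 * Real.pi / (M : ℝ) ^ (j + 1)) := by ring
    rw [h5, h6] at h4
    have h7 : 0 < 2 * Real.pi / (M : ℝ) ^ (j + 1) := by positivity
    have := le_of_mul_le_mul_right h4 h7
    linarith

open Classical in
/-- The number of occupied descendants. -/
lemma card_desc {X : Set ℂ} {c : ℝ} (hK : KCond c X) {M : ℕ} (hM : 2 ≤ M)
    (hcM : 3 < c * M) (j i₀ n : ℕ) (s : Finset ℕ)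
    (hs : ∀ i ∈ s, i / M ^ n = i₀ ∧ Occ X M (j + n) i) : s.card ≤ (M - 1) ^ n := by
  induction n generalizing s with
  | zero =>
    have : s ⊆ {i₀} := by
      intro i hi
      have := (hs i hi).1
      simp at this
      simp [this]
    simpa using Finset.card_le_card this
  | succ n ih =>
    have h1 : ∀ i ∈ s, i / M ∈ s.image (· / M) := fun i hi => mem_image_of_mem _ hi
    have h2 := card_le_mul_card_image_of_maps_to (s := s) (t := s.image (· / M))
      (f := (· / M)) h1 (M - 1) (by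
        intro b hb
        obtain ⟨i', hi', hocc⟩ := exists_free_child hK hM hcM (j + n) b
        have h3 : (s.filter fun i => i / M = b) ⊆
            (Finset.Ico (b * M) ((b + 1) * M)).erase i' := by
          intro i hi
          rw [Finset.mem_filter] at hi
          rw [Finset.mem_erase, Finset.mem_Ico]
          refine ⟨?_, ?_, ?_⟩
          · rintro rfl
            exact hocc (hs _ hi.1).2
          · rw [← hi.2]; exact Nat.div_mul_le_self _ _
          · rw [← hi.2]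
            exact lt_div_add_one_mul i (by omega)
        have h4 : i' ∈ Finset.Ico (b * M) ((b + 1) * M) := by
          rw [Finset.mem_Ico]
          constructor
          · rw [← hi']; exact Nat.div_mul_le_self _ _
          · rw [← hi']; exact lt_div_add_one_mul i' (by omega)
        refine (Finset.card_le_card h3).trans ?_
        rw [card_erase_of_mem h4, Nat.card_Ico]
        have : (b + 1) * M - b * M = M := by
          rw [add_mul, one_mul]; omega
        rw [this])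
    refine h2.trans ?_
    rw [pow_succ, mul_comm]
    refine Nat.mul_le_mul_right _ (ih _ ?_)
    intro b hb
    obtain ⟨i, hi, rfl⟩ := Finset.mem_image.mp hb
    obtain ⟨h3, h4⟩ := hs i hi
    refine ⟨?_, Occ.parent hM h4⟩
    rw [Nat.div_div_eq_div_mul, ← h3, pow_succ, mul_comm]

/-- Chord length. -/
lemma norm_exp_sub_exp_eq (a b : ℝ) :
    ‖exp ((a : ℂ) * I) - exp ((b : ℂ) * I)‖ = 2 * |Real.sin ((a - b) / 2)| := by
  have h1 : exp ((a : ℂ) * I) - exp ((b : ℂ) * I) =
      exp ((b : ℂ) * I) * (exp (I * ((a - b : ℝ) : ℂ)) - 1) := by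
    rw [mul_sub, ← Complex.exp_add, mul_one]
    congr 2
    push_cast
    ring
  rw [h1, norm_mul, Complex.norm_exp_ofReal_mul_I, one_mul]
  have := Complex.norm_exp_I_mul_ofReal_sub_one (a - b)
  rw [this, norm_mul, Real.norm_eq_abs, Real.norm_eq_abs, abs_two]

/-- Two points of generation `l` which are close have close indices modulo `M ^ l`. -/
lemma close_index {M l i i' : ℕ} (hi' : i' < M ^ l) (h : i ≤ i')
    (hd : ‖cpt M l i - cpt M l i'‖ ≤ 8 * Real.pi / M ^ l) : i' ≤ i + 6 ∨ M ^ l ≤ i' + 6 := by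
  by_contra hcon
  push Not at hcon
  obtain ⟨h1, h2⟩ := hcon
  have hpi := Real.pi_pos
  have hMl : 0 < M ^ l := by omega
  have hMlr : (0 : ℝ) < (M : ℝ) ^ l := by exact_mod_cast hMl
  obtain ⟨n, hn⟩ : ∃ n, i' = i + n := ⟨i' - i, by omega⟩
  have hn7 : 7 ≤ n := by omega
  have hnM : n + 7 ≤ M ^ l := by omega
  have e1 : (2 * Real.pi * i / M ^ l - 2 * Real.pi * i' / M ^ l) / 2 =
      -(Real.pi * n / M ^ l) := by
    rw [hn]; push_cast; ring
  have h3 : 2 * |Real.sin (Real.pi * n / M ^ l)| ≤ 8 * Real.pi / M ^ l := by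
    have := norm_exp_sub_exp_eq (2 * Real.pi * i / M ^ l) (2 * Real.pi * i' / M ^ l)
    rw [e1, Real.sin_neg, abs_neg] at this
    rw [← this]
    exact hd
  set θ := Real.pi * n / M ^ l with hθ
  have hθ0 : 0 ≤ θ := by positivity
  have hnr : ((n : ℝ) + 7) ≤ (M : ℝ) ^ l := by exact_mod_cast hnM
  have hn7r : (7 : ℝ) ≤ n := by exact_mod_cast hn7
  have h4 : 14 / (M : ℝ) ^ l ≤ Real.sin θ := by
    rcases le_total θ (Real.pi / 2) with h5 | h5
    · have h6 := Real.mul_le_sin hθ0 h5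
      refine le_trans ?_ h6
      rw [hθ]
      have : 2 / Real.pi * (Real.pi * n / (M : ℝ) ^ l) = 2 * n / (M : ℝ) ^ l := by field_simp
      rw [this]
      gcongr
      linarith
    · have h6 : Real.pi - θ ≤ Real.pi / 2 := by linarith
      have h7 : 0 ≤ Real.pi - θ := by
        rw [hθ, sub_nonneg, div_le_iff₀ hMlr]
        nlinarith
      have h8 := Real.mul_le_sin h7 h6
      rw [Real.sin_pi_sub] at h8
      refine le_trans ?_ h8
      have : 2 / Real.pi * (Real.pi - θ) = 2 * ((M : ℝ) ^ l - n) / (M : ℝ) ^ l := by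
        rw [hθ]; field_simp
      rw [this]
      gcongr
      linarith
  have h5 : 2 * (14 / (M : ℝ) ^ l) ≤ 8 * Real.pi / M ^ l := by
    refine le_trans ?_ h3
    have := le_abs_self (Real.sin θ)
    linarith
  have h6 : 2 * (14 / (M : ℝ) ^ l) = 28 / (M : ℝ) ^ l := by ring
  rw [h6, div_le_div_iff_of_pos_right hMlr] at h5
  have := Real.pi_lt_d2
  linarith

open Classical in
/-- Few points of generation `l` are near a given point. -/
lemma near_count (M l : ℕ) (u : ℂ) (s : Finset ℕ)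
    (hs : ∀ i ∈ s, i < M ^ l ∧ ‖cpt M l i - u‖ ≤ 4 * Real.pi / M ^ l) : s.card ≤ 13 := by
  rcases s.eq_empty_or_nonempty with h | h
  · simp [h]
  set a := s.min' h with ha
  have ha' := s.min'_mem h
  have hsub : s ⊆ Finset.Icc a (a + 6) ∪ Finset.Ico (M ^ l - 6) (M ^ l) := by
    intro i hi
    have h1 := hs i hi
    have h2 := hs a ha'
    have h3 : a ≤ i := s.min'_le i hi
    have h4 : ‖cpt M l a - cpt M l i‖ ≤ 8 * Real.pi / M ^ l := by
      calc _ ≤ ‖cpt M l a - u‖ + ‖u - cpt M l i‖ := norm_sub_le_norm_sub_add_norm_sub _ _ _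
        _ ≤ 4 * Real.pi / M ^ l + 4 * Real.pi / M ^ l := by
          rw [norm_sub_rev u]; exact add_le_add h2.2 h1.2
        _ = _ := by ring
    rw [Finset.mem_union, Finset.mem_Icc, Finset.mem_Ico]
    rcases close_index h1.1 h3 h4 with h5 | h5
    · exact Or.inl ⟨h3, h5⟩
    · exact Or.inr ⟨by omega, h1.1⟩
  refine (Finset.card_le_card hsub).trans ((Finset.card_union_le _ _).trans ?_)
  rw [Nat.card_Icc, Nat.card_Ico]
  omega

open Classical in
/-- The occupied arcs of generation `j`. -/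
noncomputable def occ (X : Set ℂ) (M j : ℕ) : Finset ℕ :=
  (Finset.range (M ^ j)).filter (Occ X M j)

lemma mem_occ {X : Set ℂ} {M j i : ℕ} : i ∈ occ X M j ↔ i < M ^ j ∧ Occ X M j i := by
  simp [occ]

open Classical in
lemma occ_near_count {X : Set ℂ} {c : ℝ} (hK : KCond c X) {M : ℕ} (hM : 2 ≤ M)
    (hcM : 3 < c * M) {j l : ℕ} (hl : l ≤ j) (u : ℂ) (s : Finset ℕ)
    (hs : ∀ i ∈ s, i ∈ occ X M j ∧ ‖cpt M j i - u‖ ≤ 2 * Real.pi / M ^ l) :
    s.card ≤ 13 * (M - 1) ^ (j - l) := by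
  obtain ⟨n, rfl⟩ := Nat.exists_eq_add_of_le hl
  rw [Nat.add_sub_cancel_left]
  have h1 : ∀ i ∈ s, i / M ^ n ∈ s.image (· / M ^ n) := fun i hi => mem_image_of_mem _ hi
  have h2 := card_le_mul_card_image_of_maps_to (s := s) (t := s.image (· / M ^ n))
    (f := (· / M ^ n)) h1 ((M - 1) ^ n) (by
      intro b _
      refine card_desc hK hM hcM l b n _ ?_
      intro i hi
      rw [Finset.mem_filter] at hi
      exact ⟨hi.2, (mem_occ.mp (hs i hi.1).1).2⟩)
  refine h2.trans ?_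
  rw [mul_comm]
  refine Nat.mul_le_mul_right _ (near_count M l u _ ?_)
  intro b hb
  obtain ⟨i, hi, rfl⟩ := Finset.mem_image.mp hb
  obtain ⟨h3, h4⟩ := hs i hi
  refine ⟨?_, ?_⟩
  · rw [mem_occ] at h3
    rw [Nat.div_lt_iff_lt_mul (by positivity), ← pow_add]
    exact h3.1
  · calc ‖cpt M l (i / M ^ n) - u‖ ≤ ‖cpt M l (i / M ^ n) - cpt M (l + n) i‖ +
          ‖cpt M (l + n) i - u‖ := norm_sub_le_norm_sub_add_norm_sub _ _ _
      _ ≤ 2 * Real.pi / M ^ l + 2 * Real.pi / M ^ l := by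
          rw [norm_sub_rev]
          exact add_le_add (norm_cpt_anc (by omega) l n i) h4
      _ = _ := by ring

end Pool.Agent.H82.Zyg
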