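import Mathlib
import Pool.Agent.H82.Zyg.Tree

/-!
# Sums over the occupied arcs
-/

namespace Pool.Agent.H82.Zyg

open Complex Metric Set Finset

/-- The length scale of generation `j`. -/
noncomputable def del (M j : ℕ) : ℝ := ((M : ℝ) ^ j)⁻¹

/-- The pole near the arc. -/
noncomputable def pol (M j i : ℕ) : ℂ := (1 + del M j) * cpt M j i

/-- The distance function. -/
noncomputable def Dz (X : Set ℂ) (z : ℂ) : ℝ := infDist z X + (1 - ‖z‖)

section Basic

variable {X : Set ℂ} {M : ℕ} (hM : 2 ≤ M)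

include hM

lemma del_pos (j : ℕ) : 0 < del M j := by
  have : (0 : ℝ) < M := by exact_mod_cast (by omega : 0 < M)
  unfold del; positivity

lemma del_succ (j : ℕ) : del M (j + 1) = del M j / M := by
  have : (0 : ℝ) < M := by exact_mod_cast (by omega : 0 < M)
  unfold del
  rw [pow_succ]
  field_simp

lemma del_le_one (j : ℕ) : del M j ≤ 1 := by
  have : (1 : ℝ) ≤ M := by exact_mod_cast (by omega : 1 ≤ M)
  unfold del
  exact inv_le_one_of_one_le₀ (one_le_pow₀ this)

lemma norm_pol_sub_cpt (j i : ℕ) : ‖pol M j i - cpt M j i‖ = del M j := by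
  have : pol M j i - cpt M j i = (del M j : ℂ) * cpt M j i := by unfold pol; ring
  rw [this, norm_mul, norm_cpt, mul_one, Complex.norm_real, Real.norm_eq_abs,
    abs_of_pos (del_pos hM j)]

lemma norm_pol (j i : ℕ) : ‖pol M j i‖ = 1 + del M j := by
  have h := del_pos hM j
  have : (1 + (del M j : ℂ)) = ((1 + del M j : ℝ) : ℂ) := by push_cast; ring
  rw [pol, norm_mul, norm_cpt, mul_one, this, Complex.norm_real, Real.norm_eq_abs,
    abs_of_pos (by linarith)]

lemma del_le_norm {j i : ℕ} {z : ℂ} (hz : ‖z‖ ≤ 1) : del M j ≤ ‖pol M j i - z‖ := by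
  have h1 := norm_sub_norm_le (pol M j i) z
  rw [norm_pol hM] at h1
  linarith

lemma one_sub_le_norm {j i : ℕ} {z : ℂ} : 1 - ‖z‖ ≤ ‖pol M j i - z‖ := by
  have h1 := norm_sub_norm_le (pol M j i) z
  rw [norm_pol hM] at h1
  have := del_pos hM j
  linarith

lemma norm_cpt_sub_le_two {j i : ℕ} {z : ℂ} (hz : ‖z‖ ≤ 1) :
    ‖cpt M j i - z‖ ≤ 2 * ‖pol M j i - z‖ := by
  calc ‖cpt M j i - z‖ ≤ ‖cpt M j i - pol M j i‖ + ‖pol M j i - z‖ :=
        norm_sub_le_norm_sub_add_norm_sub _ _ _
    _ ≤ ‖pol M j i - z‖ + ‖pol M j i - z‖ := by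
        rw [norm_sub_rev, norm_pol_sub_cpt hM]
        have := del_le_norm hM (j := j) (i := i) hz
        linarith
    _ = _ := by ring

lemma Dz_le_norm {j i : ℕ} {z : ℂ} (hz : ‖z‖ ≤ 1) (hi : i ∈ occ X M j) :
    Dz X z ≤ 16 * ‖pol M j i - z‖ := by
  obtain ⟨x, hx, h⟩ := (mem_occ.mp hi).2
  have h1 := del_le_norm hM (j := j) (i := i) hz
  have h2 : infDist z X ≤ dist z x := infDist_le_dist_of_mem hx
  have h3 : 4 * Real.pi / (M : ℝ) ^ j = 4 * Real.pi * del M j := by unfold del; ring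
  rw [h3] at h
  have hpi := Real.pi_lt_d2
  have hdp := del_pos hM j
  have h4 : dist z x ≤ ‖pol M j i - z‖ + del M j + 4 * Real.pi * del M j := by
    rw [dist_eq_norm]
    calc ‖z - x‖ ≤ ‖z - pol M j i‖ + ‖pol M j i - cpt M j i‖ + ‖cpt M j i - x‖ := by
          have := norm_add₃_le (a := z - pol M j i) (b := pol M j i - cpt M j i)
            (c := cpt M j i - x)
          simpa using this
      _ ≤ _ := by
          rw [norm_pol_sub_cpt hM, norm_sub_rev z]
          linarith
  have h5 := one_sub_le_norm hM (j := j) (i := i) (z := z)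
  unfold Dz
  nlinarith

/-- The shell decomposition. -/
lemma shell {j i L : ℕ} {z : ℂ} (hz : ‖z‖ ≤ 1) (hi : i ∈ occ X M j)
    (hL : del M (L + 1) ≤ Dz X z) :
    ∃ l ≤ min j L, ‖cpt M j i - z‖ ≤ 2 * Real.pi / M ^ l ∧
      del M j / ‖pol M j i - z‖ ≤ 16 * M * (M ^ l * del M j) := by
  classical
  have hMr : (2 : ℝ) ≤ M := by exact_mod_cast hM
  have hdp := del_pos hM j
  have hA : 0 < ‖pol M j i - z‖ := lt_of_lt_of_le hdp (del_le_norm hM hz)
  set P : ℕ → Prop := fun l => ‖cpt M j i - z‖ ≤ 2 * Real.pi / M ^ l with hP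
  have hP0 : P 0 := by
    simp only [hP, pow_zero, div_one]
    calc ‖cpt M j i - z‖ ≤ ‖cpt M j i‖ + ‖z‖ := norm_sub_le _ _
      _ ≤ 2 * Real.pi := by
        rw [norm_cpt]
        have := Real.pi_gt_three
        linarith
  set n := min j L with hn
  set l := Nat.findGreatest P n with hl
  have hPl : P l := Nat.findGreatest_spec (Nat.zero_le n) hP0
  have hln : l ≤ n := Nat.findGreatest_le n
  refine ⟨l, hln, hPl, ?_⟩
  rcases hln.lt_or_eq with h | h
  · have h1 : ¬ P (l + 1) := Nat.findGreatest_is_greatest (Nat.lt_succ_self l) h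
    simp only [hP, not_le] at h1
    have h2 := norm_cpt_sub_le_two hM (j := j) (i := i) hz
    have h3 : Real.pi / M ^ (l + 1) ≤ ‖pol M j i - z‖ := by
      have : 2 * Real.pi / (M : ℝ) ^ (l + 1) = 2 * (Real.pi / M ^ (l + 1)) := by ring
      linarith
    rw [div_le_iff₀ hA]
    have h4 : 16 * (M : ℝ) * (M ^ l * del M j) * (Real.pi / M ^ (l + 1)) =
        16 * Real.pi * del M j := by
      rw [pow_succ]; field_simp
    calc del M j ≤ 16 * Real.pi * del M j := by
          have := Real.pi_gt_three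
          nlinarith
      _ = 16 * (M : ℝ) * (M ^ l * del M j) * (Real.pi / M ^ (l + 1)) := h4.symm
      _ ≤ _ := by gcongr
  · rcases le_total j L with h5 | h5
    · have h6 : l = j := by rw [h, hn, min_eq_left h5]
      rw [h6]
      have h7 : (M : ℝ) ^ j * del M j = 1 := by
        unfold del
        exact mul_inv_cancel₀ (by positivity)
      rw [h7, mul_one]
      calc del M j / ‖pol M j i - z‖ ≤ 1 := (div_le_one hA).mpr (del_le_norm hM hz)
        _ ≤ _ := by linarith
    · have h6 : l = L := by rw [h, hn, min_eq_right h5]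
      rw [h6, div_le_iff₀ hA]
      have h7 := Dz_le_norm hM hz hi
      have h8 : del M (L + 1) ≤ 16 * ‖pol M j i - z‖ := hL.trans h7
      have h9 : (M : ℝ) * M ^ L * del M (L + 1) = 1 := by
        unfold del
        rw [pow_succ]
        field_simp
      calc del M j = del M j * ((M : ℝ) * M ^ L * del M (L + 1)) := by rw [h9, mul_one]
        _ ≤ del M j * ((M : ℝ) * M ^ L * (16 * ‖pol M j i - z‖)) := by gcongr
        _ = _ := by ring

/-- Geometric sums. -/
lemma sum_q_le (L J : ℕ) :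
    ∑ j ∈ Finset.range J, (if L < j then (1 - (M : ℝ)⁻¹) ^ (j - L) else 0) ≤
      M - M * (1 - (M : ℝ)⁻¹) ^ (J - (L + 1)) * (1 - (M : ℝ)⁻¹) := by
  have hMr : (2 : ℝ) ≤ M := by exact_mod_cast hM
  have hM0 : (M : ℝ) ≠ 0 := by positivity
  have hq : (M : ℝ) * (1 - (M : ℝ)⁻¹) = M - 1 := by
    rw [mul_sub, mul_one, mul_inv_cancel₀ hM0]
  have hinv : 0 < (M : ℝ)⁻¹ := by positivity
  have hinv1 : (M : ℝ)⁻¹ ≤ 1 := inv_le_one_of_one_le₀ (by linarith)
  induction J with
  | zero => simp [hq]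
  | succ J ih =>
    rw [Finset.sum_range_succ]
    rcases lt_or_ge L J with h | h
    · rw [if_pos h]
      obtain ⟨k, rfl⟩ := Nat.exists_eq_add_of_lt h
      have e1 : L + k + 1 - (L + 1) = k := by omega
      have e2 : L + k + 1 + 1 - (L + 1) = k + 1 := by omega
      have e3 : L + k + 1 - L = k + 1 := by omega
      rw [e1] at ih
      rw [e2, e3]
      have e4 : (M : ℝ) * (1 - (M : ℝ)⁻¹) ^ (k + 1) * (1 - (M : ℝ)⁻¹) =
        (M - 1) * (1 - (M : ℝ)⁻¹) ^ (k + 1) := by
        rw [← hq]; ring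
      have e5 : (M : ℝ) * (1 - (M : ℝ)⁻¹) ^ k * (1 - (M : ℝ)⁻¹) =
        M * (1 - (M : ℝ)⁻¹) ^ (k + 1) := by ring
      rw [e4]
      rw [e5] at ih
      linarith
    · rw [if_neg (by omega), add_zero]
      have e1 : J + 1 - (L + 1) = 0 := by omega
      have e2 : J - (L + 1) = 0 := by omega
      rw [e2] at ih
      rw [e1]
      exact ih

lemma sum_q_le' (L J : ℕ) :
    ∑ j ∈ Finset.range J, (if L < j then (1 - (M : ℝ)⁻¹) ^ (j - L) else 0) ≤ M := by
  refine (sum_q_le hM L J).trans ?_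
  have hMr : (2 : ℝ) ≤ M := by exact_mod_cast hM
  have hinv1 : (M : ℝ)⁻¹ ≤ 1 := inv_le_one_of_one_le₀ (by linarith)
  have h1 : 0 ≤ 1 - (M : ℝ)⁻¹ := by linarith
  have : 0 ≤ M * (1 - (M : ℝ)⁻¹) ^ (J - (L + 1)) * (1 - (M : ℝ)⁻¹) := by positivity
  linarith

lemma sum_pow_le (L : ℕ) : ∑ j ∈ Finset.range (L + 1), (M : ℝ) ^ j ≤ 2 * M ^ L := by
  have hMr : (2 : ℝ) ≤ M := by exact_mod_cast hM
  induction L with
  | zero => simp
  | succ L ih =>
    rw [Finset.sum_range_succ]
    have : (2 : ℝ) * M ^ L ≤ M ^ (L + 1) := by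
      rw [pow_succ, mul_comm]
      gcongr
    linarith

lemma sum_pow_le' (L J : ℕ) :
    ∑ j ∈ Finset.range J, (if j ≤ L then (M : ℝ) ^ j else 0) ≤ 2 * M ^ L := by
  refine le_trans ?_ (sum_pow_le hM L)
  rw [← Finset.sum_filter]
  refine Finset.sum_le_sum_of_subset_of_nonneg ?_ (fun _ _ _ => by positivity)
  intro j hj
  rw [Finset.mem_filter] at hj
  rw [Finset.mem_range]
  omega

end Basic

/-- The basic sum bound. -/
lemma N_le {X : Set ℂ} {c : ℝ} (hK : KCond c X) {M : ℕ} (hM : 2 ≤ M)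
    (hcM : 3 < c * M) {j L : ℕ} {z : ℂ} (hz : ‖z‖ ≤ 1) (hL : del M (L + 1) ≤ Dz X z) :
    ∑ i ∈ occ X M j, del M j / ‖pol M j i - z‖ ≤
      208 * M ^ 2 * (1 - (M : ℝ)⁻¹) ^ (j - min j L) := by
  classical
  have hMr : (2 : ℝ) ≤ M := by exact_mod_cast hM
  have hinv1 : (M : ℝ)⁻¹ ≤ 1 := inv_le_one_of_one_le₀ (by linarith)
  have hdp := del_pos hM j
  set n := min j L with hn
  have hnj : n ≤ j := min_le_left _ _
  have h1 : ∀ i ∈ occ X M j, del M j / ‖pol M j i - z‖ ≤
      ∑ l ∈ Finset.range (n + 1), (if ‖cpt M j i - z‖ ≤ 2 * Real.pi / M ^ l then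
        16 * (M : ℝ) * (M ^ l * del M j) else 0) := by
    intro i hi
    obtain ⟨l, hl, h2, h3⟩ := shell hM hz hi hL
    refine h3.trans ?_
    have h4 := Finset.single_le_sum (f := fun l => (if ‖cpt M j i - z‖ ≤ 2 * Real.pi / M ^ l then
        16 * (M : ℝ) * (M ^ l * del M j) else 0)) (s := Finset.range (n + 1))
        (fun l _ => by positivity) (Finset.mem_range.mpr (by omega : l < n + 1))
    rw [if_pos h2] at h4
    exact h4
  calc ∑ i ∈ occ X M j, del M j / ‖pol M j i - z‖
      ≤ ∑ i ∈ occ X M j, ∑ l ∈ Finset.range (n + 1),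
        (if ‖cpt M j i - z‖ ≤ 2 * Real.pi / M ^ l then
        16 * (M : ℝ) * (M ^ l * del M j) else 0) := Finset.sum_le_sum h1
    _ = ∑ l ∈ Finset.range (n + 1), ∑ i ∈ occ X M j,
        (if ‖cpt M j i - z‖ ≤ 2 * Real.pi / M ^ l then
        16 * (M : ℝ) * (M ^ l * del M j) else 0) := Finset.sum_comm
    _ ≤ ∑ l ∈ Finset.range (n + 1), 208 * M * (1 - (M : ℝ)⁻¹) ^ (j - l) := by
        refine Finset.sum_le_sum fun l hl => ?_
        rw [Finset.mem_range] at hl
        rw [← Finset.sum_filter, Finset.sum_const, nsmul_eq_mul]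
        have h5 := occ_near_count hK hM hcM (by omega : l ≤ j) z
          ((occ X M j).filter fun i => ‖cpt M j i - z‖ ≤ 2 * Real.pi / M ^ l)
          (fun i hi => by simpa using hi)
        have h6 : (((occ X M j).filter fun i => ‖cpt M j i - z‖ ≤ 2 * Real.pi / M ^ l).card : ℝ) ≤
            13 * ((M : ℝ) - 1) ^ (j - l) := by
          have h7 : ((M - 1 : ℕ) : ℝ) = (M : ℝ) - 1 := by
            rw [Nat.cast_sub (by omega)]; simp
          rw [← h7]
          exact_mod_cast h5
        calc _ ≤ 13 * ((M : ℝ) - 1) ^ (j - l) * (16 * (M : ℝ) * (M ^ l * del M j)) := by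
              gcongr
          _ = 208 * M * ((((M : ℝ) - 1)) ^ (j - l) * (M ^ l * del M j)) := by ring
          _ = _ := by
            congr 1
            have h8 : (M : ℝ) ^ l * del M j = ((M : ℝ)⁻¹) ^ (j - l) := by
              unfold del
              rw [inv_pow]
              have : (M : ℝ) ^ j = M ^ l * M ^ (j - l) := by
                rw [← pow_add]; congr 1; omega
              rw [this]
              field_simp
            rw [h8, ← mul_pow]
            congr 1
            field_simp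
    _ = 208 * M * (∑ l ∈ Finset.range (n + 1), (1 - (M : ℝ)⁻¹) ^ (n - l)) *
        (1 - (M : ℝ)⁻¹) ^ (j - n) := by
        rw [Finset.mul_sum, Finset.sum_mul]
        refine Finset.sum_congr rfl fun l hl => ?_
        rw [Finset.mem_range] at hl
        have e0 : j - l = (n - l) + (j - n) := by omega
        rw [e0, pow_add]
        ring
    _ ≤ 208 * M * M * (1 - (M : ℝ)⁻¹) ^ (j - n) := by
        have h9 : 0 ≤ 1 - (M : ℝ)⁻¹ := by linarith
        have h10 : ∑ l ∈ Finset.range (n + 1), (1 - (M : ℝ)⁻¹) ^ (n - l) ≤ M := by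
          have h11 := Finset.sum_range_reflect (fun k => (1 - (M : ℝ)⁻¹) ^ k) (n + 1)
          have h12 : ∑ l ∈ Finset.range (n + 1), (1 - (M : ℝ)⁻¹) ^ (n - l) =
              ∑ k ∈ Finset.range (n + 1), (1 - (M : ℝ)⁻¹) ^ k := by
            rw [← h11]
            refine Finset.sum_congr rfl fun l hl => ?_
            congr 1
          rw [h12]
          have hlt : 1 - (M : ℝ)⁻¹ < 1 := by
            have : 0 < (M : ℝ)⁻¹ := by positivity
            linarith
          have h13 := (summable_geometric_of_lt_one h9 hlt).sum_le_tsum (Finset.range (n + 1))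
            (fun _ _ => by positivity)
          refine h13.trans (le_of_eq ?_)
          rw [tsum_geometric_of_lt_one h9 hlt]
          simp
        gcongr
    _ = _ := by ring

end Pool.Agent.H82.Zyg
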