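import Mathlib
import Pool.Agent.H82.Zyg.Sums

/-!
# The holomorphic weight: powers of a sum of Cauchy kernels over the occupied arcs
-/

namespace Pool.Agent.H82.Zyg

open Complex Metric Set Finset

lemma sum_inj_le {ρ : ℝ} (h0 : 0 ≤ ρ) (h1 : ρ < 1) (s : Finset ℕ) (g : ℕ → ℕ)
    (hg : Set.InjOn g s) : ∑ j ∈ s, ρ ^ g j ≤ 1 / (1 - ρ) := by
  classical
  rw [← Finset.sum_image (f := fun k => ρ ^ k) hg]
  have := (summable_geometric_of_lt_one h0 h1).sum_le_tsum (s.image g) (fun _ _ => by positivity)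
  rwa [tsum_geometric_of_lt_one h0 h1, ← one_div] at this

lemma sum_geo {ρ : ℝ} (h0 : 0 ≤ ρ) (h1 : ρ < 1) (L J : ℕ) :
    ∑ j ∈ Finset.range J, ρ ^ ((j - L) + (L - j)) ≤ 2 / (1 - ρ) := by
  classical
  rw [← Finset.sum_filter_add_sum_filter_not (Finset.range J) (fun j => L ≤ j)]
  have e1 : ∑ j ∈ (Finset.range J).filter (fun j => L ≤ j), ρ ^ ((j - L) + (L - j)) ≤
      1 / (1 - ρ) := by
    refine sum_inj_le h0 h1 _ _ ?_
    intro a ha b hb hab
    simp only [Finset.coe_filter, Finset.mem_range, Set.mem_ofPred_eq] at ha hb hab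
    omega
  have e2 : ∑ j ∈ (Finset.range J).filter (fun j => ¬ L ≤ j), ρ ^ ((j - L) + (L - j)) ≤
      1 / (1 - ρ) := by
    refine sum_inj_le h0 h1 _ _ ?_
    intro a ha b hb hab
    simp only [Finset.coe_filter, Finset.mem_range, Set.mem_ofPred_eq] at ha hb hab
    omega
  have e3 : 2 / (1 - ρ) = 1 / (1 - ρ) + 1 / (1 - ρ) := by ring
  rw [e3]
  exact add_le_add e1 e2

lemma exists_angle (z : ℂ) : ∃ t : ℝ, 0 ≤ t ∧ t < 2 * Real.pi ∧ z = ‖z‖ * exp (t * I) := by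
  have h1 := Complex.norm_mul_exp_arg_mul_I z
  have h2 := Complex.neg_pi_lt_arg z
  have h3 := Complex.arg_le_pi z
  have hpi := Real.pi_pos
  rcases le_or_gt 0 (arg z) with h | h
  · exact ⟨arg z, h, by linarith, h1.symm⟩
  · refine ⟨arg z + 2 * Real.pi, by linarith, by linarith, ?_⟩
    push_cast
    rw [add_mul, Complex.exp_periodic (arg z * I)]
    exact h1.symm

section Level

variable {X : Set ℂ} {M : ℕ} (hM : 2 ≤ M)
include hM

lemma exists_near_cpt (L : ℕ) {z : ℂ} (hz : ‖z‖ ≤ 1) :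
    ∃ i < M ^ L, ‖cpt M L i - z‖ ≤ 2 * Real.pi * del M L + (1 - ‖z‖) := by
  obtain ⟨t, ht0, ht1, ht⟩ := exists_angle z
  have hpi := Real.pi_pos
  have hMr : (2 : ℝ) ≤ M := by exact_mod_cast hM
  have hML : (0 : ℝ) < (M : ℝ) ^ L := by positivity
  set s : ℝ := t * M ^ L / (2 * Real.pi) with hs
  have hs0 : 0 ≤ s := by positivity
  have hs1 : s < M ^ L := by
    rw [hs, div_lt_iff₀ (by positivity)]
    nlinarith
  refine ⟨⌊s⌋₊, ?_, ?_⟩
  · have := Nat.floor_le hs0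
    have h2 : (⌊s⌋₊ : ℝ) < (M : ℝ) ^ L := lt_of_le_of_lt this hs1
    exact_mod_cast h2
  · have h1 : ‖cpt M L ⌊s⌋₊ - exp (t * I)‖ ≤ 2 * Real.pi * del M L := by
      refine (norm_exp_sub_exp_le _ _).trans ?_
      have h3 : 2 * Real.pi * (⌊s⌋₊ : ℝ) / M ^ L - t = (2 * Real.pi * del M L) * (⌊s⌋₊ - s) := by
        rw [hs]; unfold del; field_simp
      rw [h3, abs_mul, abs_of_pos (by have := del_pos hM L; positivity)]
      have h4 : |(⌊s⌋₊ : ℝ) - s| ≤ 1 := by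
        have h5 := Nat.floor_le hs0
        have h6 := Nat.lt_floor_add_one s
        rw [abs_le]
        constructor <;> linarith
      have := del_pos hM L
      calc _ ≤ 2 * Real.pi * del M L * 1 := by gcongr
        _ = _ := mul_one _
    have h2 : ‖exp (t * I) - z‖ = 1 - ‖z‖ := by
      have : exp (t * I) - z = ((1 - ‖z‖ : ℝ) : ℂ) * exp (t * I) := by
        conv_lhs => rw [ht]
        push_cast; ring
      rw [this, norm_mul, Complex.norm_exp_ofReal_mul_I, mul_one, Complex.norm_real,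
        Real.norm_eq_abs, abs_of_nonneg (by linarith)]
    calc _ ≤ ‖cpt M L ⌊s⌋₊ - exp (t * I)‖ + ‖exp (t * I) - z‖ :=
          norm_sub_le_norm_sub_add_norm_sub _ _ _
      _ ≤ _ := by rw [h2]; linarith

lemma zero_mem_occ (hX : X.Nonempty) (hX1 : ∀ x ∈ X, ‖x‖ ≤ 1) : 0 ∈ occ X M 0 := by
  rw [mem_occ]
  obtain ⟨x, hx⟩ := hX
  refine ⟨by simp, x, hx, ?_⟩
  have := norm_sub_le (cpt M 0 0) x
  rw [norm_cpt] at this
  have h2 := hX1 x hx
  have h3 := Real.pi_gt_three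
  simp only [pow_zero, div_one]
  linarith

lemma exists_occ_near {L : ℕ} {z : ℂ} (hz : ‖z‖ ≤ 1) (hX : X.Nonempty)
    (hX1 : ∀ x ∈ X, ‖x‖ ≤ 1) (hL : min 1 (Dz X z) ≤ del M L) :
    ∃ i ∈ occ X M L, ‖pol M L i - z‖ ≤ 9 * del M L := by
  have hpi := Real.pi_gt_three
  have hpi2 := Real.pi_lt_d2
  have hdp := del_pos hM L
  rcases le_or_gt (Dz X z) (del M L) with h | h
  · obtain ⟨i, hi, h1⟩ := exists_near_cpt hM L hz
    have h2 : infDist z X ≤ del M L := by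
      have : 0 ≤ 1 - ‖z‖ := by linarith
      unfold Dz at h; linarith
    have h3 : 1 - ‖z‖ ≤ del M L := by
      have : 0 ≤ infDist z X := infDist_nonneg
      unfold Dz at h; linarith
    obtain ⟨x, hx, h4⟩ := (infDist_lt_iff hX).mp (lt_of_le_of_lt h2
      (show del M L < 2 * del M L by linarith))
    rw [dist_eq_norm] at h4
    refine ⟨i, mem_occ.mpr ⟨hi, x, hx, ?_⟩, ?_⟩
    · have h5 : 4 * Real.pi / (M : ℝ) ^ L = 4 * Real.pi * del M L := by unfold del; ring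
      rw [h5]
      calc _ ≤ ‖cpt M L i - z‖ + ‖z - x‖ := norm_sub_le_norm_sub_add_norm_sub _ _ _
        _ ≤ _ := by nlinarith
    · calc _ ≤ ‖pol M L i - cpt M L i‖ + ‖cpt M L i - z‖ := norm_sub_le_norm_sub_add_norm_sub _ _ _
        _ ≤ _ := by
          rw [norm_pol_sub_cpt hM]
          nlinarith
  · have h1 : 1 ≤ del M L := by
      by_contra hcon
      push Not at hcon
      have := lt_min hcon h
      linarith
    have h2 : L = 0 := by
      by_contra hne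
      have hMr : (2 : ℝ) ≤ M := by exact_mod_cast hM
      have h3 : del M L < 1 := by
        unfold del
        apply inv_lt_one_of_one_lt₀
        exact one_lt_pow₀ (by linarith) hne
      linarith
    subst h2
    refine ⟨0, zero_mem_occ hM hX hX1, ?_⟩
    have h3 := norm_sub_le (pol M 0 0) z
    rw [norm_pol hM] at h3
    have h4 := del_le_one hM 0
    linarith

lemma exists_level {D : ℝ} (hD : 0 < D) :
    ∃ L : ℕ, del M (L + 1) ≤ D ∧ min 1 D ≤ del M L ∧ del M L ≤ M * D := by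
  have hMr : (2 : ℝ) ≤ M := by exact_mod_cast hM
  have h1 : 0 < min 1 D := lt_min one_pos hD
  obtain ⟨n, h2, h3⟩ := exists_nat_pow_near_of_lt_one h1 (min_le_left _ _)
    (show (0 : ℝ) < (M : ℝ)⁻¹ by positivity) (inv_lt_one_of_one_lt₀ (by linarith))
  have h4 : del M (n + 1) ≤ D := by
    unfold del
    rw [← inv_pow]
    exact (h2.trans_le (min_le_right _ _)).le
  refine ⟨n, h4, ?_, ?_⟩
  · unfold del
    rw [← inv_pow]
    exact h3
  · rw [del_succ hM, div_le_iff₀ (by positivity)] at h4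
    linarith

end Level

/-- The kernel. -/
noncomputable def ker (M : ℕ) (p : Σ _ : ℕ, ℕ) (z : ℂ) : ℂ :=
  (starRingEnd ℂ) (cpt M p.1 p.2) * (pol M p.1 p.2 - z)

/-- The index set. -/
noncomputable def idx (X : Set ℂ) (M J : ℕ) : Finset (Σ _ : ℕ, ℕ) :=
  (Finset.range J).sigma fun j => occ X M j

/-- The weights. -/
noncomputable def wt (M : ℕ) (θ : ℝ) (p : Σ _ : ℕ, ℕ) : ℝ := θ ^ p.1 * del M p.1

/-- The sum of kernels. -/
noncomputable def Hf (X : Set ℂ) (M J : ℕ) (θ : ℝ) (z : ℂ) : ℂ :=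
  ∑ p ∈ idx X M J, (wt M θ p : ℂ) / ker M p z

/-- Its derivative. -/
noncomputable def Hf1 (X : Set ℂ) (M J : ℕ) (θ : ℝ) (z : ℂ) : ℂ :=
  ∑ p ∈ idx X M J, (wt M θ p : ℂ) * (starRingEnd ℂ) (cpt M p.1 p.2) / ker M p z ^ 2

/-- Its second derivative. -/
noncomputable def Hf2 (X : Set ℂ) (M J : ℕ) (θ : ℝ) (z : ℂ) : ℂ :=
  ∑ p ∈ idx X M J, 2 * (wt M θ p : ℂ) * (starRingEnd ℂ) (cpt M p.1 p.2) ^ 2 / ker M p z ^ 3

section Deriv

variable {X : Set ℂ} {M : ℕ} (hM : 2 ≤ M)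
include hM

lemma ker_re {J : ℕ} {p : Σ _ : ℕ, ℕ} (hp : p ∈ idx X M J) {z : ℂ} (hz : ‖z‖ < 1 + del M J) :
    0 < (ker M p z).re := by
  have h1 : ker M p z = (1 + del M p.1 : ℝ) - (starRingEnd ℂ) (cpt M p.1 p.2) * z := by
    have h2 : (starRingEnd ℂ) (cpt M p.1 p.2) * cpt M p.1 p.2 = 1 := by
      rw [← Complex.normSq_eq_conj_mul_self, Complex.normSq_eq_norm_sq, norm_cpt]
      simp
    unfold ker pol
    push_cast
    linear_combination (1 + (del M p.1 : ℂ)) * h2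
  have h3 : ((starRingEnd ℂ) (cpt M p.1 p.2) * z).re ≤ ‖z‖ := by
    refine (Complex.re_le_norm _).trans ?_
    rw [norm_mul, RCLike.norm_conj, norm_cpt, one_mul]
  have h4 : del M J ≤ del M p.1 := by
    unfold idx at hp
    rw [Finset.mem_sigma, Finset.mem_range] at hp
    have hMr : (1 : ℝ) ≤ M := by exact_mod_cast (by omega : 1 ≤ M)
    unfold del
    have := pow_le_pow_right₀ hMr hp.1.le
    have h5 : (0 : ℝ) < (M : ℝ) ^ p.1 := by positivity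
    exact inv_anti₀ h5 this
  rw [h1, Complex.sub_re, Complex.ofReal_re]
  linarith

lemma norm_ker (p : Σ _ : ℕ, ℕ) (z : ℂ) : ‖ker M p z‖ = ‖pol M p.1 p.2 - z‖ := by
  unfold ker
  rw [norm_mul, RCLike.norm_conj, norm_cpt, one_mul]

lemma ker_re' (p : Σ _ : ℕ, ℕ) {z : ℂ} (hz : ‖z‖ ≤ 1) : del M p.1 ≤ (ker M p z).re := by
  have h1 : ker M p z = (1 + del M p.1 : ℝ) - (starRingEnd ℂ) (cpt M p.1 p.2) * z := by
    have h2 : (starRingEnd ℂ) (cpt M p.1 p.2) * cpt M p.1 p.2 = 1 := by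
      rw [← Complex.normSq_eq_conj_mul_self, Complex.normSq_eq_norm_sq, norm_cpt]
      simp
    unfold ker pol
    push_cast
    linear_combination (1 + (del M p.1 : ℂ)) * h2
  have h3 : ((starRingEnd ℂ) (cpt M p.1 p.2) * z).re ≤ ‖z‖ := by
    refine (Complex.re_le_norm _).trans ?_
    rw [norm_mul, RCLike.norm_conj, norm_cpt, one_mul]
  rw [h1, Complex.sub_re, Complex.ofReal_re]
  linarith

lemma ker_ne {J : ℕ} {p : Σ _ : ℕ, ℕ} (hp : p ∈ idx X M J) {z : ℂ} (hz : ‖z‖ < 1 + del M J) :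
    ker M p z ≠ 0 := by
  intro h
  have := ker_re hM hp hz
  rw [h] at this
  simp at this

lemma hasDerivAt_ker (p : Σ _ : ℕ, ℕ) (z : ℂ) :
    HasDerivAt (ker M p) (-(starRingEnd ℂ) (cpt M p.1 p.2)) z := by
  unfold ker
  have := ((hasDerivAt_id z).const_sub (pol M p.1 p.2)).const_mul
    ((starRingEnd ℂ) (cpt M p.1 p.2))
  simpa using this

lemma hasDerivAt_Hf {J : ℕ} (θ : ℝ) {z : ℂ} (hz : ‖z‖ < 1 + del M J) :
    HasDerivAt (Hf X M J θ) (Hf1 X M J θ z) z := by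
  unfold Hf Hf1
  refine HasDerivAt.fun_sum fun p hp => ?_
  exact ((hasDerivAt_const z (wt M θ p : ℂ)).fun_div (hasDerivAt_ker hM p z)
    (ker_ne hM hp hz)).congr_deriv (by ring)

lemma hasDerivAt_Hf1 {J : ℕ} (θ : ℝ) {z : ℂ} (hz : ‖z‖ < 1 + del M J) :
    HasDerivAt (Hf1 X M J θ) (Hf2 X M J θ z) z := by
  unfold Hf1 Hf2
  refine HasDerivAt.fun_sum fun p hp => ?_
  have hne := ker_ne hM hp hz
  exact ((hasDerivAt_const z ((wt M θ p : ℂ) * (starRingEnd ℂ) (cpt M p.1 p.2))).fun_div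
    ((hasDerivAt_ker hM p z).fun_pow 2) (pow_ne_zero 2 hne)).congr_deriv (by field_simp; ring)

lemma Hf_re_pos {J : ℕ} (hJ : 0 < J) {θ : ℝ} (hθ : 0 < θ) (hX : X.Nonempty)
    (hX1 : ∀ x ∈ X, ‖x‖ ≤ 1) {z : ℂ} (hz : ‖z‖ < 1 + del M J) : 0 < (Hf X M J θ z).re := by
  unfold Hf
  rw [Complex.re_sum]
  refine Finset.sum_pos ?_ ?_
  · intro p hp
    have h1 := ker_re hM hp hz
    rw [Complex.div_re, Complex.ofReal_re, Complex.ofReal_im, zero_mul, zero_div, add_zero]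
    have h2 : 0 < wt M θ p := mul_pos (pow_pos hθ _) (del_pos hM _)
    have h3 : 0 < Complex.normSq (ker M p z) := Complex.normSq_pos.mpr (ker_ne hM hp hz)
    positivity
  · exact ⟨⟨0, 0⟩, Finset.mem_sigma.mpr ⟨Finset.mem_range.mpr hJ, zero_mem_occ hM hX hX1⟩⟩

end Deriv

section Bounds

variable {X : Set ℂ} {c : ℝ} {M : ℕ}

lemma sum_wt_le (hK : KCond c X) (hM : 2 ≤ M) (hcM : 3 < c * M) {θ ρ : ℝ} (hθ : 1 ≤ θ)
    (hρ1 : ρ < 1) (h1 : θ⁻¹ ≤ ρ) (h2 : θ * (1 - (M : ℝ)⁻¹) ≤ ρ) {J L : ℕ} {z : ℂ}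
    (hz : ‖z‖ ≤ 1) (hL : del M (L + 1) ≤ Dz X z) :
    ∑ p ∈ idx X M J, wt M θ p / ‖pol M p.1 p.2 - z‖ ≤ (208 * M ^ 2 * (2 / (1 - ρ))) * θ ^ L := by
  have hMr : (2 : ℝ) ≤ M := by exact_mod_cast hM
  have hinv1 : (M : ℝ)⁻¹ ≤ 1 := inv_le_one_of_one_le₀ (by linarith)
  have hq : 0 ≤ 1 - (M : ℝ)⁻¹ := by linarith
  have hθ0 : 0 < θ := by linarith
  have hρ0 : 0 ≤ ρ := le_trans (by positivity) h1
  unfold idx
  rw [Finset.sum_sigma]
  calc ∑ j ∈ Finset.range J, ∑ i ∈ occ X M j, wt M θ ⟨j, i⟩ / ‖pol M j i - z‖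
      ≤ ∑ j ∈ Finset.range J, 208 * M ^ 2 * θ ^ L * ρ ^ ((j - L) + (L - j)) := by
        refine Finset.sum_le_sum fun j _ => ?_
        have h3 := N_le hK hM hcM (j := j) hz hL
        have h4 : ∑ i ∈ occ X M j, wt M θ ⟨j, i⟩ / ‖pol M j i - z‖ =
            θ ^ j * ∑ i ∈ occ X M j, del M j / ‖pol M j i - z‖ := by
          rw [Finset.mul_sum]
          refine Finset.sum_congr rfl fun i _ => ?_
          unfold wt
          ring
        rw [h4]
        refine (mul_le_mul_of_nonneg_left h3 (by positivity)).trans ?_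
        have h5 : θ ^ j * (1 - (M : ℝ)⁻¹) ^ (j - min j L) ≤ θ ^ L * ρ ^ ((j - L) + (L - j)) := by
          rcases le_total j L with h | h
          · rw [min_eq_left h, Nat.sub_self, pow_zero, mul_one, Nat.sub_eq_zero_of_le h, zero_add]
            have h6 : θ ^ j = θ ^ L * (θ⁻¹) ^ (L - j) := by
              have : θ ^ L = θ ^ j * θ ^ (L - j) := by rw [← pow_add]; congr 1; omega
              rw [this, mul_assoc, ← mul_pow, mul_inv_cancel₀ hθ0.ne', one_pow, mul_one]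
            rw [h6]
            gcongr
          · rw [min_eq_right h, Nat.sub_eq_zero_of_le h, add_zero]
            have h6 : θ ^ j * (1 - (M : ℝ)⁻¹) ^ (j - L) =
                θ ^ L * (θ * (1 - (M : ℝ)⁻¹)) ^ (j - L) := by
              have : θ ^ j = θ ^ L * θ ^ (j - L) := by rw [← pow_add]; congr 1; omega
              rw [this, mul_pow]; ring
            rw [h6]
            gcongr
        calc _ = 208 * M ^ 2 * (θ ^ j * (1 - (M : ℝ)⁻¹) ^ (j - min j L)) := by ring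
          _ ≤ 208 * M ^ 2 * (θ ^ L * ρ ^ ((j - L) + (L - j))) := by gcongr
          _ = _ := by ring
    _ = 208 * M ^ 2 * θ ^ L * ∑ j ∈ Finset.range J, ρ ^ ((j - L) + (L - j)) := by
        rw [Finset.mul_sum]
    _ ≤ 208 * M ^ 2 * θ ^ L * (2 / (1 - ρ)) := by
        gcongr
        exact sum_geo hρ0 hρ1 L J
    _ = _ := by ring

variable (hM : 2 ≤ M)
include hM

lemma wt_pos {θ : ℝ} (hθ : 1 ≤ θ) (p : Σ _ : ℕ, ℕ) : 0 < wt M θ p :=
  mul_pos (pow_pos (by linarith) _) (del_pos hM _)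

lemma pol_sub_pos (p : Σ _ : ℕ, ℕ) {z : ℂ} (hz : ‖z‖ ≤ 1) : 0 < ‖pol M p.1 p.2 - z‖ :=
  lt_of_lt_of_le (del_pos hM p.1) (del_le_norm hM hz)

lemma norm_Hf_le {θ : ℝ} (hθ : 1 ≤ θ) {J : ℕ} {z : ℂ} :
    ‖Hf X M J θ z‖ ≤ ∑ p ∈ idx X M J, wt M θ p / ‖pol M p.1 p.2 - z‖ := by
  unfold Hf
  refine (norm_sum_le _ _).trans (Finset.sum_le_sum fun p _ => ?_)
  rw [norm_div, norm_ker hM, Complex.norm_real, Real.norm_eq_abs,
    abs_of_pos (wt_pos hM hθ p)]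

lemma norm_Hf1_le {θ : ℝ} (hθ : 1 ≤ θ) {J : ℕ} {z : ℂ} (hz : ‖z‖ ≤ 1) (hD : 0 ≤ Dz X z) :
    ‖Hf1 X M J θ z‖ * Dz X z ≤ 16 * ∑ p ∈ idx X M J, wt M θ p / ‖pol M p.1 p.2 - z‖ := by
  unfold Hf1
  refine (mul_le_mul_of_nonneg_right (norm_sum_le _ _) hD).trans ?_
  rw [Finset.sum_mul, Finset.mul_sum]
  refine Finset.sum_le_sum fun p hp => ?_
  have h1 : p.2 ∈ occ X M p.1 := by
    unfold idx at hp
    exact (Finset.mem_sigma.mp hp).2
  have h2 := Dz_le_norm hM hz h1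
  have h3 := pol_sub_pos hM p hz
  have h4 := wt_pos hM hθ p
  rw [norm_div, norm_mul, norm_pow, norm_ker hM, Complex.norm_real, Real.norm_eq_abs,
    abs_of_pos h4, RCLike.norm_conj, norm_cpt, mul_one, div_mul_eq_mul_div,
    div_le_iff₀ (by positivity)]
  calc wt M θ p * Dz X z ≤ wt M θ p * (16 * ‖pol M p.1 p.2 - z‖) := by gcongr
    _ = _ := by field_simp

lemma norm_Hf2_le {θ : ℝ} (hθ : 1 ≤ θ) {J : ℕ} {z : ℂ} (hz : ‖z‖ ≤ 1) (hD : 0 ≤ Dz X z) :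
    ‖Hf2 X M J θ z‖ * Dz X z ^ 2 ≤
      512 * ∑ p ∈ idx X M J, wt M θ p / ‖pol M p.1 p.2 - z‖ := by
  unfold Hf2
  refine (mul_le_mul_of_nonneg_right (norm_sum_le _ _) (by positivity)).trans ?_
  rw [Finset.sum_mul, Finset.mul_sum]
  refine Finset.sum_le_sum fun p hp => ?_
  have h1 : p.2 ∈ occ X M p.1 := by
    unfold idx at hp
    exact (Finset.mem_sigma.mp hp).2
  have h2 := Dz_le_norm hM hz h1
  have h3 := pol_sub_pos hM p hz
  have h4 := wt_pos hM hθ p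
  rw [norm_div, norm_mul, norm_mul, norm_pow, norm_pow, norm_ker hM, Complex.norm_real,
    Real.norm_eq_abs, abs_of_pos h4, RCLike.norm_conj, norm_cpt, one_pow, mul_one,
    RCLike.norm_ofNat, div_mul_eq_mul_div, div_le_iff₀ (by positivity)]
  calc 2 * wt M θ p * Dz X z ^ 2 ≤ 2 * wt M θ p * (16 * ‖pol M p.1 p.2 - z‖) ^ 2 := by gcongr
    _ = _ := by field_simp; ring

lemma Hf_re_ge {θ : ℝ} (hθ : 1 ≤ θ) {J L : ℕ} {z : ℂ} (hz : ‖z‖ ≤ 1) (hX : X.Nonempty)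
    (hX1 : ∀ x ∈ X, ‖x‖ ≤ 1) (hL : min 1 (Dz X z) ≤ del M L)
    (hJ : ∀ j ≥ J, occ X M j = ∅) : θ ^ L / 81 ≤ (Hf X M J θ z).re := by
  obtain ⟨i, hi, h1⟩ := exists_occ_near hM hz hX hX1 hL
  have hLJ : L < J := by
    by_contra hcon
    rw [hJ L (by omega)] at hi
    simp at hi
  have hp : (⟨L, i⟩ : Σ _ : ℕ, ℕ) ∈ idx X M J :=
    Finset.mem_sigma.mpr ⟨Finset.mem_range.mpr hLJ, hi⟩
  have hre : ∀ p : Σ _ : ℕ, ℕ, ((wt M θ p : ℂ) / ker M p z).re =
      wt M θ p * (ker M p z).re / ‖ker M p z‖ ^ 2 := by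
    intro p
    rw [Complex.div_re, Complex.ofReal_re, Complex.ofReal_im, zero_mul, zero_div, add_zero,
      Complex.normSq_eq_norm_sq]
  have h2 : ((wt M θ ⟨L, i⟩ : ℂ) / ker M ⟨L, i⟩ z).re ≤ (Hf X M J θ z).re := by
    unfold Hf
    rw [Complex.re_sum]
    refine Finset.single_le_sum (f := fun p => ((wt M θ p : ℂ) / ker M p z).re) ?_ hp
    intro p _
    simp only [hre]
    have h3 := wt_pos hM hθ p
    have h4 := (del_pos hM p.1).trans_le (ker_re' hM p hz)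
    positivity
  refine le_trans ?_ h2
  have hd := del_pos hM L
  have h3 := ker_re' hM ⟨L, i⟩ hz
  have h5 := norm_ker hM ⟨L, i⟩ z
  have h6 := pol_sub_pos hM ⟨L, i⟩ hz
  simp only at h3 h5 h6
  have hθL : 0 < θ ^ L := pow_pos (by linarith) _
  rw [hre, h5, le_div_iff₀ (by positivity)]
  calc θ ^ L / 81 * ‖pol M L i - z‖ ^ 2 ≤ θ ^ L / 81 * (9 * del M L) ^ 2 := by gcongr
    _ = θ ^ L * del M L * del M L := by ring
    _ ≤ _ := by
      unfold wt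
      simp only
      gcongr

omit hM in
lemma exists_empty (hM : 2 ≤ M) {r : ℝ} (hr : r < 1) (hX1 : ∀ x ∈ X, ‖x‖ ≤ r) :
    ∃ J > 0, ∀ j ≥ J, occ X M j = ∅ := by
  have hMr : (2 : ℝ) ≤ M := by exact_mod_cast hM
  obtain ⟨n, hn⟩ := exists_pow_lt_of_lt_one (show 0 < (1 - r) / (4 * Real.pi) by
    have := Real.pi_pos
    have : 0 < 1 - r := by linarith
    positivity) (inv_lt_one_of_one_lt₀ (show (1 : ℝ) < M by linarith))
  refine ⟨n + 1, Nat.succ_pos _, fun j hj => ?_⟩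
  rw [Finset.eq_empty_iff_forall_notMem]
  intro i hi
  obtain ⟨-, x, hx, h1⟩ := mem_occ.mp hi
  have h2 := norm_sub_norm_le (cpt M j i) x
  rw [norm_cpt] at h2
  have h3 := hX1 x hx
  have hpi := Real.pi_pos
  have h4 : ((M : ℝ)⁻¹) ^ j ≤ ((M : ℝ)⁻¹) ^ n := pow_le_pow_of_le_one (by positivity)
    (inv_le_one_of_one_le₀ (by linarith)) (by omega)
  rw [lt_div_iff₀ (by positivity)] at hn
  have h5 : 4 * Real.pi / (M : ℝ) ^ j = ((M : ℝ)⁻¹) ^ j * (4 * Real.pi) := by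
    rw [inv_pow]; ring
  rw [h5] at h1
  have h6 : ((M : ℝ)⁻¹) ^ j * (4 * Real.pi) ≤ ((M : ℝ)⁻¹) ^ n * (4 * Real.pi) := by gcongr
  linarith

end Bounds

lemma exists_theta {M : ℕ} (hM : 2 ≤ M) {a : ℕ} (ha : 1 ≤ a) :
    ∃ (n : ℕ) (θ : ℝ), 1 < θ ∧ θ ^ (n + 1) = (M : ℝ) ^ a ∧ θ * (1 - (M : ℝ)⁻¹) < 1 := by
  have hMr : (2 : ℝ) ≤ M := by exact_mod_cast hM
  have hM0 : (M : ℝ) ≠ 0 := by positivity
  have hinv : 0 < (M : ℝ)⁻¹ := by positivity
  have hinv1 : (M : ℝ)⁻¹ < 1 := inv_lt_one_of_one_lt₀ (by linarith)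
  obtain ⟨n, hn⟩ := pow_unbounded_of_one_lt ((M : ℝ) ^ a) (show 1 < 1 + (M : ℝ)⁻¹ by linarith)
  have h1 : (M : ℝ) ^ a < (1 + (M : ℝ)⁻¹) ^ (n + 1) := by
    refine hn.trans_le (pow_le_pow_right₀ (by linarith) (Nat.le_succ n))
  refine ⟨n, ((M : ℝ) ^ a) ^ (((n + 1 : ℕ) : ℝ)⁻¹), ?_, ?_, ?_⟩
  · refine Real.one_lt_rpow (one_lt_pow₀ (by linarith) (by omega)) (by positivity)
  · exact Real.rpow_inv_natCast_pow (by positivity) (by omega)
  · have h2 : ((M : ℝ) ^ a) ^ (((n + 1 : ℕ) : ℝ)⁻¹) < 1 + (M : ℝ)⁻¹ := by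
      refine lt_of_pow_lt_pow_left₀ (n + 1) (by positivity) ?_
      rw [Real.rpow_inv_natCast_pow (by positivity) (by omega)]
      exact h1
    calc _ ≤ (1 + (M : ℝ)⁻¹) * (1 - (M : ℝ)⁻¹) := by
          have : 0 ≤ 1 - (M : ℝ)⁻¹ := by linarith
          gcongr
      _ < 1 := by nlinarith

/-- The weights. -/
theorem exists_weight (c : ℝ) (hc : 0 < c) (a : ℕ) (ha : 1 ≤ a) : ∃ B : ℝ, 0 < B ∧
    ∀ (X : Set ℂ) (r : ℝ), r < 1 → X.Nonempty → (∀ x ∈ X, ‖x‖ ≤ r) → KCond c X →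
    ∃ h : ℂ → ℂ, (∃ r > 1, DifferentiableOn ℂ h (ball 0 r)) ∧ (∀ z, ‖z‖ ≤ 1 → h z ≠ 0) ∧
      ∀ z, ‖z‖ ≤ 1 → 0 < Dz X z → Dz X z ^ a ≤ B * ‖h z‖ ∧ ‖h z‖ ≤ B * Dz X z ^ a ∧
        ‖deriv h z‖ * Dz X z ≤ B * ‖h z‖ ∧ ‖deriv (deriv h) z‖ * Dz X z ^ 2 ≤ B * ‖h z‖ := by
  obtain ⟨M, hMc⟩ := exists_nat_gt (3 / c + 2)
  have hM2 : (2 : ℝ) < M := by have : 0 < 3 / c := by positivity
                               linarith
  have hM : 2 ≤ M := by exact_mod_cast hM2.le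
  have hcM : 3 < c * M := by
    have : 3 / c < M := by linarith
    rw [div_lt_iff₀ hc] at this
    linarith
  obtain ⟨n, θ, hθ1, hθ, hθq⟩ := exists_theta hM ha
  set ρ : ℝ := max θ⁻¹ (θ * (1 - (M : ℝ)⁻¹)) with hρ
  have hρ1 : ρ < 1 := max_lt (inv_lt_one_of_one_lt₀ hθ1) hθq
  set S : ℝ := 208 * M ^ 2 * (2 / (1 - ρ)) with hS
  have hS0 : 0 < S := by
    have : 0 < 1 - ρ := by linarith
    positivity
  set N : ℝ := (n : ℝ) + 1 with hN
  have hN0 : 0 < N := by positivity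
  set B : ℝ := 3 ^ a * S ^ (n + 1) + 81 ^ (n + 1) * M ^ a + N * (16 * S * 81) +
    (N * (512 * S * 81) + N * (N + 1) * (16 * S * 81) ^ 2) with hB
  have hB1 : 3 ^ a * S ^ (n + 1) ≤ B := by
    have : 0 ≤ 81 ^ (n + 1) * (M : ℝ) ^ a + N * (16 * S * 81) +
      (N * (512 * S * 81) + N * (N + 1) * (16 * S * 81) ^ 2) := by positivity
    linarith
  have hB2 : 81 ^ (n + 1) * (M : ℝ) ^ a ≤ B := by
    have : 0 ≤ 3 ^ a * S ^ (n + 1) + N * (16 * S * 81) +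
      (N * (512 * S * 81) + N * (N + 1) * (16 * S * 81) ^ 2) := by positivity
    linarith
  have hB3 : N * (16 * S * 81) ≤ B := by
    have : 0 ≤ 3 ^ a * S ^ (n + 1) + 81 ^ (n + 1) * (M : ℝ) ^ a +
      (N * (512 * S * 81) + N * (N + 1) * (16 * S * 81) ^ 2) := by positivity
    linarith
  have hB4 : (N * (512 * S * 81) + N * (N + 1) * (16 * S * 81) ^ 2) ≤ B := by
    have : 0 ≤ 3 ^ a * S ^ (n + 1) + 81 ^ (n + 1) * (M : ℝ) ^ a +
      N * (16 * S * 81) := by positivity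
    linarith
  have hB0 : 0 < B := lt_of_lt_of_le (by positivity) hB3
  refine ⟨B, hB0, ?_⟩
  intro X r hr hX hXr hK
  have hX1 : ∀ x ∈ X, ‖x‖ ≤ 1 := fun x hx => (hXr x hx).trans hr.le
  obtain ⟨J, hJ0, hJ⟩ := exists_empty hM hr hXr
  have hdJ := del_pos hM J
  have hHne : ∀ z : ℂ, ‖z‖ < 1 + del M J → Hf X M J θ z ≠ 0 := by
    intro z hz h
    have := Hf_re_pos hM hJ0 (by linarith : 0 < θ) hX hX1 hz
    rw [h] at this
    simp at this
  set h : ℂ → ℂ := fun z => (Hf X M J θ z ^ (n + 1))⁻¹ with hh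
  set h1 : ℂ → ℂ := fun z => -(N : ℂ) * Hf1 X M J θ z / Hf X M J θ z ^ (n + 2) with hh1
  set h2 : ℂ → ℂ := fun z => -(N : ℂ) * Hf2 X M J θ z / Hf X M J θ z ^ (n + 2) +
    N * (N + 1) * Hf1 X M J θ z ^ 2 / Hf X M J θ z ^ (n + 3) with hh2
  have hd1 : ∀ z : ℂ, ‖z‖ < 1 + del M J → HasDerivAt h (h1 z) z := by
    intro z hz
    have hne := hHne z hz
    have e1 := ((hasDerivAt_Hf hM θ hz (X := X)).fun_pow (n + 1)).fun_inv
      (pow_ne_zero (n + 1) hne)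
    refine e1.congr_deriv ?_
    simp only [hh1, hN]
    push_cast
    field_simp
    simp
    ring
  have hd2 : ∀ z : ℂ, ‖z‖ < 1 + del M J → HasDerivAt h1 (h2 z) z := by
    intro z hz
    have hne := hHne z hz
    have e1 := ((hasDerivAt_Hf1 hM θ hz (X := X)).const_mul (-(N : ℂ))).fun_div
      ((hasDerivAt_Hf hM θ hz (X := X)).fun_pow (n + 2)) (pow_ne_zero (n + 2) hne)
    refine e1.congr_deriv ?_
    simp only [hh2, hN]
    push_cast
    field_simp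
    simp
    ring
  have hder : ∀ z : ℂ, ‖z‖ ≤ 1 → deriv h z = h1 z := fun z hz => (hd1 z (by linarith)).deriv
  have hder2 : ∀ z : ℂ, ‖z‖ ≤ 1 → deriv (deriv h) z = h2 z := by
    intro z hz
    have e1 : deriv h =ᶠ[nhds z] h1 := by
      have e2 : ball (0 : ℂ) (1 + del M J) ∈ nhds z :=
        isOpen_ball.mem_nhds (by rw [mem_ball_zero_iff]; linarith)
      filter_upwards [e2] with w hw
      rw [mem_ball_zero_iff] at hw
      exact (hd1 w hw).deriv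
    rw [e1.deriv_eq]
    exact (hd2 z (by linarith)).deriv
  refine ⟨h, ⟨1 + del M J, by linarith, fun z hz => ?_⟩, ?_, ?_⟩
  · rw [mem_ball_zero_iff] at hz
    exact (hd1 z hz).differentiableAt.differentiableWithinAt
  · intro z hz
    exact inv_ne_zero (pow_ne_zero _ (hHne z (by linarith)))
  · intro z hz hD
    obtain ⟨L, hL1, hL2, hL3⟩ := exists_level hM hD
    have hsum := sum_wt_le hK hM hcM hθ1.le hρ1 (le_max_left _ _) (le_max_right _ _)
      (J := J) hz hL1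
    rw [← hS] at hsum
    set E : ℝ := θ ^ L with hE
    have hE0 : 0 < E := pow_pos (by linarith) _
    have hre := Hf_re_ge hM hθ1.le hz hX hX1 hL2 hJ
    have hlow : E / 81 ≤ ‖Hf X M J θ z‖ := hre.trans (Complex.re_le_norm _)
    have hup : ‖Hf X M J θ z‖ ≤ S * E := (norm_Hf_le hM hθ1.le).trans hsum
    have hup1 : ‖Hf1 X M J θ z‖ * Dz X z ≤ 16 * (S * E) :=
      (norm_Hf1_le hM hθ1.le hz hD.le).trans (by gcongr)
    have hup2 : ‖Hf2 X M J θ z‖ * Dz X z ^ 2 ≤ 512 * (S * E) :=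
      (norm_Hf2_le hM hθ1.le hz hD.le).trans (by gcongr)
    obtain ⟨T1, hT1⟩ : ∃ T : ℝ, T = 16 * (S * (81 * ‖Hf X M J θ z‖)) := ⟨_, rfl⟩
    obtain ⟨T2, hT2⟩ : ∃ T : ℝ, T = 512 * (S * (81 * ‖Hf X M J θ z‖)) := ⟨_, rfl⟩
    set G : ℝ := ‖Hf X M J θ z‖ with hG
    have hG0 : 0 < G := lt_of_lt_of_le (by positivity) hlow
    have hEG : E ≤ 81 * G := by linarith
    have hup1' : ‖Hf1 X M J θ z‖ * Dz X z ≤ T1 := by
      rw [hT1]; exact hup1.trans (by gcongr)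
    have hup2' : ‖Hf2 X M J θ z‖ * Dz X z ^ 2 ≤ T2 := by
      rw [hT2]; exact hup2.trans (by gcongr)
    have hEN : E ^ (n + 1) = ((M : ℝ) ^ L) ^ a := by
      rw [hE, ← pow_mul, mul_comm L, pow_mul, hθ, ← pow_mul, ← pow_mul, mul_comm]
    have hdL : del M L ^ a * E ^ (n + 1) = 1 := by
      rw [hEN, ← mul_pow]
      unfold del
      rw [inv_mul_cancel₀ (by positivity), one_pow]
    have hnh : ‖h z‖ = (G ^ (n + 1))⁻¹ := by simp [hh, hG]
    have hdLp := del_pos hM L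
    have hD3 : Dz X z ≤ 3 * del M L := by
      have : Dz X z ≤ 3 * min 1 (Dz X z) := by
        rcases le_total 1 (Dz X z) with h | h
        · rw [min_eq_left h]
          obtain ⟨x, hx⟩ := hX
          have e1 : infDist z X ≤ dist z x := infDist_le_dist_of_mem hx
          have e2 : dist z x ≤ 2 := by
            rw [dist_eq_norm]
            refine (norm_sub_le _ _).trans ?_
            have := hX1 x hx
            linarith
          have e3 := norm_nonneg z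
          unfold Dz
          linarith
        · rw [min_eq_right h]; linarith
      linarith
    refine ⟨?_, ?_, ?_, ?_⟩
    · rw [hnh, ← div_eq_mul_inv, le_div_iff₀ (by positivity)]
      calc Dz X z ^ a * G ^ (n + 1) ≤ (3 * del M L) ^ a * (S * E) ^ (n + 1) := by gcongr
        _ = 3 ^ a * S ^ (n + 1) * (del M L ^ a * E ^ (n + 1)) := by rw [mul_pow, mul_pow]; ring
        _ ≤ B := by rw [hdL, mul_one]; exact hB1
    · rw [hnh, inv_le_iff_one_le_mul₀ (by positivity)]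
      calc (1 : ℝ) = del M L ^ a * E ^ (n + 1) := hdL.symm
        _ ≤ (M * Dz X z) ^ a * (81 * G) ^ (n + 1) := by gcongr
        _ = (81 ^ (n + 1) * M ^ a) * (Dz X z ^ a * G ^ (n + 1)) := by
            rw [mul_pow, mul_pow]; ring
        _ ≤ B * (Dz X z ^ a * G ^ (n + 1)) := by gcongr
        _ = _ := by ring
    · rw [hder z hz, hnh]
      have e1 : ‖h1 z‖ = N * ‖Hf1 X M J θ z‖ / G ^ (n + 2) := by
        simp only [hh1]
        rw [norm_div, norm_mul, norm_neg, norm_pow, Complex.norm_real, Real.norm_eq_abs,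
          abs_of_pos hN0]
      rw [e1]
      calc N * ‖Hf1 X M J θ z‖ / G ^ (n + 2) * Dz X z =
            N * (‖Hf1 X M J θ z‖ * Dz X z) / G ^ (n + 2) := by ring
        _ ≤ N * T1 / G ^ (n + 2) := by gcongr
        _ = N * (16 * S * 81) * (G ^ (n + 1))⁻¹ := by
            rw [hT1]
            field_simp
            ring
        _ ≤ B * (G ^ (n + 1))⁻¹ := by gcongr
    · rw [hder2 z hz, hnh]
      have e1 : ‖h2 z‖ ≤ N * ‖Hf2 X M J θ z‖ / G ^ (n + 2) +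
          N * (N + 1) * ‖Hf1 X M J θ z‖ ^ 2 / G ^ (n + 3) := by
        simp only [hh2]
        refine (norm_add_le _ _).trans (le_of_eq ?_)
        have e2 : (N : ℂ) + 1 = ((N + 1 : ℝ) : ℂ) := by push_cast; ring
        rw [norm_div, norm_mul, norm_neg, norm_pow, norm_div, norm_mul, norm_mul, norm_pow,
          norm_pow, e2, Complex.norm_real, Complex.norm_real, Real.norm_eq_abs,
          Real.norm_eq_abs, abs_of_pos hN0, abs_of_pos (by positivity)]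
      calc ‖h2 z‖ * Dz X z ^ 2 ≤ (N * ‖Hf2 X M J θ z‖ / G ^ (n + 2) +
          N * (N + 1) * ‖Hf1 X M J θ z‖ ^ 2 / G ^ (n + 3)) * Dz X z ^ 2 := by gcongr
        _ = N * (‖Hf2 X M J θ z‖ * Dz X z ^ 2) / G ^ (n + 2) +
          N * (N + 1) * (‖Hf1 X M J θ z‖ * Dz X z) ^ 2 / G ^ (n + 3) := by ring
        _ ≤ N * T2 / G ^ (n + 2) + N * (N + 1) * T1 ^ 2 / G ^ (n + 3) := by gcongr
        _ = (N * (512 * S * 81) + N * (N + 1) * (16 * S * 81) ^ 2) * (G ^ (n + 1))⁻¹ := by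
            rw [hT1, hT2]
            field_simp
            ring
        _ ≤ B * (G ^ (n + 1))⁻¹ := by gcongr

theorem distLike_Dz {X : Set ℂ} (hX : X.Nonempty) (hX1 : ∀ x ∈ X, ‖x‖ ≤ 1) :
    DistLike (Dz X) where
  pos z hz := by
    have : 0 ≤ infDist z X := infDist_nonneg
    unfold Dz
    linarith
  one_sub_le z := by
    have : 0 ≤ infDist z X := infDist_nonneg
    unfold Dz
    linarith
  lip z w := by
    have h1 : infDist z X ≤ infDist w X + dist z w := infDist_le_infDist_add_dist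
    have h2 := norm_sub_norm_le w z
    rw [norm_sub_rev] at h2
    rw [dist_eq_norm] at h1
    unfold Dz
    linarith
  le_three z hz := by
    obtain ⟨x, hx⟩ := hX
    have e1 : infDist z X ≤ dist z x := infDist_le_dist_of_mem hx
    have e2 : dist z x ≤ 2 := by
      rw [dist_eq_norm]
      refine (norm_sub_le _ _).trans ?_
      have := hX1 x hx
      linarith
    have e3 := norm_nonneg z
    unfold Dz
    linarith

lemma peak_of_weight {B : ℝ} (hB : 0 < B) {D : ℂ → ℝ} (hD : DistLike D) {h : ℂ → ℂ}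
    (h1 : ∃ r > 1, DifferentiableOn ℂ h (ball 0 r)) (h2 : ∀ z, ‖z‖ ≤ 1 → h z ≠ 0)
    (h3 : ∀ z, ‖z‖ ≤ 1 → 0 < D z → D z ^ 3 ≤ B * ‖h z‖ ∧ ‖h z‖ ≤ B * D z ^ 3 ∧
        ‖deriv h z‖ * D z ≤ B * ‖h z‖ ∧ ‖deriv (deriv h) z‖ * D z ^ 2 ≤ B * ‖h z‖) :
    Peak (B + 27 * B ^ 2) 3 D h where
  diff := h1
  ne := h2
  d1 z hz := ((h3 z hz.le (hD.pos z hz)).2.2.1).trans (by
    gcongr
    have : 0 ≤ 27 * B ^ 2 := by positivity
    linarith)
  d2 z hz := ((h3 z hz.le (hD.pos z hz)).2.2.2).trans (by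
    gcongr
    have : 0 ≤ 27 * B ^ 2 := by positivity
    linarith)
  ratio z w hz hw := by
    have hDz := hD.pos z hz
    have hDw := hD.pos w hw
    obtain ⟨-, e1, -, -⟩ := h3 z hz.le hDz
    obtain ⟨e2, -, -, -⟩ := h3 w hw.le hDw
    have e3 := hD.lip z w
    have hR := norm_nonneg (z - w)
    have e4 : D z * (1 + ‖z - w‖ / D z) ≤ 3 * (D w * (1 + ‖z - w‖ / D w)) := by
      have e5 : D z * (1 + ‖z - w‖ / D z) = D z + ‖z - w‖ := by field_simp
      have e6 : D w * (1 + ‖z - w‖ / D w) = D w + ‖z - w‖ := by field_simp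
      rw [e5, e6]
      linarith
    calc ‖h z‖ * (1 + ‖z - w‖ / D z) ^ 3 ≤ B * D z ^ 3 * (1 + ‖z - w‖ / D z) ^ 3 := by gcongr
      _ = B * (D z * (1 + ‖z - w‖ / D z)) ^ 3 := by ring
      _ ≤ B * (3 * (D w * (1 + ‖z - w‖ / D w))) ^ 3 := by gcongr
      _ = 27 * B * (D w ^ 3 * (1 + ‖z - w‖ / D w) ^ 3) := by ring
      _ ≤ 27 * B * (B * ‖h w‖ * (1 + ‖z - w‖ / D w) ^ 3) := by gcongr
      _ = 27 * B ^ 2 * (‖h w‖ * (1 + ‖z - w‖ / D w) ^ 3) := by ring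
      _ ≤ (B + 27 * B ^ 2) * (‖h w‖ * (1 + ‖z - w‖ / D w) ^ 3) := by
        gcongr
        linarith

theorem exists_peak (c : ℝ) (hc : 0 < c) : ∃ B : ℝ, 0 < B ∧ ∀ X : Finset ℂ, X.Nonempty →
    (∀ x ∈ X, ‖x‖ < 1) → KCond c X → ∃ h : ℂ → ℂ, Peak B 3 (Dz X) h := by
  obtain ⟨B, hB, h⟩ := exists_weight c hc 3 (by norm_num)
  refine ⟨B + 27 * B ^ 2, by positivity, fun X hX hX1 hK => ?_⟩
  obtain ⟨x0, hx0, hmax⟩ := X.exists_max_image (fun x => ‖x‖) hX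
  obtain ⟨g, h1, h2, h3⟩ := h X ‖x0‖ (hX1 x0 hx0) (by simpa using hX) (fun x hx => hmax x hx) hK
  exact ⟨g, peak_of_weight hB (distLike_Dz (by simpa using hX)
    (fun x hx => (hX1 x (by simpa using hx)).le)) h1 h2 h3⟩

end Pool.Agent.H82.Zyg
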