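import Mathlib
import Pool.Agent.H82.Zyg.McShane
import Pool.Agent.H82.Zyg.Sums

/-!
# The inf-convolution
-/

namespace Pool.Agent.H82.Zyg

open Complex Metric Set

/-- The affine function of the node `(x, R)`. -/
noncomputable def pl (φ : ℂ → ℂ) (c : ℂ → ℝ → ℂ) (x : ℂ) (R : ℝ) (w : ℂ) : ℂ :=
  φ x + c x R * (w - x)

/-- The allowed error of the node `(x, R)`. -/
noncomputable def Vn (x : ℂ) (R : ℝ) (w : ℂ) : ℝ := ‖w - x‖ ^ 2 / R + R

lemma mul_log_le {a L R : ℝ} (ha : 0 ≤ a) (hL : 0 < L) (hR : 0 < R) :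
    a * Real.log (L / R) ≤ L + a ^ 2 / R := by
  rcases ha.eq_or_lt with h | h
  · rw [← h]; simp; exact hL.le
  · have h1 : L / R = (L / a) * (a / R) := by field_simp
    rw [h1, Real.log_mul (by positivity) (by positivity)]
    have h2 := Real.log_le_self (show 0 ≤ L / a by positivity)
    have h3 := Real.log_le_self (show 0 ≤ a / R by positivity)
    calc _ ≤ a * (L / a + a / R) := by gcongr
      _ = _ := by field_simp

lemma Vn_nonneg (x : ℂ) {R : ℝ} (hR : 0 < R) (w : ℂ) : 0 < Vn x R w := by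
  unfold Vn; positivity

lemma two_mul_le_Vn (x : ℂ) {R : ℝ} (hR : 0 < R) (w : ℂ) : 2 * ‖w - x‖ ≤ Vn x R w := by
  unfold Vn
  rw [div_add' _ _ _ hR.ne', le_div_iff₀ hR]
  nlinarith [sq_nonneg (‖w - x‖ - R)]

lemma R_le_Vn (x : ℂ) {R : ℝ} (hR : 0 < R) (w : ℂ) : R ≤ Vn x R w := by
  unfold Vn
  have : 0 ≤ ‖w - x‖ ^ 2 / R := by positivity
  linarith

lemma sq_le_Vn (x : ℂ) {R : ℝ} (hR : 0 < R) (w : ℂ) : ‖w - x‖ ^ 2 / R ≤ Vn x R w := by
  unfold Vn
  linarith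

lemma qd_le_log {x : ℂ} {R : ℝ} {y : ℂ} {S B : ℝ} (hR : 0 < R) (hS : 0 < S)
    (h : (‖x - y‖ + R + S) ^ 2 ≤ B * (R * S)) : qd x R y S ≤ Real.log B := by
  unfold qd
  have h0 := norm_nonneg (x - y)
  apply Real.log_le_log (by positivity)
  rwa [div_le_iff₀ (by positivity)]

lemma log_four_le : Real.log 4 ≤ 2 := by
  have h1 : (4 : ℝ) = 2 ^ 2 := by norm_num
  rw [h1, Real.log_pow]
  have := Real.log_two_lt_d9
  push_cast
  linarith

lemma one_le_log_four : 1 ≤ Real.log 4 := by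
  have h1 : (4 : ℝ) = 2 ^ 2 := by norm_num
  rw [h1, Real.log_pow]
  have := Real.log_two_gt_d9
  push_cast
  linarith

lemma log_nine_le : Real.log 9 ≤ 3 := by
  have h0 : Real.log 9 ≤ Real.log 16 := Real.log_le_log (by norm_num) (by norm_num)
  have h1 : (16 : ℝ) = 2 ^ 4 := by norm_num
  rw [h1, Real.log_pow] at h0
  have := Real.log_two_lt_d9
  push_cast at h0
  linarith

lemma slp_comm (φ : ℂ → ℂ) (x y : ℂ) : slp φ x y = slp φ y x := by
  unfold slp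
  rw [← neg_sub (φ y), ← neg_sub y, neg_div_neg_eq]

lemma slp_mul (φ : ℂ → ℂ) {x y : ℂ} (h : x ≠ y) : φ x - φ y = slp φ x y * (x - y) := by
  unfold slp
  rw [div_mul_cancel₀]
  exact sub_ne_zero.mpr h

section LemmaC

variable {X : Finset ℂ} {φ : ℂ → ℂ} {c : ℂ → ℝ → ℂ} {K : ℝ} (hK : 0 ≤ K)
  (hM1 : ∀ x R x' R', 0 < R → 0 < R' → ‖c x R - c x' R'‖ ≤ K * qd x R x' R')
  (hM2 : ∀ x ∈ X, ∀ y ∈ X, x ≠ y → ∀ z R, 0 < R →
    ‖c z R - slp φ x y‖ ≤ K * qd z R x (scl x y))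

include hK hM1 hM2

/-- Case 2 of Lemma C. -/
lemma pl_sub_case2 {x x' : ℂ} (hx : x ∈ X) (hx' : x' ∈ X) {R R' : ℝ} (hR : 0 < R) (hR' : 0 < R')
    (hRx : 1 - ‖x‖ ≤ R) (hRR : R' ≤ R) (hL : ‖x - x'‖ ≤ R) (w : ℂ) :
    ‖pl φ c x R w - pl φ c x' R' w‖ ≤ 4 * K * (Vn x R w + Vn x' R' w) := by
  have h1 := two_mul_le_Vn x' hR' w
  have h2 := R_le_Vn x hR w
  have h3 := sq_le_Vn x' hR' w
  have hV := Vn_nonneg x hR w
  have hV' := Vn_nonneg x' hR' w
  have hb := norm_nonneg (w - x')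
  have hL0 := norm_nonneg (x - x')
  -- the difference of the slopes
  have e1 : ‖(c x R - c x' R') * (w - x')‖ ≤ K * (3 * ‖w - x'‖ + (R + ‖w - x'‖ ^ 2 / R')) := by
    rw [norm_mul]
    have e2 : qd x R x' R' ≤ 3 + Real.log (R / R') := by
      have e3 : qd x R x' R' ≤ Real.log (9 * (R / R')) := by
        apply qd_le_log hR hR'
        have : 9 * (R / R') * (R * R') = (3 * R) ^ 2 := by field_simp; ring
        rw [this]
        apply pow_le_pow_left₀ (by positivity)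
        linarith
      rw [Real.log_mul (by norm_num) (by positivity)] at e3
      linarith [log_nine_le]
    calc _ ≤ (K * qd x R x' R') * ‖w - x'‖ := by gcongr; exact hM1 _ _ _ _ hR hR'
      _ ≤ (K * (3 + Real.log (R / R'))) * ‖w - x'‖ := by gcongr
      _ = K * (3 * ‖w - x'‖ + ‖w - x'‖ * Real.log (R / R')) := by ring
      _ ≤ _ := by
        gcongr
        exact mul_log_le hb hR hR'
  rcases eq_or_ne x x' with h | h
  · subst h
    have e2 : pl φ c x R w - pl φ c x R' w = (c x R - c x R') * (w - x) := by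
      unfold pl; ring
    rw [e2]
    refine e1.trans ?_
    nlinarith
  · have hLp : 0 < ‖x - x'‖ := norm_pos_iff.mpr (sub_ne_zero.mpr h)
    have e2 : pl φ c x R w - pl φ c x' R' w = (c x R - c x' R') * (w - x') +
        (c x R - slp φ x x') * (x' - x) := by
      unfold pl
      linear_combination slp_mul φ h
    have e3 : ‖(c x R - slp φ x x') * (x' - x)‖ ≤ K * (2 * ‖x - x'‖ + R) := by
      rw [norm_mul, norm_sub_rev x' x]
      set S := scl x x' with hS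
      have hLS : ‖x - x'‖ ≤ S := le_max_left _ _
      have hS0 : 0 < S := hLp.trans_le hLS
      have hSR : S ≤ R := max_le hL hRx
      have e4 : qd x R x S ≤ 2 + Real.log (R / S) := by
        have e3 : qd x R x S ≤ Real.log (4 * (R / S)) := by
          apply qd_le_log hR hS0
          have : 4 * (R / S) * (R * S) = (2 * R) ^ 2 := by field_simp; ring
          rw [this, sub_self, norm_zero]
          apply pow_le_pow_left₀ (by positivity)
          linarith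
        rw [Real.log_mul (by norm_num) (by positivity)] at e3
        linarith [log_four_le]
      calc _ ≤ (K * qd x R x S) * ‖x - x'‖ := by gcongr; exact hM2 x hx x' hx' h x R hR
        _ ≤ (K * (2 + Real.log (R / S))) * ‖x - x'‖ := by gcongr
        _ ≤ (K * (2 + R / S)) * ‖x - x'‖ := by
          gcongr
          exact Real.log_le_self (by positivity)
        _ = K * (2 * ‖x - x'‖ + (R / S) * ‖x - x'‖) := by ring
        _ ≤ K * (2 * ‖x - x'‖ + (R / S) * S) := by gcongr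
        _ = _ := by field_simp
    rw [e2]
    refine (norm_add_le _ _).trans ((add_le_add e1 e3).trans ?_)
    nlinarith

omit hM1 in
/-- Case 1 of Lemma C. -/
lemma pl_sub_case1 {x x' : ℂ} (hx : x ∈ X) (hx' : x' ∈ X) {R R' : ℝ} (hR : 0 < R) (hR' : 0 < R')
    (hRx : 1 - ‖x‖ ≤ R) (hRx' : 1 - ‖x'‖ ≤ R') (hL : R ≤ ‖x - x'‖) (hL' : R' ≤ ‖x - x'‖) (w : ℂ) :
    ‖pl φ c x R w - pl φ c x' R' w‖ ≤ 4 * K * (Vn x R w + Vn x' R' w) := by
  have h1 := two_mul_le_Vn x' hR' w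
  have h1' := two_mul_le_Vn x hR w
  have h3 := sq_le_Vn x' hR' w
  have h3' := sq_le_Vn x hR w
  have hV := Vn_nonneg x hR w
  have hV' := Vn_nonneg x' hR' w
  have hLp : 0 < ‖x - x'‖ := by linarith
  have h : x ≠ x' := sub_ne_zero.mp (norm_pos_iff.mp hLp)
  have hLab : ‖x - x'‖ ≤ ‖w - x‖ + ‖w - x'‖ := by
    have := norm_sub_le_norm_sub_add_norm_sub x w x'
    rwa [norm_sub_rev x w] at this
  have e2 : pl φ c x R w - pl φ c x' R' w = (c x R - slp φ x x') * (w - x) -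
        (c x' R' - slp φ x' x) * (w - x') := by
    unfold pl
    rw [slp_comm φ x' x]
    linear_combination slp_mul φ h
  have key : ∀ y ∈ X, ∀ y' ∈ X, y ≠ y' → ∀ S : ℝ, 0 < S → 1 - ‖y‖ ≤ S → S ≤ ‖y - y'‖ →
      ‖(c y S - slp φ y y') * (w - y)‖ ≤ K * (2 * ‖w - y‖ + (‖y - y'‖ + ‖w - y‖ ^ 2 / S)) := by
    intro y hy y' hy' hne S hS hSy hSL
    have hLp : 0 < ‖y - y'‖ := by linarith
    rw [norm_mul]
    have e3 : scl y y' = ‖y - y'‖ := max_eq_left (by linarith)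
    have e4 : qd y S y (scl y y') ≤ 2 + Real.log (‖y - y'‖ / S) := by
      rw [e3]
      have e3 : qd y S y ‖y - y'‖ ≤ Real.log (4 * (‖y - y'‖ / S)) := by
        apply qd_le_log hS hLp
        have : 4 * (‖y - y'‖ / S) * (S * ‖y - y'‖) = (2 * ‖y - y'‖) ^ 2 := by field_simp; ring
        rw [this, sub_self, norm_zero]
        apply pow_le_pow_left₀ (by positivity)
        linarith
      rw [Real.log_mul (by norm_num) (by positivity)] at e3
      linarith [log_four_le]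
    calc _ ≤ (K * qd y S y (scl y y')) * ‖w - y‖ := by gcongr; exact hM2 y hy y' hy' hne y S hS
      _ ≤ (K * (2 + Real.log (‖y - y'‖ / S))) * ‖w - y‖ := by gcongr
      _ = K * (2 * ‖w - y‖ + ‖w - y‖ * Real.log (‖y - y'‖ / S)) := by ring
      _ ≤ _ := by
        gcongr
        exact mul_log_le (norm_nonneg _) hLp hS
  have k1 := key x hx x' hx' h R hR hRx hL
  have k2 := key x' hx' x hx h.symm R' hR' hRx' (by rwa [norm_sub_rev])
  rw [norm_sub_rev x' x] at k2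
  rw [e2]
  refine (norm_sub_le _ _).trans ((add_le_add k1 k2).trans ?_)
  have : 0 ≤ K * (Vn x R w + Vn x' R' w) := by positivity
  calc _ = K * ((2 * ‖w - x‖ + 2 * ‖w - x'‖) + 2 * ‖x - x'‖ +
        (‖w - x‖ ^ 2 / R + ‖w - x'‖ ^ 2 / R')) := by ring
    _ ≤ K * ((Vn x R w + Vn x' R' w) + (Vn x R w + Vn x' R' w) +
        (Vn x R w + Vn x' R' w)) := by
      gcongr
      linarith
    _ ≤ _ := by linarith

/-- Lemma C. -/
lemma pl_sub {x x' : ℂ} (hx : x ∈ X) (hx' : x' ∈ X) {R R' : ℝ} (hR : 0 < R) (hR' : 0 < R')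
    (hRx : 1 - ‖x‖ ≤ R) (hRx' : 1 - ‖x'‖ ≤ R') (w : ℂ) :
    ‖pl φ c x R w - pl φ c x' R' w‖ ≤ 4 * K * (Vn x R w + Vn x' R' w) := by
  rcases le_total R' R with hRR | hRR
  · rcases le_or_gt ‖x - x'‖ R with hL | hL
    · exact pl_sub_case2 hK hM1 hM2 hx hx' hR hR' hRx hRR hL w
    · exact pl_sub_case1 hK hM2 hx hx' hR hR' hRx hRx' hL.le (by linarith) w
  · rcases le_or_gt ‖x - x'‖ R' with hL | hL
    · rw [norm_sub_rev, add_comm (Vn x R w)]
      rw [norm_sub_rev] at hL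
      exact pl_sub_case2 hK hM1 hM2 hx' hx hR' hR hRx' hRR hL w
    · exact pl_sub_case1 hK hM2 hx hx' hR hR' hRx hRx' (by linarith) hL.le w

end LemmaC

/-- The real inf-convolution. -/
lemma real_inf {ι : Type*} (P : Finset ι) (hP : P.Nonempty) (u V : ι → ℂ → ℝ) {C : ℝ} (hC : 0 < C)
    (hu : ∀ p ∈ P, Continuous (u p)) (hVc : ∀ p ∈ P, Continuous (V p))
    (h : ∀ p ∈ P, ∀ q ∈ P, ∀ w, |u p w - u q w| ≤ C * (V p w + V q w))
    (hV : ∀ p ∈ P, ∀ w, 0 < V p w) :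
    ∃ f : ℂ → ℝ, Continuous f ∧ (∀ p ∈ P, ∀ w, |f w - u p w| ≤ 2 * C * V p w) ∧
      (∀ w, ∃ q ∈ P, f w = u q w + 2 * C * V q w ∧ ∀ p ∈ P, V q w ≤ 3 * V p w) ∧
      ∀ p ∈ P, ∀ w, f w ≤ u p w + 2 * C * V p w := by
  classical
  refine ⟨fun w => P.inf' hP fun p => u p w + 2 * C * V p w, ?_, ?_, ?_, ?_⟩
  · exact Continuous.finset_inf'_apply hP fun p hp => (hu p hp).add ((hVc p hp).const_mul _)
  · intro p hp w
    rw [abs_sub_le_iff]
    constructor
    · have : (P.inf' hP fun p => u p w + 2 * C * V p w) ≤ u p w + 2 * C * V p w :=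
        Finset.inf'_le _ hp
      linarith
    · have : u p w - C * V p w ≤ P.inf' hP fun p => u p w + 2 * C * V p w := by
        rw [Finset.le_inf'_iff]
        intro q hq
        have h1 := h p hp q hq w
        rw [abs_sub_le_iff] at h1
        have h2 := mul_pos hC (hV q hq w)
        nlinarith [h1.1]
      have h2 := mul_pos hC (hV p hp w)
      linarith
  · intro w
    obtain ⟨q, hq, h1⟩ := Finset.exists_mem_eq_inf' hP fun p => u p w + 2 * C * V p w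
    refine ⟨q, hq, h1, ?_⟩
    intro p hp
    have h2 : (P.inf' hP fun p => u p w + 2 * C * V p w) ≤ u p w + 2 * C * V p w :=
        Finset.inf'_le _ hp
    rw [h1] at h2
    have h3 := h p hp q hq w
    rw [abs_sub_le_iff] at h3
    have h4 : C * V q w ≤ C * (3 * V p w) := by linarith [h3.1]
    exact le_of_mul_le_mul_left h4 hC
  · intro p hp w
    exact Finset.inf'_le _ hp

lemma node_close {X : Set ℂ} {D : ℝ} (hD : 0 < D) {ζ x' : ℂ} {R' : ℝ} (hx' : x' ∈ X)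
    (hR' : 0 < R') (hRx' : 1 - ‖x'‖ ≤ R') (hDζ : 3 / 4 * D ≤ Dz X ζ)
    (hV : Vn x' R' ζ ≤ 12 * D) : R' ≤ 12 * D ∧ ‖ζ - x'‖ ≤ 6 * D ∧ D / 192 ≤ R' := by
  have h1 := R_le_Vn x' hR' ζ
  have h2 := two_mul_le_Vn x' hR' ζ
  have h3 := sq_le_Vn x' hR' ζ
  refine ⟨by linarith, by linarith, ?_⟩
  have h4 : Dz X ζ ≤ 2 * ‖ζ - x'‖ + R' := by
    have e1 : infDist ζ X ≤ dist ζ x' := infDist_le_dist_of_mem hx'
    rw [dist_eq_norm] at e1
    have e2 := norm_sub_norm_le x' ζ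
    rw [norm_sub_rev] at e2
    unfold Dz
    linarith
  by_contra hcon
  push Not at hcon
  have h5 : D / 4 ≤ ‖ζ - x'‖ := by linarith
  have h6 : ‖ζ - x'‖ ^ 2 ≤ 12 * D * R' := by
    have := h3.trans hV
    rwa [div_le_iff₀ hR'] at this
  nlinarith

lemma near_step {X : Finset ℂ} {φ : ℂ → ℂ} {c : ℂ → ℝ → ℂ} {K C : ℝ} (hK : 0 ≤ K) (hC : 0 ≤ C)
    (hM1 : ∀ x R x' R', 0 < R → 0 < R' → ‖c x R - c x' R'‖ ≤ K * qd x R x' R')
    (l : ℂ →L[ℝ] ℝ) (hl : ∀ ζ, |l ζ| ≤ ‖ζ‖) (P : Finset (ℂ × ℝ))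
    (hP : ∀ p ∈ P, p.1 ∈ X ∧ 0 < p.2 ∧ 1 - ‖p.1‖ ≤ p.2) {f : ℂ → ℝ}
    (hf1 : ∀ w, ∃ q ∈ P, f w = l (pl φ c q.1 q.2 w) + 2 * C * Vn q.1 q.2 w ∧
      ∀ p ∈ P, Vn q.1 q.2 w ≤ 3 * Vn p.1 p.2 w)
    (hf2 : ∀ p ∈ P, ∀ w, f w ≤ l (pl φ c p.1 p.2 w) + 2 * C * Vn p.1 p.2 w)
    {z w : ℂ} (hD : 0 < Dz X z) {p : ℂ × ℝ} (hp : p ∈ P) (hp1 : Dz X z ≤ p.2)
    (hp2 : p.2 ≤ 2 * Dz X z) (hp3 : ‖z - p.1‖ ≤ Dz X z) (hw : ‖w - z‖ ≤ Dz X z / 8) :
    |f w - f z - l (c p.1 p.2 * (w - z))| ≤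
      (K * Real.log 92928 + 2 * C * 2496) * ‖w - z‖ := by
  set D := Dz X z with hDdef
  have hpR := (hP p hp).2.1
  have hDw : 3 / 4 * D ≤ Dz X w := by
    have h1 : infDist z (X : Set ℂ) ≤ infDist w X + dist z w := infDist_le_infDist_add_dist
    have h2 := norm_sub_norm_le w z
    rw [dist_eq_norm, norm_sub_rev] at h1
    have h3 : Dz X z ≤ Dz X w + 2 * ‖w - z‖ := by unfold Dz; linarith
    linarith
  have hVz : Vn p.1 p.2 z ≤ 3 * D := by
    unfold Vn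
    have : ‖z - p.1‖ ^ 2 / p.2 ≤ D ^ 2 / D := by gcongr
    have h2 : D ^ 2 / D = D := by field_simp
    linarith
  have hVw : Vn p.1 p.2 w ≤ 4 * D := by
    unfold Vn
    have h0 : ‖w - p.1‖ ≤ 9 / 8 * D := by
      have := norm_sub_le_norm_sub_add_norm_sub w z p.1
      linarith
    have : ‖w - p.1‖ ^ 2 / p.2 ≤ (9 / 8 * D) ^ 2 / D := by gcongr
    have h2 : (9 / 8 * D) ^ 2 / D = 81 / 64 * D := by field_simp; ring
    linarith
  -- the main estimate
  have key : ∀ q ∈ P, (Vn q.1 q.2 z ≤ 12 * D ∨ Vn q.1 q.2 w ≤ 12 * D) →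
      |(l (pl φ c q.1 q.2 w) + 2 * C * Vn q.1 q.2 w) - (l (pl φ c q.1 q.2 z) +
        2 * C * Vn q.1 q.2 z) - l (c p.1 p.2 * (w - z))| ≤
        (K * Real.log 92928 + 2 * C * 2496) * ‖w - z‖ := by
    intro q hq hV
    obtain ⟨hqX, hqR, hqx⟩ := hP q hq
    have h1 : q.2 ≤ 12 * D ∧ ‖z - q.1‖ ≤ 6 * D + D / 8 ∧ ‖w - q.1‖ ≤ 6 * D + D / 8 ∧
        D / 192 ≤ q.2 := by
      rcases hV with hV | hV
      · obtain ⟨e1, e2, e3⟩ := node_close (X := X) hD hqX hqR hqx (by linarith) hV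
        refine ⟨e1, by linarith, ?_, e3⟩
        have := norm_sub_le_norm_sub_add_norm_sub w z q.1
        linarith
      · obtain ⟨e1, e2, e3⟩ := node_close (X := X) hD hqX hqR hqx hDw hV
        refine ⟨e1, ?_, by linarith, e3⟩
        have := norm_sub_le_norm_sub_add_norm_sub z w q.1
        rw [norm_sub_rev z w] at this
        linarith
    obtain ⟨e1, e2, e2', e3⟩ := h1
    have e4 : ‖q.1 - p.1‖ ≤ 8 * D := by
      have := norm_sub_le_norm_sub_add_norm_sub q.1 z p.1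
      rw [norm_sub_rev q.1 z] at this
      linarith
    have e5 : ‖c q.1 q.2 - c p.1 p.2‖ ≤ K * Real.log 92928 := by
      refine (hM1 _ _ _ _ hqR hpR).trans ?_
      gcongr
      apply qd_le_log hqR hpR
      calc (‖q.1 - p.1‖ + q.2 + p.2) ^ 2 ≤ (22 * D) ^ 2 := by
            have := norm_nonneg (q.1 - p.1)
            apply pow_le_pow_left₀ (by positivity)
            linarith
        _ = 92928 * ((D / 192) * D) := by ring
        _ ≤ 92928 * (q.2 * p.2) := by gcongr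
    have e6 : (l (pl φ c q.1 q.2 w) + 2 * C * Vn q.1 q.2 w) - (l (pl φ c q.1 q.2 z) +
        2 * C * Vn q.1 q.2 z) - l (c p.1 p.2 * (w - z)) =
        l ((c q.1 q.2 - c p.1 p.2) * (w - z)) + 2 * C * (Vn q.1 q.2 w - Vn q.1 q.2 z) := by
      have : l ((c q.1 q.2 - c p.1 p.2) * (w - z)) = l (pl φ c q.1 q.2 w) -
          l (pl φ c q.1 q.2 z) - l (c p.1 p.2 * (w - z)) := by
        rw [← map_sub, ← map_sub]
        congr 1
        unfold pl
        ring
      rw [this]; ring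
    have e7 : |l ((c q.1 q.2 - c p.1 p.2) * (w - z))| ≤ K * Real.log 92928 * ‖w - z‖ := by
      refine (hl _).trans ?_
      rw [norm_mul]
      gcongr
    have e8 : |Vn q.1 q.2 w - Vn q.1 q.2 z| ≤ 2496 * ‖w - z‖ := by
      have e9 : Vn q.1 q.2 w - Vn q.1 q.2 z =
          (‖w - q.1‖ - ‖z - q.1‖) * (‖w - q.1‖ + ‖z - q.1‖) / q.2 := by
        unfold Vn; ring
      have e10 : |‖w - q.1‖ - ‖z - q.1‖| ≤ ‖w - z‖ := by
        have := abs_norm_sub_norm_le (w - q.1) (z - q.1)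
        rwa [sub_sub_sub_cancel_right] at this
      have e11 := norm_nonneg (w - q.1)
      have e12 := norm_nonneg (z - q.1)
      rw [e9, abs_div, abs_mul, abs_of_pos hqR, abs_of_nonneg (add_nonneg e11 e12),
        div_le_iff₀ hqR]
      calc _ ≤ ‖w - z‖ * (13 * D) := by
            gcongr
            linarith
        _ = 2496 * ‖w - z‖ * (D / 192) := by ring
        _ ≤ _ := by gcongr
    rw [e6]
    refine (abs_add_le _ _).trans ?_
    rw [abs_mul, abs_of_nonneg (by positivity : 0 ≤ 2 * C)]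
    calc _ ≤ K * Real.log 92928 * ‖w - z‖ + 2 * C * (2496 * ‖w - z‖) := by gcongr
      _ = _ := by ring
  obtain ⟨q1, hq1, hq1e, hq1m⟩ := hf1 z
  obtain ⟨q2, hq2, hq2e, hq2m⟩ := hf1 w
  have k1 := key q1 hq1 (Or.inl (by have := hq1m p hp; linarith))
  have k2 := key q2 hq2 (Or.inr (by have := hq2m p hp; linarith))
  have m1 := hf2 q1 hq1 w
  have m2 := hf2 q2 hq2 z
  rw [abs_le] at k1 k2 ⊢
  constructor
  · linarith [k2.1]
  · linarith [k1.2]

end Pool.Agent.H82.Zyg
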