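import Mathlib
import Pool.Agent.H82.Zyg.InfConv
import Pool.Agent.H82.Zyg.HFun

/-!
# Step (b): the smooth approximation and its slopes
-/

namespace Pool.Agent.H82.Zyg

open Complex Metric Set

lemma exists_nodes (X : Finset ℂ) (hX : X.Nonempty) (hX1 : ∀ x ∈ X, ‖x‖ < 1) :
    ∃ P : Finset (ℂ × ℝ), (∀ p ∈ P, p.1 ∈ X ∧ 0 < p.2 ∧ 1 - ‖p.1‖ ≤ p.2) ∧
      (∀ x ∈ X, (x, 1 - ‖x‖) ∈ P) ∧
      ∀ z : ℂ, ‖z‖ < 1 → ∃ p ∈ P, Dz X z ≤ p.2 ∧ p.2 ≤ 2 * Dz X z ∧ ‖z - p.1‖ ≤ Dz X z ∧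
        ‖z - p.1‖ = infDist z X := by
  classical
  have hX' : (X : Set ℂ).Nonempty := by simpa using hX
  have hDL : DistLike (Dz X) := distLike_Dz hX' fun x hx => (hX1 x (by simpa using hx)).le
  obtain ⟨x0, hx0, hmax⟩ := X.exists_max_image (fun x => ‖x‖) hX
  have hx0' := hX1 x0 hx0
  obtain ⟨N, hN⟩ := pow_unbounded_of_one_lt (3 / (1 - ‖x0‖)) (show (1 : ℝ) < 2 by norm_num)
  rw [div_lt_iff₀ (by linarith)] at hN
  refine ⟨(X ×ˢ Finset.range (N + 1)).image (fun q => (q.1, (1 - ‖q.1‖) * 2 ^ q.2)), ?_, ?_, ?_⟩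
  · intro p hp
    obtain ⟨q, hq, rfl⟩ := Finset.mem_image.mp hp
    rw [Finset.mem_product] at hq
    have h1 := hX1 q.1 hq.1
    have h2 : (1 : ℝ) ≤ 2 ^ q.2 := one_le_pow₀ (by norm_num)
    refine ⟨hq.1, mul_pos (by linarith) (by positivity), ?_⟩
    simp only
    nlinarith
  · intro x hx
    rw [Finset.mem_image]
    exact ⟨(x, 0), by simp [hx], by simp⟩
  · intro z hz
    obtain ⟨x, hx, hxz⟩ := X.finite_toSet.isCompact.exists_infDist_eq_dist hX' z
    rw [dist_eq_norm] at hxz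
    have hxX : x ∈ X := by simpa using hx
    have hx1 := hX1 x hxX
    have hmx := hmax x hxX
    have h1 : 1 - ‖x‖ ≤ Dz X z := by
      have := norm_sub_norm_le z x
      unfold Dz
      linarith
    have h3 := hDL.le_three z hz
    have hex : ∃ n, Dz X z ≤ (1 - ‖x‖) * 2 ^ n := by
      refine ⟨N, ?_⟩
      have : (1 - ‖x0‖) * 2 ^ N ≤ (1 - ‖x‖) * 2 ^ N := by gcongr
      nlinarith
    set n := Nat.find hex with hn
    have hn1 := Nat.find_spec hex
    rw [← hn] at hn1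
    have hnN : n ≤ N := by
      refine Nat.find_le ?_
      have : (1 - ‖x0‖) * 2 ^ N ≤ (1 - ‖x‖) * 2 ^ N := by gcongr
      nlinarith
    refine ⟨(x, (1 - ‖x‖) * 2 ^ n), ?_, hn1, ?_, ?_, hxz.symm⟩
    · rw [Finset.mem_image]
      exact ⟨(x, n), by simp [hxX]; omega, rfl⟩
    · simp only
      have hDpos := hDL.pos z hz
      rcases Nat.eq_zero_or_pos n with h | h
      · rw [h, pow_zero, mul_one]; linarith
      · have h4 := Nat.find_min hex (m := n - 1) (by omega)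
        push Not at h4
        have h5 : (2 : ℝ) ^ n = 2 * 2 ^ (n - 1) := by
          rw [← pow_succ']; congr 1; omega
        rw [h5]
        linarith
    · simp only
      rw [← hxz]
      unfold Dz
      linarith

theorem step_b_core (K : ℝ) (hK : 0 < K) : ∃ K' : ℝ, ∀ X : Finset ℂ, X.Nonempty →
    (∀ x ∈ X, ‖x‖ < 1) → ∀ φ : ℂ → ℂ, (∀ z, ‖z‖ ≤ 8 → ‖φ z‖ ≤ 1) →
    (∀ x ∈ X, ∀ y ∈ X, ∀ x' ∈ X, ∀ y' ∈ X, x ≠ y → x' ≠ y' →
      ‖slp φ x y - slp φ x' y'‖ ≤ K * qd x (scl x y) x' (scl x' y')) →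
    (∀ x ∈ X, ∀ y ∈ X, x ≠ y → ‖slp φ x y‖ ≤ K * (1 + Real.log (2 / scl x y))) →
    ∃ φt s : ℂ → ℂ, Continuous φt ∧ (∀ z : ℂ, ‖z‖ < 1 → ‖φt z‖ ≤ K') ∧
      (∀ z w : ℂ, ‖z‖ < 1 → ‖w‖ < 1 → ‖φt w - φt z - s z * (w - z)‖ ≤
        K' * (‖w - z‖ * (1 + ‖w - z‖ / (infDist z X + (1 - ‖z‖))))) ∧
      (∀ x ∈ X, ‖φt x - φ x‖ ≤ K' * (1 - ‖x‖)) ∧
      (∀ x ∈ X, ∀ y ∈ X, x ≠ y → ‖x - y‖ ≤ 1 - ‖x‖ →
        ‖s x - (φ x - φ y) / (x - y)‖ ≤ K') ∧ ‖s 0‖ ≤ K' := by
  classical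
  set K6 : ℝ := 2 * (3 * K) with hK6
  have hK60 : 0 < K6 := by positivity
  set C1 : ℝ := 4 * K6 with hC1
  have hC10 : 0 < C1 := by positivity
  have hlog1 : 0 ≤ Real.log 92928 := Real.log_nonneg (by norm_num)
  have hlog2 : 0 ≤ Real.log 16 := Real.log_nonneg (by norm_num)
  have hlog3 : 0 ≤ Real.log 64 := Real.log_nonneg (by norm_num)
  obtain ⟨k1, hk1⟩ : ∃ k, k = 1 + 64 * K6 + 36 * C1 := ⟨_, rfl⟩
  obtain ⟨k2, hk2⟩ : ∃ k, k = 2 * (K6 * Real.log 92928 + 2 * C1 * 2496) := ⟨_, rfl⟩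
  obtain ⟨k3, hk3⟩ : ∃ k, k = 224 * C1 := ⟨_, rfl⟩
  obtain ⟨k4, hk4⟩ : ∃ k, k = 4 * C1 := ⟨_, rfl⟩
  obtain ⟨k5, hk5⟩ : ∃ k, k = K6 * Real.log 16 := ⟨_, rfl⟩
  obtain ⟨k6, hk6⟩ : ∃ k, k = K6 * Real.log 64 := ⟨_, rfl⟩
  have hk10 : 0 ≤ k1 := by rw [hk1]; positivity
  have hk20 : 0 ≤ k2 := by rw [hk2]; positivity
  have hk30 : 0 ≤ k3 := by rw [hk3]; positivity
  have hk40 : 0 ≤ k4 := by rw [hk4]; positivity
  have hk50 : 0 ≤ k5 := by rw [hk5]; positivity
  have hk60 : 0 ≤ k6 := by rw [hk6]; positivity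
  refine ⟨k1 + k2 + k3 + k4 + k5 + k6, ?_⟩
  intro X hX hX1 φ hφ hs1 hs2
  have hX' : (X : Set ℂ).Nonempty := by simpa using hX
  have hDL : DistLike (Dz X) := distLike_Dz hX' fun x hx => (hX1 x (by simpa using hx)).le
  -- the constraints
  set T : Finset (ℂ × ℝ × ℂ) := insert (0, 1, 0) (((X ×ˢ X).filter (fun p => p.1 ≠ p.2)).image
    (fun p => (p.1, scl p.1 p.2, slp φ p.1 p.2))) with hT
  have hmemT : ∀ q ∈ T, q = (0, 1, 0) ∨ ∃ x ∈ X, ∃ y ∈ X, x ≠ y ∧ q = (x, scl x y, slp φ x y) := by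
    intro q hq
    rw [hT, Finset.mem_insert, Finset.mem_image] at hq
    rcases hq with h | ⟨p, hp, h⟩
    · exact Or.inl h
    · rw [Finset.mem_filter, Finset.mem_product] at hp
      exact Or.inr ⟨p.1, hp.1.1, p.2, hp.1.2, hp.2, h.symm⟩
  have hTpair : ∀ x ∈ X, ∀ y ∈ X, x ≠ y → (x, scl x y, slp φ x y) ∈ T := by
    intro x hx y hy hne
    rw [hT, Finset.mem_insert, Finset.mem_image]
    exact Or.inr ⟨(x, y), by simp [hx, hy, hne], rfl⟩
  have hTbase : ((0, 1, 0) : ℂ × ℝ × ℂ) ∈ T := Finset.mem_insert_self _ _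
  have hscl : ∀ x ∈ X, ∀ y : ℂ, 0 < scl x y := by
    intro x hx y
    have := hX1 x hx
    exact lt_of_lt_of_le (by linarith : 0 < 1 - ‖x‖) (le_max_right _ _)
  have hbase : ∀ x ∈ X, ∀ y ∈ X, x ≠ y →
      ‖slp φ x y‖ ≤ 3 * K * qd x (scl x y) 0 1 := by
    intro x hx y hy hne
    refine (hs2 x hx y hy hne).trans ?_
    set S := scl x y with hS
    have hS0 : 0 < S := hscl x hx y
    have e1 : Real.log 4 ≤ qd x S 0 1 := by
      unfold qd
      exact Real.log_le_log (by norm_num) (four_le_qd_arg x 0 hS0 one_pos)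
    have e2 : Real.log (1 / S) ≤ qd x S 0 1 := by
      unfold qd
      apply Real.log_le_log (by positivity)
      rw [mul_one]
      gcongr
      have := norm_nonneg (x - 0)
      apply one_le_pow₀
      linarith
    have e3 : Real.log (2 / S) = Real.log 2 + Real.log (1 / S) := by
      rw [← Real.log_mul (by norm_num) (by positivity)]
      congr 1
      ring
    have e4 := Real.log_two_lt_d9
    have e5 := one_le_log_four
    rw [e3, mul_comm 3 K, mul_assoc]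
    gcongr
    linarith
  obtain ⟨c, hcA, hcB⟩ := mcshane (K := 3 * K) T ⟨_, hTbase⟩ (by
      intro q hq
      rcases hmemT q hq with h | ⟨x, hx, y, hy, hne, h⟩
      · rw [h]; norm_num
      · rw [h]; exact hscl x hx y) (by
      intro q hq q' hq'
      rcases hmemT q hq with h | ⟨x, hx, y, hy, hne, h⟩ <;>
        rcases hmemT q' hq' with h' | ⟨x', hx', y', hy', hne', h'⟩
      · rw [h, h']
        simp only [sub_self, norm_zero]
        have := qd_nonneg 0 0 one_pos one_pos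
        positivity
      · rw [h, h']
        simp only
        rw [zero_sub, norm_neg, qd_comm]
        exact hbase x' hx' y' hy' hne'
      · rw [h, h']
        simp only
        rw [sub_zero]
        exact hbase x hx y hy hne
      · rw [h, h']
        simp only
        refine (hs1 x hx y hy x' hx' y' hy' hne hne').trans ?_
        have := qd_nonneg x x' (hscl x hx y) (hscl x' hx' y')
        nlinarith [mul_nonneg hK.le this]) (by positivity)
  rw [← hK6] at hcA hcB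
  have hM2 : ∀ x ∈ X, ∀ y ∈ X, x ≠ y → ∀ z R, 0 < R →
      ‖c z R - slp φ x y‖ ≤ K6 * qd z R x (scl x y) := by
    intro x hx y hy hne z R hR
    exact hcB _ (hTpair x hx y hy hne) z R hR
  have hc0 : ∀ z R, 0 < R → ‖c z R‖ ≤ K6 * qd z R 0 1 := by
    intro z R hR
    have := hcB _ hTbase z R hR
    simpa using this
  -- the nodes
  obtain ⟨P, hP, hP0, hPz⟩ := exists_nodes X hX hX1
  choose! p hpP hp1 hp2 hp3 hp4 using hPz
  have hPne : P.Nonempty := by
    obtain ⟨x, hx⟩ := hX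
    exact ⟨_, hP0 x hx⟩
  have hcont : ∀ q ∈ P, Continuous (pl φ c q.1 q.2) := by
    intro q _
    unfold pl
    fun_prop
  have hVcont : ∀ q ∈ P, Continuous (Vn q.1 q.2) := by
    intro q _
    unfold Vn
    fun_prop
  have hVpos : ∀ q ∈ P, ∀ w, 0 < Vn q.1 q.2 w := fun q hq w => Vn_nonneg _ (hP q hq).2.1 w
  have hLC : ∀ q ∈ P, ∀ q' ∈ P, ∀ w, ‖pl φ c q.1 q.2 w - pl φ c q'.1 q'.2 w‖ ≤
      C1 * (Vn q.1 q.2 w + Vn q'.1 q'.2 w) := by
    intro q hq q' hq' w
    obtain ⟨a1, a2, a3⟩ := hP q hq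
    obtain ⟨b1, b2, b3⟩ := hP q' hq'
    exact pl_sub hK60.le hcA hM2 a1 b1 a2 b2 a3 b3 w
  have hreal : ∀ l : ℂ →L[ℝ] ℝ, (∀ ζ, |l ζ| ≤ ‖ζ‖) → ∃ f : ℂ → ℝ, Continuous f ∧
      (∀ q ∈ P, ∀ w, |f w - l (pl φ c q.1 q.2 w)| ≤ 2 * C1 * Vn q.1 q.2 w) ∧
      ∀ z w, ‖z‖ < 1 → ‖w - z‖ ≤ Dz X z / 8 → |f w - f z - l (c (p z).1 (p z).2 * (w - z))| ≤
        (K6 * Real.log 92928 + 2 * C1 * 2496) * ‖w - z‖ := by
    intro l hl
    obtain ⟨f, hf0, hf1, hf2, hf3⟩ := real_inf P hPne (fun q w => l (pl φ c q.1 q.2 w))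
      (fun q w => Vn q.1 q.2 w) hC10 (fun q hq => l.continuous.comp (hcont q hq))
      (fun q hq => hVcont q hq) (fun q hq q' hq' w => by
        rw [← map_sub]
        exact (hl _).trans (hLC q hq q' hq' w)) hVpos
    refine ⟨f, hf0, hf1, ?_⟩
    intro z w hz hw
    exact near_step hK60.le hC10.le hcA l hl P hP hf2 hf3 (hDL.pos z hz) (hpP z hz) (hp1 z hz)
      (hp2 z hz) (hp3 z hz) hw
  obtain ⟨fr, hfr0, hfr1, hfr2⟩ := hreal reCLM (fun ζ => Complex.abs_re_le_norm ζ)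
  obtain ⟨fi, hfi0, hfi1, hfi2⟩ := hreal imCLM (fun ζ => Complex.abs_im_le_norm ζ)
  set φt : ℂ → ℂ := fun w => fr w + fi w * I with hφt
  have hφt1 : ∀ q ∈ P, ∀ w, ‖φt w - pl φ c q.1 q.2 w‖ ≤ 4 * C1 * Vn q.1 q.2 w := by
    intro q hq w
    refine (Complex.norm_le_abs_re_add_abs_im _).trans ?_
    have e1 := hfr1 q hq w
    have e2 := hfi1 q hq w
    simp only [reCLM_apply, imCLM_apply] at e1 e2
    simp only [hφt, Complex.sub_re, Complex.sub_im, Complex.add_re, Complex.add_im,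
      Complex.ofReal_re, Complex.ofReal_im, Complex.mul_re, Complex.mul_im, Complex.I_re,
      Complex.I_im]
    ring_nf at e1 e2 ⊢
    linarith
  have hVz : ∀ z, ‖z‖ < 1 → Vn (p z).1 (p z).2 z ≤ 3 * Dz X z := by
    intro z hz
    have hD := hDL.pos z hz
    have e1 := hp1 z hz
    have e2 := hp2 z hz
    have e3 := hp3 z hz
    unfold Vn
    have : ‖z - (p z).1‖ ^ 2 / (p z).2 ≤ Dz X z ^ 2 / Dz X z := by gcongr
    have h2 : Dz X z ^ 2 / Dz X z = Dz X z := by field_simp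
    linarith
  have hcz : ∀ z, ‖z‖ < 1 → ‖c (p z).1 (p z).2‖ ≤ K6 * Real.log (64 / (p z).2) := by
    intro z hz
    have e1 := hp2 z hz
    have e2 := hDL.le_three z hz
    obtain ⟨a1, a2, a3⟩ := hP _ (hpP z hz)
    have e3 := hX1 _ a1
    refine (hc0 _ _ a2).trans ?_
    gcongr
    apply qd_le_log a2 one_pos
    rw [sub_zero, mul_one, div_mul_cancel₀ _ a2.ne']
    have e4 := norm_nonneg (p z).1
    nlinarith
  refine ⟨φt, fun z => c (p z).1 (p z).2, ?_, ?_, ?_, ?_, ?_, ?_⟩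
  · simp only [hφt]
    fun_prop
  · intro z hz
    obtain ⟨a1, a2, a3⟩ := hP _ (hpP z hz)
    have e1 := hφt1 _ (hpP z hz) z
    have e2 := hVz z hz
    have e3 := hDL.le_three z hz
    have e4 : ‖pl φ c (p z).1 (p z).2 z‖ ≤ 1 + K6 * 64 := by
      unfold pl
      refine (norm_add_le _ _).trans ?_
      rw [norm_mul]
      have e5 : ‖φ (p z).1‖ ≤ 1 := hφ _ (by have := hX1 _ a1; linarith)
      have e6 : ‖c (p z).1 (p z).2‖ * ‖z - (p z).1‖ ≤ (K6 * (64 / (p z).2)) * (p z).2 := by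
        have e7 : Real.log (64 / (p z).2) ≤ 64 / (p z).2 := Real.log_le_self (by positivity)
        have e8 : ‖z - (p z).1‖ ≤ (p z).2 := (hp3 z hz).trans (hp1 z hz)
        have e9 : ‖c (p z).1 (p z).2‖ ≤ K6 * (64 / (p z).2) :=
          (hcz z hz).trans (by gcongr)
        gcongr
      have e7 : (K6 * (64 / (p z).2)) * (p z).2 = K6 * 64 := by field_simp
      linarith
    have e5 : ‖φt z‖ ≤ ‖φt z - pl φ c (p z).1 (p z).2 z‖ + ‖pl φ c (p z).1 (p z).2 z‖ := by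
      have := norm_add_le (φt z - pl φ c (p z).1 (p z).2 z) (pl φ c (p z).1 (p z).2 z)
      simpa using this
    have e6 : 4 * C1 * Vn (p z).1 (p z).2 z ≤ 4 * C1 * 9 := by
      gcongr
      linarith
    have e7 : ‖φt z‖ ≤ k1 := by
      rw [hk1]
      linarith
    linarith
  · intro z w hz hw
    have hD := hDL.pos z hz
    have hDeq : infDist z (X : Set ℂ) + (1 - ‖z‖) = Dz X z := rfl
    rw [hDeq]
    set t := ‖w - z‖ with ht
    have ht0 : 0 ≤ t := norm_nonneg _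
    have hk : ∀ k, 0 ≤ k → k ≤ k1 + k2 + k3 + k4 + k5 + k6 →
        ‖φt w - φt z - c (p z).1 (p z).2 * (w - z)‖ ≤ k * (t * (1 + t / Dz X z)) →
        ‖φt w - φt z - c (p z).1 (p z).2 * (w - z)‖ ≤
          (k1 + k2 + k3 + k4 + k5 + k6) * (t * (1 + t / Dz X z)) := by
      intro k hk0 hkk h
      refine h.trans ?_
      gcongr
    rcases le_or_gt t (Dz X z / 8) with hnear | hfar
    · refine hk k2 hk20 (by linarith) ?_
      have e1 := hfr2 z w hz hnear
      have e2 := hfi2 z w hz hnear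
      simp only [reCLM_apply, imCLM_apply] at e1 e2
      have e3 : ‖φt w - φt z - c (p z).1 (p z).2 * (w - z)‖ ≤
          |fr w - fr z - (c (p z).1 (p z).2 * (w - z)).re| +
          |fi w - fi z - (c (p z).1 (p z).2 * (w - z)).im| := by
        refine (Complex.norm_le_abs_re_add_abs_im _).trans (le_of_eq ?_)
        simp only [hφt, Complex.sub_re, Complex.sub_im, Complex.add_re, Complex.add_im,
          Complex.ofReal_re, Complex.ofReal_im, Complex.mul_re, Complex.mul_im, Complex.I_re,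
          Complex.I_im]
        congr 2 <;> ring
      have e4 : k2 * t ≤ k2 * (t * (1 + t / Dz X z)) := by
        gcongr
        have : 0 ≤ t / Dz X z := by positivity
        nlinarith
      refine (e3.trans (add_le_add e1 e2)).trans (le_trans (le_of_eq ?_) e4)
      rw [hk2]; ring
    · refine hk k3 hk30 (by linarith) ?_
      have e1 := hφt1 _ (hpP z hz) z
      have e2 := hφt1 _ (hpP z hz) w
      have e3 := hVz z hz
      have q1 := hp1 z hz
      have q2 := hp2 z hz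
      have q3 := hp3 z hz
      have e4 : Vn (p z).1 (p z).2 w ≤ 2 * t ^ 2 / Dz X z + 4 * Dz X z := by
        unfold Vn
        have h0 : ‖w - (p z).1‖ ≤ t + Dz X z := by
          have := norm_sub_le_norm_sub_add_norm_sub w z (p z).1
          linarith
        have h1 : ‖w - (p z).1‖ ^ 2 / (p z).2 ≤ (t + Dz X z) ^ 2 / Dz X z := by gcongr
        have h2 : (t + Dz X z) ^ 2 / Dz X z ≤ 2 * t ^ 2 / Dz X z + 2 * Dz X z := by
          rw [div_add' _ _ _ hD.ne']
          gcongr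
          nlinarith [sq_nonneg (t - Dz X z)]
        linarith
      have e5 : φt w - φt z - c (p z).1 (p z).2 * (w - z) =
          (φt w - pl φ c (p z).1 (p z).2 w) - (φt z - pl φ c (p z).1 (p z).2 z) := by
        unfold pl; ring
      rw [e5]
      refine (norm_sub_le _ _).trans ?_
      have e6 : Vn (p z).1 (p z).2 w + Vn (p z).1 (p z).2 z ≤ 56 * (t * (1 + t / Dz X z)) := by
        have h1 : 56 * (t * (1 + t / Dz X z)) = 56 * t + 56 * (t ^ 2 / Dz X z) := by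
          field_simp
        have h2 : 0 ≤ t ^ 2 / Dz X z := by positivity
        have h3 : 2 * t ^ 2 / Dz X z = 2 * (t ^ 2 / Dz X z) := by ring
        linarith
      calc _ ≤ 4 * C1 * (Vn (p z).1 (p z).2 w + Vn (p z).1 (p z).2 z) := by linarith
        _ ≤ 4 * C1 * (56 * (t * (1 + t / Dz X z))) := by gcongr
        _ = k3 * (t * (1 + t / Dz X z)) := by rw [hk3]; ring
  · intro x hx
    have e1 := hφt1 _ (hP0 x hx) x
    have e2 : pl φ c x (1 - ‖x‖) x = φ x := by unfold pl; simp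
    have e3 : Vn x (1 - ‖x‖) x = 1 - ‖x‖ := by unfold Vn; simp
    simp only at e1
    rw [e2, e3] at e1
    have e4 : 0 < 1 - ‖x‖ := by linarith [hX1 x hx]
    refine e1.trans ?_
    rw [← hk4]
    gcongr
    linarith
  · intro x hx y hy hne hxy
    have hx1 := hX1 x hx
    have e4 : 0 < 1 - ‖x‖ := by linarith
    have e0 : infDist x (X : Set ℂ) = 0 := infDist_zero_of_mem (by simpa using hx)
    have eD : Dz X x = 1 - ‖x‖ := by unfold Dz; rw [e0, zero_add]
    have e1 : (p x).1 = x := by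
      have := hp4 x hx1
      rw [e0] at this
      exact (sub_eq_zero.mp (norm_eq_zero.mp this)).symm
    have q1 := hp1 x hx1
    have q2 := hp2 x hx1
    obtain ⟨a1, a2, a3⟩ := hP _ (hpP x hx1)
    have e2 : scl x y = 1 - ‖x‖ := max_eq_right hxy
    have e3 := hM2 x hx y hy hne (p x).1 (p x).2 a2
    have e5 : qd (p x).1 (p x).2 x (scl x y) ≤ Real.log 16 := by
      rw [e2, e1]
      apply qd_le_log a2 e4
      rw [sub_self, norm_zero]
      rw [eD] at q1 q2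
      nlinarith
    have e6 : ‖c (p x).1 (p x).2 - slp φ x y‖ ≤ k5 := by
      refine e3.trans ?_
      rw [hk5]
      gcongr
    have e7 : (φ x - φ y) / (x - y) = slp φ x y := rfl
    simp only
    rw [e7]
    linarith
  · have h0 : ‖(0 : ℂ)‖ < 1 := by simp
    have e1 := hcz 0 h0
    have q1 := hp1 0 h0
    have e2 := hDL.one_sub_le 0
    rw [norm_zero, sub_zero] at e2
    have e3 : Real.log (64 / (p 0).2) ≤ Real.log 64 := by
      apply Real.log_le_log
      · have : 0 < (p 0).2 := by linarith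
        positivity
      · apply div_le_self (by norm_num)
        linarith
    have e4 : ‖c (p 0).1 (p 0).2‖ ≤ k6 := by
      refine e1.trans ?_
      rw [hk6]
      gcongr
    simp only
    linarith

end Pool.Agent.H82.Zyg
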