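import Mathlib

/-!
# MP_425ce8_an, module T1: weighted Bergman reproducing formula and a Forelli-Rudin integral
-/

namespace Pool.Agent.H82.Zyg

open Complex Metric Set MeasureTheory

namespace Bergman

/-! ## The Forelli-Rudin integral -/

theorem normSq_identity (w z : ℂ) :
    ‖1 - (starRingEnd ℂ) w * z‖ ^ 2 = ‖w - z‖ ^ 2 + (1 - ‖w‖ ^ 2) * (1 - ‖z‖ ^ 2) := by
  simp only [← Complex.normSq_eq_norm_sq, Complex.normSq_apply]
  simp
  ring

theorem norm_lower {w z : ℂ} (hw : ‖w‖ ≤ 1) (hz : ‖z‖ < 1) :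
    (1 - ‖z‖ + ‖w - z‖) / 2 ≤ ‖1 - (starRingEnd ℂ) w * z‖ := by
  have h1 : ‖w - z‖ ≤ ‖1 - (starRingEnd ℂ) w * z‖ := by
    apply le_of_sq_le_sq _ (norm_nonneg _)
    rw [normSq_identity]
    have h2 : 0 ≤ 1 - ‖w‖ ^ 2 := by nlinarith [norm_nonneg w]
    have h3 : 0 ≤ 1 - ‖z‖ ^ 2 := by nlinarith [norm_nonneg z]
    nlinarith [mul_nonneg h2 h3]
  have h2 : 1 - ‖z‖ ≤ ‖1 - (starRingEnd ℂ) w * z‖ := by
    have h3 := norm_sub_norm_le (1 : ℂ) ((starRingEnd ℂ) w * z)
    have h4 : ‖(starRingEnd ℂ) w * z‖ ≤ ‖z‖ := by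
      rw [norm_mul, RCLike.norm_conj]
      nlinarith [norm_nonneg z, norm_nonneg w]
    rw [norm_one] at h3
    linarith
  linarith

theorem integrable_cube : Integrable (fun v : ℂ => ((1 + ‖v‖) ^ 3)⁻¹) := by
  have h := integrable_one_add_norm (E := ℂ) (μ := volume) (r := 3)
    (by rw [Complex.finrank_real_complex]; norm_num)
  refine h.congr (Filter.Eventually.of_forall fun v => ?_)
  simp only
  rw [Real.rpow_neg (by positivity)]
  norm_cast

end Bergman

open Bergman in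
theorem forelli_rudin : ∃ K : ℝ, ∀ z : ℂ, ‖z‖ < 1 →
    IntegrableOn (fun w : ℂ => (‖1 - (starRingEnd ℂ) w * z‖ ^ 3)⁻¹) (ball (0 : ℂ) 1) ∧
    ∫ w in ball (0 : ℂ) 1, (‖1 - (starRingEnd ℂ) w * z‖ ^ 3)⁻¹ ≤ K / (1 - ‖z‖) := by
  refine ⟨8 * ∫ v : ℂ, ((1 + ‖v‖) ^ 3)⁻¹, fun z hz => ?_⟩
  set δ : ℝ := 1 - ‖z‖ with hδ
  have hδ0 : 0 < δ := by rw [hδ]; linarith
  have hG : Integrable (fun w : ℂ => 8 * δ⁻¹ ^ 3 * ((1 + ‖δ⁻¹ • (w - z)‖) ^ 3)⁻¹) := by
    apply Integrable.const_mul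
    have h1 : Integrable (fun v : ℂ => ((1 + ‖δ⁻¹ • v‖) ^ 3)⁻¹) :=
      integrable_cube.comp_smul (R := δ⁻¹) (by positivity)
    exact h1.comp_sub_right z
  have hbd : ∀ w ∈ ball (0 : ℂ) 1, (‖1 - (starRingEnd ℂ) w * z‖ ^ 3)⁻¹ ≤
      8 * δ⁻¹ ^ 3 * ((1 + ‖δ⁻¹ • (w - z)‖) ^ 3)⁻¹ := by
    intro w hw
    rw [mem_ball_zero_iff] at hw
    have h1 := norm_lower hw.le hz
    rw [← hδ] at h1
    have h2 : 8 * δ⁻¹ ^ 3 * ((1 + ‖δ⁻¹ • (w - z)‖) ^ 3)⁻¹ = (((δ + ‖w - z‖) / 2) ^ 3)⁻¹ := by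
      rw [norm_smul, Real.norm_of_nonneg (by positivity)]
      have : 1 + δ⁻¹ * ‖w - z‖ = δ⁻¹ * (δ + ‖w - z‖) := by field_simp
      rw [this, mul_pow, mul_inv, div_pow, inv_div]
      have h3 : (0 : ℝ) < (δ + ‖w - z‖) ^ 3 := by positivity
      field_simp
      norm_num
    rw [h2]
    apply inv_anti₀ (by positivity)
    gcongr
  have hmeas : AEStronglyMeasurable (fun w : ℂ => (‖1 - (starRingEnd ℂ) w * z‖ ^ 3)⁻¹)
      (volume.restrict (ball (0 : ℂ) 1)) := by
    apply Measurable.aestronglyMeasurable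
    apply Measurable.inv
    apply Continuous.measurable
    fun_prop
  have hint : IntegrableOn (fun w : ℂ => (‖1 - (starRingEnd ℂ) w * z‖ ^ 3)⁻¹)
      (ball (0 : ℂ) 1) := by
    refine Integrable.mono' hG.integrableOn hmeas ?_
    filter_upwards [ae_restrict_mem measurableSet_ball] with w hw
    rw [Real.norm_of_nonneg (by positivity)]
    exact hbd w hw
  refine ⟨hint, ?_⟩
  calc ∫ w in ball (0 : ℂ) 1, (‖1 - (starRingEnd ℂ) w * z‖ ^ 3)⁻¹
      ≤ ∫ w in ball (0 : ℂ) 1, 8 * δ⁻¹ ^ 3 * ((1 + ‖δ⁻¹ • (w - z)‖) ^ 3)⁻¹ :=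
        setIntegral_mono_on hint hG.integrableOn measurableSet_ball hbd
    _ ≤ ∫ w : ℂ, 8 * δ⁻¹ ^ 3 * ((1 + ‖δ⁻¹ • (w - z)‖) ^ 3)⁻¹ :=
        setIntegral_le_integral hG (Filter.Eventually.of_forall fun w => by positivity)
    _ = (8 * ∫ v : ℂ, ((1 + ‖v‖) ^ 3)⁻¹) / δ := by
        rw [integral_const_mul, integral_sub_right_eq_self
          (fun w : ℂ => ((1 + ‖δ⁻¹ • w‖) ^ 3)⁻¹) z,
          Measure.integral_comp_smul volume (fun w : ℂ => ((1 + ‖w‖) ^ 3)⁻¹) δ⁻¹,
          Complex.finrank_real_complex]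
        rw [abs_of_nonneg (by positivity), smul_eq_mul]
        field_simp

namespace Bergman

/-! ## The reproducing formula -/

/-- The radial integral. -/
theorem radial (m : ℕ) : ∀ k : ℕ, ∫ ρ in (0 : ℝ)..1, ρ ^ (2 * k + 1) * (1 - ρ ^ 2) ^ m =
    (k.factorial * m.factorial : ℝ) / (2 * (k + m + 1).factorial) := by
  induction m with
  | zero =>
    intro k
    simp only [pow_zero, mul_one, Nat.factorial_zero, Nat.cast_one, add_zero]
    rw [integral_pow, Nat.factorial_succ]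
    have : (k.factorial : ℝ) ≠ 0 := by positivity
    push_cast
    field_simp
    ring
  | succ m ih =>
    intro k
    have h1 : ∫ ρ in (0 : ℝ)..1, ((2 * k + 2) * (ρ ^ (2 * k + 1) * (1 - ρ ^ 2) ^ (m + 1)) -
        2 * (m + 1) * (ρ ^ (2 * (k + 1) + 1) * (1 - ρ ^ 2) ^ m)) =
        1 ^ (2 * k + 2) * (1 - 1 ^ 2) ^ (m + 1) - 0 ^ (2 * k + 2) * (1 - 0 ^ 2) ^ (m + 1) := by
      apply intervalIntegral.integral_eq_sub_of_hasDerivAt
        (f := fun ρ : ℝ => ρ ^ (2 * k + 2) * (1 - ρ ^ 2) ^ (m + 1))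
      · intro ρ _
        have h2 := (hasDerivAt_pow (2 * k + 2) ρ).mul
          (((hasDerivAt_pow 2 ρ).const_sub 1).pow (m + 1))
        refine h2.congr_deriv ?_
        push_cast
        simp only [Pi.pow_apply]
        ring
      · apply Continuous.intervalIntegrable
        fun_prop
    rw [intervalIntegral.integral_sub (by apply Continuous.intervalIntegrable; fun_prop)
      (by apply Continuous.intervalIntegrable; fun_prop), intervalIntegral.integral_const_mul,
      intervalIntegral.integral_const_mul, ih (k + 1)] at h1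
    have h3 : (k.factorial : ℝ) ≠ 0 := by positivity
    have h4 : (m.factorial : ℝ) ≠ 0 := by positivity
    have h5 : ((k + m + 2).factorial : ℝ) ≠ 0 := by positivity
    have e2 : k + 1 + m + 1 = k + m + 2 := by ring
    have e3 : k + (m + 1) + 1 = k + m + 2 := by ring
    rw [e2] at h1
    rw [e3, Nat.factorial_succ m]
    rw [Nat.factorial_succ k] at h1
    push_cast at h1 ⊢
    have h6 : (0 : ℝ) < k + 1 := by positivity
    set J := ∫ ρ in (0 : ℝ)..1, ρ ^ (2 * k + 1) * (1 - ρ ^ 2) ^ (m + 1) with hJ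
    have h7 : (2 * (k : ℝ) + 2) * J = 2 * (m + 1) * (((k + 1) * k.factorial * m.factorial) /
        (2 * (k + m + 2).factorial)) := by
      have : (0 : ℝ) ^ (2 * k + 2) = 0 := by simp
      rw [this] at h1
      have : ((1 : ℝ) - 1 ^ 2) ^ (m + 1) = 0 := by simp
      rw [this] at h1
      linarith
    have h8 : J = (2 * (m + 1) * (((k + 1) * k.factorial * m.factorial) /
        (2 * (k + m + 2).factorial))) / (2 * (k : ℝ) + 2) := by
      rw [← h7]
      field_simp
    rw [h8]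
    field_simp

/-- The angular integral. -/
theorem angular (j k : ℕ) : ∫ θ in Ioo (-Real.pi) Real.pi,
    Complex.exp (((k : ℂ) - j) * θ * I) = if j = k then 2 * Real.pi else 0 := by
  rw [← integral_Ioc_eq_integral_Ioo, ← intervalIntegral.integral_of_le (by
    linarith [Real.pi_pos])]
  split_ifs with h
  · subst h
    simp
    ring
  · have hc : ((k : ℂ) - j) * I ≠ 0 := by
      apply mul_ne_zero _ I_ne_zero
      rw [sub_ne_zero]
      exact_mod_cast (Ne.symm h)
    have h1 : ∀ θ : ℝ, Complex.exp (((k : ℂ) - j) * θ * I) =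
        Complex.exp ((((k : ℂ) - j) * I) * θ) := by
      intro θ
      congr 1
      ring
    simp_rw [h1]
    rw [integral_exp_mul_complex hc]
    have h2 : Complex.exp (((k : ℂ) - j) * I * (Real.pi : ℝ)) =
        Complex.exp (((k : ℂ) - j) * I * ((-Real.pi : ℝ) : ℂ)) := by
      rw [Complex.exp_eq_exp_iff_exists_int]
      refine ⟨(k : ℤ) - j, ?_⟩
      push_cast
      ring
    rw [h2]
    simp

theorem mono (m j k : ℕ) : ∫ w in ball (0 : ℂ) 1, (((1 - ‖w‖ ^ 2) ^ m : ℝ) : ℂ) *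
    (((starRingEnd ℂ) w) ^ j * w ^ k) = if j = k then
      (Real.pi * (k.factorial * m.factorial) / (k + m + 1).factorial : ℂ) else 0 := by
  rw [← integral_indicator measurableSet_ball, ← Complex.integral_comp_polarCoord_symm]
  have h1 : ∀ p ∈ polarCoord.target, p.1 • (ball (0 : ℂ) 1).indicator
      (fun w : ℂ => (((1 - ‖w‖ ^ 2) ^ m : ℝ) : ℂ) * (((starRingEnd ℂ) w) ^ j * w ^ k))
        (Complex.polarCoord.symm p) =
      ((Iio (1 : ℝ)).indicator (fun ρ : ℝ => ((ρ * ρ ^ (j + k) * (1 - ρ ^ 2) ^ m : ℝ) : ℂ)) p.1) *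
        Complex.exp (((k : ℂ) - j) * (p.2 : ℝ) * I) := by
    rintro ⟨ρ, θ⟩ hp
    have hρ : 0 < ρ := hp.1
    have hn : ‖Complex.polarCoord.symm (ρ, θ)‖ = ρ := by
      rw [Complex.norm_polarCoord_symm, abs_of_pos hρ]
    have he : Complex.polarCoord.symm (ρ, θ) = ρ * Complex.exp (θ * I) := by
      rw [Complex.polarCoord_symm_apply, Complex.exp_mul_I]
      simp
    by_cases h : ρ < 1
    · rw [indicator_of_mem (by rw [mem_ball_zero_iff, hn]; exact h),
        indicator_of_mem (by exact h), hn, he]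
      rw [map_mul, ← Complex.exp_conj, map_mul, Complex.conj_ofReal, Complex.conj_ofReal,
        Complex.conj_I]
      rw [mul_pow, mul_pow, ← Complex.exp_nat_mul, ← Complex.exp_nat_mul]
      have h2 : Complex.exp (((k : ℂ) - j) * (θ : ℝ) * I) =
          Complex.exp ((j : ℂ) * (θ * -I)) * Complex.exp (k * (θ * I)) := by
        rw [← Complex.exp_add]
        congr 1
        ring
      rw [h2, Complex.real_smul]
      push_cast
      ring
    · rw [indicator_of_notMem (by rw [mem_ball_zero_iff, hn]; exact h),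
        indicator_of_notMem (by exact h)]
      simp
  rw [setIntegral_congr_fun polarCoord.open_target.measurableSet h1]
  have h3 : polarCoord.target = Ioi (0 : ℝ) ×ˢ Ioo (-Real.pi) Real.pi := rfl
  rw [h3]
  have h4 := setIntegral_prod_mul (μ := (volume : Measure ℝ)) (ν := (volume : Measure ℝ))
    ((Iio (1 : ℝ)).indicator (fun ρ : ℝ => ((ρ * ρ ^ (j + k) * (1 - ρ ^ 2) ^ m : ℝ) : ℂ)))
    (fun θ : ℝ => Complex.exp (((k : ℂ) - j) * (θ : ℝ) * I)) (Ioi 0) (Ioo (-Real.pi) Real.pi)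
  rw [Measure.volume_eq_prod, h4, angular]
  split_ifs with hjk
  · subst hjk
    have h5 : ∫ ρ in Ioi (0 : ℝ), (Iio (1 : ℝ)).indicator
        (fun ρ : ℝ => ((ρ * ρ ^ (j + j) * (1 - ρ ^ 2) ^ m : ℝ) : ℂ)) ρ =
        ((∫ ρ in (0 : ℝ)..1, ρ ^ (2 * j + 1) * (1 - ρ ^ 2) ^ m : ℝ) : ℂ) := by
      rw [setIntegral_indicator measurableSet_Iio, Ioi_inter_Iio, integral_complex_ofReal,
        intervalIntegral.integral_of_le zero_le_one, integral_Ioc_eq_integral_Ioo]
      congr 1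
      apply integral_congr_ae
      filter_upwards with ρ
      ring
    rw [h5, radial]
    push_cast
    have h6 : ((j + m + 1).factorial : ℂ) ≠ 0 := by exact_mod_cast (Nat.factorial_ne_zero _)
    field_simp
  · simp

end Bergman

open Bergman in
theorem bergman_repro (m : ℕ) {r : ℝ} (hr : 1 < r) {F : ℂ → ℂ}
    (hF : DifferentiableOn ℂ F (ball 0 r)) {z : ℂ} (hz : ‖z‖ < 1) :
    ∫ w in ball (0 : ℂ) 1, (((1 - ‖w‖ ^ 2) ^ m : ℝ) : ℂ) *
      ((1 - (starRingEnd ℂ) w * z) ^ (m + 2))⁻¹ * F w = (Real.pi / (m + 1)) * F z := by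
  -- the power series of `F`
  obtain ⟨R, hR1, hRr⟩ := exists_between hr
  have hR0 : 0 < R := by linarith
  set Rn : NNReal := ⟨R, hR0.le⟩ with hRn
  have hps := DifferentiableOn.hasFPowerSeriesOnBall (c := (0 : ℂ)) (R := Rn)
    (hF.mono (closedBall_subset_ball (by exact hRr))) (by exact_mod_cast hR0)
  set q := cauchyPowerSeries F 0 Rn with hq
  set a : ℕ → ℂ := fun k => q.coeff k with ha
  have hsum : ∀ w : ℂ, ‖w‖ ≤ 1 → HasSum (fun k => a k * w ^ k) (F w) := by
    intro w hw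
    have h1 : w ∈ Metric.eball (0 : ℂ) Rn := by
      rw [Metric.eball_coe, mem_ball_zero_iff]
      exact lt_of_le_of_lt hw hR1
    have h2 := hps.hasSum h1
    rw [zero_add] at h2
    have h3 : (fun k => a k * w ^ k) = fun n => q n (fun _ => w) := by
      funext n
      rw [FormalMultilinearSeries.apply_eq_pow_smul_coeff, smul_eq_mul, mul_comm]
    rw [h3]
    exact h2
  have habs : Summable (fun k => ‖a k‖) := by
    have h1 : ((1 : NNReal) : ENNReal) < q.radius :=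
      lt_of_lt_of_le (by exact_mod_cast hR1) hps.r_le
    have h2 := q.summable_norm_mul_pow h1
    refine h2.congr fun n => ?_
    rw [ha, ← FormalMultilinearSeries.norm_apply_eq_norm_coef]
    simp
  -- the kernel
  have hker : ∀ w : ℂ, ‖w‖ ≤ 1 → HasSum (fun j : ℕ => ((j + (m + 1)).choose (m + 1) : ℂ) *
      ((starRingEnd ℂ) w * z) ^ j) (((1 - (starRingEnd ℂ) w * z) ^ (m + 2))⁻¹) := by
    intro w hw
    have h1 : ‖(starRingEnd ℂ) w * z‖ < 1 := by
      rw [norm_mul, RCLike.norm_conj]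
      nlinarith [norm_nonneg z, norm_nonneg w]
    have h2 := hasSum_choose_mul_geometric_of_norm_lt_one (m + 1) h1
    rwa [one_div] at h2
  have hz' : ‖(‖z‖ : ℝ)‖ < 1 := by rwa [norm_norm]
  have hkabs : Summable (fun j : ℕ => ((j + (m + 1)).choose (m + 1) : ℝ) * ‖z‖ ^ j) :=
    summable_choose_mul_geometric_of_norm_lt_one (m + 1) hz'
  have : IsFiniteMeasure (volume.restrict (ball (0 : ℂ) 1)) :=
    ⟨by rw [Measure.restrict_apply_univ]; exact measure_ball_lt_top⟩
  -- the double series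
  set f : ℕ × ℕ → ℂ → ℂ := fun p w => (((1 - ‖w‖ ^ 2) ^ m : ℝ) : ℂ) *
    ((((p.1 + (m + 1)).choose (m + 1) : ℂ) * ((starRingEnd ℂ) w * z) ^ p.1) *
      (a p.2 * w ^ p.2)) with hf
  set b : ℕ × ℕ → ℝ := fun p => (((p.1 + (m + 1)).choose (m + 1) : ℝ) * ‖z‖ ^ p.1) * ‖a p.2‖
    with hb
  have hbs : Summable b := Summable.mul_of_nonneg hkabs habs
    (fun j => by positivity) (fun k => by positivity)
  have hfb : ∀ p, ∀ w ∈ ball (0 : ℂ) 1, ‖f p w‖ ≤ b p := by
    intro p w hw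
    rw [mem_ball_zero_iff] at hw
    simp only [hf, hb]
    rw [norm_mul, norm_mul, norm_mul, norm_mul, norm_pow, norm_mul, norm_pow, RCLike.norm_conj,
      Complex.norm_natCast, Complex.norm_real]
    have h1 : ‖(1 - ‖w‖ ^ 2) ^ m‖ ≤ 1 := by
      rw [norm_pow]
      apply pow_le_one₀ (norm_nonneg _)
      rw [Real.norm_of_nonneg (by nlinarith [norm_nonneg w])]
      nlinarith [norm_nonneg w]
    have h2 : (‖w‖ * ‖z‖) ^ p.1 ≤ ‖z‖ ^ p.1 := by
      apply pow_le_pow_left₀ (by positivity)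
      nlinarith [norm_nonneg w, norm_nonneg z]
    have h3 : ‖w‖ ^ p.2 ≤ 1 := pow_le_one₀ (norm_nonneg _) hw.le
    calc ‖(1 - ‖w‖ ^ 2) ^ m‖ * (((p.1 + (m + 1)).choose (m + 1) : ℝ) * (‖w‖ * ‖z‖) ^ p.1 *
          (‖a p.2‖ * ‖w‖ ^ p.2))
        ≤ 1 * (((p.1 + (m + 1)).choose (m + 1) : ℝ) * ‖z‖ ^ p.1 * (‖a p.2‖ * 1)) := by
          gcongr
      _ = _ := by ring
  have hcont : ∀ p, Continuous (f p) := by
    intro p
    simp only [hf]
    fun_prop
  have hint : ∀ p, IntegrableOn (f p) (ball (0 : ℂ) 1) := by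
    intro p
    refine Integrable.mono' (g := fun _ => b p) (integrable_const _)
      (hcont p).aestronglyMeasurable ?_
    filter_upwards [ae_restrict_mem measurableSet_ball] with w hw
    exact hfb p w hw
  have hsn : Summable (fun p => ∫ w in ball (0 : ℂ) 1, ‖f p w‖) := by
    refine Summable.of_nonneg_of_le (fun p => integral_nonneg fun w => norm_nonneg _)
      (fun p => ?_) (hbs.mul_left (volume.real (ball (0 : ℂ) 1)))
    calc ∫ w in ball (0 : ℂ) 1, ‖f p w‖ ≤ ∫ w in ball (0 : ℂ) 1, b p :=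
          setIntegral_mono_on (hint p).norm (integrable_const _) measurableSet_ball (hfb p)
      _ = volume.real (ball (0 : ℂ) 1) * b p := by
          rw [setIntegral_const, smul_eq_mul]
  have hmain := hasSum_integral_of_summable_integral_norm hint hsn
  have hlhs : ∫ w in ball (0 : ℂ) 1, (((1 - ‖w‖ ^ 2) ^ m : ℝ) : ℂ) *
      ((1 - (starRingEnd ℂ) w * z) ^ (m + 2))⁻¹ * F w =
      ∫ w in ball (0 : ℂ) 1, ∑' p, f p w := by
    apply setIntegral_congr_fun measurableSet_ball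
    intro w hw
    rw [mem_ball_zero_iff] at hw
    simp only
    symm
    apply HasSum.tsum_eq
    rw [mul_assoc]
    simp only [hf]
    apply HasSum.mul_left
    apply HasSum.mul (hker w hw.le) (hsum w hw.le)
    apply Summable.of_norm
    refine Summable.of_nonneg_of_le (fun p => norm_nonneg _) (fun p => ?_) hbs
    simp only [hb]
    rw [norm_mul, norm_mul, norm_mul, norm_pow, norm_mul, norm_pow, RCLike.norm_conj,
      Complex.norm_natCast]
    have h2 : (‖w‖ * ‖z‖) ^ p.1 ≤ ‖z‖ ^ p.1 := by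
      apply pow_le_pow_left₀ (by positivity)
      nlinarith [norm_nonneg w, norm_nonneg z]
    have h3 : ‖w‖ ^ p.2 ≤ 1 := pow_le_one₀ (norm_nonneg _) hw.le
    calc ((p.1 + (m + 1)).choose (m + 1) : ℝ) * (‖w‖ * ‖z‖) ^ p.1 * (‖a p.2‖ * ‖w‖ ^ p.2)
        ≤ (((p.1 + (m + 1)).choose (m + 1) : ℝ) * ‖z‖ ^ p.1 * (‖a p.2‖ * 1)) := by
          gcongr
      _ = _ := by ring
  rw [hlhs]
  have hterm : ∀ p : ℕ × ℕ, ∫ w in ball (0 : ℂ) 1, f p w = if p.1 = p.2 then
      (Real.pi / (m + 1)) * (a p.2 * z ^ p.2) else 0 := by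
    rintro ⟨j, k⟩
    have h1 : ∀ w : ℂ, f (j, k) w = (((j + (m + 1)).choose (m + 1) : ℂ) * z ^ j * a k) *
        ((((1 - ‖w‖ ^ 2) ^ m : ℝ) : ℂ) * (((starRingEnd ℂ) w) ^ j * w ^ k)) := by
      intro w
      simp only [hf]
      rw [mul_pow]
      ring
    simp_rw [h1]
    rw [integral_const_mul, mono]
    split_ifs with h
    · subst h
      have h2 : ((j + (m + 1)).choose (m + 1) : ℂ) * (j.factorial * (m + 1).factorial) =
          (j + m + 1).factorial := by
        have := Nat.add_choose_mul_factorial_mul_factorial j (m + 1)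
        rw [← add_assoc] at this
        rw [← this, ← add_assoc]
        push_cast
        have h3 : (j + m + 1).choose (m + 1) = (j + m + 1).choose j := by
          rw [← Nat.choose_symm_of_eq_add (a := j) (b := m + 1) (by ring)]
        rw [h3]
        ring
      rw [Nat.factorial_succ m] at h2
      push_cast at h2
      have h4 : ((j + m + 1).factorial : ℂ) ≠ 0 := by exact_mod_cast (Nat.factorial_ne_zero _)
      have h5 : ((m : ℂ) + 1) ≠ 0 := by exact_mod_cast (Nat.succ_ne_zero m)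
      rw [← h2] at h4 ⊢
      have h6 : ((j + (m + 1)).choose (m + 1) : ℂ) ≠ 0 := by
        intro h; rw [h, zero_mul] at h4; exact h4 rfl
      have h7 : (j.factorial : ℂ) ≠ 0 := by exact_mod_cast (Nat.factorial_ne_zero _)
      have h8 : (m.factorial : ℂ) ≠ 0 := by exact_mod_cast (Nat.factorial_ne_zero _)
      field_simp
    · simp
  simp_rw [hterm] at hmain
  have hdiag : HasSum (fun p : ℕ × ℕ => if p.1 = p.2 then
      (Real.pi / (m + 1)) * (a p.2 * z ^ p.2) else 0) ((Real.pi / (m + 1)) * F z) := by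
    have hinj : Function.Injective (fun k : ℕ => (k, k)) := fun x y h => (Prod.mk.inj h).1
    rw [← hinj.hasSum_iff]
    · simpa [Function.comp_def] using (hsum z hz.le).mul_left ((Real.pi : ℂ) / (m + 1))
    · rintro ⟨j, k⟩ h
      simp only
      rw [if_neg]
      rintro rfl
      exact h ⟨j, rfl⟩
  exact hmain.unique hdiag

end Pool.Agent.H82.Zyg
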