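import Mathlib
import Pool.Agent.H82.Zyg.Defs
import Pool.Agent.H82.Zyg.Bergman

/-!
# MP_425ce8_an, step (c) of the core: the integral operator
-/

namespace Pool.Agent.H82.Zyg

open Complex Metric Set MeasureTheory Filter Topology

namespace StepC

lemma kernel_lower {w z : ℂ} {ρ : ℝ} (hw : ‖w‖ ≤ 1) (hz : ‖z‖ ≤ ρ) :
    1 - ρ ≤ ‖1 - (starRingEnd ℂ) w * z‖ := by
  have h3 := norm_sub_norm_le (1 : ℂ) ((starRingEnd ℂ) w * z)
  have h4 : ‖(starRingEnd ℂ) w * z‖ ≤ ‖z‖ := by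
    rw [norm_mul, RCLike.norm_conj]
    nlinarith [norm_nonneg z, norm_nonneg w]
  rw [norm_one] at h3
  linarith

lemma kernel_ne {w z : ℂ} (hw : ‖w‖ ≤ 1) (hz : ‖z‖ < 1) : 1 - (starRingEnd ℂ) w * z ≠ 0 := by
  have h := kernel_lower hw (le_refl ‖z‖)
  intro h0
  rw [h0, norm_zero] at h
  linarith

/-- The kernel integral. -/
noncomputable def Q (n : ℕ) (G : ℂ → ℂ) (z : ℂ) : ℂ :=
  ∫ w in ball (0 : ℂ) 1, G w * ((1 - (starRingEnd ℂ) w * z) ^ n)⁻¹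

instance fin_ball : IsFiniteMeasure (volume.restrict (ball (0 : ℂ) 1)) :=
  ⟨by rw [Measure.restrict_apply_univ]; exact measure_ball_lt_top⟩

lemma meas_kernel (n : ℕ) (z : ℂ) :
    Measurable (fun w : ℂ => ((1 - (starRingEnd ℂ) w * z) ^ n)⁻¹) := by
  apply Measurable.inv
  apply Continuous.measurable
  fun_prop

lemma aesm {n : ℕ} {G : ℂ → ℂ} (hG : AEStronglyMeasurable G (volume.restrict (ball (0 : ℂ) 1)))
    (z : ℂ) : AEStronglyMeasurable (fun w : ℂ => G w * ((1 - (starRingEnd ℂ) w * z) ^ n)⁻¹)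
      (volume.restrict (ball (0 : ℂ) 1)) :=
  hG.mul (meas_kernel n z).aestronglyMeasurable

lemma norm_kernel_le {n : ℕ} {w z : ℂ} {ρ : ℝ} (hw : ‖w‖ ≤ 1) (hz : ‖z‖ ≤ ρ) (hρ : ρ < 1) :
    ‖((1 - (starRingEnd ℂ) w * z) ^ n)⁻¹‖ ≤ ((1 - ρ) ^ n)⁻¹ := by
  rw [norm_inv, norm_pow]
  apply inv_anti₀ (pow_pos (by linarith) n)
  exact pow_le_pow_left₀ (by linarith) (kernel_lower hw hz) n

lemma integrable_Q (n : ℕ) {G : ℂ → ℂ}
    (hG : AEStronglyMeasurable G (volume.restrict (ball (0 : ℂ) 1)))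
    {A : ℝ} (hA : ∀ w ∈ ball (0 : ℂ) 1, ‖G w‖ ≤ A) {z : ℂ} (hz : ‖z‖ < 1) :
    Integrable (fun w : ℂ => G w * ((1 - (starRingEnd ℂ) w * z) ^ n)⁻¹)
      (volume.restrict (ball (0 : ℂ) 1)) := by
  refine Integrable.mono' (g := fun _ => A * ((1 - ‖z‖) ^ n)⁻¹) (integrable_const _)
    (aesm hG z) ?_
  filter_upwards [ae_restrict_mem measurableSet_ball] with w hw
  rw [norm_mul]
  have hw' : ‖w‖ < 1 := by rwa [mem_ball_zero_iff] at hw
  have hA0 : 0 ≤ A := (norm_nonneg _).trans (hA w hw)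
  have h1 := hA w hw
  have h2 := norm_kernel_le (n := n) hw'.le (le_refl ‖z‖) hz
  gcongr

lemma hasDerivAt_Q (n : ℕ) {G : ℂ → ℂ}
    (hG : AEStronglyMeasurable G (volume.restrict (ball (0 : ℂ) 1)))
    {A : ℝ} (hA : ∀ w ∈ ball (0 : ℂ) 1, ‖G w‖ ≤ A) {z : ℂ} (hz : ‖z‖ < 1) :
    HasDerivAt (Q n G) (n * Q (n + 1) (fun w => (starRingEnd ℂ) w * G w) z) z := by
  set ρ : ℝ := (1 + ‖z‖) / 2 with hρ
  have hρ1 : ρ < 1 := by rw [hρ]; linarith
  have hzρ : ‖z‖ < ρ := by rw [hρ]; linarith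
  have hA0 : 0 ≤ A := (norm_nonneg _).trans (hA 0 (mem_ball_self one_pos))
  have hcc : AEStronglyMeasurable (fun w => (starRingEnd ℂ) w * G w)
      (volume.restrict (ball (0 : ℂ) 1)) :=
    (Complex.continuous_conj.measurable.aestronglyMeasurable).mul hG
  have key := hasDerivAt_integral_of_dominated_loc_of_deriv_le
    (μ := volume.restrict (ball (0 : ℂ) 1)) (s := ball (0 : ℂ) ρ) (x₀ := z)
    (F := fun z w => G w * ((1 - (starRingEnd ℂ) w * z) ^ n)⁻¹)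
    (F' := fun z w => n * (((starRingEnd ℂ) w * G w) * ((1 - (starRingEnd ℂ) w * z) ^ (n + 1))⁻¹))
    (bound := fun _ => n * (A * ((1 - ρ) ^ (n + 1))⁻¹))
    (isOpen_ball.mem_nhds (by rwa [mem_ball_zero_iff]))
    (Eventually.of_forall fun x => aesm hG x) (integrable_Q n hG hA hz)
    ((aesm hcc z).const_mul _) ?_ (integrable_const _) ?_
  · have h2 := key.2
    rw [integral_const_mul] at h2
    exact h2
  · filter_upwards [ae_restrict_mem measurableSet_ball] with w hw x hx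
    have hw' : ‖w‖ < 1 := by rwa [mem_ball_zero_iff] at hw
    rw [mem_ball_zero_iff] at hx
    rw [norm_mul, norm_mul, norm_mul, RCLike.norm_conj, Complex.norm_natCast]
    have h1 := hA w hw
    have h2 := norm_kernel_le (n := n + 1) hw'.le hx.le hρ1
    have h3 : ‖w‖ * ‖G w‖ ≤ A := by nlinarith [norm_nonneg w, norm_nonneg (G w)]
    gcongr
  · filter_upwards [ae_restrict_mem measurableSet_ball] with w hw x hx
    have hw' : ‖w‖ < 1 := by rwa [mem_ball_zero_iff] at hw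
    rw [mem_ball_zero_iff] at hx
    have hne := kernel_ne hw'.le (hx.trans hρ1)
    have h1 : HasDerivAt (fun x : ℂ => 1 - (starRingEnd ℂ) w * x) (-((starRingEnd ℂ) w)) x := by
      simpa using ((hasDerivAt_id x).const_mul ((starRingEnd ℂ) w)).const_sub 1
    have h2 := ((h1.pow n).inv (pow_ne_zero n hne)).const_mul (G w)
    refine h2.congr_deriv ?_
    rcases Nat.eq_zero_or_pos n with hn | hn
    · subst hn; simp
    · obtain ⟨j, rfl⟩ : ∃ j, n = j + 1 := ⟨n - 1, by omega⟩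
      simp only [Nat.add_sub_cancel, Pi.pow_apply]
      field_simp
      ring

/-- The pointwise estimate: `a = |w - z|`, `κ = |1 - conj w z|`, `D = D z`, `Dw = D w`,
`y = 1 - |w|`. -/
lemma pointwise {B a κ D Dw y H Hw g : ℝ} {k l : ℕ} (hl : l ≤ 2) (hB : 0 ≤ B)
    (ha0 : 0 ≤ a) (haκ : a ≤ κ) (hyκ : y ≤ κ) (hκ : 0 < κ) (hD : 0 < D) (hDw : 0 < Dw)
    (hy : 0 ≤ y) (hyD : y ≤ Dw) (hκD : κ ≤ 2 * (D * (1 + a / D))) (hH : 0 < H) (hHw : 0 < Hw)
    (hratio : H * (1 + a / D) ^ 3 ≤ B * (Hw * (1 + a / Dw) ^ k))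
    (hg : g ≤ B * (a * (1 + a / D))) :
    H * ((2 * y) ^ k * (g / Hw) * (κ ^ (k + 2 + l))⁻¹) ≤
      B ^ 2 * 4 ^ (k + 1) * D ^ (2 - l) * (κ ^ 3)⁻¹ := by
  set u : ℝ := 1 + a / D with hu
  have hu1 : 1 ≤ u := by rw [hu]; have : 0 ≤ a / D := by positivity
                         linarith
  have hu0 : 0 < u := by linarith
  set v : ℝ := 1 + a / Dw with hv
  have hv0 : 0 < v := by rw [hv]; positivity
  -- `y v ≤ 2 κ`
  have hyv : y * v ≤ 2 * κ := by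
    have h1 : y * (a / Dw) ≤ a := by
      rw [mul_div_assoc', div_le_iff₀ hDw]
      nlinarith
    rw [hv]
    nlinarith
  have hyv' : (y * v) ^ k ≤ (2 * κ) ^ k := pow_le_pow_left₀ (by positivity) hyv k
  -- `κ ≤ 2 D u`, hence `κ^(2-l) ≤ (2D)^(2-l) u^(2-l)`, `u^(2-l) ≤ u^2`
  have hκ2 : κ ^ (2 - l) ≤ 4 * D ^ (2 - l) * u ^ 2 := by
    have h1 : κ ^ (2 - l) ≤ (2 * (D * u)) ^ (2 - l) := pow_le_pow_left₀ hκ.le hκD _
    have h2 : (2 * (D * u)) ^ (2 - l) = 2 ^ (2 - l) * D ^ (2 - l) * u ^ (2 - l) := by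
      rw [mul_pow, mul_pow]; ring
    have h3 : (2 : ℝ) ^ (2 - l) ≤ 4 := by
      have : (2 : ℝ) ^ (2 - l) ≤ 2 ^ 2 := pow_le_pow_right₀ (by norm_num) (by omega)
      linarith
    have h4 : u ^ (2 - l) ≤ u ^ 2 := pow_le_pow_right₀ hu1 (by omega)
    calc κ ^ (2 - l) ≤ 2 ^ (2 - l) * D ^ (2 - l) * u ^ (2 - l) := by rw [← h2]; exact h1
      _ ≤ 4 * D ^ (2 - l) * u ^ 2 := by gcongr
  -- the main chain
  have h5 : H * (g / Hw) ≤ B ^ 2 * (a * v ^ k) / u ^ 2 := by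
    rw [mul_div_assoc', div_le_div_iff₀ hHw (by positivity)]
    have h6 : H * g * u ^ 2 ≤ (H * u ^ 3) * (B * a) := by
      have : H * g * u ^ 2 ≤ H * (B * (a * u)) * u ^ 2 := by gcongr
      calc H * g * u ^ 2 ≤ H * (B * (a * u)) * u ^ 2 := this
        _ = (H * u ^ 3) * (B * a) := by ring
    calc H * g * u ^ 2 ≤ (H * u ^ 3) * (B * a) := h6
      _ ≤ (B * (Hw * v ^ k)) * (B * a) := by gcongr
      _ = B ^ 2 * (a * v ^ k) * Hw := by ring
  have h7 : H * ((2 * y) ^ k * (g / Hw) * (κ ^ (k + 2 + l))⁻¹) =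
      (2 * y) ^ k * (H * (g / Hw)) * (κ ^ (k + 2 + l))⁻¹ := by ring
  rw [h7]
  calc (2 * y) ^ k * (H * (g / Hw)) * (κ ^ (k + 2 + l))⁻¹
      ≤ (2 * y) ^ k * (B ^ 2 * (a * v ^ k) / u ^ 2) * (κ ^ (k + 2 + l))⁻¹ := by gcongr
    _ = B ^ 2 * 2 ^ k * (y * v) ^ k * a / u ^ 2 * (κ ^ (k + 2 + l))⁻¹ := by
        rw [mul_pow, mul_pow]; ring
    _ ≤ B ^ 2 * 2 ^ k * (2 * κ) ^ k * κ / u ^ 2 * (κ ^ (k + 2 + l))⁻¹ := by gcongr
    _ ≤ B ^ 2 * 4 ^ (k + 1) * D ^ (2 - l) * (κ ^ 3)⁻¹ := by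
        have h8 : κ ^ (k + 2 + l) = κ ^ k * κ ^ l * κ ^ 2 := by rw [← pow_add, ← pow_add]; ring_nf
        have h9 : κ ^ 2 = κ ^ (2 - l) * κ ^ l := by
          rw [← pow_add]; congr 1; omega
        have h10 : B ^ 2 * 2 ^ k * (2 * κ) ^ k * κ / u ^ 2 * (κ ^ (k + 2 + l))⁻¹ =
            B ^ 2 * 4 ^ k * (κ ^ (2 - l) / u ^ 2) * (κ ^ 3)⁻¹ := by
          have h11 : (4 : ℝ) ^ k = 2 ^ k * 2 ^ k := by rw [← mul_pow]; norm_num
          rw [h8, mul_pow, h11]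
          have hκl : κ ^ l ≠ 0 := by positivity
          have e : κ ^ (2 - l) = κ ^ 2 / κ ^ l := by
            rw [h9]; field_simp
          rw [e]
          field_simp
        rw [h10]
        have h12 : κ ^ (2 - l) / u ^ 2 ≤ 4 * D ^ (2 - l) := by
          rw [div_le_iff₀ (by positivity)]
          exact hκ2
        calc B ^ 2 * 4 ^ k * (κ ^ (2 - l) / u ^ 2) * (κ ^ 3)⁻¹
            ≤ B ^ 2 * 4 ^ k * (4 * D ^ (2 - l)) * (κ ^ 3)⁻¹ := by gcongr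
          _ = B ^ 2 * 4 ^ (k + 1) * D ^ (2 - l) * (κ ^ 3)⁻¹ := by ring

lemma norm_add_mul_le (a b c d : ℂ) : ‖a * b + c * d‖ ≤ ‖a‖ * ‖b‖ + ‖c‖ * ‖d‖ :=
  (norm_add_le _ _).trans (le_of_eq (by rw [norm_mul, norm_mul]))

/-- A slightly larger disc on which `h` has no zeros. -/
lemma exists_radius {h : ℂ → ℂ} {r : ℝ} (hr : 1 < r) (hd : DifferentiableOn ℂ h (ball 0 r))
    (hne : ∀ z : ℂ, ‖z‖ ≤ 1 → h z ≠ 0) :
    ∃ r' > 1, DifferentiableOn ℂ h (ball 0 r') ∧ ∀ z ∈ ball (0 : ℂ) r', h z ≠ 0 := by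
  have hopen : IsOpen (ball (0 : ℂ) r ∩ h ⁻¹' {0}ᶜ) :=
    hd.continuousOn.isOpen_inter_preimage isOpen_ball isOpen_compl_singleton
  have hsub : closedBall (0 : ℂ) 1 ⊆ ball (0 : ℂ) r ∩ h ⁻¹' {0}ᶜ := by
    intro z hz
    rw [mem_closedBall_zero_iff] at hz
    exact ⟨by rw [mem_ball_zero_iff]; linarith, hne z hz⟩
  obtain ⟨δ, hδ, hδs⟩ := (isCompact_closedBall (0 : ℂ) 1).exists_thickening_subset_open hopen hsub
  have hsub2 : ball (0 : ℂ) (1 + δ) ⊆ thickening δ (closedBall (0 : ℂ) 1) := by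
    rw [thickening_closedBall hδ zero_le_one, add_comm]
  refine ⟨1 + δ, by linarith, hd.mono (hsub2.trans (hδs.trans inter_subset_left)), ?_⟩
  intro z hz
  exact (hδs (hsub2 hz)).2

end StepC

open StepC in
/-- Step (c): the integral operator. -/
theorem step_c (B : ℝ) (k : ℕ) : ∃ K : ℝ, ∀ (D : ℂ → ℝ) (h φt s : ℂ → ℂ), DistLike D →
    Peak B k D h → ContinuousOn φt (ball 0 1) → (∃ B', ∀ z : ℂ, ‖z‖ < 1 → ‖φt z‖ ≤ B') →
    (∀ z w : ℂ, ‖z‖ < 1 → ‖w‖ < 1 →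
      ‖φt w - φt z - s z * (w - z)‖ ≤ B * (‖w - z‖ * (1 + ‖w - z‖ / D z))) →
    ∃ f : ℂ → ℂ, DifferentiableOn ℂ f (ball 0 1) ∧ ∀ z : ℂ, ‖z‖ < 1 →
      ‖f z - φt z‖ * (1 - ‖z‖) ≤ K * D z ^ 2 ∧
      ‖deriv f z - s z‖ * (1 - ‖z‖) ≤ K * D z ∧
      ‖deriv (deriv f) z‖ * (1 - ‖z‖) ≤ K := by
  obtain ⟨K0, hK0⟩ := forelli_rudin
  set C0 : ℝ := (k + 1) / Real.pi * ((k + 2) * (k + 3)) * (B ^ 2 * 4 ^ (k + 1) * K0) with hC0
  refine ⟨(3 * B + 1) * C0, ?_⟩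
  intro D h φt s hD hP hφc hφb hφs
  obtain ⟨B', hB'⟩ := hφb
  have hK00 : 0 ≤ K0 := by
    have h1 := (hK0 0 (by simp)).2
    have h2 : 0 ≤ ∫ w in ball (0 : ℂ) 1, (‖1 - (starRingEnd ℂ) w * 0‖ ^ 3)⁻¹ :=
      integral_nonneg fun w => by positivity
    simp only [norm_zero, sub_zero, div_one] at h1
    exact h2.trans h1
  have hB1 : 1 ≤ B := by
    have h1 := hP.ratio 0 0 (by simp) (by simp)
    have h2 : 0 < ‖h 0‖ := norm_pos_iff.2 (hP.ne 0 (by simp))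
    simp only [sub_self, norm_zero, zero_div, add_zero, one_pow, mul_one] at h1
    by_contra hcon
    push Not at hcon
    nlinarith
  have hB0 : 0 ≤ B := by linarith
  have hC00 : 0 ≤ C0 := by rw [hC0]; positivity
  obtain ⟨r, hr, hd⟩ := hP.diff
  obtain ⟨R, hR, hdR, hneR⟩ := exists_radius hr hd hP.ne
  have hhd : ∀ z : ℂ, ‖z‖ < 1 → DifferentiableAt ℂ h z := fun z hz =>
    (hd z (by rw [mem_ball_zero_iff]; linarith)).differentiableAt
      (isOpen_ball.mem_nhds (by rw [mem_ball_zero_iff]; linarith))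
  have hh'd : ∀ z : ℂ, ‖z‖ < 1 → DifferentiableAt ℂ (deriv h) z := fun z hz =>
    ((hd.deriv isOpen_ball) z (by rw [mem_ball_zero_iff]; linarith)).differentiableAt
      (isOpen_ball.mem_nhds (by rw [mem_ball_zero_iff]; linarith))
  have hhc : ContinuousOn h (ball 0 1) := hd.continuousOn.mono (ball_subset_ball hr.le)
  -- lower bound for `h`
  obtain ⟨η, hη, hηh⟩ : ∃ η > 0, ∀ w ∈ ball (0 : ℂ) 1, η ≤ ‖h w‖ := by
    have hc : ContinuousOn (fun z => ‖h z‖) (closedBall (0 : ℂ) 1) :=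
      (hd.continuousOn.mono (closedBall_subset_ball hr)).norm
    obtain ⟨z0, hz0, hmin⟩ := (isCompact_closedBall (0 : ℂ) 1).exists_isMinOn
      ⟨0, by simp⟩ hc
    exact ⟨‖h z0‖, norm_pos_iff.2 (hP.ne z0 (by simpa using hz0)),
      fun w hw => hmin (ball_subset_closedBall hw)⟩
  -- the weights
  set W : ℂ → ℂ := fun w => (((1 - ‖w‖ ^ 2) ^ k : ℝ) : ℂ) with hW
  have hWc : Continuous W := by rw [hW]; fun_prop
  have hWb : ∀ w ∈ ball (0 : ℂ) 1, ‖W w‖ ≤ (2 * (1 - ‖w‖)) ^ k := by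
    intro w hw
    rw [mem_ball_zero_iff] at hw
    simp only [hW, Complex.norm_real, norm_pow]
    apply pow_le_pow_left₀ (norm_nonneg _)
    rw [Real.norm_of_nonneg (by nlinarith [norm_nonneg w])]
    nlinarith [norm_nonneg w]
  have hWb1 : ∀ w ∈ ball (0 : ℂ) 1, ‖W w‖ ≤ 1 := by
    intro w hw
    rw [mem_ball_zero_iff] at hw
    simp only [hW, Complex.norm_real, norm_pow]
    apply pow_le_one₀ (norm_nonneg _)
    rw [Real.norm_of_nonneg (by nlinarith [norm_nonneg w])]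
    nlinarith [norm_nonneg w]
  set G : ℂ → ℂ := fun w => W w * (φt w / h w) with hG
  set q : ℂ → ℂ → ℂ := fun z0 w => φt z0 + s z0 * (w - z0) with hq
  set g : ℂ → ℂ → ℂ := fun z0 w => W w * ((φt w - q z0 w) / h w) with hg
  have hGm : AEStronglyMeasurable G (volume.restrict (ball (0 : ℂ) 1)) := by
    apply ContinuousOn.aestronglyMeasurable _ measurableSet_ball
    exact hWc.continuousOn.mul (hφc.div hhc fun w hw =>
      hP.ne w (by rw [mem_ball_zero_iff] at hw; exact hw.le))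
  have hGb : ∀ w ∈ ball (0 : ℂ) 1, ‖G w‖ ≤ B' / η := by
    intro w hw
    simp only [hG]
    rw [norm_mul, norm_div]
    have h1 := hWb1 w hw
    have h2 := hηh w hw
    have h3 := hB' w (by rwa [mem_ball_zero_iff] at hw)
    calc ‖W w‖ * (‖φt w‖ / ‖h w‖) ≤ 1 * (B' / η) := by
          have : 0 ≤ B' := (norm_nonneg _).trans h3
          gcongr
      _ = B' / η := one_mul _
  have hgm : ∀ z0, AEStronglyMeasurable (g z0) (volume.restrict (ball (0 : ℂ) 1)) := by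
    intro z0
    apply ContinuousOn.aestronglyMeasurable _ measurableSet_ball
    refine hWc.continuousOn.mul ((hφc.sub ?_).div hhc fun w hw =>
      hP.ne w (by rw [mem_ball_zero_iff] at hw; exact hw.le))
    simp only [hq]
    fun_prop
  have hgb : ∀ z0, ‖z0‖ < 1 → ∃ A, ∀ w ∈ ball (0 : ℂ) 1, ‖g z0 w‖ ≤ A := by
    intro z0 hz0
    refine ⟨(B' + (‖φt z0‖ + ‖s z0‖ * 2)) / η, ?_⟩
    intro w hw
    have hw' : ‖w‖ < 1 := by rwa [mem_ball_zero_iff] at hw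
    simp only [hg]
    rw [norm_mul, norm_div]
    have h1 := hWb1 w hw
    have h2 := hηh w hw
    have h3 := hB' w hw'
    have h4 : ‖φt w - q z0 w‖ ≤ B' + (‖φt z0‖ + ‖s z0‖ * 2) := by
      have h5 : ‖w - z0‖ ≤ 2 := (norm_sub_le _ _).trans (by linarith)
      calc ‖φt w - q z0 w‖ ≤ ‖φt w‖ + ‖q z0 w‖ := norm_sub_le _ _
        _ ≤ ‖φt w‖ + (‖φt z0‖ + ‖s z0‖ * ‖w - z0‖) := by
            gcongr
            simp only [hq]
            exact (norm_add_le _ _).trans (by rw [norm_mul])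
        _ ≤ B' + (‖φt z0‖ + ‖s z0‖ * 2) := by gcongr
    have hA0 : 0 ≤ B' + (‖φt z0‖ + ‖s z0‖ * 2) := (norm_nonneg _).trans h4
    calc ‖W w‖ * (‖φt w - q z0 w‖ / ‖h w‖) ≤ 1 * ((B' + (‖φt z0‖ + ‖s z0‖ * 2)) / η) := by
          gcongr
      _ = _ := one_mul _
  -- the solution
  set c0 : ℂ := ((k : ℂ) + 1) / Real.pi with hc0
  have hπ : (Real.pi : ℂ) ≠ 0 := by exact_mod_cast Real.pi_ne_zero
  have hk1 : ((k : ℂ) + 1) ≠ 0 := by exact_mod_cast Nat.succ_ne_zero k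
  set f : ℂ → ℂ := fun z => h z * (c0 * Q (k + 2) G z) with hf
  have hrep : ∀ z0 : ℂ, ‖z0‖ < 1 → ∀ z : ℂ, ‖z‖ < 1 →
      f z = q z0 z + h z * (c0 * Q (k + 2) (g z0) z) := by
    intro z0 hz0 z hz
    have h1 := bergman_repro k hR (F := fun w => q z0 w / h w)
      (DifferentiableOn.div (by simp only [hq]; fun_prop) hdR hneR) hz
    obtain ⟨A, hA⟩ := hgb z0 hz0
    have h2 : Q (k + 2) G z - Q (k + 2) (g z0) z = (Real.pi / (k + 1)) * (q z0 z / h z) := by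
      rw [← h1]
      simp only [Q]
      rw [← integral_sub (integrable_Q _ hGm hGb hz) (integrable_Q _ (hgm z0) hA hz)]
      apply integral_congr_ae
      filter_upwards with w
      simp only [hG, hg, hW]
      ring
    have h3 : Q (k + 2) G z = Q (k + 2) (g z0) z + (Real.pi / (k + 1)) * (q z0 z / h z) := by
      rw [← h2]; ring
    simp only [hf]
    rw [h3, hc0]
    have hhz : h z ≠ 0 := hP.ne z hz.le
    field_simp
    ring
  have hfd : DifferentiableOn ℂ f (ball 0 1) := by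
    intro z hz
    rw [mem_ball_zero_iff] at hz
    exact (((hhd z hz).hasDerivAt.mul
      ((hasDerivAt_Q (k + 2) hGm hGb hz).const_mul c0)).differentiableAt).differentiableWithinAt
  refine ⟨f, hfd, ?_⟩
  intro z0 hz0
  obtain ⟨A, hA⟩ := hgb z0 hz0
  -- the three kernels
  set G1 : ℂ → ℂ := fun w => (starRingEnd ℂ) w * g z0 w with hG1
  set G2 : ℂ → ℂ := fun w => (starRingEnd ℂ) w * G1 w with hG2
  have hcm : AEStronglyMeasurable (fun w : ℂ => (starRingEnd ℂ) w)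
      (volume.restrict (ball (0 : ℂ) 1)) :=
    Complex.continuous_conj.measurable.aestronglyMeasurable
  have hG1m : AEStronglyMeasurable G1 (volume.restrict (ball (0 : ℂ) 1)) := hcm.mul (hgm z0)
  have hG1b' : ∀ w ∈ ball (0 : ℂ) 1, ‖G1 w‖ ≤ ‖g z0 w‖ := by
    intro w hw
    rw [mem_ball_zero_iff] at hw
    simp only [hG1]
    rw [norm_mul, RCLike.norm_conj]
    nlinarith [norm_nonneg (g z0 w)]
  have hG1b : ∀ w ∈ ball (0 : ℂ) 1, ‖G1 w‖ ≤ A := fun w hw => (hG1b' w hw).trans (hA w hw)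
  have hG2m : AEStronglyMeasurable G2 (volume.restrict (ball (0 : ℂ) 1)) := hcm.mul hG1m
  have hG2b' : ∀ w ∈ ball (0 : ℂ) 1, ‖G2 w‖ ≤ ‖g z0 w‖ := by
    intro w hw
    have h1 := hG1b' w hw
    rw [mem_ball_zero_iff] at hw
    simp only [hG2]
    rw [norm_mul, RCLike.norm_conj]
    nlinarith [norm_nonneg (g z0 w), norm_nonneg (G1 w)]
  set P0 : ℂ → ℂ := fun z => c0 * Q (k + 2) (g z0) z with hP0
  set P1 : ℂ → ℂ := fun z => c0 * (((k + 2 : ℕ) : ℂ) * Q (k + 3) G1 z) with hP1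
  set P2 : ℂ → ℂ := fun z => c0 * (((k + 2 : ℕ) : ℂ) * (((k + 3 : ℕ) : ℂ) * Q (k + 4) G2 z))
    with hP2
  have hd0 : ∀ z : ℂ, ‖z‖ < 1 → HasDerivAt P0 (P1 z) z := fun z hz =>
    (hasDerivAt_Q (k + 2) (hgm z0) hA hz).const_mul c0
  have hd1 : ∀ z : ℂ, ‖z‖ < 1 → HasDerivAt P1 (P2 z) z := fun z hz =>
    ((hasDerivAt_Q (k + 3) hG1m hG1b hz).const_mul _).const_mul c0
  -- bounds
  have hmain : ∀ l : ℕ, l ≤ 2 → ∀ GG : ℂ → ℂ, (∀ w ∈ ball (0 : ℂ) 1, ‖GG w‖ ≤ ‖g z0 w‖) →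
      ‖h z0‖ * ‖Q (k + 2 + l) GG z0‖ ≤
        B ^ 2 * 4 ^ (k + 1) * D z0 ^ (2 - l) * (K0 / (1 - ‖z0‖)) := by
    intro l hl GG hGG
    have h1 : ‖h z0‖ * ‖Q (k + 2 + l) GG z0‖ =
        ‖∫ w in ball (0 : ℂ) 1, h z0 * (GG w * ((1 - (starRingEnd ℂ) w * z0) ^ (k + 2 + l))⁻¹)‖ := by
      rw [integral_const_mul, norm_mul]
      rfl
    rw [h1]
    have hint := (hK0 z0 hz0).1
    have hDz : 0 < D z0 := hD.pos z0 hz0
    calc ‖∫ w in ball (0 : ℂ) 1, h z0 * (GG w * ((1 - (starRingEnd ℂ) w * z0) ^ (k + 2 + l))⁻¹)‖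
        ≤ ∫ w in ball (0 : ℂ) 1, B ^ 2 * 4 ^ (k + 1) * D z0 ^ (2 - l) *
            (‖1 - (starRingEnd ℂ) w * z0‖ ^ 3)⁻¹ := by
          apply norm_integral_le_of_norm_le (hint.const_mul _)
          filter_upwards [ae_restrict_mem measurableSet_ball] with w hw
          have hw' : ‖w‖ < 1 := by rwa [mem_ball_zero_iff] at hw
          have hκ : 0 < ‖1 - (starRingEnd ℂ) w * z0‖ :=
            norm_pos_iff.2 (kernel_ne hw'.le hz0)
          have hlow := Bergman.norm_lower hw'.le hz0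
          have haκ : ‖w - z0‖ ≤ ‖1 - (starRingEnd ℂ) w * z0‖ := by
            apply le_of_sq_le_sq _ (norm_nonneg _)
            rw [Bergman.normSq_identity]
            have h2 : 0 ≤ 1 - ‖w‖ ^ 2 := by nlinarith [norm_nonneg w]
            have h3 : 0 ≤ 1 - ‖z0‖ ^ 2 := by nlinarith [norm_nonneg z0]
            nlinarith [mul_nonneg h2 h3]
          have hyκ : 1 - ‖w‖ ≤ ‖1 - (starRingEnd ℂ) w * z0‖ := by
            have h3 := norm_sub_norm_le (1 : ℂ) ((starRingEnd ℂ) w * z0)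
            have h4 : ‖(starRingEnd ℂ) w * z0‖ ≤ ‖w‖ := by
              rw [norm_mul, RCLike.norm_conj]
              nlinarith [norm_nonneg z0, norm_nonneg w]
            rw [norm_one] at h3
            linarith
          have hκD : ‖1 - (starRingEnd ℂ) w * z0‖ ≤ 2 * (D z0 * (1 + ‖w - z0‖ / D z0)) := by
            have h2 : D z0 * (1 + ‖w - z0‖ / D z0) = D z0 + ‖w - z0‖ := by
              field_simp
            rw [h2]
            have h3 : (1 : ℂ) - (starRingEnd ℂ) w * z0 =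
                ((1 - ‖z0‖ ^ 2 : ℝ) : ℂ) - (starRingEnd ℂ) (w - z0) * z0 := by
              push_cast
              rw [map_sub, sub_mul, ← Complex.mul_conj' z0]
              ring
            have h4 := hD.one_sub_le z0
            calc ‖1 - (starRingEnd ℂ) w * z0‖ ≤
                ‖((1 - ‖z0‖ ^ 2 : ℝ) : ℂ)‖ + ‖(starRingEnd ℂ) (w - z0) * z0‖ := by
                  rw [h3]; exact norm_sub_le _ _
              _ = (1 - ‖z0‖ ^ 2) + ‖w - z0‖ * ‖z0‖ := by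
                  rw [Complex.norm_real, Real.norm_of_nonneg (by nlinarith [norm_nonneg z0]),
                    norm_mul, RCLike.norm_conj]
              _ ≤ 2 * (D z0 + ‖w - z0‖) := by
                  nlinarith [norm_nonneg z0, norm_nonneg (w - z0),
                    mul_nonneg (norm_nonneg (w - z0)) (sub_nonneg.2 hz0.le)]
          have hratio := hP.ratio z0 w hz0 hw'
          rw [norm_sub_rev z0 w] at hratio
          have hpw := pointwise (B := B) (a := ‖w - z0‖) (κ := ‖1 - (starRingEnd ℂ) w * z0‖)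
            (D := D z0) (Dw := D w) (y := 1 - ‖w‖) (H := ‖h z0‖) (Hw := ‖h w‖)
            (g := ‖φt w - q z0 w‖) (k := k) (l := l) hl hB0 (norm_nonneg _) haκ hyκ hκ hDz
            (hD.pos w hw') (by linarith) (hD.one_sub_le w) hκD
            (norm_pos_iff.2 (hP.ne z0 hz0.le)) (norm_pos_iff.2 (hP.ne w hw'.le)) hratio (by
              have := hφs z0 w hz0 hw'
              simp only [hq]
              rwa [← sub_sub])
          refine le_trans ?_ hpw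
          rw [norm_mul, norm_mul, norm_inv, norm_pow]
          have h5 : ‖GG w‖ ≤ (2 * (1 - ‖w‖)) ^ k * (‖φt w - q z0 w‖ / ‖h w‖) := by
            refine (hGG w hw).trans ?_
            simp only [hg]
            rw [norm_mul, norm_div]
            have := hWb w hw
            gcongr
          gcongr
      _ = B ^ 2 * 4 ^ (k + 1) * D z0 ^ (2 - l) *
            ∫ w in ball (0 : ℂ) 1, (‖1 - (starRingEnd ℂ) w * z0‖ ^ 3)⁻¹ := integral_const_mul _ _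
      _ ≤ B ^ 2 * 4 ^ (k + 1) * D z0 ^ (2 - l) * (K0 / (1 - ‖z0‖)) := by
          have := (hK0 z0 hz0).2
          gcongr
  have hone : 0 < 1 - ‖z0‖ := by linarith
  have hDz : 0 < D z0 := hD.pos z0 hz0
  have hH0 : 0 < ‖h z0‖ := norm_pos_iff.2 (hP.ne z0 hz0.le)
  have hc0n : ‖c0‖ = (k + 1) / Real.pi := by
    rw [hc0, norm_div, Complex.norm_real, Real.norm_of_nonneg Real.pi_pos.le]
    congr 1
    have : ((k : ℂ) + 1) = ((k + 1 : ℕ) : ℂ) := by push_cast; ring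
    rw [this, Complex.norm_natCast]
    push_cast
    ring
  have hπ0 : (0 : ℝ) < (k + 1) / Real.pi := by have := Real.pi_pos; positivity
  have hbase : ∀ l : ℕ, l ≤ 2 → ∀ GG : ℂ → ℂ, (∀ w ∈ ball (0 : ℂ) 1, ‖GG w‖ ≤ ‖g z0 w‖) →
      ∀ a : ℝ, 0 ≤ a → a ≤ (k + 2) * (k + 3) → ‖h z0‖ * (‖c0‖ * (a * ‖Q (k + 2 + l) GG z0‖)) *
        (1 - ‖z0‖) ≤ C0 * D z0 ^ (2 - l) := by
    intro l hl GG hGG a ha0 ha
    have h1 := hmain l hl GG hGG
    have h2 : ‖h z0‖ * ‖Q (k + 2 + l) GG z0‖ * (1 - ‖z0‖) ≤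
        B ^ 2 * 4 ^ (k + 1) * D z0 ^ (2 - l) * K0 := by
      calc ‖h z0‖ * ‖Q (k + 2 + l) GG z0‖ * (1 - ‖z0‖)
          ≤ B ^ 2 * 4 ^ (k + 1) * D z0 ^ (2 - l) * (K0 / (1 - ‖z0‖)) * (1 - ‖z0‖) := by gcongr
        _ = B ^ 2 * 4 ^ (k + 1) * D z0 ^ (2 - l) * K0 := by field_simp
    calc ‖h z0‖ * (‖c0‖ * (a * ‖Q (k + 2 + l) GG z0‖)) * (1 - ‖z0‖)
        = ‖c0‖ * a * (‖h z0‖ * ‖Q (k + 2 + l) GG z0‖ * (1 - ‖z0‖)) := by ring
      _ ≤ ((k + 1) / Real.pi) * ((k + 2) * (k + 3)) *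
            (B ^ 2 * 4 ^ (k + 1) * D z0 ^ (2 - l) * K0) := by
          rw [hc0n]
          gcongr
      _ = C0 * D z0 ^ (2 - l) := by rw [hC0]; ring
  have hb0 : ‖h z0‖ * ‖P0 z0‖ * (1 - ‖z0‖) ≤ C0 * D z0 ^ 2 := by
    have h1 := hbase 0 (by norm_num) (g z0) (fun w _ => le_rfl) 1 zero_le_one
      (by have : (0 : ℝ) ≤ k := Nat.cast_nonneg k
          nlinarith)
    rw [one_mul, add_zero] at h1
    simp only [hP0]
    rw [norm_mul]
    exact h1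
  have hb1 : ‖h z0‖ * ‖P1 z0‖ * (1 - ‖z0‖) ≤ C0 * D z0 := by
    have h1 := hbase 1 (by norm_num) G1 hG1b' (k + 2) (by positivity)
      (by have : (0 : ℝ) ≤ k := Nat.cast_nonneg k
          nlinarith)
    simp only [hP1]
    rw [norm_mul, norm_mul, Complex.norm_natCast]
    have e : (2 : ℕ) - 1 = 1 := rfl
    rw [e, pow_one] at h1
    push_cast
    exact h1
  have hb2 : ‖h z0‖ * ‖P2 z0‖ * (1 - ‖z0‖) ≤ C0 := by
    have h1 := hbase 2 (by norm_num) G2 hG2b' ((k + 2) * (k + 3)) (by positivity) le_rfl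
    simp only [hP2]
    rw [norm_mul, norm_mul, norm_mul, Complex.norm_natCast, Complex.norm_natCast]
    rw [Nat.sub_self, pow_zero, mul_one] at h1
    push_cast
    rw [← mul_assoc ((k : ℝ) + 2)]
    exact h1
  -- derivatives
  have hder : ∀ z : ℂ, ‖z‖ < 1 →
      HasDerivAt f (s z0 + (deriv h z * P0 z + h z * P1 z)) z := by
    intro z hz
    have h1 : HasDerivAt (fun z => q z0 z + h z * P0 z)
        (s z0 + (deriv h z * P0 z + h z * P1 z)) z := by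
      have h2 : HasDerivAt (fun z => q z0 z) (s z0) z := by
        simp only [hq]
        simpa using (((hasDerivAt_id z).sub_const z0).const_mul (s z0)).const_add (φt z0)
      exact h2.add ((hhd z hz).hasDerivAt.mul (hd0 z hz))
    refine h1.congr_of_eventuallyEq ?_
    filter_upwards [isOpen_ball.mem_nhds (show z ∈ ball (0 : ℂ) 1 by
      rwa [mem_ball_zero_iff])] with x hx
    rw [mem_ball_zero_iff] at hx
    exact hrep z0 hz0 x hx
  have hdf0 : deriv f z0 = s z0 + (deriv h z0 * P0 z0 + h z0 * P1 z0) := (hder z0 hz0).deriv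
  have hddf0 : deriv (deriv f) z0 = (deriv (deriv h) z0 * P0 z0 + deriv h z0 * P1 z0) +
      (deriv h z0 * P1 z0 + h z0 * P2 z0) := by
    have h1 : HasDerivAt (fun z => s z0 + (deriv h z * P0 z + h z * P1 z))
        ((deriv (deriv h) z0 * P0 z0 + deriv h z0 * P1 z0) +
          (deriv h z0 * P1 z0 + h z0 * P2 z0)) z0 :=
      (((hh'd z0 hz0).hasDerivAt.mul (hd0 z0 hz0)).add
        ((hhd z0 hz0).hasDerivAt.mul (hd1 z0 hz0))).const_add (s z0)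
    have h2 : HasDerivAt (deriv f) ((deriv (deriv h) z0 * P0 z0 + deriv h z0 * P1 z0) +
        (deriv h z0 * P1 z0 + h z0 * P2 z0)) z0 := by
      refine h1.congr_of_eventuallyEq ?_
      filter_upwards [isOpen_ball.mem_nhds (show z0 ∈ ball (0 : ℂ) 1 by
        rwa [mem_ball_zero_iff])] with x hx
      rw [mem_ball_zero_iff] at hx
      exact (hder x hx).deriv
    exact h2.deriv
  have e1 := hP.d1 z0 hz0
  have e2 := hP.d2 z0 hz0
  -- products with derivatives of `h`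
  have hp10 : ‖deriv h z0‖ * ‖P0 z0‖ * (1 - ‖z0‖) ≤ B * C0 * D z0 := by
    have h1 : (‖deriv h z0‖ * ‖P0 z0‖ * (1 - ‖z0‖)) * D z0 ≤ (B * C0 * D z0) * D z0 := by
      calc (‖deriv h z0‖ * ‖P0 z0‖ * (1 - ‖z0‖)) * D z0
          = (‖deriv h z0‖ * D z0) * (‖P0 z0‖ * (1 - ‖z0‖)) := by ring
        _ ≤ (B * ‖h z0‖) * (‖P0 z0‖ * (1 - ‖z0‖)) := by gcongr
        _ = B * (‖h z0‖ * ‖P0 z0‖ * (1 - ‖z0‖)) := by ring
        _ ≤ B * (C0 * D z0 ^ 2) := by gcongr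
        _ = (B * C0 * D z0) * D z0 := by ring
    exact le_of_mul_le_mul_right h1 hDz
  have hp11 : ‖deriv h z0‖ * ‖P1 z0‖ * (1 - ‖z0‖) ≤ B * C0 := by
    have h1 : (‖deriv h z0‖ * ‖P1 z0‖ * (1 - ‖z0‖)) * D z0 ≤ (B * C0) * D z0 := by
      calc (‖deriv h z0‖ * ‖P1 z0‖ * (1 - ‖z0‖)) * D z0
          = (‖deriv h z0‖ * D z0) * (‖P1 z0‖ * (1 - ‖z0‖)) := by ring
        _ ≤ (B * ‖h z0‖) * (‖P1 z0‖ * (1 - ‖z0‖)) := by gcongr
        _ = B * (‖h z0‖ * ‖P1 z0‖ * (1 - ‖z0‖)) := by ring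
        _ ≤ B * (C0 * D z0) := by gcongr
        _ = (B * C0) * D z0 := by ring
    exact le_of_mul_le_mul_right h1 hDz
  have hp20 : ‖deriv (deriv h) z0‖ * ‖P0 z0‖ * (1 - ‖z0‖) ≤ B * C0 := by
    have h1 : (‖deriv (deriv h) z0‖ * ‖P0 z0‖ * (1 - ‖z0‖)) * D z0 ^ 2 ≤
        (B * C0) * D z0 ^ 2 := by
      calc (‖deriv (deriv h) z0‖ * ‖P0 z0‖ * (1 - ‖z0‖)) * D z0 ^ 2
          = (‖deriv (deriv h) z0‖ * D z0 ^ 2) * (‖P0 z0‖ * (1 - ‖z0‖)) := by ring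
        _ ≤ (B * ‖h z0‖) * (‖P0 z0‖ * (1 - ‖z0‖)) := by gcongr
        _ = B * (‖h z0‖ * ‖P0 z0‖ * (1 - ‖z0‖)) := by ring
        _ ≤ B * (C0 * D z0 ^ 2) := by gcongr
        _ = (B * C0) * D z0 ^ 2 := by ring
    exact le_of_mul_le_mul_right h1 (by positivity)
  refine ⟨?_, ?_, ?_⟩
  · have h1 : f z0 - φt z0 = h z0 * P0 z0 := by
      rw [hrep z0 hz0 z0 hz0]
      simp only [hq, hP0]
      ring
    rw [h1, norm_mul]
    calc ‖h z0‖ * ‖P0 z0‖ * (1 - ‖z0‖) ≤ C0 * D z0 ^ 2 := hb0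
      _ ≤ (3 * B + 1) * C0 * D z0 ^ 2 := by
          have : 0 ≤ C0 * D z0 ^ 2 := by positivity
          nlinarith
  · have h1 : deriv f z0 - s z0 = deriv h z0 * P0 z0 + h z0 * P1 z0 := by
      rw [hdf0]; ring
    rw [h1]
    calc ‖deriv h z0 * P0 z0 + h z0 * P1 z0‖ * (1 - ‖z0‖)
        ≤ (‖deriv h z0‖ * ‖P0 z0‖ + ‖h z0‖ * ‖P1 z0‖) * (1 - ‖z0‖) := by
          gcongr
          exact norm_add_mul_le _ _ _ _
      _ = ‖deriv h z0‖ * ‖P0 z0‖ * (1 - ‖z0‖) + ‖h z0‖ * ‖P1 z0‖ * (1 - ‖z0‖) := by ring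
      _ ≤ B * C0 * D z0 + C0 * D z0 := add_le_add hp10 hb1
      _ ≤ (3 * B + 1) * C0 * D z0 := by
          have : 0 ≤ C0 * D z0 := by positivity
          nlinarith
  · rw [hddf0]
    calc ‖(deriv (deriv h) z0 * P0 z0 + deriv h z0 * P1 z0) +
          (deriv h z0 * P1 z0 + h z0 * P2 z0)‖ * (1 - ‖z0‖)
        ≤ ((‖deriv (deriv h) z0‖ * ‖P0 z0‖ + ‖deriv h z0‖ * ‖P1 z0‖) +
          (‖deriv h z0‖ * ‖P1 z0‖ + ‖h z0‖ * ‖P2 z0‖)) * (1 - ‖z0‖) := by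
          gcongr
          exact (norm_add_le _ _).trans
            (add_le_add (norm_add_mul_le _ _ _ _) (norm_add_mul_le _ _ _ _))
      _ = (‖deriv (deriv h) z0‖ * ‖P0 z0‖ * (1 - ‖z0‖) + ‖deriv h z0‖ * ‖P1 z0‖ * (1 - ‖z0‖)) +
          (‖deriv h z0‖ * ‖P1 z0‖ * (1 - ‖z0‖) + ‖h z0‖ * ‖P2 z0‖ * (1 - ‖z0‖)) := by ring
      _ ≤ (B * C0 + B * C0) + (B * C0 + C0) :=
          add_le_add (add_le_add hp20 hp11) (add_le_add hp11 hb2)
      _ = (3 * B + 1) * C0 := by ring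

end Pool.Agent.H82.Zyg
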