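import Mathlib
import Pool.Agent.H82.Zyg.StepB
import Pool.Agent.H82.Zyg.Limit
import Pool.Agent.H82.Zyg.StepC
import Pool.Agent.H85.ZI.Inner
import Pool.Agent.H82.Zyg.BSlope

/-!
# Assembly of the sufficiency for finite sets
-/

namespace Pool.Agent.H82.Zyg

open Complex Metric Set

lemma Peak.mono {B B' : ℝ} {k : ℕ} {D : ℂ → ℝ} {h : ℂ → ℂ} (hP : Peak B k D h)
    (hD : DistLike D) (hB : B ≤ B') : Peak B' k D h where
  diff := hP.diff
  ne := hP.ne
  d1 z hz := (hP.d1 z hz).trans (by gcongr)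
  d2 z hz := (hP.d2 z hz).trans (by gcongr)
  ratio z w hz hw := (hP.ratio z w hz hw).trans (by
    have := hD.pos w hw
    gcongr)

lemma one_le_lft {x y z : ℂ} (hz : ‖z‖ ≤ 1) (hx : ‖x‖ ≤ 1) (hxy : x ≠ y)
    (h : ‖x - y‖ ≤ ‖x - z‖) : 1 ≤ lft x y z := by
  have h0 : 0 < ‖x - y‖ := norm_pos_iff.mpr (sub_ne_zero.mpr hxy)
  have h1 : 0 < ‖x - z‖ := h0.trans_le h
  have h2 : 0 ≤ Real.log (‖x - z‖ / ‖x - y‖) := Real.log_nonneg (by rwa [one_le_div h0])
  have h3 : ‖x - z‖ ≤ 2 := by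
    have := norm_sub_le x z
    linarith
  have h4 : 0 ≤ Real.log (4 / ‖x - z‖) := Real.log_nonneg (by rw [one_le_div h1]; linarith)
  have h5 : 0 ≤ sinAng x y z := by unfold sinAng; positivity
  unfold lft
  have := mul_nonneg h5 h4
  linarith

/-- The separation consequence of the three point condition, when the shortest side is given. -/
lemma sep_aux {C : ℝ} {X : Set ℂ} (hX1 : ∀ x ∈ X, ‖x‖ < 1) (hT : TCond C X) {a b d : ℂ}
    (ha : a ∈ X) (hb : b ∈ X) (hd : d ∈ X) (hab : a ≠ b) (h1 : ‖a - b‖ ≤ ‖a - d‖)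
    (h2 : ‖a - b‖ ≤ ‖b - d‖) : 1 - ‖a‖ ≤ (1 + |C|) * ‖a - d‖ := by
  rcases le_or_gt (1 - ‖a‖) ‖a - d‖ with h | h
  · have : 0 ≤ |C| * ‖a - d‖ := by positivity
    linarith
  · have h3 := hT a ha b hb d hd hab h1 h2
    have h4 := one_le_lft (hX1 d hd).le (hX1 a ha).le hab h1
    have h5 : kap a b d = ‖a - d‖ / (1 - ‖a‖) := by
      unfold kap
      rw [max_eq_right h.le, max_eq_right (h1.trans h.le), div_self, Real.log_one, add_zero,
        mul_one]
      have := hX1 a ha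
      linarith
    rw [h5] at h3
    have h6 : 1 ≤ C * (‖a - d‖ / (1 - ‖a‖)) := h4.trans h3
    have ha1 := hX1 a ha
    have h7 : 0 < 1 - ‖a‖ := by linarith
    have h8 : 1 - ‖a‖ ≤ C * ‖a - d‖ := by
      have : C * (‖a - d‖ / (1 - ‖a‖)) = C * ‖a - d‖ / (1 - ‖a‖) := by ring
      rw [this, le_div_iff₀ h7] at h6
      linarith
    have h9 : C * ‖a - d‖ ≤ |C| * ‖a - d‖ := by
      gcongr
      exact le_abs_self C
    have := norm_nonneg (a - d)
    linarith

lemma sep {C : ℝ} {X : Set ℂ} (hX1 : ∀ x ∈ X, ‖x‖ < 1) (hT : TCond C X) {x y z : ℂ}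
    (hx : x ∈ X) (hy : y ∈ X) (hz : z ∈ X) (hxy : x ≠ y) (hyz : y ≠ z) (hxz : x ≠ z) :
    1 - ‖x‖ ≤ (3 + 2 * |C|) * max ‖x - y‖ ‖x - z‖ := by
  set M := max ‖x - y‖ ‖x - z‖ with hM
  have m1 : ‖x - y‖ ≤ M := le_max_left _ _
  have m2 : ‖x - z‖ ≤ M := le_max_right _ _
  have m3 : ‖y - z‖ ≤ 2 * M := by
    have := norm_sub_le_norm_sub_add_norm_sub y x z
    rw [norm_sub_rev y x] at this
    linarith
  have hM0 : 0 ≤ M := (norm_nonneg _).trans m1
  -- reduce to a vertex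
  have key : ∀ a b d, a ∈ X → b ∈ X → d ∈ X → a ≠ b → ‖a - b‖ ≤ ‖a - d‖ → ‖a - b‖ ≤ ‖b - d‖ →
      ‖x - a‖ ≤ M → ‖a - d‖ ≤ 2 * M → 1 - ‖x‖ ≤ (3 + 2 * |C|) * M := by
    intro a b d ha hb hd hab h1 h2 h3 h4
    have h5 := sep_aux hX1 hT ha hb hd hab h1 h2
    have h6 : ‖a‖ ≤ ‖x‖ + ‖x - a‖ := by
      have := norm_sub_norm_le a x
      rw [norm_sub_rev a x] at this
      linarith
    have h7 : (1 + |C|) * ‖a - d‖ ≤ (1 + |C|) * (2 * M) := by gcongr
    linarith
  rcases le_total ‖x - y‖ ‖x - z‖ with h | h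
  · rcases le_total ‖x - y‖ ‖y - z‖ with h' | h'
    · exact key x y z hx hy hz hxy h h' (by simpa using hM0) (by linarith)
    · -- shortest is yz
      exact key y z x hy hz hx hyz (by rw [norm_sub_rev y x]; exact h')
        (by rw [norm_sub_rev z x]; linarith) m1 (by rw [norm_sub_rev]; linarith)
  · rcases le_total ‖x - z‖ ‖y - z‖ with h' | h'
    · exact key x z y hx hz hy hxz h (by rw [norm_sub_rev z y]; exact h')
        (by simpa using hM0) (by linarith)
    · exact key y z x hy hz hx hyz (by rw [norm_sub_rev y x]; linarith)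
        (by rw [norm_sub_rev z x]; exact h') m1 (by rw [norm_sub_rev]; linarith)

/-- Second order Taylor bound at an interior point. -/
lemma taylor_near {f : ℂ → ℂ} {K : ℝ} (hK : 0 ≤ K) (hf : DifferentiableOn ℂ f (ball 0 1))
    (h2 : ∀ z : ℂ, ‖z‖ < 1 → ‖deriv (deriv f) z‖ * (1 - ‖z‖) ≤ K) {x y : ℂ} (hx : ‖x‖ < 1)
    (hxy : ‖x - y‖ ≤ (1 - ‖x‖) / 2) : ‖f x - f y - deriv f x * (x - y)‖ ≤ K * ‖x - y‖ := by
  set η := 1 - ‖x‖ with hη
  have hη0 : 0 < η := by linarith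
  have hball : ∀ w ∈ closedBall x (η / 2), ‖w‖ < 1 ∧ η / 2 ≤ 1 - ‖w‖ := by
    intro w hw
    rw [mem_closedBall, dist_eq_norm] at hw
    have := norm_sub_norm_le w x
    constructor <;> linarith
  have hd1 : ∀ w : ℂ, ‖w‖ < 1 → DifferentiableAt ℂ f w := fun w hw =>
    hf.differentiableAt (isOpen_ball.mem_nhds (by rwa [mem_ball_zero_iff]))
  have hdd : DifferentiableOn ℂ (deriv f) (ball 0 1) := hf.deriv isOpen_ball
  have hd2 : ∀ w : ℂ, ‖w‖ < 1 → DifferentiableAt ℂ (deriv f) w := fun w hw =>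
    hdd.differentiableAt (isOpen_ball.mem_nhds (by rwa [mem_ball_zero_iff]))
  have hyb : y ∈ closedBall x (η / 2) := by
    rw [mem_closedBall, dist_eq_norm, norm_sub_rev]; exact hxy
  -- the derivative is Lipschitz near x
  have hlip : ∀ w ∈ closedBall x (η / 2), ‖deriv f w - deriv f x‖ ≤ 2 * K / η * ‖w - x‖ := by
    intro w hw
    refine (convex_closedBall x (η / 2)).norm_image_sub_le_of_norm_deriv_le
      (fun v hv => hd2 v (hball v hv).1) (fun v hv => ?_) (mem_closedBall_self (by linarith)) hw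
    obtain ⟨e1, e2⟩ := hball v hv
    have e3 := h2 v e1
    rw [le_div_iff₀ hη0]
    have : ‖deriv (deriv f) v‖ * (η / 2) ≤ ‖deriv (deriv f) v‖ * (1 - ‖v‖) := by gcongr
    linarith
  -- g w = f w - f x - f'(x) (w - x)
  have hg : ‖(f y - deriv f x * y) - (f x - deriv f x * x)‖ ≤ K * ‖y - x‖ := by
    refine (convex_closedBall x (η / 2)).norm_image_sub_le_of_norm_deriv_le
      (f := fun w => f w - deriv f x * w) (fun v hv => ?_) (fun v hv => ?_)
      (mem_closedBall_self (by linarith)) hyb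
    · exact (hd1 v (hball v hv).1).fun_sub (by fun_prop)
    · have e1 : deriv (fun w => f w - deriv f x * w) v = deriv f v - deriv f x := by
        have := ((hd1 v (hball v hv).1).hasDerivAt.fun_sub
          ((hasDerivAt_id v).const_mul (deriv f x))).deriv
        simpa using this
      rw [e1]
      refine (hlip v hv).trans ?_
      have e2 : ‖v - x‖ ≤ η / 2 := by
        rw [mem_closedBall, dist_eq_norm] at hv; exact hv
      calc 2 * K / η * ‖v - x‖ ≤ 2 * K / η * (η / 2) := by gcongr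
        _ = K := by field_simp
  have e1 : f x - f y - deriv f x * (x - y) =
      -((f y - deriv f x * y) - (f x - deriv f x * x)) := by ring
  rw [e1, norm_neg, norm_sub_rev x y]
  exact hg

theorem finite_suff (c C : ℝ) (hc : 0 < c) : ∃ K : ℝ, FiniteSuff c C K := by
  obtain ⟨Ks, hKs0, hKs⟩ := slope_lip C
  obtain ⟨Kb, hKb⟩ := step_b_core Ks hKs0
  obtain ⟨B, hB0, hB⟩ := exists_peak c hc
  obtain ⟨Kc, hKc⟩ := step_c (max B (max Kb 0)) 3
  obtain ⟨Kd, hKd⟩ := inner_interp c (3 + 2 * |C|) hc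
  set kb := max Kb 0 with hkb
  have hkb0 : 0 ≤ kb := le_max_right _ _
  have hKbkb : Kb ≤ kb := le_max_left _ _
  set kc := max Kc 0 with hkc
  have hkc0 : 0 ≤ kc := le_max_right _ _
  have hKckc : Kc ≤ kc := le_max_left _ _
  set kd := max Kd 0 with hkd
  have hkd0 : 0 ≤ kd := le_max_right _ _
  have hKdkd : Kd ≤ kd := le_max_left _ _
  set A : ℝ := 5 * (kb + kc) + 1 with hA
  have hA0 : 0 < A := by positivity
  refine ⟨kb + 9 * kc + A * kd, ?_⟩
  intro X hX1 hK hT hP φ hφc hφz hφ1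
  rcases X.eq_empty_or_nonempty with hXe | hX
  · subst hXe
    refine ⟨fun _ => 0, by fun_prop, fun z hz => ?_, ?_, ?_, by simp⟩
    · rw [mem_ball_zero_iff] at hz
      have : 0 < 1 - ‖z‖ := by linarith
      simp
      positivity
    · simp; positivity
    · simp; positivity
  have hX' : (X : Set ℂ).Nonempty := by simpa using hX
  have hX1' : ∀ x ∈ (X : Set ℂ), ‖x‖ < 1 := fun x hx => hX1 x (by simpa using hx)
  have hDL : DistLike (Dz X) := distLike_Dz hX' fun x hx => (hX1' x hx).le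
  obtain ⟨hs1, hs2⟩ := hKs X hX1' hT hP φ hφz hφ1
  obtain ⟨φt, s, hb1, hb2, hb3, hb4, hb5, hb6⟩ := hKb X hX hX1 φ hφ1
    (fun x hx y hy x' hx' y' hy' => hs1 x (by simpa using hx) y (by simpa using hy) x'
      (by simpa using hx') y' (by simpa using hy'))
    (fun x hx y hy => hs2 x (by simpa using hx) y (by simpa using hy))
  obtain ⟨h, hh⟩ := hB X hX hX1 hK
  obtain ⟨f0, hf0, hf0'⟩ := hKc (Dz X) h φt s hDL (hh.mono hDL (le_max_left _ _))
    hb1.continuousOn ⟨Kb, hb2⟩ (by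
      intro z w hz hw
      refine (hb3 z w hz hw).trans ?_
      have : 0 ≤ ‖w - z‖ * (1 + ‖w - z‖ / Dz X z) := by
        have := hDL.pos z hz
        positivity
      have h2 : Kb ≤ max B (max Kb 0) := (le_max_left _ _).trans (le_max_right _ _)
      exact mul_le_mul_of_nonneg_right h2 this)
  -- at the points of X
  have hDx : ∀ x ∈ X, Dz X x = 1 - ‖x‖ := by
    intro x hx
    unfold Dz
    rw [infDist_zero_of_mem (by simpa using hx), zero_add]
  have hx0 : ∀ x ∈ X, ‖f0 x - φ x‖ ≤ (kb + kc) * (1 - ‖x‖) := by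
    intro x hx
    have e0 : 0 < 1 - ‖x‖ := by linarith [hX1 x hx]
    have e1 := (hf0' x (hX1 x hx)).1
    rw [hDx x hx] at e1
    have e2 : ‖f0 x - φt x‖ ≤ Kc * (1 - ‖x‖) := by
      have : ‖f0 x - φt x‖ * (1 - ‖x‖) ≤ (Kc * (1 - ‖x‖)) * (1 - ‖x‖) := by
        rw [mul_assoc, ← pow_two]; exact e1
      exact le_of_mul_le_mul_right this e0
    have e3 := hb4 x hx
    calc ‖f0 x - φ x‖ ≤ ‖f0 x - φt x‖ + ‖φt x - φ x‖ := norm_sub_le_norm_sub_add_norm_sub _ _ _
      _ ≤ Kc * (1 - ‖x‖) + Kb * (1 - ‖x‖) := add_le_add e2 e3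
      _ ≤ kc * (1 - ‖x‖) + kb * (1 - ‖x‖) := by gcongr
      _ = _ := by ring
  have hx1 : ∀ x ∈ X, ‖deriv f0 x - s x‖ ≤ kc := by
    intro x hx
    have e0 : 0 < 1 - ‖x‖ := by linarith [hX1 x hx]
    have e1 := (hf0' x (hX1 x hx)).2.1
    rw [hDx x hx] at e1
    exact (le_of_mul_le_mul_right e1 e0).trans hKckc
  have hf2 : ∀ z : ℂ, ‖z‖ < 1 → ‖deriv (deriv f0) z‖ * (1 - ‖z‖) ≤ kc := fun z hz =>
    (hf0' z hz).2.2.trans hKckc
  -- the remaining data
  set ψ : ℂ → ℂ := fun x => φ x - f0 x with hψ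
  have hψ1 : ∀ x ∈ X, ‖ψ x‖ ≤ (kb + kc) * (1 - ‖x‖) := by
    intro x hx
    simp only [hψ]
    rw [norm_sub_rev]
    exact hx0 x hx
  have hψ2 : ∀ x ∈ X, ∀ y ∈ X, ‖ψ x - ψ y‖ ≤ A * ‖x - y‖ := by
    intro x hx y hy
    rcases eq_or_ne x y with rfl | hne
    · simp
    have hxy0 : 0 < ‖x - y‖ := norm_pos_iff.mpr (sub_ne_zero.mpr hne)
    have e0 : 0 < 1 - ‖x‖ := by linarith [hX1 x hx]
    rcases le_or_gt ‖x - y‖ ((1 - ‖x‖) / 2) with hnear | hfar
    · have t1 := taylor_near hkc0 hf0 hf2 (hX1 x hx) hnear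
      have t2 := hx1 x hx
      have t3 := hb5 x hx y hy hne (by linarith)
      have t4 : ‖(φ x - φ y) - s x * (x - y)‖ ≤ kb * ‖x - y‖ := by
        have e1 : (φ x - φ y) - s x * (x - y) = -((s x - (φ x - φ y) / (x - y)) * (x - y)) := by
          have : x - y ≠ 0 := sub_ne_zero.mpr hne
          field_simp
          ring
        rw [e1, norm_neg, norm_mul]
        gcongr
        exact t3.trans hKbkb
      have e2 : ψ x - ψ y = ((φ x - φ y) - s x * (x - y)) - (f0 x - f0 y - deriv f0 x * (x - y)) -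
          (deriv f0 x - s x) * (x - y) := by
        simp only [hψ]; ring
      rw [e2]
      refine (norm_sub_le _ _).trans ((add_le_add (norm_sub_le _ _) le_rfl).trans ?_)
      rw [norm_mul]
      have e3 : ‖deriv f0 x - s x‖ * ‖x - y‖ ≤ kc * ‖x - y‖ := by gcongr
      have e4 : (kb + 2 * kc) * ‖x - y‖ ≤ A * ‖x - y‖ := by
        gcongr
        rw [hA]; linarith
      linarith
    · have e1 := hψ1 x hx
      have e2 := hψ1 y hy
      have e3 : 1 - ‖y‖ ≤ (1 - ‖x‖) + ‖x - y‖ := by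
        have := norm_sub_norm_le x y
        linarith
      have e4 : (kb + kc) * (1 - ‖x‖) + (kb + kc) * (1 - ‖y‖) ≤ A * ‖x - y‖ := by
        have e5 : (kb + kc) * (1 - ‖x‖) + (kb + kc) * (1 - ‖y‖) ≤
            (kb + kc) * (2 * ‖x - y‖) + (kb + kc) * (3 * ‖x - y‖) := by
          gcongr <;> linarith
        rw [hA]
        linarith
      exact (norm_sub_le _ _).trans ((add_le_add e1 e2).trans e4)
  obtain ⟨f1, hf1, hf1a, hf1b, hf1c, hf1d⟩ := hKd X hX1 hK
    (fun x hx y hy z hz hxy hyz hxz => sep hX1' hT (by simpa using hx) (by simpa using hy)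
      (by simpa using hz) hxy hyz hxz) (fun x => (A : ℂ)⁻¹ * ψ x) (by
      intro x hx
      have e0 : 0 < 1 - ‖x‖ := by linarith [hX1 x hx]
      have e1 := hψ1 x hx
      rw [norm_mul, norm_inv, Complex.norm_real, Real.norm_eq_abs, abs_of_pos hA0,
        inv_mul_le_iff₀ hA0]
      refine e1.trans ?_
      gcongr
      rw [hA]; linarith) (by
      intro x hx y hy
      rw [← mul_sub, norm_mul, norm_inv, Complex.norm_real, Real.norm_eq_abs, abs_of_pos hA0,
        inv_mul_le_iff₀ hA0]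
      exact hψ2 x hx y hy)
  have hAc : (A : ℂ) ≠ 0 := by exact_mod_cast hA0.ne'
  have hmem : ∀ z ∈ ball (0 : ℂ) 1, ball (0 : ℂ) 1 ∈ nhds z := fun z hz => isOpen_ball.mem_nhds hz
  have hder : ∀ z ∈ ball (0 : ℂ) 1, deriv (fun z => f0 z + A * f1 z) z =
      deriv f0 z + A * deriv f1 z := by
    intro z hz
    exact ((hf0.differentiableAt (hmem z hz)).hasDerivAt.fun_add
      ((hf1.differentiableAt (hmem z hz)).hasDerivAt.const_mul (A : ℂ))).deriv
  have hder2 : ∀ z ∈ ball (0 : ℂ) 1, deriv (deriv (fun z => f0 z + A * f1 z)) z =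
      deriv (deriv f0) z + A * deriv (deriv f1) z := by
    intro z hz
    have e1 : deriv (fun z => f0 z + A * f1 z) =ᶠ[nhds z] fun z => deriv f0 z + A * deriv f1 z := by
      filter_upwards [hmem z hz] with w hw
      exact hder w hw
    rw [e1.deriv_eq]
    exact (((hf0.deriv isOpen_ball).differentiableAt (hmem z hz)).hasDerivAt.fun_add
      (((hf1.deriv isOpen_ball).differentiableAt (hmem z hz)).hasDerivAt.const_mul (A : ℂ))).deriv
  have h0m : (0 : ℂ) ∈ ball (0 : ℂ) 1 := by simp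
  have hD0 : Dz X 0 ≤ 3 := hDL.le_three 0 (by simp)
  have hD0p : 0 < Dz X 0 := hDL.pos 0 (by simp)
  refine ⟨fun z => f0 z + A * f1 z, ?_, ?_, ?_, ?_, ?_⟩
  · exact hf0.fun_add (hf1.const_mul _)
  · intro z hz
    rw [hder2 z hz]
    have hz1 : ‖z‖ < 1 := by rwa [mem_ball_zero_iff] at hz
    have e0 : 0 < 1 - ‖z‖ := by linarith
    have e1 := hf2 z hz1
    have e2 := hf1a z hz
    rw [le_div_iff₀ e0] at e2 ⊢
    have e3 : ‖deriv (deriv f0) z + A * deriv (deriv f1) z‖ ≤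
        ‖deriv (deriv f0) z‖ + A * ‖deriv (deriv f1) z‖ := by
      refine (norm_add_le _ _).trans (le_of_eq ?_)
      rw [norm_mul, Complex.norm_real, Real.norm_eq_abs, abs_of_pos hA0]
    calc _ ≤ (‖deriv (deriv f0) z‖ + A * ‖deriv (deriv f1) z‖) * (1 - ‖z‖) := by gcongr
      _ = ‖deriv (deriv f0) z‖ * (1 - ‖z‖) + A * (‖deriv (deriv f1) z‖ * (1 - ‖z‖)) := by ring
      _ ≤ kc + A * kd := by
        gcongr
        exact e2.trans hKdkd
      _ ≤ _ := by linarith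
  · have e1 := (hf0' 0 (by simp)).1
    rw [norm_zero, sub_zero, mul_one] at e1
    have e2 := hb2 0 (by simp)
    have e3 : ‖f0 0‖ ≤ ‖f0 0 - φt 0‖ + ‖φt 0‖ := by
      have := norm_add_le (f0 0 - φt 0) (φt 0)
      simpa using this
    have e4 : Kc * Dz X 0 ^ 2 ≤ kc * 3 ^ 2 := by gcongr
    have e5 : ‖(A : ℂ) * f1 0‖ ≤ A * kd := by
      rw [norm_mul, Complex.norm_real, Real.norm_eq_abs, abs_of_pos hA0]
      gcongr
      exact hf1b.trans hKdkd
    have := norm_add_le (f0 0) (A * f1 0)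
    linarith
  · rw [hder 0 h0m]
    have e1 := (hf0' 0 (by simp)).2.1
    rw [norm_zero, sub_zero, mul_one] at e1
    have e3 : ‖deriv f0 0‖ ≤ ‖deriv f0 0 - s 0‖ + ‖s 0‖ := by
      have := norm_add_le (deriv f0 0 - s 0) (s 0)
      simpa using this
    have e4 : Kc * Dz X 0 ≤ kc * 3 := by gcongr
    have e5 : ‖(A : ℂ) * deriv f1 0‖ ≤ A * kd := by
      rw [norm_mul, Complex.norm_real, Real.norm_eq_abs, abs_of_pos hA0]
      gcongr
      exact hf1c.trans hKdkd
    have := norm_add_le (deriv f0 0) (A * deriv f1 0)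
    linarith
  · intro x hx
    simp only
    rw [hf1d x hx, hψ]
    field_simp
    ring

end Pool.Agent.H82.Zyg
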