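import Mathlib
import Pool.Agent.H82.Zyg.Limit
import Pool.Agent.H82.Zyg.HFun
import Pool.Agent.H85.ZI.Inner

/-!
# MP_425ce8_an: the quantitative statement for finite sets from the steps (b), (c) and (d)
-/

namespace Pool.Agent.H82.Zyg

open Complex Metric Set

/-- The statement of step (b). -/
def StepBStatement (C K : ℝ) : Prop :=
  ∀ X : Finset ℂ, X.Nonempty → (∀ x ∈ X, ‖x‖ < 1) →
    TCond C X → PCond C X → ∀ φ : ℂ → ℂ, Continuous φ →
    (∀ z h, ‖φ (z + h) + φ (z - h) - 2 * φ z‖ ≤ ‖h‖) → (∀ z, ‖z‖ ≤ 8 → ‖φ z‖ ≤ 1) →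
    ∃ φt s : ℂ → ℂ, ContinuousOn φt (ball 0 1) ∧ (∀ z : ℂ, ‖z‖ < 1 → ‖φt z‖ ≤ K) ∧
      (∀ z w : ℂ, ‖z‖ < 1 → ‖w‖ < 1 → ‖φt w - φt z - s z * (w - z)‖ ≤
        K * (‖w - z‖ * (1 + ‖w - z‖ / (infDist z X + (1 - ‖z‖))))) ∧
      (∀ x ∈ X, ‖φt x - φ x‖ ≤ K * (1 - ‖x‖)) ∧
      (∀ x ∈ X, ∀ y ∈ X, x ≠ y → ‖x - y‖ ≤ 1 - ‖x‖ →
        ‖s x - (φ x - φ y) / (x - y)‖ ≤ K) ∧ ‖s 0‖ ≤ K

/-- The statement of step (c). -/
def StepCStatement (B : ℝ) (k : ℕ) (K : ℝ) : Prop :=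
  ∀ (D : ℂ → ℝ) (h φt s : ℂ → ℂ), DistLike D →
    Peak B k D h → ContinuousOn φt (ball 0 1) → (∃ B', ∀ z : ℂ, ‖z‖ < 1 → ‖φt z‖ ≤ B') →
    (∀ z w : ℂ, ‖z‖ < 1 → ‖w‖ < 1 →
      ‖φt w - φt z - s z * (w - z)‖ ≤ B * (‖w - z‖ * (1 + ‖w - z‖ / D z))) →
    ∃ f : ℂ → ℂ, DifferentiableOn ℂ f (ball 0 1) ∧ ∀ z : ℂ, ‖z‖ < 1 →
      ‖f z - φt z‖ * (1 - ‖z‖) ≤ K * D z ^ 2 ∧
      ‖deriv f z - s z‖ * (1 - ‖z‖) ≤ K * D z ∧
      ‖deriv (deriv f) z‖ * (1 - ‖z‖) ≤ K

lemma Peak.mono {B B' : ℝ} {k : ℕ} {D : ℂ → ℝ} {h : ℂ → ℂ} (hD : DistLike D)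
    (hP : Peak B k D h) (hB : B ≤ B') : Peak B' k D h where
  diff := hP.diff
  ne := hP.ne
  d1 z hz := (hP.d1 z hz).trans (by gcongr)
  d2 z hz := (hP.d2 z hz).trans (by gcongr)
  ratio z w hz hw := (hP.ratio z w hz hw).trans (by
    have := hD.pos w hw
    gcongr)

lemma one_le_lft {x y z : ℂ} (hx : ‖x‖ ≤ 1) (hz : ‖z‖ ≤ 1) (hxy : x ≠ y)
    (h : ‖x - y‖ ≤ ‖x - z‖) : 1 ≤ lft x y z := by
  have h0 : 0 < ‖x - y‖ := norm_pos_iff.2 (sub_ne_zero.2 hxy)
  have h1 : 0 ≤ Real.log (‖x - z‖ / ‖x - y‖) :=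
    Real.log_nonneg ((one_le_div h0).2 h)
  have h2 : 0 ≤ sinAng x y z := by unfold sinAng; positivity
  have h3 : 0 ≤ Real.log (4 / ‖x - z‖) := by
    apply Real.log_nonneg
    rw [one_le_div (by linarith)]
    have := norm_sub_le x z
    linarith
  unfold lft
  have := mul_nonneg h2 h3
  linarith

lemma sep_aux {C : ℝ} {X : Set ℂ} (hX1 : ∀ x ∈ X, ‖x‖ ≤ 1) (hT : TCond C X) {x y z : ℂ}
    (hx : x ∈ X) (hy : y ∈ X) (hz : z ∈ X) (hxy : x ≠ y) (h1 : ‖x - y‖ ≤ ‖x - z‖)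
    (h2 : ‖x - y‖ ≤ ‖y - z‖) : 1 - ‖x‖ ≤ (|C| + 1) * ‖x - z‖ := by
  have h0 : 0 < ‖x - y‖ := norm_pos_iff.2 (sub_ne_zero.2 hxy)
  have h3 := hT x hx y hy z hz hxy h1 h2
  have h4 := one_le_lft (hX1 x hx) (hX1 z hz) hxy h1
  have hC := abs_nonneg C
  rcases le_or_gt (1 - ‖x‖) ‖x - z‖ with h | h
  · nlinarith
  · have hη : 0 < 1 - ‖x‖ := by linarith
    have h5 : kap x y z = ‖x - z‖ / (1 - ‖x‖) := by
      unfold kap
      rw [max_eq_right h.le, max_eq_right (by linarith), div_self hη.ne', Real.log_one]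
      ring
    rw [h5] at h3
    have h6 : 1 ≤ |C| * (‖x - z‖ / (1 - ‖x‖)) := by
      refine (h4.trans h3).trans ?_
      have : 0 ≤ ‖x - z‖ / (1 - ‖x‖) := by positivity
      gcongr
      exact le_abs_self C
    rw [← mul_div_assoc, one_le_div hη] at h6
    linarith

/-- The three point condition implies that at most two points of `X` are close. -/
lemma sep_of_tcond {C : ℝ} {X : Set ℂ} (hX1 : ∀ x ∈ X, ‖x‖ ≤ 1) (hT : TCond C X) :
    ∀ x ∈ X, ∀ y ∈ X, ∀ z ∈ X, x ≠ y → y ≠ z → x ≠ z →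
      1 - ‖x‖ ≤ (|C| + 2) * max ‖x - y‖ ‖x - z‖ := by
  intro x hx y hy z hz hxy hyz hxz
  have hC := abs_nonneg C
  have hm1 := le_max_left ‖x - y‖ ‖x - z‖
  have hm2 := le_max_right ‖x - y‖ ‖x - z‖
  have hn1 := norm_nonneg (x - y)
  have hn2 := norm_nonneg (x - z)
  set m := max ‖x - y‖ ‖x - z‖ with hm
  rcases le_total ‖x - y‖ ‖x - z‖ with h1 | h1
  · rcases le_total ‖x - y‖ ‖y - z‖ with h2 | h2
    · have := sep_aux hX1 hT hx hy hz hxy h1 h2
      nlinarith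
    · have h3 := sep_aux hX1 hT hy hz hx hyz (by rw [norm_sub_rev y x]; exact h2)
        (by rw [norm_sub_rev z x]; linarith)
      rw [norm_sub_rev y x] at h3
      have h4 := norm_sub_norm_le y x
      rw [norm_sub_rev] at h4
      nlinarith
  · rcases le_total ‖x - z‖ ‖y - z‖ with h2 | h2
    · have := sep_aux hX1 hT hx hz hy hxz h1 (by rw [norm_sub_rev z y]; exact h2)
      nlinarith
    · have h3 := sep_aux hX1 hT hy hz hx hyz (by rw [norm_sub_rev y x]; linarith)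
        (by rw [norm_sub_rev z x]; exact h2)
      rw [norm_sub_rev y x] at h3
      have h4 := norm_sub_norm_le y x
      rw [norm_sub_rev] at h4
      nlinarith

lemma deriv_combo {f g : ℂ → ℂ} (hf : DifferentiableOn ℂ f (ball 0 1))
    (hg : DifferentiableOn ℂ g (ball 0 1)) (L : ℂ) {z : ℂ} (hz : z ∈ ball (0 : ℂ) 1) :
    deriv (fun w => f w + L * g w) z = deriv f z + L * deriv g z ∧
    deriv (deriv (fun w => f w + L * g w)) z = deriv (deriv f) z + L * deriv (deriv g) z := by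
  have h1 : ∀ w ∈ ball (0 : ℂ) 1, deriv (fun w => f w + L * g w) w =
      deriv f w + L * deriv g w := by
    intro w hw
    have hfw := hf.differentiableAt (isOpen_ball.mem_nhds hw)
    have hgw := hg.differentiableAt (isOpen_ball.mem_nhds hw)
    exact (hfw.hasDerivAt.add (hgw.hasDerivAt.const_mul L)).deriv
  refine ⟨h1 z hz, ?_⟩
  have h2 : deriv (fun w => f w + L * g w) =ᶠ[nhds z] fun w => deriv f w + L * deriv g w := by
    filter_upwards [isOpen_ball.mem_nhds hz] with w hw using h1 w hw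
  rw [h2.deriv_eq]
  have hf' := (hf.deriv isOpen_ball).differentiableAt (isOpen_ball.mem_nhds hz)
  have hg' := (hg.deriv isOpen_ball).differentiableAt (isOpen_ball.mem_nhds hz)
  exact (hf'.hasDerivAt.add (hg'.hasDerivAt.const_mul L)).deriv

/-- First order Taylor estimate at a point, at a distance at most half the distance to the
circle. -/
lemma taylor_one {f : ℂ → ℂ} {A : ℝ} (hA : 0 ≤ A) (hf : DifferentiableOn ℂ f (ball 0 1))
    (h2 : ∀ z : ℂ, ‖z‖ < 1 → ‖deriv (deriv f) z‖ * (1 - ‖z‖) ≤ A) {x y : ℂ} (hx : ‖x‖ < 1)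
    (hxy : ‖x - y‖ ≤ (1 - ‖x‖) / 2) :
    ‖f x - f y - deriv f x * (x - y)‖ ≤ A * ‖x - y‖ := by
  have hd : 0 < 1 - ‖x‖ := by linarith
  have hin : ∀ z ∈ closedBall x ((1 - ‖x‖) / 2), (1 - ‖x‖) / 2 ≤ 1 - ‖z‖ := by
    intro z hz
    rw [mem_closedBall, dist_eq_norm] at hz
    have := norm_sub_norm_le z x
    linarith
  have hsub : closedBall x ((1 - ‖x‖) / 2) ⊆ ball (0 : ℂ) 1 := by
    intro z hz
    have := hin z hz
    rw [mem_ball, dist_zero_right]
    linarith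
  have hd1 : ∀ z ∈ closedBall x ((1 - ‖x‖) / 2), ‖deriv f z - deriv f x‖ ≤ A := by
    intro z hz
    have h3 : ‖deriv f z - deriv f x‖ ≤ (A / ((1 - ‖x‖) / 2)) * ‖z - x‖ := by
      refine (convex_closedBall x ((1 - ‖x‖) / 2)).norm_image_sub_le_of_norm_deriv_le
        (f := deriv f) (fun w hw => ?_) (fun w hw => ?_) (mem_closedBall_self (by linarith)) hz
      · exact (hf.deriv isOpen_ball).differentiableAt (isOpen_ball.mem_nhds (hsub hw))
      · have h4 := hin w hw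
        have h5 := h2 w (by linarith)
        rw [le_div_iff₀ (by linarith)]
        refine le_trans ?_ h5
        gcongr
    refine h3.trans ?_
    rw [mem_closedBall, dist_eq_norm] at hz
    rw [div_mul_eq_mul_div, div_le_iff₀ (by linarith)]
    gcongr
  have h4 : ‖(f x - deriv f x * x) - (f y - deriv f x * y)‖ ≤ A * ‖x - y‖ := by
    refine (convex_closedBall x ((1 - ‖x‖) / 2)).norm_image_sub_le_of_norm_deriv_le
      (f := fun w => f w - deriv f x * w) (fun w hw => ?_) (fun w hw => ?_)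
      (by rw [mem_closedBall, dist_eq_norm, norm_sub_rev]; exact hxy)
      (mem_closedBall_self (by linarith))
    · exact (hf.differentiableAt (isOpen_ball.mem_nhds (hsub hw))).sub
        (differentiableAt_id.const_mul _)
    · have h5 : HasDerivAt (fun w => f w - deriv f x * w) (deriv f w - deriv f x * 1) w :=
        (hf.differentiableAt (isOpen_ball.mem_nhds (hsub hw))).hasDerivAt.sub
          ((hasDerivAt_id w).const_mul _)
      rw [h5.deriv, mul_one]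
      exact hd1 w hw
  have h5 : f x - f y - deriv f x * (x - y) = (f x - deriv f x * x) - (f y - deriv f x * y) := by
    ring
  rw [h5]
  exact h4

theorem finite_suff_of {c C : ℝ} (hc : 0 < c) (hb : ∃ K, StepBStatement C K)
    (hcc : ∀ B : ℝ, ∃ K, StepCStatement B 3 K) : ∃ K : ℝ, FiniteSuff c C K := by
  obtain ⟨B, hB, hpeak⟩ := exists_peak c hc
  obtain ⟨Kb, hKb⟩ := hb
  set B' : ℝ := max B Kb with hB'
  obtain ⟨Kc, hKc⟩ := hcc B'
  obtain ⟨Kd, hKd⟩ := inner_interp c (|C| + 2) hc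
  set L : ℝ := 5 * (|Kb| + |Kc|) + 1 with hL
  have hb0 := abs_nonneg Kb
  have hc0 := abs_nonneg Kc
  have hd0 := abs_nonneg Kd
  have hL0 : 0 < L := by positivity
  refine ⟨|Kb| + 9 * |Kc| + L * |Kd|, ?_⟩
  intro X hX1 hKC hT hP φ hφc hφZ hφb
  rcases X.eq_empty_or_nonempty with hXe | hXne
  · refine ⟨fun _ => 0, differentiableOn_const _, ?_, ?_, ?_, ?_⟩
    · intro z hz
      rw [mem_ball, dist_zero_right] at hz
      have : 0 < 1 - ‖z‖ := by linarith
      simp only [deriv_const', deriv_const, norm_zero]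
      positivity
    · simp only [norm_zero]; positivity
    · simp only [deriv_const, norm_zero]; positivity
    · intro x hx; rw [hXe] at hx; simp at hx
  have hD : DistLike (Dz (X : Set ℂ)) := distLike_Dz (by simpa using hXne)
    (fun x hx => (hX1 x (by simpa using hx)).le)
  have hDx : ∀ x ∈ X, Dz (X : Set ℂ) x = 1 - ‖x‖ := by
    intro x hx
    unfold Dz
    rw [infDist_zero_of_mem (by exact_mod_cast hx), zero_add]
  obtain ⟨h, hpk⟩ := hpeak X hXne hX1 hKC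
  have hpk' := hpk.mono hD (le_max_left B Kb)
  obtain ⟨φt, s, hφtc, hφtb, hφts, hφtX, hsX, hs0⟩ := hKb X hXne hX1 hT hP φ hφc hφZ hφb
  obtain ⟨f0, hf0, hf0b⟩ := hKc (Dz (X : Set ℂ)) h φt s hD hpk' hφtc ⟨Kb, hφtb⟩ (by
    intro z w hz hw
    refine (hφts z w hz hw).trans ?_
    have h1 : 0 < infDist z (X : Set ℂ) + (1 - ‖z‖) := hD.pos z hz
    have h2 := norm_nonneg (w - z)
    unfold Dz
    gcongr
    exact le_max_right _ _)
  -- estimates at the points of `X`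
  have e1 : ∀ x ∈ X, ‖φ x - f0 x‖ ≤ (|Kb| + |Kc|) * (1 - ‖x‖) := by
    intro x hx
    have hx1 := hX1 x hx
    have hd : 0 < 1 - ‖x‖ := by linarith
    have h1 := (hf0b x hx1).1
    rw [hDx x hx] at h1
    have h2 : ‖f0 x - φt x‖ ≤ |Kc| * (1 - ‖x‖) := by
      have h3 : ‖f0 x - φt x‖ * (1 - ‖x‖) ≤ (|Kc| * (1 - ‖x‖)) * (1 - ‖x‖) := by
        refine h1.trans ?_
        have := le_abs_self Kc
        nlinarith [mul_pos hd hd]
      exact le_of_mul_le_mul_right h3 hd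
    have h3 : ‖φt x - φ x‖ ≤ |Kb| * (1 - ‖x‖) := (hφtX x hx).trans (by
      gcongr; exact le_abs_self Kb)
    have h4 : φ x - f0 x = -((f0 x - φt x) + (φt x - φ x)) := by ring
    rw [h4, norm_neg]
    refine (norm_add_le _ _).trans ?_
    linarith
  have e2 : ∀ x ∈ X, ∀ y ∈ X, ‖(φ x - f0 x) - (φ y - f0 y)‖ ≤ L * ‖x - y‖ := by
    intro x hx y hy
    have hx1 := hX1 x hx
    have hd : 0 < 1 - ‖x‖ := by linarith
    have hn := norm_nonneg (x - y)
    rcases eq_or_ne x y with rfl | hxy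
    · simp
    rcases le_or_gt ‖x - y‖ ((1 - ‖x‖) / 2) with hcl | hcl
    · have h1 := (hf0b x hx1).2.1
      rw [hDx x hx] at h1
      have h2 : ‖deriv f0 x - s x‖ ≤ |Kc| :=
        (le_of_mul_le_mul_right h1 hd).trans (le_abs_self _)
      have h3 := hsX x hx y hy hxy (by linarith)
      have h4 := taylor_one (abs_nonneg Kc) hf0 (fun z hz => ((hf0b z hz).2.2).trans
        (le_abs_self _)) hx1 hcl
      have hne : x - y ≠ 0 := sub_ne_zero.2 hxy
      have h5 : (φ x - f0 x) - (φ y - f0 y) = -((s x - (φ x - φ y) / (x - y)) * (x - y)) -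
          (deriv f0 x - s x) * (x - y) - (f0 x - f0 y - deriv f0 x * (x - y)) := by
        field_simp
        ring
      rw [h5]
      calc _ ≤ ‖(s x - (φ x - φ y) / (x - y)) * (x - y)‖ +
            ‖(deriv f0 x - s x) * (x - y)‖ + ‖f0 x - f0 y - deriv f0 x * (x - y)‖ := by
            refine (norm_sub_le _ _).trans ?_
            gcongr
            refine (norm_sub_le _ _).trans ?_
            rw [norm_neg]
        _ ≤ |Kb| * ‖x - y‖ + |Kc| * ‖x - y‖ + |Kc| * ‖x - y‖ := by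
            rw [norm_mul, norm_mul]
            gcongr
            exact h3.trans (le_abs_self _)
        _ ≤ L * ‖x - y‖ := by rw [hL]; nlinarith
    · have h1 := e1 x hx
      have h2 := e1 y hy
      have h3 := norm_sub_norm_le x y
      refine (norm_sub_le _ _).trans ((add_le_add h1 h2).trans ?_)
      have h4 : 1 - ‖y‖ ≤ (1 - ‖x‖) + ‖x - y‖ := by linarith
      rw [hL]
      have h5 : (|Kb| + |Kc|) * (1 - ‖y‖) ≤ (|Kb| + |Kc|) * ((1 - ‖x‖) + ‖x - y‖) := by gcongr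
      have h6 : (|Kb| + |Kc|) * (1 - ‖x‖) ≤ (|Kb| + |Kc|) * (2 * ‖x - y‖) := by
        gcongr
        linarith
      nlinarith
  -- the interior interpolation
  obtain ⟨f1, hf1, hf1b, hf10, hf11, hf1X⟩ := hKd X hX1 hKC
    (by
      have := sep_of_tcond (X := (X : Set ℂ)) (fun x hx => (hX1 x (by simpa using hx)).le) hT
      intro x hx y hy z hz
      exact this x (by simpa using hx) y (by simpa using hy) z (by simpa using hz))
    (fun x => (φ x - f0 x) / L)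
    (by
      intro x hx
      rw [norm_div, Complex.norm_real, Real.norm_eq_abs, abs_of_pos hL0, div_le_iff₀ hL0]
      refine (e1 x hx).trans ?_
      have hd : 0 < 1 - ‖x‖ := by linarith [hX1 x hx]
      rw [hL]
      nlinarith)
    (by
      intro x hx y hy
      rw [← sub_div, norm_div, Complex.norm_real, Real.norm_eq_abs, abs_of_pos hL0,
        div_le_iff₀ hL0, mul_comm]
      exact e2 x hx y hy)
  have h0m : (0 : ℂ) ∈ ball (0 : ℂ) 1 := mem_ball_self one_pos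
  have hD0 : 0 < Dz (X : Set ℂ) 0 := hD.pos 0 (by simp)
  have hD3 : Dz (X : Set ℂ) 0 ≤ 3 := hD.le_three 0 (by simp)
  refine ⟨fun w => f0 w + (L : ℂ) * f1 w, hf0.add ((differentiableOn_const _).mul hf1), ?_, ?_, ?_,
    ?_⟩
  · intro z hz
    rw [(deriv_combo hf0 hf1 L hz).2]
    have hz1 := hz
    rw [mem_ball, dist_zero_right] at hz1
    have hd : 0 < 1 - ‖z‖ := by linarith
    refine (norm_add_le _ _).trans ?_
    rw [norm_mul, Complex.norm_real, Real.norm_eq_abs, abs_of_pos hL0]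
    have h1 : ‖deriv (deriv f0) z‖ ≤ |Kc| / (1 - ‖z‖) := by
      rw [le_div_iff₀ hd]
      exact ((hf0b z hz1).2.2).trans (le_abs_self _)
    have h2 : ‖deriv (deriv f1) z‖ ≤ |Kd| / (1 - ‖z‖) := by
      refine (hf1b z hz).trans ?_
      gcongr
      exact le_abs_self _
    calc _ ≤ |Kc| / (1 - ‖z‖) + L * (|Kd| / (1 - ‖z‖)) := by gcongr
      _ = (|Kc| + L * |Kd|) / (1 - ‖z‖) := by ring
      _ ≤ _ := by gcongr; linarith
  · refine (norm_add_le _ _).trans ?_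
    rw [norm_mul, Complex.norm_real, Real.norm_eq_abs, abs_of_pos hL0]
    have h1 := (hf0b 0 (by simp)).1
    rw [norm_zero, sub_zero, mul_one] at h1
    have h2 : ‖f0 0 - φt 0‖ ≤ 9 * |Kc| := by
      refine h1.trans ?_
      have h3 : Kc * Dz (X : Set ℂ) 0 ^ 2 ≤ |Kc| * Dz (X : Set ℂ) 0 ^ 2 := by
        gcongr
        exact le_abs_self _
      have h4 : Dz (X : Set ℂ) 0 ^ 2 ≤ 9 := by nlinarith
      nlinarith
    have h3 := hφtb 0 (by simp)
    have h4 : ‖f0 0‖ ≤ ‖f0 0 - φt 0‖ + ‖φt 0‖ := by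
      have : f0 0 = (f0 0 - φt 0) + φt 0 := by ring
      calc ‖f0 0‖ = ‖(f0 0 - φt 0) + φt 0‖ := by rw [← this]
        _ ≤ _ := norm_add_le _ _
    have h5 : L * ‖f1 0‖ ≤ L * |Kd| := by
      gcongr
      exact hf10.trans (le_abs_self _)
    have := le_abs_self Kb
    linarith
  · rw [(deriv_combo hf0 hf1 L h0m).1]
    refine (norm_add_le _ _).trans ?_
    rw [norm_mul, Complex.norm_real, Real.norm_eq_abs, abs_of_pos hL0]
    have h1 := (hf0b 0 (by simp)).2.1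
    rw [norm_zero, sub_zero, mul_one] at h1
    have h2 : ‖deriv f0 0 - s 0‖ ≤ 9 * |Kc| := by
      refine h1.trans ?_
      have h3 : Kc * Dz (X : Set ℂ) 0 ≤ |Kc| * Dz (X : Set ℂ) 0 := by
        gcongr
        exact le_abs_self _
      nlinarith
    have h4 : ‖deriv f0 0‖ ≤ ‖deriv f0 0 - s 0‖ + ‖s 0‖ := by
      have : deriv f0 0 = (deriv f0 0 - s 0) + s 0 := by ring
      calc ‖deriv f0 0‖ = ‖(deriv f0 0 - s 0) + s 0‖ := by rw [← this]
        _ ≤ _ := norm_add_le _ _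
    have h5 : L * ‖deriv f1 0‖ ≤ L * |Kd| := by
      gcongr
      exact hf11.trans (le_abs_self _)
    have := le_abs_self Kb
    linarith
  · intro x hx
    beta_reduce
    rw [hf1X x hx]
    have : (L : ℂ) ≠ 0 := by exact_mod_cast hL0.ne'
    field_simp
    ring

end Pool.Agent.H82.Zyg
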