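import Mathlib
import Pool.Agent.H82.Zyg.Defs

/-!
# A uniform boundedness principle on a closed bounded convex set (module by helper4)
-/

namespace Pool.Agent.H82.Zyg

open Complex Metric Set
open scoped BoundedContinuousFunction

/-- Pointwise boundedness of a family of continuous linear maps on a closed bounded convex set
implies uniform boundedness on the set. -/
theorem baire_uniform {E : Type*} [NormedAddCommGroup E] [NormedSpace ℝ E] [CompleteSpace E]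
    {K : Set E} (hKc : IsClosed K) (hKne : K.Nonempty) (hKconv : Convex ℝ K)
    (hKb : ∀ φ ∈ K, ‖φ‖ ≤ 1) {ι : Type*} (T : ι → E →L[ℝ] ℂ) (k : ι → ℝ) (hk : ∀ i, 0 ≤ k i)
    (hp : ∀ φ ∈ K, ∃ C : ℝ, ∀ i, ‖T i φ‖ ≤ C * k i) :
    ∃ C : ℝ, 0 ≤ C ∧ ∀ φ ∈ K, ∀ i, ‖T i φ‖ ≤ C * k i := by
  have : CompleteSpace K := hKc.completeSpace_coe
  have : Nonempty K := hKne.to_subtype
  let F : ℕ → Set K := fun n => {φ : K | ∀ i, ‖T i φ‖ ≤ n * k i}
  have hF : ∀ n, IsClosed (F n) := by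
    intro n
    have : F n = ⋂ i, {φ : K | ‖T i φ‖ ≤ n * k i} := by
      ext φ; simp [F]
    rw [this]
    refine isClosed_iInter fun i => ?_
    exact isClosed_le (((T i).continuous.comp continuous_subtype_val).norm) continuous_const
  have hU : (⋃ n, F n) = univ := by
    refine eq_univ_of_forall fun φ => ?_
    obtain ⟨C, hC⟩ := hp φ φ.2
    obtain ⟨n, hn⟩ := exists_nat_ge C
    refine mem_iUnion.2 ⟨n, fun i => (hC i).trans ?_⟩
    exact mul_le_mul_of_nonneg_right hn (hk i)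
  obtain ⟨n, hn⟩ := nonempty_interior_of_iUnion_of_closed hF hU
  obtain ⟨φ₀, hφ₀⟩ := hn
  obtain ⟨ε, hε, hball⟩ := Metric.mem_nhds_iff.1 (mem_interior_iff_mem_nhds.1 hφ₀)
  set s : ℝ := min (1 / 2) (ε / 4) with hs
  have hs0 : 0 < s := by rw [hs]; positivity
  have hs1 : s ≤ 1 / 2 := min_le_left _ _
  have hs2 : s ≤ ε / 4 := min_le_right _ _
  refine ⟨2 * n / s, by positivity, fun ψ hψ i => ?_⟩
  have hmem : (1 - s) • (φ₀ : E) + s • ψ ∈ K :=
    hKconv φ₀.2 hψ (by linarith) hs0.le (by ring)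
  have hd : dist (⟨_, hmem⟩ : K) φ₀ < ε := by
    rw [Subtype.dist_eq, dist_eq_norm]
    have : (1 - s) • (φ₀ : E) + s • ψ - φ₀ = s • (ψ - φ₀) := by
      module
    simp only [this]
    rw [norm_smul, Real.norm_of_nonneg hs0.le]
    have h1 : ‖ψ - φ₀‖ ≤ 2 := (norm_sub_le _ _).trans (by linarith [hKb ψ hψ, hKb φ₀ φ₀.2])
    nlinarith
  have h1 := hball hd i
  have h2 := hball (mem_ball_self hε) i
  simp only at h1 h2
  have h3 : s • T i ψ = T i ((1 - s) • (φ₀ : E) + s • ψ) - (1 - s) • T i φ₀ := by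
    rw [map_add, map_smul, map_smul]; abel
  have h4 : ‖s • T i ψ‖ ≤ n * k i + (1 - s) * (n * k i) := by
    rw [h3]
    refine (norm_sub_le _ _).trans (add_le_add h1 ?_)
    rw [norm_smul, Real.norm_of_nonneg (by linarith)]
    exact mul_le_mul_of_nonneg_left h2 (by linarith)
  rw [norm_smul, Real.norm_of_nonneg hs0.le] at h4
  have hnk : 0 ≤ (n : ℝ) * k i := mul_nonneg (Nat.cast_nonneg _) (hk i)
  have h5 : s * ‖T i ψ‖ ≤ 2 * (n * k i) := by nlinarith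
  rw [show 2 * (n : ℝ) / s * k i = 2 * (n * k i) / s by ring, le_div_iff₀ hs0]
  linarith

/-- The set of bounded functions of norm at most one with Zygmund constant at most one. -/
def ZK : Set (ℂ →ᵇ ℂ) :=
  {φ | ‖φ‖ ≤ 1 ∧ ∀ z h : ℂ, ‖φ (z + h) + φ (z - h) - 2 * φ z‖ ≤ ‖h‖}

theorem ZK_closed : IsClosed ZK := by
  have : ZK = {φ : ℂ →ᵇ ℂ | ‖φ‖ ≤ 1} ∩ ⋂ z : ℂ, ⋂ h : ℂ,
      {φ : ℂ →ᵇ ℂ | ‖φ (z + h) + φ (z - h) - 2 * φ z‖ ≤ ‖h‖} := by
    ext φ; simp [ZK]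
  rw [this]
  refine (isClosed_le continuous_norm continuous_const).inter ?_
  refine isClosed_iInter fun z => isClosed_iInter fun h => ?_
  refine isClosed_le ?_ continuous_const
  exact (((continuous_eval_const (z + h)).add
    (continuous_eval_const (z - h))).sub
    (continuous_const.mul (continuous_eval_const z))).norm

theorem ZK_nonempty : ZK.Nonempty := ⟨0, by simp [ZK]⟩

theorem ZK_convex : Convex ℝ ZK := by
  intro φ hφ ψ hψ a b ha hb hab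
  refine ⟨?_, fun z h => ?_⟩
  · calc ‖a • φ + b • ψ‖ ≤ ‖a • φ‖ + ‖b • ψ‖ := norm_add_le _ _
      _ = a * ‖φ‖ + b * ‖ψ‖ := by
        rw [norm_smul, norm_smul, Real.norm_of_nonneg ha, Real.norm_of_nonneg hb]
      _ ≤ a * 1 + b * 1 := add_le_add (mul_le_mul_of_nonneg_left hφ.1 ha)
        (mul_le_mul_of_nonneg_left hψ.1 hb)
      _ = 1 := by linarith
  · have h1 := hφ.2 z h
    have h2 := hψ.2 z h
    have h3 : (a • φ + b • ψ) (z + h) + (a • φ + b • ψ) (z - h) - 2 * (a • φ + b • ψ) z =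
        (a : ℂ) * (φ (z + h) + φ (z - h) - 2 * φ z) +
        (b : ℂ) * (ψ (z + h) + ψ (z - h) - 2 * ψ z) := by
      simp only [BoundedContinuousFunction.coe_add, BoundedContinuousFunction.coe_smul,
        Pi.add_apply, real_smul]
      ring
    rw [h3]
    calc _ ≤ ‖(a : ℂ) * (φ (z + h) + φ (z - h) - 2 * φ z)‖ +
        ‖(b : ℂ) * (ψ (z + h) + ψ (z - h) - 2 * ψ z)‖ := norm_add_le _ _
      _ = a * ‖φ (z + h) + φ (z - h) - 2 * φ z‖ + b * ‖ψ (z + h) + ψ (z - h) - 2 * ψ z‖ := by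
        rw [norm_mul, norm_mul, Complex.norm_real, Complex.norm_real, Real.norm_of_nonneg ha,
          Real.norm_of_nonneg hb]
      _ ≤ a * ‖h‖ + b * ‖h‖ := add_le_add (mul_le_mul_of_nonneg_left h1 ha)
        (mul_le_mul_of_nonneg_left h2 hb)
      _ = ‖h‖ := by rw [← add_mul, hab, one_mul]

theorem ZK_zygC {φ : ℂ →ᵇ ℂ} (h : φ ∈ ZK) : ZygC φ :=
  ⟨φ.continuous, 1, fun z k => by simpa using h.2 z k⟩

/-- A scaled test function belongs to `ZK`. -/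
theorem exists_ZK {ψ : ℂ → ℂ} (hc : Continuous ψ) {S : ℝ} (hS : 0 < S)
    (h1 : ∀ w, ‖ψ w‖ ≤ S) (h2 : ∀ z h : ℂ, ‖ψ (z + h) + ψ (z - h) - 2 * ψ z‖ ≤ S * ‖h‖) :
    ∃ φ ∈ ZK, ∀ w, φ w = (S : ℂ)⁻¹ * ψ w := by
  have hSn : ‖(S : ℂ)⁻¹‖ = S⁻¹ := by
    rw [norm_inv, Complex.norm_real, Real.norm_of_nonneg hS.le]
  refine ⟨BoundedContinuousFunction.ofNormedAddCommGroup (fun w => (S : ℂ)⁻¹ * ψ w)
    (continuous_const.mul hc) 1 ?_, ⟨?_, ?_⟩, fun w => rfl⟩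
  · intro w
    rw [norm_mul, hSn, inv_mul_le_iff₀ hS, mul_one]
    exact h1 w
  · exact BoundedContinuousFunction.norm_ofNormedAddCommGroup_le _ zero_le_one _
  · intro z h
    have : (S : ℂ)⁻¹ * ψ (z + h) + (S : ℂ)⁻¹ * ψ (z - h) - 2 * ((S : ℂ)⁻¹ * ψ z) =
        (S : ℂ)⁻¹ * (ψ (z + h) + ψ (z - h) - 2 * ψ z) := by ring
    show ‖(S : ℂ)⁻¹ * ψ (z + h) + (S : ℂ)⁻¹ * ψ (z - h) - 2 * ((S : ℂ)⁻¹ * ψ z)‖ ≤ ‖h‖
    rw [this, norm_mul, hSn, inv_mul_le_iff₀ hS]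
    exact h2 z h

end Pool.Agent.H82.Zyg
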