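import Mathlib
import Pool.Agent.H82.Zyg.Defs

/-!
# The three point condition is automatic on the circle
-/

namespace Pool.Agent.H82.Zyg

open Complex Metric Set

/-- Inscribed angle. -/
lemma sinAng_circle {x y z : ℂ} (hx : ‖x‖ = 1) (hy : ‖y‖ = 1) (hz : ‖z‖ = 1) (hxy : x ≠ y)
    (hxz : x ≠ z) : sinAng x y z = ‖y - z‖ / 2 := by
  have h1 : ∀ w : ℂ, ‖w‖ = 1 → w * (starRingEnd ℂ) w = 1 := by
    intro w hw
    rw [Complex.mul_conj, Complex.normSq_eq_norm_sq, hw]
    simp
  have hx1 := h1 x hx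
  have hy1 := h1 y hy
  have hz1 := h1 z hz
  have hne : ∀ w : ℂ, ‖w‖ = 1 → w ≠ 0 := by
    rintro w hw rfl
    simp at hw
  have hcx : (starRingEnd ℂ) x = x⁻¹ := by
    have := hne x hx
    field_simp
    rw [mul_comm]; exact hx1
  have hcy : (starRingEnd ℂ) y = y⁻¹ := by
    have := hne y hy
    field_simp
    rw [mul_comm]; exact hy1
  have hcz : (starRingEnd ℂ) z = z⁻¹ := by
    have := hne z hz
    field_simp
    rw [mul_comm]; exact hz1
  set W : ℂ := (y - x) * (starRingEnd ℂ) (z - x) with hW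
  have h2 : W - (starRingEnd ℂ) W = (y - x) * (x - z) * (y - z) * (x * y * z)⁻¹ := by
    rw [hW, map_mul, Complex.conj_conj, map_sub, map_sub, hcx, hcy, hcz]
    have := hne x hx
    have := hne y hy
    have := hne z hz
    field_simp
    ring
  have h3 : 2 * |W.im| = ‖y - x‖ * ‖z - x‖ * ‖y - z‖ := by
    have e1 := congrArg norm (Complex.sub_conj W)
    rw [h2, norm_mul, norm_mul, norm_mul, norm_inv, norm_mul, norm_mul, hx, hy, hz,
      norm_mul, Complex.norm_I, Complex.norm_real, Real.norm_eq_abs, abs_mul, norm_sub_rev x z]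
      at e1
    norm_num at e1
    linarith
  have h4 : 0 < ‖y - x‖ := norm_pos_iff.mpr (sub_ne_zero.mpr hxy.symm)
  have h5 : 0 < ‖z - x‖ := norm_pos_iff.mpr (sub_ne_zero.mpr hxz.symm)
  unfold sinAng
  rw [← hW]
  field_simp
  linarith

theorem tcond_of_sphere {X : Set ℂ} (hX : X ⊆ sphere 0 1) : TCond 5 X := by
  intro x hx y hy z hz hxy h1 h2
  have hx1 : ‖x‖ = 1 := by simpa using hX hx
  have hy1 : ‖y‖ = 1 := by simpa using hX hy
  have hz1 : ‖z‖ = 1 := by simpa using hX hz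
  have hr : 0 < ‖x - y‖ := norm_pos_iff.mpr (sub_ne_zero.mpr hxy)
  have hR : 0 < ‖x - z‖ := hr.trans_le h1
  have hxz : x ≠ z := sub_ne_zero.mp (norm_pos_iff.mp hR)
  have hkap : kap x y z = 1 + Real.log (‖x - z‖ / ‖x - y‖) := by
    unfold kap
    rw [hx1, sub_self, max_eq_left hR.le, max_eq_left hr.le, div_self hR.ne', one_mul]
  have hlog : 0 ≤ Real.log (‖x - z‖ / ‖x - y‖) := Real.log_nonneg (by rwa [one_le_div hr])
  have hyz : ‖y - z‖ ≤ 2 * ‖x - z‖ := by
    have := norm_sub_le_norm_sub_add_norm_sub y x z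
    rw [norm_sub_rev y x] at this
    linarith
  have hR2 : ‖x - z‖ ≤ 2 := by
    have := norm_sub_le x z
    linarith
  have hlog4 : 0 ≤ Real.log (4 / ‖x - z‖) := Real.log_nonneg (by rw [one_le_div hR]; linarith)
  have h3 : sinAng x y z * Real.log (4 / ‖x - z‖) ≤ 4 := by
    rw [sinAng_circle hx1 hy1 hz1 hxy hxz]
    calc ‖y - z‖ / 2 * Real.log (4 / ‖x - z‖) ≤ ‖x - z‖ * Real.log (4 / ‖x - z‖) := by
          gcongr
          linarith
      _ ≤ ‖x - z‖ * (4 / ‖x - z‖) := by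
          gcongr
          exact Real.log_le_self (by positivity)
      _ = 4 := by field_simp
  rw [hkap]
  unfold lft
  linarith

end Pool.Agent.H82.Zyg
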