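import Mathlib
import Pool.Agent.H82.Zyg.Baire

/-!
# Test functions for the three point condition (module by helper4)
-/

namespace Pool.Agent.H82.Zyg

open Complex Metric Set

/-- `ell s w = log √(|w|² + s²)`. -/
noncomputable def ell (s : ℝ) (w : ℂ) : ℝ := 1 / 2 * Real.log (‖w‖ ^ 2 + s ^ 2)

theorem norm_add_sq_eq (w h : ℂ) :
    ‖w + h‖ ^ 2 = ‖w‖ ^ 2 + 2 * (w * (starRingEnd ℂ) h).re + ‖h‖ ^ 2 := by
  rw [← Complex.normSq_eq_norm_sq, ← Complex.normSq_eq_norm_sq, ← Complex.normSq_eq_norm_sq,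
    Complex.normSq_add]
  ring

theorem abs_log_le_of_ge {u c : ℝ} (hc : 0 < c) (hc1 : c ≤ 1) (hu : c ≤ u) :
    |Real.log u| ≤ |u - 1| / c := by
  have hu0 : 0 < u := hc.trans_le hu
  rcases le_total 1 u with h | h
  · rw [abs_of_nonneg (Real.log_nonneg h), abs_of_nonneg (by linarith)]
    rw [le_div_iff₀ hc]
    have := Real.log_le_sub_one_of_pos hu0
    have h0 := Real.log_nonneg h
    nlinarith
  · rw [abs_of_nonpos (Real.log_nonpos hu0.le h), abs_of_nonpos (by linarith)]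
    have := Real.one_sub_inv_le_log_of_pos hu0
    have h2 : -Real.log u ≤ (1 - u) / u := by
      rw [sub_div, div_self hu0.ne', one_div]; linarith
    refine h2.trans ?_
    rw [neg_sub]
    exact div_le_div_of_nonneg_left (by linarith) hc hu

/-- `t |log t| ≤ 72` for `0 < t ≤ 9`. -/
theorem mul_abs_log_le {t : ℝ} (ht : 0 < t) (ht9 : t ≤ 9) : t * |Real.log t| ≤ 72 := by
  rcases le_total 1 t with h | h
  · rw [abs_of_nonneg (Real.log_nonneg h)]
    have := Real.log_le_sub_one_of_pos ht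
    nlinarith
  · rw [abs_of_nonpos (Real.log_nonpos ht.le h)]
    have := Real.one_sub_inv_le_log_of_pos ht
    have h2 : t * t⁻¹ = 1 := mul_inv_cancel₀ ht.ne'
    nlinarith

theorem zyg_ell (s : ℝ) (hs : 0 < s) (w h : ℂ) :
    ‖(w + h) * (ell s (w + h) : ℂ) + (w - h) * (ell s (w - h) : ℂ) -
      2 * (w * (ell s w : ℂ))‖ ≤ 288 * ‖h‖ := by
  rcases eq_or_ne h 0 with rfl | hh
  · simp; ring_nf
  have hhn : 0 < ‖h‖ := norm_pos_iff.2 hh
  set P : ℝ := ‖w‖ ^ 2 + s ^ 2 with hP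
  have hP0 : 0 < P := by positivity
  set ρ : ℝ := Real.sqrt P with hρ
  have hρ0 : 0 < ρ := Real.sqrt_pos.2 hP0
  have hρ2 : ρ ^ 2 = P := Real.sq_sqrt hP0.le
  have hwρ : ‖w‖ ≤ ρ := by
    apply Real.le_sqrt_of_sq_le
    rw [hP]; nlinarith
  have hsρ : s ≤ ρ := by
    apply Real.le_sqrt_of_sq_le
    rw [hP]; nlinarith [sq_nonneg ‖w‖]
  rcases le_total ‖h‖ (ρ / 4) with hc | hc
  · -- small increments
    set a : ℝ := 2 * (w * (starRingEnd ℂ) h).re / P with ha
    set b : ℝ := ‖h‖ ^ 2 / P with hb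
    have hre : |(w * (starRingEnd ℂ) h).re| ≤ ‖w‖ * ‖h‖ := by
      refine (Complex.abs_re_le_norm _).trans ?_
      rw [norm_mul, Complex.norm_conj]
    have hb0 : 0 < b := by positivity
    have hb1 : b ≤ 1 / 16 := by
      rw [hb, div_le_iff₀ hP0, ← hρ2]
      nlinarith
    have ha1 : |a| ≤ 2 * ‖w‖ * ‖h‖ / P := by
      rw [ha, abs_div, abs_mul, abs_of_pos hP0, abs_of_pos (by norm_num : (0:ℝ) < 2),
        mul_assoc 2 ‖w‖]
      gcongr
    have ha2 : a ^ 2 ≤ 4 * b := by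
      rw [← sq_abs]
      calc |a| ^ 2 ≤ (2 * ‖w‖ * ‖h‖ / P) ^ 2 := by gcongr
        _ = 4 * (‖h‖ ^ 2 * ‖w‖ ^ 2 / P ^ 2) := by rw [div_pow]; ring
        _ ≤ 4 * (‖h‖ ^ 2 * P / P ^ 2) := by
          gcongr
          rw [hP]; nlinarith
        _ = 4 * b := by rw [hb]; field_simp
    have ha3 : |a| ≤ 1 / 2 := by
      rw [← Real.sqrt_sq_eq_abs]
      rw [Real.sqrt_le_left (by norm_num)]
      nlinarith
    have ha4 := abs_le.1 ha3
    have h1 : ‖w + h‖ ^ 2 + s ^ 2 = P * (1 + b + a) := by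
      rw [norm_add_sq_eq, ha, hb]
      field_simp
      rw [hP]; ring
    have h2 : ‖w - h‖ ^ 2 + s ^ 2 = P * (1 + b - a) := by
      rw [sub_eq_add_neg, norm_add_sq_eq, ha, hb]
      field_simp
      rw [hP]
      simp
      ring
    have hu1 : 0 < 1 + b + a := by linarith
    have hu2 : 0 < 1 + b - a := by linarith
    have e1 : ell s (w + h) = ell s w + 1 / 2 * Real.log (1 + b + a) := by
      rw [ell, ell, h1, Real.log_mul hP0.ne' hu1.ne']; ring
    have e2 : ell s (w - h) = ell s w + 1 / 2 * Real.log (1 + b - a) := by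
      rw [ell, ell, h2, Real.log_mul hP0.ne' hu2.ne']; ring
    have e3 : (w + h) * (ell s (w + h) : ℂ) + (w - h) * (ell s (w - h) : ℂ) -
        2 * (w * (ell s w : ℂ)) =
        w * ((1 / 2 * Real.log ((1 + b + a) * (1 + b - a)) : ℝ) : ℂ) +
        h * ((1 / 2 * (Real.log (1 + b + a) - Real.log (1 + b - a)) : ℝ) : ℂ) := by
      rw [e1, e2, Real.log_mul hu1.ne' hu2.ne']
      push_cast
      ring
    rw [e3]
    have g1 : |Real.log ((1 + b + a) * (1 + b - a))| ≤ 10 * b := by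
      have hge : (3 / 4 : ℝ) ≤ (1 + b + a) * (1 + b - a) := by
        have : (1 + b + a) * (1 + b - a) = (1 + b) ^ 2 - a ^ 2 := by ring
        rw [this]; nlinarith
      refine (abs_log_le_of_ge (by norm_num) (by norm_num) hge).trans ?_
      rw [div_le_iff₀ (by norm_num)]
      rw [abs_le]
      constructor <;> nlinarith [sq_nonneg a]
    have g2 : |Real.log (1 + b + a)| ≤ 2 := by
      refine (abs_log_le_of_ge (c := 1 / 2) (by norm_num) (by norm_num) (by linarith)).trans ?_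
      rw [div_le_iff₀ (by norm_num), abs_le]
      constructor <;> linarith
    have g3 : |Real.log (1 + b - a)| ≤ 2 := by
      refine (abs_log_le_of_ge (c := 1 / 2) (by norm_num) (by norm_num) (by linarith)).trans ?_
      rw [div_le_iff₀ (by norm_num), abs_le]
      constructor <;> linarith
    have k1 : ‖w * ((1 / 2 * Real.log ((1 + b + a) * (1 + b - a)) : ℝ) : ℂ)‖ ≤ 2 * ‖h‖ := by
      rw [norm_mul, Complex.norm_real, Real.norm_eq_abs, abs_mul,
        abs_of_pos (by norm_num : (0:ℝ) < 1 / 2)]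
      have : ‖w‖ * (1 / 2 * |Real.log ((1 + b + a) * (1 + b - a))|) ≤ ρ * (5 * b) := by
        refine mul_le_mul hwρ ?_ (by positivity) hρ0.le
        linarith
      refine this.trans ?_
      have hbe : b = ‖h‖ ^ 2 / ρ ^ 2 := by rw [hb, hρ2]
      rw [hbe]
      have : ρ * (5 * (‖h‖ ^ 2 / ρ ^ 2)) = 5 * ‖h‖ * (‖h‖ / ρ) := by
        field_simp
      rw [this]
      have h7 : ‖h‖ / ρ ≤ 1 / 4 := by
        rw [div_le_iff₀ hρ0]; linarith
      nlinarith
    have k2 : ‖h * ((1 / 2 * (Real.log (1 + b + a) - Real.log (1 + b - a)) : ℝ) : ℂ)‖ ≤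
        2 * ‖h‖ := by
      rw [norm_mul, Complex.norm_real, Real.norm_eq_abs, abs_mul,
        abs_of_pos (by norm_num : (0:ℝ) < 1 / 2)]
      have : |Real.log (1 + b + a) - Real.log (1 + b - a)| ≤ 4 := by
        refine (abs_sub _ _).trans ?_
        linarith
      nlinarith
    calc _ ≤ _ := norm_add_le _ _
      _ ≤ 2 * ‖h‖ + 2 * ‖h‖ := add_le_add k1 k2
      _ ≤ 288 * ‖h‖ := by nlinarith
  · -- large increments
    have hw4 : ‖w‖ ≤ 4 * ‖h‖ := by linarith
    have hs4 : s ≤ 4 * ‖h‖ := by linarith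
    have key : ∀ u : ℂ, ‖u‖ ≤ 5 * ‖h‖ →
        ‖u * ((ell s u - Real.log ‖h‖ : ℝ) : ℂ)‖ ≤ 72 * ‖h‖ := by
      intro u hu
      set Q : ℝ := ‖u‖ ^ 2 + s ^ 2 with hQ
      have hQ0 : 0 < Q := by positivity
      set τ : ℝ := Real.sqrt Q with hτ
      have hτ0 : 0 < τ := Real.sqrt_pos.2 hQ0
      have hτ2 : τ ^ 2 = Q := Real.sq_sqrt hQ0.le
      have huτ : ‖u‖ ≤ τ := by
        apply Real.le_sqrt_of_sq_le
        rw [hQ]; nlinarith
      have hτ9 : τ ≤ 9 * ‖h‖ := by
        rw [hτ, Real.sqrt_le_left (by positivity), hQ]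
        nlinarith [norm_nonneg u]
      have hel : ell s u - Real.log ‖h‖ = Real.log (τ / ‖h‖) := by
        rw [ell, ← hQ, ← hτ2, Real.log_pow, Real.log_div hτ0.ne' hhn.ne']
        push_cast; ring
      rw [hel, norm_mul, Complex.norm_real, Real.norm_eq_abs]
      have ht0 : 0 < τ / ‖h‖ := by positivity
      have ht9 : τ / ‖h‖ ≤ 9 := by rw [div_le_iff₀ hhn]; linarith
      have := mul_abs_log_le ht0 ht9
      calc ‖u‖ * |Real.log (τ / ‖h‖)| ≤ τ * |Real.log (τ / ‖h‖)| := by gcongr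
        _ = ‖h‖ * (τ / ‖h‖ * |Real.log (τ / ‖h‖)|) := by field_simp
        _ ≤ ‖h‖ * 72 := by gcongr
        _ = 72 * ‖h‖ := by ring
    have e : (w + h) * (ell s (w + h) : ℂ) + (w - h) * (ell s (w - h) : ℂ) -
        2 * (w * (ell s w : ℂ)) =
        (w + h) * ((ell s (w + h) - Real.log ‖h‖ : ℝ) : ℂ) +
        (w - h) * ((ell s (w - h) - Real.log ‖h‖ : ℝ) : ℂ) -
        2 * (w * ((ell s w - Real.log ‖h‖ : ℝ) : ℂ)) := by
      push_cast; ring
    rw [e]
    have k1 := key (w + h) ((norm_add_le _ _).trans (by linarith))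
    have k2 := key (w - h) ((norm_sub_le _ _).trans (by linarith))
    have k3 := key w (by linarith)
    calc _ ≤ ‖(w + h) * ((ell s (w + h) - Real.log ‖h‖ : ℝ) : ℂ) +
        (w - h) * ((ell s (w - h) - Real.log ‖h‖ : ℝ) : ℂ)‖ +
        ‖2 * (w * ((ell s w - Real.log ‖h‖ : ℝ) : ℂ))‖ := norm_sub_le _ _
      _ ≤ (72 * ‖h‖ + 72 * ‖h‖) + 2 * (72 * ‖h‖) := by
        refine add_le_add ((norm_add_le _ _).trans (add_le_add k1 k2)) ?_
        rw [norm_mul]
        have : ‖(2 : ℂ)‖ = 2 := by simp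
        rw [this]
        linarith
      _ = 288 * ‖h‖ := by ring

theorem continuous_ell (s : ℝ) (hs : 0 < s) : Continuous (ell s) := by
  unfold ell
  refine continuous_const.mul (Continuous.log (by fun_prop) fun w => ?_)
  positivity

/-- The logarithmic test function with centre `x` and radii `r ≤ R`. -/
noncomputable def tst (x : ℂ) (r R : ℝ) (w : ℂ) : ℂ :=
  (w - x) * ((ell R (w - x) - ell r (w - x) : ℝ) : ℂ)

theorem tst_continuous (x : ℂ) {r R : ℝ} (hr : 0 < r) (hR : 0 < R) :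
    Continuous (tst x r R) := by
  unfold tst
  refine (continuous_id.sub continuous_const).mul (Complex.continuous_ofReal.comp ?_)
  exact ((continuous_ell R hR).comp (continuous_id.sub continuous_const)).sub
    ((continuous_ell r hr).comp (continuous_id.sub continuous_const))

theorem tst_zyg (x : ℂ) {r R : ℝ} (hr : 0 < r) (hR : 0 < R) (w h : ℂ) :
    ‖tst x r R (w + h) + tst x r R (w - h) - 2 * tst x r R w‖ ≤ 576 * ‖h‖ := by
  have h1 := zyg_ell R hR (w - x) h
  have h2 := zyg_ell r hr (w - x) h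
  have e : tst x r R (w + h) + tst x r R (w - h) - 2 * tst x r R w =
      ((w - x + h) * (ell R (w - x + h) : ℂ) + (w - x - h) * (ell R (w - x - h) : ℂ) -
        2 * ((w - x) * (ell R (w - x) : ℂ))) -
      ((w - x + h) * (ell r (w - x + h) : ℂ) + (w - x - h) * (ell r (w - x - h) : ℂ) -
        2 * ((w - x) * (ell r (w - x) : ℂ))) := by
    unfold tst
    rw [show w + h - x = w - x + h by ring, show w - h - x = w - x - h by ring]
    push_cast
    ring
  rw [e]
  calc _ ≤ _ := norm_sub_le _ _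
    _ ≤ 288 * ‖h‖ + 288 * ‖h‖ := add_le_add h1 h2
    _ = 576 * ‖h‖ := by ring

theorem ell_diff_nonneg {r R : ℝ} (hr : 0 < r) (hR : r ≤ R) (u : ℂ) :
    0 ≤ ell R u - ell r u := by
  unfold ell
  have : Real.log (‖u‖ ^ 2 + r ^ 2) ≤ Real.log (‖u‖ ^ 2 + R ^ 2) :=
    Real.log_le_log (by positivity) (by gcongr)
  linarith

theorem tst_bdd (x : ℂ) {r R : ℝ} (hr : 0 < r) (hR : r ≤ R) (w : ℂ) :
    ‖tst x r R w‖ ≤ R := by
  unfold tst
  set u := w - x with hu
  have hR0 : 0 < R := hr.trans_le hR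
  rw [norm_mul, Complex.norm_real, Real.norm_of_nonneg (ell_diff_nonneg hr hR u)]
  rcases eq_or_ne u 0 with h0 | h0
  · rw [h0]; simp; exact hR0.le
  have hun : 0 < ‖u‖ := norm_pos_iff.2 h0
  have h1 : ell R u ≤ Real.log (‖u‖ + R) := by
    unfold ell
    have : Real.log (‖u‖ ^ 2 + R ^ 2) ≤ Real.log ((‖u‖ + R) ^ 2) :=
      Real.log_le_log (by positivity) (by nlinarith)
    rw [Real.log_pow] at this
    push_cast at this
    linarith
  have h2 : Real.log ‖u‖ ≤ ell r u := by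
    unfold ell
    have : Real.log (‖u‖ ^ 2) ≤ Real.log (‖u‖ ^ 2 + r ^ 2) :=
      Real.log_le_log (by positivity) (by nlinarith [sq_nonneg r])
    rw [Real.log_pow] at this
    push_cast at this
    linarith
  have h3 : Real.log (‖u‖ + R) - Real.log ‖u‖ ≤ R / ‖u‖ := by
    rw [← Real.log_div (by positivity) hun.ne']
    have := Real.log_le_sub_one_of_pos (x := (‖u‖ + R) / ‖u‖) (by positivity)
    refine this.trans (le_of_eq ?_)
    field_simp
    ring
  calc ‖u‖ * (ell R u - ell r u) ≤ ‖u‖ * (R / ‖u‖) := by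
        gcongr
        linarith
    _ = R := by field_simp

end Pool.Agent.H82.Zyg
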