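import Mathlib
import Pool.Agent.H82.Zyg.TestFun

/-!
# Necessity of the three point condition (module by helper4)

The three facts about Zygmund boundary values are hypotheses here.
-/

namespace Pool.Agent.H82.Zyg

open Complex Metric Set
open scoped BoundedContinuousFunction

def SecondDerivBound : Prop := ∃ K : ℝ, 0 < K ∧ ∀ (f : ℂ → ℂ) (C : ℝ),
    DifferentiableOn ℂ f (ball 0 1) → ContinuousOn f (closedBall 0 1) →
    (∀ t h : ℝ, ‖f (exp ((t + h : ℝ) * I)) + f (exp ((t - h : ℝ) * I)) -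
      2 * f (exp (t * I))‖ ≤ C * |h|) →
    ∀ z ∈ ball (0 : ℂ) 1, ‖deriv (deriv f) z‖ ≤ K * C / (1 - ‖z‖)

def LocalAffine : Prop := ∃ K : ℝ, 0 < K ∧ ∀ (f : ℂ → ℂ) (A : ℝ),
    DifferentiableOn ℂ f (ball 0 1) → ContinuousOn f (closedBall 0 1) →
    (∀ z ∈ ball (0 : ℂ) 1, ‖deriv (deriv f) z‖ ≤ A / (1 - ‖z‖)) →
    ∀ x w : ℂ, ‖x‖ ≤ 1 → ‖w‖ ≤ 1 → ∀ t : ℝ, 0 < t → t ≤ 1 → ‖w - x‖ ≤ 2 * t →
      ‖f w - f x - deriv f ((1 - t) * x) * (w - x)‖ ≤ K * A * t

def SlopeChange : Prop := ∀ (f : ℂ → ℂ) (A : ℝ)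
    (_hf : DifferentiableOn ℂ f (ball 0 1))
    (_h2 : ∀ z ∈ ball (0 : ℂ) 1, ‖deriv (deriv f) z‖ ≤ A / (1 - ‖z‖))
    (x : ℂ) (_hx : ‖x‖ ≤ 1) (s t : ℝ) (_hs : 0 < s) (_hst : s ≤ t) (_ht : t ≤ 1),
    ‖deriv f ((1 - s) * x) - deriv f ((1 - t) * x)‖ ≤
      A * Real.log ((1 - (1 - t) * ‖x‖) / (1 - (1 - s) * ‖x‖))

/-- Difference quotient. -/
noncomputable def dq (f : ℂ → ℂ) (x y : ℂ) : ℂ := (f x - f y) / (x - y)

theorem dq_sub_slope {f : ℂ → ℂ} {x y s : ℂ} {B : ℝ} (hxy : x ≠ y)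
    (h : ‖f y - f x - s * (y - x)‖ ≤ B * ‖x - y‖) : ‖dq f x y - s‖ ≤ B := by
  have hn : 0 < ‖x - y‖ := norm_pos_iff.2 (sub_ne_zero.2 hxy)
  have hne : x - y ≠ 0 := sub_ne_zero.2 hxy
  have e : dq f x y - s = -(f y - f x - s * (y - x)) / (x - y) := by
    unfold dq
    field_simp
    ring
  rw [e, norm_div, norm_neg, div_le_iff₀ hn]
  exact h

theorem one_le_max_ratio {r R η : ℝ} (hr : 0 < r) (hrR : r ≤ R) :
    1 ≤ max R η / max r η := by
  rw [le_div_iff₀ (lt_max_of_lt_left hr), one_mul]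
  exact max_le_max hrR le_rfl

theorem kap_nonneg {x y z : ℂ} (hxy : x ≠ y) (h : ‖x - y‖ ≤ ‖x - z‖) : 0 ≤ kap x y z := by
  have hr : 0 < ‖x - y‖ := norm_pos_iff.2 (sub_ne_zero.2 hxy)
  unfold kap
  have h1 := Real.log_nonneg (one_le_max_ratio (η := 1 - ‖x‖) hr h)
  have h2 : 0 < max ‖x - z‖ (1 - ‖x‖) := lt_max_of_lt_left (hr.trans_le h)
  positivity

/-- Near `x` (compared to the distance to the circle) the difference quotient is close to the
derivative. -/
theorem dq_near {f : ℂ → ℂ} {A : ℝ} (hA : 0 ≤ A) (hf : DifferentiableOn ℂ f (ball 0 1))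
    (h2 : ∀ z ∈ ball (0 : ℂ) 1, ‖deriv (deriv f) z‖ ≤ A / (1 - ‖z‖))
    {x y : ℂ} (hxy : x ≠ y) {η : ℝ} (hη : η = 1 - ‖x‖) (h : ‖x - y‖ < η / 2) :
    ‖dq f x y - deriv f x‖ ≤ 2 * A * ‖x - y‖ / η := by
  have hr : 0 < ‖x - y‖ := norm_pos_iff.2 (sub_ne_zero.2 hxy)
  set r := ‖x - y‖ with hrdef
  have hη0 : 0 < η := by linarith
  have hsub : ∀ w ∈ closedBall x r, ‖w‖ ≤ 1 - η / 2 := by
    intro w hw
    rw [mem_closedBall, dist_eq_norm] at hw
    have : ‖w‖ ≤ ‖w - x‖ + ‖x‖ := by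
      simpa using norm_add_le (w - x) x
    linarith
  have hin : ∀ w ∈ closedBall x r, w ∈ ball (0 : ℂ) 1 := by
    intro w hw
    rw [mem_ball_zero_iff]
    have := hsub w hw
    linarith
  have hd : ∀ w ∈ closedBall x r, DifferentiableAt ℂ f w := fun w hw =>
    hf.differentiableAt (isOpen_ball.mem_nhds (hin w hw))
  have hf' : DifferentiableOn ℂ (deriv f) (ball 0 1) := hf.deriv isOpen_ball
  have hd' : ∀ w ∈ closedBall x r, DifferentiableAt ℂ (deriv f) w := fun w hw =>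
    hf'.differentiableAt (isOpen_ball.mem_nhds (hin w hw))
  have hxm : x ∈ closedBall x r := mem_closedBall_self hr.le
  have hym : y ∈ closedBall x r := by
    rw [mem_closedBall, dist_eq_norm, norm_sub_rev]
  have hb : ∀ w ∈ closedBall x r, ‖deriv f w - deriv f x‖ ≤ 2 * A / η * r := by
    intro w hw
    have h3 : ∀ v ∈ closedBall x r, ‖deriv (deriv f) v‖ ≤ 2 * A / η := by
      intro v hv
      refine (h2 v (hin v hv)).trans ?_
      have := hsub v hv
      rw [show 2 * A / η = A / (η / 2) by field_simp]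
      exact div_le_div_of_nonneg_left hA (by linarith) (by linarith)
    refine ((convex_closedBall x r).norm_image_sub_le_of_norm_deriv_le hd' h3 hxm hw).trans ?_
    rw [mem_closedBall, dist_eq_norm] at hw
    gcongr
  apply dq_sub_slope hxy
  have h4 : ∀ w ∈ closedBall x r, ‖deriv (fun v => f v - deriv f x * v) w‖ ≤
      2 * A / η * r := by
    intro w hw
    have : deriv (fun v => f v - deriv f x * v) w = deriv f w - deriv f x := by
      rw [deriv_fun_sub (hd w hw) (by fun_prop)]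
      simp
    rw [this]
    exact hb w hw
  have h5 := (convex_closedBall x r).norm_image_sub_le_of_norm_deriv_le
    (f := fun v => f v - deriv f x * v)
    (fun w hw => (hd w hw).sub (by fun_prop)) h4 hxm hym
  have e : f y - f x - deriv f x * (y - x) =
      (f y - deriv f x * y) - (f x - deriv f x * x) := by ring
  rw [e]
  refine h5.trans (le_of_eq ?_)
  rw [norm_sub_rev y x, ← hrdef]
  ring

/-- The pointwise inequality for a single function. -/
theorem dq_diff_le {f : ℂ → ℂ} {A B : ℝ} (hA : 0 ≤ A) (hB : 0 ≤ B)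
    (hSC : SlopeChange) (hf : DifferentiableOn ℂ f (ball 0 1))
    (h2 : ∀ z ∈ ball (0 : ℂ) 1, ‖deriv (deriv f) z‖ ≤ A / (1 - ‖z‖))
    (hLA : ∀ x w : ℂ, ‖x‖ ≤ 1 → ‖w‖ ≤ 1 → ∀ t : ℝ, 0 < t → t ≤ 1 → ‖w - x‖ ≤ 2 * t →
      ‖f w - f x - deriv f ((1 - t) * x) * (w - x)‖ ≤ B * t)
    {x y z : ℂ} (hx : ‖x‖ ≤ 1) (hy : ‖y‖ ≤ 1) (hz : ‖z‖ ≤ 1) (hxy : x ≠ y)
    (hrR : ‖x - y‖ ≤ ‖x - z‖) :
    ‖dq f x y - dq f x z‖ ≤ (4 * A + 2 * B) * kap x y z := by
  have hr : 0 < ‖x - y‖ := norm_pos_iff.2 (sub_ne_zero.2 hxy)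
  have hR : 0 < ‖x - z‖ := hr.trans_le hrR
  have hxz : x ≠ z := sub_ne_zero.1 (norm_pos_iff.1 hR)
  have hR2 : ‖x - z‖ ≤ 2 := (norm_sub_le _ _).trans (by linarith)
  set r := ‖x - y‖ with hrdef
  set R := ‖x - z‖ with hRdef
  set η := 1 - ‖x‖ with hη
  have hη0 : 0 ≤ η := by linarith
  rcases lt_or_ge R (η / 2) with hc | hc
  · have n1 := dq_near hA hf h2 hxy hη (hrR.trans_lt hc)
    have n2 := dq_near hA hf h2 hxz hη hc
    have hηp : 0 < η := by linarith
    have e1 : max R η = η := max_eq_right (by linarith)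
    have e2 : max r η = η := max_eq_right (by linarith)
    have hk : kap x y z = R / η := by
      unfold kap
      rw [← hη, ← hRdef, ← hrdef, e1, e2, div_self hηp.ne']
      simp
    rw [hk]
    calc ‖dq f x y - dq f x z‖ = ‖(dq f x y - deriv f x) - (dq f x z - deriv f x)‖ := by
          congr 1; ring
      _ ≤ _ := norm_sub_le _ _
      _ ≤ 2 * A * r / η + 2 * A * R / η := add_le_add n1 n2
      _ ≤ 2 * A * R / η + 2 * A * R / η := by gcongr
      _ = (4 * A) * (R / η) := by ring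
      _ ≤ (4 * A + 2 * B) * (R / η) := by
        gcongr
        linarith
  · -- comparable or far
    have l1 : ‖dq f x y - deriv f ((1 - (r / 2 : ℝ)) * x)‖ ≤ B / 2 := by
      apply dq_sub_slope hxy
      have := hLA x y hx hy (r / 2) (by linarith) (by linarith)
        (by rw [norm_sub_rev, ← hrdef]; linarith)
      refine this.trans (le_of_eq ?_)
      rw [← hrdef]; ring
    have l2 : ‖dq f x z - deriv f ((1 - (R / 2 : ℝ)) * x)‖ ≤ B / 2 := by
      apply dq_sub_slope hxz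
      have := hLA x z hx hz (R / 2) (by linarith) (by linarith)
        (by rw [norm_sub_rev, ← hRdef]; linarith)
      refine this.trans (le_of_eq ?_)
      rw [← hRdef]; ring
    have l3 := hSC f A hf h2 x hx (r / 2) (R / 2) (by linarith) (by linarith) (by linarith)
    set M := max R η with hM
    set m := max r η with hm
    have hm0 : 0 < m := lt_max_of_lt_left hr
    have hM0 : 0 < M := lt_max_of_lt_left hR
    have hMm : 1 ≤ M / m := one_le_max_ratio hr hrR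
    have hlog : 0 ≤ Real.log (M / m) := Real.log_nonneg hMm
    have hxe : ‖x‖ = 1 - η := by rw [hη]; ring
    have hnum : 1 - (1 - R / 2) * ‖x‖ ≤ 3 / 2 * M := by
      have h1 : R ≤ M := le_max_left _ _
      have h2 : η ≤ M := le_max_right _ _
      rw [hxe]
      nlinarith
    have hden : m / 2 ≤ 1 - (1 - r / 2) * ‖x‖ := by
      rw [hxe]
      have : m ≤ 2 * (1 - (1 - r / 2) * (1 - η)) := by
        apply max_le
        · nlinarith
        · nlinarith [norm_nonneg x]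
      linarith
    have hq : (1 - (1 - R / 2) * ‖x‖) / (1 - (1 - r / 2) * ‖x‖) ≤ 3 * (M / m) := by
      rw [div_le_iff₀ (by linarith)]
      calc 1 - (1 - R / 2) * ‖x‖ ≤ 3 / 2 * M := hnum
        _ = 3 * (M / m) * (m / 2) := by field_simp
        _ ≤ _ := by gcongr
    have hqpos : 0 < (1 - (1 - R / 2) * ‖x‖) / (1 - (1 - r / 2) * ‖x‖) := by
      apply div_pos _ (by linarith)
      rw [hxe]
      nlinarith
    have hl : Real.log ((1 - (1 - R / 2) * ‖x‖) / (1 - (1 - r / 2) * ‖x‖)) ≤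
        2 + Real.log (M / m) := by
      refine (Real.log_le_log hqpos hq).trans ?_
      rw [Real.log_mul (by norm_num) (by positivity)]
      have : Real.log 3 ≤ 3 - 1 := Real.log_le_sub_one_of_pos (by norm_num)
      linarith
    have l4 : ‖deriv f ((1 - (r / 2 : ℝ)) * x) - deriv f ((1 - (R / 2 : ℝ)) * x)‖ ≤
        A * (2 + Real.log (M / m)) := l3.trans (mul_le_mul_of_nonneg_left hl hA)
    have hRM : 1 / 2 ≤ R / M := by
      rw [le_div_iff₀ hM0]
      have : M ≤ 2 * R := max_le (by linarith) (by linarith)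
      linarith
    have hk : kap x y z = R / M * (1 + Real.log (M / m)) := by
      unfold kap
      rw [← hη, ← hRdef, ← hrdef, ← hM, ← hm]
    rw [hk]
    calc ‖dq f x y - dq f x z‖ =
          ‖(dq f x y - deriv f ((1 - (r / 2 : ℝ)) * x)) -
            (dq f x z - deriv f ((1 - (R / 2 : ℝ)) * x)) +
            (deriv f ((1 - (r / 2 : ℝ)) * x) - deriv f ((1 - (R / 2 : ℝ)) * x))‖ := by
          congr 1; ring
      _ ≤ _ := norm_add_le _ _
      _ ≤ (B / 2 + B / 2) + A * (2 + Real.log (M / m)) :=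
          add_le_add ((norm_sub_le _ _).trans (add_le_add l1 l2)) l4
      _ ≤ (4 * A + 2 * B) * (1 / 2 * (1 + Real.log (M / m))) := by nlinarith
      _ ≤ (4 * A + 2 * B) * (R / M * (1 + Real.log (M / m))) := by gcongr

/-- The functional `φ ↦ φ[x,y] - φ[x,z]`. -/
noncomputable def dqT (x y z : ℂ) : (ℂ →ᵇ ℂ) →L[ℝ] ℂ :=
  ContinuousLinearMap.restrictScalars ℝ
    ((x - y)⁻¹ • (BoundedContinuousFunction.evalCLM ℂ x -
      BoundedContinuousFunction.evalCLM ℂ y : (ℂ →ᵇ ℂ) →L[ℂ] ℂ) -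
    (x - z)⁻¹ • (BoundedContinuousFunction.evalCLM ℂ x -
      BoundedContinuousFunction.evalCLM ℂ z : (ℂ →ᵇ ℂ) →L[ℂ] ℂ))

theorem dqT_apply (x y z : ℂ) (φ : ℂ →ᵇ ℂ) : dqT x y z φ = dq φ x y - dq φ x z := by
  simp [dqT, dq, div_eq_inv_mul]

theorem dq_congr {f g : ℂ → ℂ} {x y : ℂ} (h1 : f x = g x) (h2 : f y = g y) :
    dq f x y = dq g x y := by unfold dq; rw [h1, h2]

/-- Uniform estimate on `ZK`. -/
theorem uniform_T (hSD : SecondDerivBound) (hLA : LocalAffine) (hSC : SlopeChange)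
    {X : Set ℂ} (hX : X ⊆ closedBall 0 1) (h : IsInterp X) :
    ∃ C : ℝ, 0 ≤ C ∧ ∀ φ ∈ ZK, ∀ x ∈ X, ∀ y ∈ X, ∀ z ∈ X, x ≠ y → ‖x - y‖ ≤ ‖x - z‖ →
      ‖dq φ x y - dq φ x z‖ ≤ C * kap x y z := by
  obtain ⟨K1, hK1, hSD⟩ := hSD
  obtain ⟨K2, hK2, hLA⟩ := hLA
  let ι : Type := {p : ℂ × ℂ × ℂ // p.1 ∈ X ∧ p.2.1 ∈ X ∧ p.2.2 ∈ X ∧ p.1 ≠ p.2.1 ∧
    ‖p.1 - p.2.1‖ ≤ ‖p.1 - p.2.2‖}
  obtain ⟨C, hC0, hC⟩ := baire_uniform ZK_closed ZK_nonempty ZK_convex (fun φ hφ => hφ.1)
    (fun p : ι => dqT p.1.1 p.1.2.1 p.1.2.2) (fun p : ι => kap p.1.1 p.1.2.1 p.1.2.2)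
    (fun p => kap_nonneg p.2.2.2.2.1 p.2.2.2.2.2) (by
      intro φ hφ
      obtain ⟨f, ⟨hf1, hf2, Cf, hCf⟩, hf⟩ := h φ (ZK_zygC hφ)
      have hCf0 : 0 ≤ Cf := by
        have := (norm_nonneg _).trans (hCf 0 1)
        simpa using this
      have h2 := hSD f Cf hf1 hf2 hCf
      have hA : 0 ≤ K1 * Cf := by positivity
      have h3 := hLA f (K1 * Cf) hf1 hf2 h2
      refine ⟨4 * (K1 * Cf) + 2 * (K2 * (K1 * Cf)), fun p => ?_⟩
      obtain ⟨⟨x, y, z⟩, hx, hy, hz, hxy, hle⟩ := p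
      simp only at hx hy hz hxy hle ⊢
      rw [dqT_apply, ← dq_congr (hf x hx) (hf y hy), ← dq_congr (hf x hx) (hf z hz)]
      exact dq_diff_le hA (by positivity) hSC hf1 h2 h3 (by simpa using hX hx)
        (by simpa using hX hy) (by simpa using hX hz) hxy hle)
  refine ⟨C, hC0, fun φ hφ x hx y hy z hz hxy hle => ?_⟩
  have := hC φ hφ ⟨(x, y, z), hx, hy, hz, hxy, hle⟩
  rwa [dqT_apply] at this

theorem uniform_T' (hSD : SecondDerivBound) (hLA : LocalAffine) (hSC : SlopeChange)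
    {X : Set ℂ} (hX : X ⊆ closedBall 0 1) (h : IsInterp X) :
    ∃ C : ℝ, 0 ≤ C ∧ ∀ ψ : ℂ → ℂ, Continuous ψ → ∀ S : ℝ, 0 < S → (∀ w, ‖ψ w‖ ≤ S) →
      (∀ z h : ℂ, ‖ψ (z + h) + ψ (z - h) - 2 * ψ z‖ ≤ S * ‖h‖) →
      ∀ x ∈ X, ∀ y ∈ X, ∀ z ∈ X, x ≠ y → ‖x - y‖ ≤ ‖x - z‖ →
      ‖dq ψ x y - dq ψ x z‖ ≤ S * (C * kap x y z) := by
  obtain ⟨C, hC0, hC⟩ := uniform_T hSD hLA hSC hX h
  refine ⟨C, hC0, fun ψ hψ S hS h1 h2 x hx y hy z hz hxy hle => ?_⟩
  obtain ⟨φ, hφ, he⟩ := exists_ZK hψ hS h1 h2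
  have := hC φ hφ x hx y hy z hz hxy hle
  have e : dq φ x y - dq φ x z = (S : ℂ)⁻¹ * (dq ψ x y - dq ψ x z) := by
    unfold dq
    rw [he, he, he]
    ring
  rw [e, norm_mul, norm_inv, Complex.norm_real, Real.norm_of_nonneg hS.le,
    inv_mul_le_iff₀ hS] at this
  exact this

/-- The tent function. -/
theorem tent_zyg (y : ℂ) (r : ℝ) (w h : ℂ) :
    ‖((max 0 (r - ‖w + h - y‖) : ℝ) : ℂ) + ((max 0 (r - ‖w - h - y‖) : ℝ) : ℂ) -
      2 * ((max 0 (r - ‖w - y‖) : ℝ) : ℂ)‖ ≤ 2 * ‖h‖ := by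
  have key : ∀ a b : ℂ, |max 0 (r - ‖a‖) - max 0 (r - ‖b‖)| ≤ ‖a - b‖ := by
    intro a b
    refine (abs_max_sub_max_le_max _ _ _ _).trans ?_
    rw [sub_self, abs_zero]
    refine max_le (norm_nonneg _) ?_
    rw [show r - ‖a‖ - (r - ‖b‖) = ‖b‖ - ‖a‖ by ring, norm_sub_rev]
    exact abs_norm_sub_norm_le _ _
  have k1 := key (w + h - y) (w - y)
  have k2 := key (w - h - y) (w - y)
  rw [show w + h - y - (w - y) = h by ring] at k1
  rw [show w - h - y - (w - y) = -h by ring, norm_neg] at k2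
  have e : ((max 0 (r - ‖w + h - y‖) : ℝ) : ℂ) + ((max 0 (r - ‖w - h - y‖) : ℝ) : ℂ) -
      2 * ((max 0 (r - ‖w - y‖) : ℝ) : ℂ) =
      (((max 0 (r - ‖w + h - y‖) - max 0 (r - ‖w - y‖)) +
        (max 0 (r - ‖w - h - y‖) - max 0 (r - ‖w - y‖)) : ℝ) : ℂ) := by
    push_cast; ring
  rw [e, Complex.norm_real, Real.norm_eq_abs]
  refine (abs_add_le _ _).trans ?_
  linarith

theorem tcond_of_interp_aux (hSD : SecondDerivBound) (hLA : LocalAffine) (hSC : SlopeChange)
    {X : Set ℂ} (hX : X ⊆ closedBall 0 1) (h : IsInterp X) : ∃ C, TCond C X := by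
  obtain ⟨C, hC0, hC⟩ := uniform_T' hSD hLA hSC hX h
  -- estimate (i)
  have E1 : ∀ x ∈ X, ∀ y ∈ X, ∀ z ∈ X, x ≠ y → ‖x - y‖ ≤ ‖x - z‖ → ‖x - y‖ ≤ ‖y - z‖ →
      1 ≤ 2 * (C * kap x y z) := by
    intro x hx y hy z hz hxy hle hle2
    have hr : 0 < ‖x - y‖ := norm_pos_iff.2 (sub_ne_zero.2 hxy)
    have hx1 : ‖x‖ ≤ 1 := by simpa using hX hx
    have hy1 : ‖y‖ ≤ 1 := by simpa using hX hy
    have hr2 : ‖x - y‖ ≤ 2 := (norm_sub_le _ _).trans (by linarith)
    have := hC (fun w => ((max 0 (‖x - y‖ - ‖w - y‖) : ℝ) : ℂ)) (by fun_prop) 2 (by norm_num)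
      (by
        intro w
        rw [Complex.norm_real, Real.norm_of_nonneg (le_max_left _ _)]
        exact max_le (by norm_num) (by linarith [norm_nonneg (w - y)]))
      (tent_zyg y ‖x - y‖) x hx y hy z hz hxy hle
    have e : dq (fun w => ((max 0 (‖x - y‖ - ‖w - y‖) : ℝ) : ℂ)) x y -
        dq (fun w => ((max 0 (‖x - y‖ - ‖w - y‖) : ℝ) : ℂ)) x z =
        -((‖x - y‖ : ℝ) : ℂ) / (x - y) := by
      unfold dq
      have h1 : max 0 (‖x - y‖ - ‖x - y‖) = 0 := by simp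
      have h2 : max 0 (‖x - y‖ - ‖y - y‖) = ‖x - y‖ := by simp
      have h3 : max 0 (‖x - y‖ - ‖z - y‖) = 0 := by
        apply max_eq_left
        rw [norm_sub_rev z y]; linarith
      simp only [h1, h2, h3]
      simp
    rw [e, norm_div, norm_neg, Complex.norm_real, norm_norm, div_self hr.ne'] at this
    exact this
  -- estimate (ii)
  have E2 : ∀ x ∈ X, ∀ y ∈ X, ∀ z ∈ X, x ≠ y → ‖x - y‖ ≤ ‖x - z‖ → ‖x - y‖ ≤ ‖y - z‖ →
      Real.log (‖x - z‖ / ‖x - y‖) ≤ 576 * (C * kap x y z) + 1 := by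
    intro x hx y hy z hz hxy hle hle2
    have hr : 0 < ‖x - y‖ := norm_pos_iff.2 (sub_ne_zero.2 hxy)
    have hR : 0 < ‖x - z‖ := hr.trans_le hle
    have hxz : x ≠ z := sub_ne_zero.1 (norm_pos_iff.1 hR)
    have hx1 : ‖x‖ ≤ 1 := by simpa using hX hx
    have hz1 : ‖z‖ ≤ 1 := by simpa using hX hz
    have hR2 : ‖x - z‖ ≤ 2 := (norm_sub_le _ _).trans (by linarith)
    set r := ‖x - y‖ with hrdef
    set R := ‖x - z‖ with hRdef
    have := hC (tst x r R) (tst_continuous x hr hR) 576 (by norm_num)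
      (fun w => (tst_bdd x hr hle w).trans (by linarith)) (tst_zyg x hr hR)
      x hx y hy z hz hxy hle
    have hdq : ∀ v : ℂ, x ≠ v → dq (tst x r R) x v =
        ((ell R (v - x) - ell r (v - x) : ℝ) : ℂ) := by
      intro v hv
      have hne : x - v ≠ 0 := sub_ne_zero.2 hv
      unfold dq
      rw [div_eq_iff hne]
      unfold tst
      ring
    rw [hdq y hxy, hdq z hxz, ← Complex.ofReal_sub, Complex.norm_real, Real.norm_eq_abs] at this
    have h1 := (le_abs_self _).trans this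
    have e1 : ‖y - x‖ = r := by rw [norm_sub_rev]
    have e2 : ‖z - x‖ = R := by rw [norm_sub_rev]
    unfold ell at h1
    rw [e1, e2] at h1
    have h2 : Real.log (R ^ 2) ≤ Real.log (r ^ 2 + R ^ 2) :=
      Real.log_le_log (by positivity) (by nlinarith [sq_nonneg r])
    have h3 : Real.log (R ^ 2 + R ^ 2) = Real.log 2 + 2 * Real.log R := by
      rw [← two_mul, Real.log_mul (by norm_num) (by positivity), Real.log_pow]
      push_cast; ring
    have h3' : Real.log (r ^ 2 + r ^ 2) = Real.log 2 + 2 * Real.log r := by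
      rw [← two_mul, Real.log_mul (by norm_num) (by positivity), Real.log_pow]
      push_cast; ring
    have h4 : Real.log (R ^ 2 + r ^ 2) = Real.log (r ^ 2 + R ^ 2) := by rw [add_comm]
    rw [Real.log_pow] at h2
    push_cast at h2
    rw [Real.log_div hR.ne' hr.ne']
    have h5 : Real.log 2 ≤ 2 - 1 := Real.log_le_sub_one_of_pos (by norm_num)
    rw [h3, h3', h4] at h1
    linarith
  -- estimate (iii)
  have E3 : ∀ x ∈ X, ∀ y ∈ X, ∀ z ∈ X, x ≠ y → ‖x - y‖ ≤ ‖x - z‖ → ‖x - y‖ ≤ ‖y - z‖ →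
      sinAng x y z * Real.log (4 / ‖x - z‖) ≤ 576 * (C * kap x y z) + 2 := by
    intro x hx y hy z hz hxy hle hle2
    have hr : 0 < ‖x - y‖ := norm_pos_iff.2 (sub_ne_zero.2 hxy)
    have hR : 0 < ‖x - z‖ := hr.trans_le hle
    have hxz : x ≠ z := sub_ne_zero.1 (norm_pos_iff.1 hR)
    have hx1 : ‖x‖ ≤ 1 := by simpa using hX hx
    have hz1 : ‖z‖ ≤ 1 := by simpa using hX hz
    have hR2 : ‖x - z‖ ≤ 2 := (norm_sub_le _ _).trans (by linarith)
    set r := ‖x - y‖ with hrdef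
    set R := ‖x - z‖ with hRdef
    have hcont : Continuous fun w => (starRingEnd ℂ) (tst x R 4 w) :=
      Complex.continuous_conj.comp (tst_continuous x hR (by norm_num))
    have := hC (fun w => (starRingEnd ℂ) (tst x R 4 w)) hcont 576 (by norm_num)
      (fun w => by
        rw [Complex.norm_conj]
        exact (tst_bdd x hR (by linarith) w).trans (by norm_num))
      (fun w k => by
        have e : (starRingEnd ℂ) (tst x R 4 (w + k)) + (starRingEnd ℂ) (tst x R 4 (w - k)) -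
            2 * (starRingEnd ℂ) (tst x R 4 w) =
            (starRingEnd ℂ) (tst x R 4 (w + k) + tst x R 4 (w - k) - 2 * tst x R 4 w) := by
          simp [map_ofNat]
        rw [e, Complex.norm_conj]
        exact tst_zyg x hR (by norm_num) w k)
      x hx y hy z hz hxy hle
    have hdq : ∀ v : ℂ, x ≠ v → dq (fun w => (starRingEnd ℂ) (tst x R 4 w)) x v =
        (starRingEnd ℂ) (v - x) / (v - x) * ((ell 4 (v - x) - ell R (v - x) : ℝ) : ℂ) := by
      intro v hv
      have hne : x - v ≠ 0 := sub_ne_zero.2 hv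
      have hne' : v - x ≠ 0 := sub_ne_zero.2 hv.symm
      unfold dq
      rw [div_eq_iff hne]
      unfold tst
      have : x - v = -(v - x) := by ring
      rw [this]
      simp only [map_mul, Complex.conj_ofReal, sub_self, map_zero, zero_mul, zero_sub]
      field_simp
    rw [hdq y hxy, hdq z hxz] at this
    have e1 : ‖y - x‖ = r := by rw [norm_sub_rev]
    have e2 : ‖z - x‖ = R := by rw [norm_sub_rev]
    set uy : ℂ := (starRingEnd ℂ) (y - x) / (y - x) with huy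
    set uz : ℂ := (starRingEnd ℂ) (z - x) / (z - x) with huz
    set Ly : ℝ := ell 4 (y - x) - ell R (y - x) with hLy
    set Lz : ℝ := ell 4 (z - x) - ell R (z - x) with hLz
    have hyx : y - x ≠ 0 := sub_ne_zero.2 hxy.symm
    have hzx : z - x ≠ 0 := sub_ne_zero.2 hxz.symm
    have nuy : ‖uy‖ = 1 := by
      rw [huy, norm_div, Complex.norm_conj, div_self (norm_ne_zero_iff.2 hyx)]
    have hsin : ‖uy - uz‖ = 2 * sinAng x y z := by
      have : uy - uz = ((starRingEnd ℂ) (y - x) * (z - x) - (y - x) * (starRingEnd ℂ) (z - x)) /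
          ((y - x) * (z - x)) := by
        rw [huy, huz]; field_simp
      rw [this, norm_div, norm_mul]
      unfold sinAng
      have h2 : (starRingEnd ℂ) (y - x) * (z - x) - (y - x) * (starRingEnd ℂ) (z - x) =
          ((-2 * ((y - x) * (starRingEnd ℂ) (z - x)).im : ℝ) : ℂ) * I := by
        have := Complex.sub_conj ((y - x) * (starRingEnd ℂ) (z - x))
        rw [map_mul, Complex.conj_conj] at this
        have h3 : (starRingEnd ℂ) (y - x) * (z - x) - (y - x) * (starRingEnd ℂ) (z - x) =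
          -((y - x) * (starRingEnd ℂ) (z - x) - (starRingEnd ℂ) (y - x) * (z - x)) := by ring
        rw [h3, this]
        push_cast
        ring
      rw [h2, norm_mul, Complex.norm_I, mul_one, Complex.norm_real, Real.norm_eq_abs, abs_mul]
      norm_num
      ring
    have hLz0 : 0 ≤ Lz := ell_diff_nonneg hR (by linarith) _
    have hLyz : |Ly - Lz| ≤ 1 := by
      have h1 : Ly - Lz = 1 / 2 * (Real.log (r ^ 2 + 4 ^ 2) - Real.log (R ^ 2 + 4 ^ 2)) +
          1 / 2 * (Real.log (R ^ 2 + R ^ 2) - Real.log (r ^ 2 + R ^ 2)) := by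
        rw [hLy, hLz]
        unfold ell
        rw [e1, e2]; ring
      have g1 : Real.log (r ^ 2 + 4 ^ 2) ≤ Real.log (R ^ 2 + 4 ^ 2) :=
        Real.log_le_log (by positivity) (by gcongr)
      have g2 : Real.log (r ^ 2 + R ^ 2) ≤ Real.log (R ^ 2 + R ^ 2) :=
        Real.log_le_log (by positivity) (by gcongr)
      have h5 : Real.log 2 ≤ 2 - 1 := Real.log_le_sub_one_of_pos (by norm_num)
      have g3 : Real.log (R ^ 2 + R ^ 2) ≤ Real.log 2 + Real.log (r ^ 2 + R ^ 2) := by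
        rw [← Real.log_mul (by norm_num) (by positivity)]
        exact Real.log_le_log (by positivity) (by nlinarith [sq_nonneg r])
      have g4 : Real.log (R ^ 2 + 4 ^ 2) ≤ Real.log 2 + Real.log (r ^ 2 + 4 ^ 2) := by
        rw [← Real.log_mul (by norm_num) (by positivity)]
        exact Real.log_le_log (by positivity) (by nlinarith [sq_nonneg r])
      rw [h1, abs_le]
      generalize Real.log (r ^ 2 + 4 ^ 2) = a1 at *
      generalize Real.log (R ^ 2 + 4 ^ 2) = a2 at *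
      generalize Real.log (r ^ 2 + R ^ 2) = a3 at *
      generalize Real.log (R ^ 2 + R ^ 2) = a4 at *
      constructor <;> linarith
    have h6 : 2 * sinAng x y z * Lz ≤ 576 * (C * kap x y z) + 1 := by
      have e : (uy - uz) * (Lz : ℂ) = (uy * (Ly : ℂ) - uz * (Lz : ℂ)) -
          uy * ((Ly - Lz : ℝ) : ℂ) := by push_cast; ring
      have : ‖(uy - uz) * (Lz : ℂ)‖ ≤ 576 * (C * kap x y z) + 1 := by
        rw [e]
        refine (norm_sub_le _ _).trans (add_le_add this ?_)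
        rw [norm_mul, nuy, one_mul, Complex.norm_real]
        exact hLyz
      rwa [norm_mul, hsin, Complex.norm_real, Real.norm_of_nonneg hLz0] at this
    have hLz2 : Real.log (4 / R) ≤ Lz + 1 / 2 := by
      rw [hLz]
      unfold ell
      rw [e2, Real.log_div (by norm_num) hR.ne']
      have g1 : 2 * Real.log 4 ≤ Real.log (R ^ 2 + 4 ^ 2) := by
        have : Real.log (4 ^ 2) ≤ Real.log (R ^ 2 + 4 ^ 2) :=
          Real.log_le_log (by norm_num) (by nlinarith [sq_nonneg R])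
        rw [Real.log_pow] at this
        push_cast at this
        exact this
      have h3 : Real.log (R ^ 2 + R ^ 2) = Real.log 2 + 2 * Real.log R := by
        rw [← two_mul, Real.log_mul (by norm_num) (by positivity), Real.log_pow]
        push_cast; ring
      have h5 : Real.log 2 ≤ 2 - 1 := Real.log_le_sub_one_of_pos (by norm_num)
      rw [h3]
      generalize Real.log (R ^ 2 + 4 ^ 2) = a2 at *
      linarith
    have hs0 : 0 ≤ sinAng x y z := by unfold sinAng; positivity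
    have hs1 : sinAng x y z ≤ 1 := by
      unfold sinAng
      rw [div_le_one (by rw [e1, e2]; positivity)]
      refine (Complex.abs_im_le_norm _).trans ?_
      rw [norm_mul, Complex.norm_conj]
    have hL4 : 0 ≤ Real.log (4 / R) := by
      apply Real.log_nonneg
      rw [le_div_iff₀ hR]; linarith
    nlinarith
  refine ⟨1160 * C, fun x hx y hy z hz hxy hle hle2 => ?_⟩
  have h1 := E1 x hx y hy z hz hxy hle hle2
  have h2 := E2 x hx y hy z hz hxy hle hle2
  have h3 := E3 x hx y hy z hz hxy hle hle2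
  unfold lft
  nlinarith

end Pool.Agent.H82.Zyg
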