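import Mathlib
import Pool.Agent.H82.Zyg.NecTAux

/-!
# The Jackson type kernel and oscillating test functions (module T3, helper4)
-/

namespace Pool.Agent.H82.Zyg

open Complex Metric Set MeasureTheory
open scoped BoundedContinuousFunction

/-- Points of the circle. -/
noncomputable def pt (θ u : ℝ) : ℂ := exp (((θ + u : ℝ) : ℂ) * I)

noncomputable def e1 (u : ℝ) : ℂ := exp ((u : ℂ) * I)

theorem norm_e1 (u : ℝ) : ‖e1 u‖ = 1 := Complex.norm_exp_ofReal_mul_I u

theorem norm_pt (θ u : ℝ) : ‖pt θ u‖ = 1 := Complex.norm_exp_ofReal_mul_I (θ + u)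

theorem pt_eq (θ u : ℝ) : pt θ u = e1 θ * e1 u := by
  unfold pt e1
  rw [← Complex.exp_add]
  congr 1
  push_cast
  ring

theorem continuous_e1 : Continuous e1 := by unfold e1; fun_prop

theorem continuous_pt (θ : ℝ) : Continuous (pt θ) := by unfold pt; fun_prop

theorem pt_dist_eq (θ u v : ℝ) : ‖pt θ u - pt θ v‖ = ‖exp (I * ((u - v : ℝ) : ℂ)) - 1‖ := by
  have : pt θ u - pt θ v = pt θ v * (exp (I * ((u - v : ℝ) : ℂ)) - 1) := by
    unfold pt
    rw [mul_sub, ← Complex.exp_add, mul_one]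
    congr 2
    push_cast
    ring
  rw [this, norm_mul, norm_pt, one_mul]

theorem pt_dist_le (θ u v : ℝ) : ‖pt θ u - pt θ v‖ ≤ |u - v| := by
  rw [pt_dist_eq]
  exact Real.norm_exp_I_mul_ofReal_sub_one_le

theorem sin_half_ge {x : ℝ} (hx : |x| ≤ Real.pi) : 1 / 2 * |x| ≤ ‖2 * Real.sin (x / 2)‖ := by
  rw [norm_mul, Real.norm_eq_abs, Real.norm_eq_abs, abs_of_pos (by norm_num : (0:ℝ) < 2)]
  have hpi := Real.pi_pos
  have hpi4 := Real.pi_le_four
  have h1 : |Real.sin (x / 2)| = Real.sin (|x| / 2) := by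
    rcases le_total 0 x with h | h
    · rw [abs_of_nonneg h, abs_of_nonneg]
      exact Real.sin_nonneg_of_nonneg_of_le_pi (by linarith)
        (by rw [abs_of_nonneg h] at hx; linarith)
    · rw [abs_of_nonpos h, neg_div, Real.sin_neg, abs_of_nonpos]
      exact Real.sin_nonpos_of_nonpos_of_neg_pi_le (by linarith)
        (by rw [abs_of_nonpos h] at hx; linarith)
  rw [h1]
  have h2 := Real.mul_le_sin (x := |x| / 2) (by positivity) (by linarith)
  have h3 : 1 / 2 ≤ 2 / Real.pi := by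
    rw [le_div_iff₀ hpi]; linarith
  have h4 : 1 / 2 * (|x| / 2) ≤ 2 / Real.pi * (|x| / 2) := by gcongr
  linarith

theorem pt_dist_ge (θ u v : ℝ) (h : |u - v| ≤ Real.pi) : 1 / 2 * |u - v| ≤ ‖pt θ u - pt θ v‖ := by
  rw [pt_dist_eq, norm_exp_I_mul_ofReal_sub_one]
  exact sin_half_ge h

/-- The geometric sum. -/
noncomputable def Sm (m : ℕ) (w : ℂ) : ℂ := ∑ j ∈ Finset.range m, w ^ j

/-- The kernel. -/
noncomputable def Tk (m : ℕ) (u : ℝ) : ℂ := e1 u * Sm m (e1 u) ^ 4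

theorem continuous_Tk (m : ℕ) : Continuous (Tk m) := by
  unfold Tk Sm
  have := continuous_e1
  fun_prop

theorem norm_Sm_le (m : ℕ) (u : ℝ) : ‖Sm m (e1 u)‖ ≤ m := by
  unfold Sm
  refine (norm_sum_le _ _).trans ?_
  simp [norm_e1]

theorem norm_Sm_le' (m : ℕ) {u : ℝ} (h0 : 0 < |u|) (h : |u| ≤ Real.pi) :
    ‖Sm m (e1 u)‖ ≤ 4 / |u| := by
  have h1 : Sm m (e1 u) * (e1 u - 1) = e1 u ^ m - 1 := by
    unfold Sm; exact geom_sum_mul _ _
  have h2 : 1 / 2 * |u| ≤ ‖e1 u - 1‖ := by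
    have := pt_dist_ge 0 u 0 (by simpa using h)
    unfold pt at this
    simpa [e1] using this
  have h3 : ‖e1 u ^ m - 1‖ ≤ 2 := by
    refine (norm_sub_le _ _).trans ?_
    rw [norm_pow, norm_e1, one_pow, norm_one]; norm_num
  rw [← h1, norm_mul] at h3
  rw [le_div_iff₀ h0]
  nlinarith [norm_nonneg (Sm m (e1 u))]

theorem norm_Tk_le (m : ℕ) (u : ℝ) : ‖Tk m u‖ ≤ (m : ℝ) ^ 4 := by
  unfold Tk
  rw [norm_mul, norm_e1, one_mul, norm_pow]
  gcongr
  exact norm_Sm_le m u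

theorem norm_Tk_le' (m : ℕ) {u : ℝ} (h0 : 0 < |u|) (h : |u| ≤ Real.pi) :
    ‖Tk m u‖ ≤ 256 / u ^ 4 := by
  unfold Tk
  rw [norm_mul, norm_e1, one_mul, norm_pow]
  calc ‖Sm m (e1 u)‖ ^ 4 ≤ (4 / |u|) ^ 4 := by
        gcongr
        exact norm_Sm_le' m h0 h
    _ = 256 / u ^ 4 := by
        rw [div_pow, ← abs_pow, abs_of_nonneg (by positivity)]
        norm_num

theorem conj_e1 (u : ℝ) : (starRingEnd ℂ) (e1 u) * e1 u = 1 := by
  rw [mul_comm, Complex.mul_conj, Complex.normSq_eq_norm_sq, norm_e1]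
  simp

theorem Sm_conj (m : ℕ) (hm : 1 ≤ m) (u : ℝ) :
    Sm m (e1 u) * (starRingEnd ℂ) (e1 u) ^ (m - 1) = (starRingEnd ℂ) (Sm m (e1 u)) := by
  unfold Sm
  rw [map_sum, Finset.sum_mul, ← Finset.sum_range_reflect]
  refine Finset.sum_congr rfl fun j hj => ?_
  rw [Finset.mem_range] at hj
  rw [map_pow]
  have : m - 1 = (m - 1 - j) + j := by omega
  conv_lhs => rw [this]
  rw [Nat.add_sub_cancel, pow_add, ← mul_assoc, ← mul_pow, mul_comm (e1 u), conj_e1, one_pow,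
    one_mul]

theorem Tk_conj (m : ℕ) (hm : 1 ≤ m) (u : ℝ) :
    (starRingEnd ℂ) (e1 u) ^ (2 * m - 1) * Tk m u = ((‖Sm m (e1 u)‖ ^ 4 : ℝ) : ℂ) := by
  have h1 : 2 * m - 1 = (m - 1) + (m - 1) + 1 := by omega
  have h2 := Sm_conj m hm u
  have h3 : Sm m (e1 u) * (starRingEnd ℂ) (Sm m (e1 u)) = ((‖Sm m (e1 u)‖ ^ 2 : ℝ) : ℂ) := by
    rw [Complex.mul_conj, Complex.normSq_eq_norm_sq]
  unfold Tk
  rw [h1, pow_succ, pow_add]
  calc (starRingEnd ℂ) (e1 u) ^ (m - 1) * (starRingEnd ℂ) (e1 u) ^ (m - 1) *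
        (starRingEnd ℂ) (e1 u) * (e1 u * Sm m (e1 u) ^ 4)
      = ((starRingEnd ℂ) (e1 u) * e1 u) * (Sm m (e1 u) *
          (Sm m (e1 u) * (starRingEnd ℂ) (e1 u) ^ (m - 1))) *
          (Sm m (e1 u) * (Sm m (e1 u) * (starRingEnd ℂ) (e1 u) ^ (m - 1))) := by ring
    _ = _ := by
        rw [conj_e1, h2, h3]
        push_cast
        ring

theorem Sm_lower (m : ℕ) (hm : 1 ≤ m) {u : ℝ} (hu : |u| ≤ 1 / m) :
    (m : ℝ) / 2 ≤ ‖Sm m (e1 u)‖ := by
  have hm0 : (0 : ℝ) < m := by exact_mod_cast hm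
  have h1 : (Sm m (e1 u)).re = ∑ j ∈ Finset.range m, Real.cos (j * u) := by
    unfold Sm e1
    rw [Complex.re_sum]
    refine Finset.sum_congr rfl fun j _ => ?_
    rw [← Complex.exp_nat_mul]
    rw [show (j : ℂ) * ((u : ℂ) * I) = ((j * u : ℝ) : ℂ) * I by push_cast; ring,
      Complex.exp_ofReal_mul_I_re]
  have h2 : (m : ℝ) / 2 ≤ (Sm m (e1 u)).re := by
    rw [h1]
    have : ∀ j ∈ Finset.range m, (1 / 2 : ℝ) ≤ Real.cos (j * u) := by
      intro j hj
      have hj' : (j : ℝ) ≤ m := by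
        exact_mod_cast (Finset.mem_range.1 hj).le
      have h3 : |(j : ℝ) * u| ≤ 1 := by
        rw [abs_mul, abs_of_nonneg (Nat.cast_nonneg j)]
        calc (j : ℝ) * |u| ≤ m * (1 / m) := by gcongr
          _ = 1 := by field_simp
      have h4 := Real.one_sub_sq_div_two_le_cos (x := j * u)
      have h5 : (j * u : ℝ) ^ 2 ≤ 1 := by
        rw [← sq_abs]; nlinarith [abs_nonneg ((j : ℝ) * u)]
      linarith
    have h6 := Finset.card_nsmul_le_sum _ _ _ this
    rw [Finset.card_range, nsmul_eq_mul] at h6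
    linarith
  exact h2.trans (Complex.re_le_norm _)

/-- Analytic functions are annihilated. -/
theorem integral_analytic {f : ℂ → ℂ} (hf : DifferentiableOn ℂ f (ball 0 1))
    (hc : ContinuousOn f (closedBall 0 1)) (θ : ℝ) (m : ℕ) :
    ∫ u in (-Real.pi)..Real.pi, f (pt θ u) * Tk m u = 0 := by
  set F : ℂ → ℂ := fun z => f (e1 θ * z) * Sm m z ^ 4 with hF
  have hmaps : MapsTo (fun z : ℂ => e1 θ * z) (closedBall 0 1) (closedBall 0 1) := by
    intro z hz
    simpa [norm_mul, norm_e1] using hz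
  have hmaps' : MapsTo (fun z : ℂ => e1 θ * z) (ball 0 1) (ball 0 1) := by
    intro z hz
    simpa [norm_mul, norm_e1] using hz
  have hS : Differentiable ℂ (Sm m) := by unfold Sm; fun_prop
  have hFc : ContinuousOn F (closedBall 0 1) :=
    (hc.comp (by fun_prop) hmaps).mul (hS.continuous.pow 4).continuousOn
  have hFd : DifferentiableOn ℂ F (ball 0 1) :=
    (hf.comp (by fun_prop) hmaps').mul (hS.pow 4).differentiableOn
  have h0 := circleIntegral_eq_zero_of_differentiable_on_off_countable (R := 1) zero_le_one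
    countable_empty hFc (fun z hz => hFd.differentiableAt (isOpen_ball.mem_nhds hz.1))
  rw [circleIntegral] at h0
  have e : ∀ u : ℝ, deriv (circleMap 0 1) u • F (circleMap 0 1 u) =
      I * (f (pt θ u) * Tk m u) := by
    intro u
    rw [deriv_circleMap]
    have h1 : circleMap 0 1 u = e1 u := by simp [circleMap, e1]
    rw [h1, hF]
    simp only
    rw [← pt_eq]
    unfold Tk
    simp only [smul_eq_mul]
    ring
  simp only [e] at h0
  rw [intervalIntegral.integral_const_mul] at h0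
  have h1 := (mul_eq_zero.1 h0).resolve_left I_ne_zero
  have hper : Function.Periodic (fun u : ℝ => f (pt θ u) * Tk m u) (2 * Real.pi) := by
    intro u
    have h1 : pt θ (u + 2 * Real.pi) = pt θ u := by
      unfold pt
      rw [show ((θ + (u + 2 * Real.pi) : ℝ) : ℂ) * I = ((θ + u : ℝ) : ℂ) * I +
        2 * Real.pi * I by push_cast; ring, Complex.exp_periodic]
    have h2 : e1 (u + 2 * Real.pi) = e1 u := by
      unfold e1
      rw [show ((u + 2 * Real.pi : ℝ) : ℂ) * I = (u : ℂ) * I +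
        2 * Real.pi * I by push_cast; ring, Complex.exp_periodic]
    simp only [h1, Tk, h2]
  have h2 := hper.intervalIntegral_add_eq (-Real.pi) 0
  rw [show -Real.pi + 2 * Real.pi = Real.pi by ring, zero_add] at h2
  rw [h2, h1]

/-! ### Lipschitz functions -/

/-- The set of bounded functions of norm at most one with Lipschitz constant at most one. -/
def LK : Set (ℂ →ᵇ ℂ) := {φ | ‖φ‖ ≤ 1 ∧ ∀ z w : ℂ, ‖φ z - φ w‖ ≤ ‖z - w‖}

theorem LK_closed : IsClosed LK := by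
  have : LK = {φ : ℂ →ᵇ ℂ | ‖φ‖ ≤ 1} ∩ ⋂ z : ℂ, ⋂ w : ℂ,
      {φ : ℂ →ᵇ ℂ | ‖φ z - φ w‖ ≤ ‖z - w‖} := by
    ext φ; simp [LK]
  rw [this]
  refine (isClosed_le continuous_norm continuous_const).inter ?_
  refine isClosed_iInter fun z => isClosed_iInter fun w => ?_
  exact isClosed_le ((continuous_eval_const z).sub (continuous_eval_const w)).norm
    continuous_const

theorem LK_nonempty : LK.Nonempty := ⟨0, by simp [LK]⟩

theorem LK_convex : Convex ℝ LK := by
  intro φ hφ ψ hψ a b ha hb hab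
  refine ⟨?_, fun z w => ?_⟩
  · calc ‖a • φ + b • ψ‖ ≤ ‖a • φ‖ + ‖b • ψ‖ := norm_add_le _ _
      _ = a * ‖φ‖ + b * ‖ψ‖ := by
        rw [norm_smul, norm_smul, Real.norm_of_nonneg ha, Real.norm_of_nonneg hb]
      _ ≤ a * 1 + b * 1 := add_le_add (mul_le_mul_of_nonneg_left hφ.1 ha)
        (mul_le_mul_of_nonneg_left hψ.1 hb)
      _ = 1 := by linarith
  · have h1 := hφ.2 z w
    have h2 := hψ.2 z w
    have h3 : (a • φ + b • ψ) z - (a • φ + b • ψ) w =
        (a : ℂ) * (φ z - φ w) + (b : ℂ) * (ψ z - ψ w) := by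
      simp only [BoundedContinuousFunction.coe_add, BoundedContinuousFunction.coe_smul,
        Pi.add_apply, real_smul]
      ring
    rw [h3]
    calc _ ≤ ‖(a : ℂ) * (φ z - φ w)‖ + ‖(b : ℂ) * (ψ z - ψ w)‖ := norm_add_le _ _
      _ = a * ‖φ z - φ w‖ + b * ‖ψ z - ψ w‖ := by
        rw [norm_mul, norm_mul, Complex.norm_real, Complex.norm_real, Real.norm_of_nonneg ha,
          Real.norm_of_nonneg hb]
      _ ≤ a * ‖z - w‖ + b * ‖z - w‖ := add_le_add (mul_le_mul_of_nonneg_left h1 ha)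
        (mul_le_mul_of_nonneg_left h2 hb)
      _ = ‖z - w‖ := by rw [← add_mul, hab, one_mul]

theorem LK_zygC {φ : ℂ →ᵇ ℂ} (h : φ ∈ LK) : ZygC φ := by
  refine ⟨φ.continuous, 2, fun z k => ?_⟩
  have h1 := h.2 (z + k) z
  have h2 := h.2 (z - k) z
  have e : φ (z + k) + φ (z - k) - 2 * φ z = (φ (z + k) - φ z) + (φ (z - k) - φ z) := by ring
  rw [e]
  refine (norm_add_le _ _).trans ?_
  rw [show z + k - z = k by ring] at h1
  rw [show z - k - z = -k by ring, norm_neg] at h2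
  linarith

/-- The functional `φ ↦ ∫ φ T`. -/
noncomputable def LF (θ : ℝ) (m : ℕ) : (ℂ →ᵇ ℂ) →L[ℝ] ℂ :=
  LinearMap.mkContinuous
    { toFun := fun φ => ∫ u in (-Real.pi)..Real.pi, φ (pt θ u) * Tk m u
      map_add' := by
        intro φ ψ
        have h1 : ∀ χ : ℂ →ᵇ ℂ, IntervalIntegrable (fun u => χ (pt θ u) * Tk m u) volume
            (-Real.pi) Real.pi := fun χ =>
          ((χ.continuous.comp (continuous_pt θ)).mul (continuous_Tk m)).intervalIntegrable _ _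
        rw [← intervalIntegral.integral_add (h1 φ) (h1 ψ)]
        congr 1
        ext u
        simp only [BoundedContinuousFunction.coe_add, Pi.add_apply]
        ring
      map_smul' := by
        intro a φ
        simp only [BoundedContinuousFunction.coe_smul, RingHom.id_apply, real_smul]
        rw [← intervalIntegral.integral_const_mul]
        congr 1
        ext u
        ring }
    ((m : ℝ) ^ 4 * |Real.pi - -Real.pi|) (by
      intro φ
      simp only [LinearMap.coe_mk, AddHom.coe_mk]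
      have := intervalIntegral.norm_integral_le_of_norm_le_const (a := -Real.pi)
        (b := Real.pi) (f := fun u => φ (pt θ u) * Tk m u) (C := ‖φ‖ * (m : ℝ) ^ 4) (by
          intro u _
          rw [norm_mul]
          exact mul_le_mul (φ.norm_coe_le_norm _) (norm_Tk_le m u) (norm_nonneg _)
            (norm_nonneg _))
      refine this.trans (le_of_eq ?_)
      ring)

theorem LF_apply (θ : ℝ) (m : ℕ) (φ : ℂ →ᵇ ℂ) :
    LF θ m φ = ∫ u in (-Real.pi)..Real.pi, φ (pt θ u) * Tk m u := rfl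

/-! ### The oscillating test function -/

/-- Radial retraction to the closed disc. -/
noncomputable def ret (z : ℂ) : ℂ := z / ((max 1 ‖z‖ : ℝ) : ℂ)

theorem norm_ret_le (z : ℂ) : ‖ret z‖ ≤ 1 := by
  unfold ret
  have : 0 < max 1 ‖z‖ := lt_max_of_lt_left one_pos
  rw [norm_div, Complex.norm_real, Real.norm_of_nonneg this.le, div_le_one this]
  exact le_max_right _ _

theorem ret_lip (z w : ℂ) : ‖ret z - ret w‖ ≤ 2 * ‖z - w‖ := by
  unfold ret
  set a := max 1 ‖z‖ with ha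
  set b := max 1 ‖w‖ with hb
  have ha1 : 1 ≤ a := le_max_left _ _
  have hb1 : 1 ≤ b := le_max_left _ _
  have hwb : ‖w‖ ≤ b := le_max_right _ _
  have ha0 : (a : ℂ) ≠ 0 := by exact_mod_cast (by linarith : a ≠ 0)
  have hb0 : (b : ℂ) ≠ 0 := by exact_mod_cast (by linarith : b ≠ 0)
  have hab : |b - a| ≤ ‖z - w‖ := by
    rw [ha, hb]
    refine (abs_max_sub_max_le_max _ _ _ _).trans ?_
    rw [sub_self, abs_zero]
    refine max_le (norm_nonneg _) ?_
    rw [norm_sub_rev]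
    exact abs_norm_sub_norm_le _ _
  have e : z / (a : ℂ) - w / (b : ℂ) = (z - w) / (a : ℂ) + (w / (b : ℂ)) * (((b - a : ℝ) : ℂ) / a) := by
    field_simp
    push_cast
    ring
  rw [e]
  have h1 : ‖(z - w) / (a : ℂ)‖ ≤ ‖z - w‖ := by
    rw [norm_div, Complex.norm_real, Real.norm_of_nonneg (by linarith)]
    exact div_le_self (norm_nonneg _) ha1
  have h2 : ‖(w / (b : ℂ)) * (((b - a : ℝ) : ℂ) / a)‖ ≤ ‖z - w‖ := by
    rw [norm_mul, norm_div, norm_div, Complex.norm_real, Complex.norm_real, Complex.norm_real,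
      Real.norm_of_nonneg (by linarith : 0 ≤ a), Real.norm_of_nonneg (by linarith : 0 ≤ b),
      Real.norm_eq_abs]
    calc ‖w‖ / b * (|b - a| / a) ≤ 1 * (|b - a| / 1) := by
          gcongr
          · rw [div_le_one (by linarith)]; exact hwb
      _ ≤ ‖z - w‖ := by simpa using hab
  calc _ ≤ _ := norm_add_le _ _
    _ ≤ ‖z - w‖ + ‖z - w‖ := add_le_add h1 h2
    _ = 2 * ‖z - w‖ := by ring

theorem pow_lip {a b : ℂ} (ha : ‖a‖ ≤ 1) (hb : ‖b‖ ≤ 1) (n : ℕ) :
    ‖a ^ n - b ^ n‖ ≤ n * ‖a - b‖ := by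
  induction n with
  | zero => simp
  | succ n ih =>
    have e : a ^ (n + 1) - b ^ (n + 1) = (a ^ n - b ^ n) * a + b ^ n * (a - b) := by ring
    rw [e]
    have h1 : ‖(a ^ n - b ^ n) * a‖ ≤ n * ‖a - b‖ := by
      rw [norm_mul]
      calc ‖a ^ n - b ^ n‖ * ‖a‖ ≤ ‖a ^ n - b ^ n‖ * 1 := by gcongr
        _ ≤ n * ‖a - b‖ := by rw [mul_one]; exact ih
    have h2 : ‖b ^ n * (a - b)‖ ≤ ‖a - b‖ := by
      rw [norm_mul, norm_pow]
      calc ‖b‖ ^ n * ‖a - b‖ ≤ 1 * ‖a - b‖ := by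
            gcongr
            exact pow_le_one₀ (norm_nonneg _) hb
        _ = ‖a - b‖ := one_mul _
    push_cast
    calc _ ≤ _ := norm_add_le _ _
      _ ≤ n * ‖a - b‖ + ‖a - b‖ := add_le_add h1 h2
      _ = (n + 1) * ‖a - b‖ := by ring

/-- The oscillating function. -/
noncomputable def osc (θ : ℝ) (m : ℕ) (z : ℂ) : ℂ :=
  ((4 * m : ℝ) : ℂ)⁻¹ * ((starRingEnd ℂ) ((starRingEnd ℂ) (e1 θ) * ret z)) ^ (2 * m - 1)

theorem osc_lip (θ : ℝ) (m : ℕ) (hm : 1 ≤ m) (z w : ℂ) :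
    ‖osc θ m z - osc θ m w‖ ≤ ‖z - w‖ := by
  have hm0 : (0 : ℝ) < m := by exact_mod_cast hm
  unfold osc
  rw [← mul_sub, norm_mul, norm_inv, Complex.norm_real, Real.norm_of_nonneg (by positivity)]
  have hn : ∀ v : ℂ, ‖(starRingEnd ℂ) ((starRingEnd ℂ) (e1 θ) * ret v)‖ ≤ 1 := by
    intro v
    rw [Complex.norm_conj, norm_mul, Complex.norm_conj, norm_e1, one_mul]
    exact norm_ret_le v
  have h1 := pow_lip (hn z) (hn w) (2 * m - 1)
  have h2 : ‖(starRingEnd ℂ) ((starRingEnd ℂ) (e1 θ) * ret z) -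
      (starRingEnd ℂ) ((starRingEnd ℂ) (e1 θ) * ret w)‖ ≤ 2 * ‖z - w‖ := by
    rw [← map_sub, Complex.norm_conj, ← mul_sub, norm_mul, Complex.norm_conj, norm_e1, one_mul]
    exact ret_lip z w
  have h3 : ((2 * m - 1 : ℕ) : ℝ) ≤ 2 * m := by
    have : 2 * m - 1 ≤ 2 * m := Nat.sub_le _ _
    exact_mod_cast this
  rw [inv_mul_le_iff₀ (by positivity)]
  calc _ ≤ _ := h1
    _ ≤ (2 * m) * (2 * ‖z - w‖) := by gcongr
    _ = 4 * m * ‖z - w‖ := by ring

theorem osc_bdd (θ : ℝ) (m : ℕ) (hm : 1 ≤ m) (z : ℂ) : ‖osc θ m z‖ ≤ 1 := by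
  have hm0 : (1 : ℝ) ≤ m := by exact_mod_cast hm
  unfold osc
  rw [norm_mul, norm_inv, Complex.norm_real, Real.norm_of_nonneg (by positivity), norm_pow]
  have hn : ‖(starRingEnd ℂ) ((starRingEnd ℂ) (e1 θ) * ret z)‖ ≤ 1 := by
    rw [Complex.norm_conj, norm_mul, Complex.norm_conj, norm_e1, one_mul]
    exact norm_ret_le z
  rw [inv_mul_le_iff₀ (by positivity)]
  calc _ ≤ (1 : ℝ) := pow_le_one₀ (norm_nonneg _) hn
    _ ≤ 4 * m * 1 := by linarith

theorem osc_pt (θ : ℝ) (m : ℕ) (u : ℝ) :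
    osc θ m (pt θ u) = ((4 * m : ℝ) : ℂ)⁻¹ * (starRingEnd ℂ) (e1 u) ^ (2 * m - 1) := by
  unfold osc
  have h1 : ret (pt θ u) = pt θ u := by
    unfold ret
    rw [norm_pt]; simp
  rw [h1, pt_eq, ← mul_assoc, conj_e1, one_mul]

theorem exists_osc (θ : ℝ) (m : ℕ) (hm : 1 ≤ m) :
    ∃ φ ∈ LK, (m : ℝ) ^ 2 / 32 ≤ ‖LF θ m φ‖ := by
  have hm0 : (0 : ℝ) < m := by exact_mod_cast hm
  have hcont : Continuous (osc θ m) := by
    refine LipschitzWith.continuous (K := 1) ?_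
    refine LipschitzWith.of_dist_le_mul fun z w => ?_
    rw [dist_eq_norm, dist_eq_norm]
    simpa using osc_lip θ m hm z w
  refine ⟨BoundedContinuousFunction.ofNormedAddCommGroup (osc θ m) hcont 1 (osc_bdd θ m hm),
    ⟨BoundedContinuousFunction.norm_ofNormedAddCommGroup_le _ zero_le_one _,
      fun z w => osc_lip θ m hm z w⟩, ?_⟩
  rw [LF_apply]
  have e : ∀ u : ℝ, (BoundedContinuousFunction.ofNormedAddCommGroup (osc θ m) hcont 1
      (osc_bdd θ m hm)) (pt θ u) * Tk m u =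
      (((4 * (m : ℝ))⁻¹ * ‖Sm m (e1 u)‖ ^ 4 : ℝ) : ℂ) := by
    intro u
    show osc θ m (pt θ u) * Tk m u = _
    rw [osc_pt, mul_assoc, Tk_conj m hm]
    push_cast
    ring
  simp only [e]
  rw [intervalIntegral.integral_ofReal, Complex.norm_real, intervalIntegral.integral_const_mul,
    Real.norm_eq_abs]
  refine le_trans ?_ (le_abs_self _)
  have hpi := Real.pi_gt_three
  have h1m : (1 : ℝ) / m ≤ 1 := by
    rw [div_le_one hm0]; exact_mod_cast hm
  have hSc : Continuous fun u : ℝ => ‖Sm m (e1 u)‖ ^ 4 := by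
    unfold Sm
    have := continuous_e1
    fun_prop
  have h2 : ∫ u in (-(1 / m : ℝ))..(1 / m : ℝ), ‖Sm m (e1 u)‖ ^ 4 ≤
      ∫ u in (-Real.pi)..Real.pi, ‖Sm m (e1 u)‖ ^ 4 := by
    apply intervalIntegral.integral_mono_interval
    · linarith
    · have : (0 : ℝ) < 1 / m := by positivity
      linarith
    · linarith
    · exact Filter.Eventually.of_forall fun u => by positivity
    · exact hSc.intervalIntegrable _ _
  have h3 : ∫ u in (-(1 / m : ℝ))..(1 / m : ℝ), ((m : ℝ) / 2) ^ 4 ≤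
      ∫ u in (-(1 / m : ℝ))..(1 / m : ℝ), ‖Sm m (e1 u)‖ ^ 4 := by
    apply intervalIntegral.integral_mono_on
    · have : (0 : ℝ) < 1 / m := by positivity
      linarith
    · exact intervalIntegrable_const
    · exact hSc.intervalIntegrable _ _
    · intro u hu
      have : (m : ℝ) / 2 ≤ ‖Sm m (e1 u)‖ := Sm_lower m hm (abs_le.2 ⟨hu.1, hu.2⟩)
      gcongr
  rw [intervalIntegral.integral_const, smul_eq_mul] at h3
  have h4 : (4 * (m : ℝ))⁻¹ * ((1 / m - -(1 / m)) * (m / 2) ^ 4) = (m : ℝ) ^ 2 / 32 := by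
    field_simp
    norm_num
  rw [← h4]
  have h5 : (0 : ℝ) ≤ (4 * (m : ℝ))⁻¹ := by positivity
  exact mul_le_mul_of_nonneg_left (h3.trans h2) h5

end Pool.Agent.H82.Zyg
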