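import Mathlib
import Pool.Agent.H82.Zyg.Kernel
import Pool.Agent.H82.Zyg.SecondDeriv

/-!
# T3: necessity of condition (K)
-/

namespace Pool.Agent.H82.Zyg

open Complex Metric Set MeasureTheory
open scoped BoundedContinuousFunction

theorem kap_le {x y z : ℂ} (hx : ‖x‖ ≤ 1) (hxy : x ≠ y) (h : ‖x - y‖ ≤ ‖x - z‖) :
    kap x y z ≤ 1 + Real.log (‖x - z‖ / ‖x - y‖) := by
  have hr : 0 < ‖x - y‖ := norm_pos_iff.2 (sub_ne_zero.2 hxy)
  set r := ‖x - y‖ with hrdef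
  set R := ‖x - z‖ with hRdef
  have hR : 0 < R := hr.trans_le h
  unfold kap
  rw [← hrdef, ← hRdef]
  set η := 1 - ‖x‖
  have hη : 0 ≤ η := by simp only [η]; linarith
  have hM0 : 0 < max R η := lt_max_of_lt_left hR
  have hm0 : 0 < max r η := lt_max_of_lt_left hr
  have h1 : R / max R η ≤ 1 := by
    rw [div_le_one hM0]; exact le_max_left _ _
  have h2 : max R η / max r η ≤ R / r := by
    rw [div_le_div_iff₀ hm0 hr]
    rcases le_total R η with h3 | h3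
    · rw [max_eq_right h3, max_eq_right (h.trans h3)]
      nlinarith
    · rw [max_eq_left h3]
      exact mul_le_mul_of_nonneg_left (le_max_left _ _) hR.le
  have h3 : 0 ≤ Real.log (max R η / max r η) := Real.log_nonneg (one_le_max_ratio hr h)
  have h4 : Real.log (max R η / max r η) ≤ Real.log (R / r) :=
    Real.log_le_log (by positivity) h2
  have h5 : 0 ≤ R / max R η := by positivity
  nlinarith

/-- The slope comparison property of `f` with constant `D`. -/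
def SlopeCmp (f : ℂ → ℂ) (D : ℝ) : Prop :=
  ∀ x y z : ℂ, ‖x‖ ≤ 1 → ‖y‖ ≤ 1 → ‖z‖ ≤ 1 → x ≠ y → ‖x - y‖ ≤ ‖x - z‖ →
    ‖dq f x y - dq f x z‖ ≤ D * (1 + Real.log (‖x - z‖ / ‖x - y‖))

theorem exists_slopeCmp {f : ℂ → ℂ} (hf : LamStar f) : ∃ D : ℝ, 0 ≤ D ∧ SlopeCmp f D := by
  obtain ⟨K1, hK1, hSD⟩ := second_deriv_bound
  obtain ⟨K2, hK2, hLA⟩ := local_affine
  obtain ⟨hf1, hf2, Cf, hCf⟩ := hf
  have hCf0 : 0 ≤ Cf := by
    have := (norm_nonneg _).trans (hCf 0 1)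
    simpa using this
  have h2 := hSD f Cf hf1 hf2 hCf
  have hA : 0 ≤ K1 * Cf := by positivity
  have h3 := hLA f (K1 * Cf) hf1 hf2 h2
  refine ⟨4 * (K1 * Cf) + 2 * (K2 * (K1 * Cf)), by positivity, ?_⟩
  intro x y z hx hy hz hxy hle
  have := dq_diff_le hA (by positivity : 0 ≤ K2 * (K1 * Cf)) slope_change hf1 h2 h3 hx hy hz hxy hle
  refine this.trans ?_
  exact mul_le_mul_of_nonneg_left (kap_le hx hxy hle) (by positivity)

theorem norm_sub_eq_dq (f : ℂ → ℂ) {x y : ℂ} (hxy : x ≠ y) :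
    ‖f x - f y‖ = ‖dq f x y‖ * ‖x - y‖ := by
  unfold dq
  rw [norm_div, div_mul_cancel₀]
  exact norm_ne_zero_iff.2 (sub_ne_zero.2 hxy)

theorem dq_le_one {f φ : ℂ → ℂ} (hφ : ∀ z w : ℂ, ‖φ z - φ w‖ ≤ ‖z - w‖) {x y : ℂ}
    (hfx : f x = φ x) (hfy : f y = φ y) (hxy : x ≠ y) : ‖dq f x y‖ ≤ 1 := by
  unfold dq
  rw [hfx, hfy, norm_div, div_le_one (norm_pos_iff.2 (sub_ne_zero.2 hxy))]
  exact hφ x y

/-- Close to a point of `X`. -/
theorem g_inner {f φ : ℂ → ℂ} {D : ℝ} (hD : 0 ≤ D) (hf : SlopeCmp f D)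
    (hφ : ∀ z w : ℂ, ‖φ z - φ w‖ ≤ ‖z - w‖) {x y p : ℂ} (hx : ‖x‖ ≤ 1) (hy : ‖y‖ ≤ 1)
    (hp : ‖p‖ ≤ 1) (hfx : f x = φ x) (hfy : f y = φ y) (hle : ‖x - p‖ ≤ ‖x - y‖) {R : ℝ}
    (hR : ‖x - y‖ ≤ R) : ‖f p - φ p‖ ≤ (2 + 3 * D) * Real.sqrt (R * ‖x - p‖) := by
  rcases eq_or_ne x p with rfl | hxp
  · rw [hfx]; simp
  have hr : 0 < ‖x - p‖ := norm_pos_iff.2 (sub_ne_zero.2 hxp)
  have hxy : x ≠ y := sub_ne_zero.1 (norm_pos_iff.1 (hr.trans_le hle))
  have h1 := hf x p y hx hp hy hxp hle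
  have h2 := dq_le_one hφ hfx hfy hxy
  set r := ‖x - p‖ with hrdef
  have hR0 : 0 < R := hr.trans_le (hle.trans hR)
  have h3 : ‖dq f x p‖ ≤ 1 + D * (1 + Real.log (R / r)) := by
    have e : dq f x p = (dq f x p - dq f x y) + dq f x y := by ring
    rw [e]
    have h4 : Real.log (‖x - y‖ / r) ≤ Real.log (R / r) :=
      Real.log_le_log (div_pos (hr.trans_le hle) hr) (by gcongr)
    have h5 := norm_add_le (dq f x p - dq f x y) (dq f x y)
    have h6 : D * (1 + Real.log (‖x - y‖ / r)) ≤ D * (1 + Real.log (R / r)) := by gcongr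
    linarith
  have h4 : ‖f x - f p‖ ≤ (1 + D * (1 + Real.log (R / r))) * r := by
    rw [norm_sub_eq_dq f hxp, ← hrdef]
    gcongr
  have h5 : ‖φ x - φ p‖ ≤ r := hφ x p
  have h6 : ‖f p - φ p‖ ≤ ‖f x - f p‖ + ‖φ x - φ p‖ := by
    have e : f p - φ p = -(f x - f p) + (φ x - φ p) := by rw [hfx]; ring
    rw [e]
    refine (norm_add_le _ _).trans ?_
    rw [norm_neg]
  have hv : 1 ≤ R / r := by rw [le_div_iff₀ hr]; linarith
  set v := Real.sqrt (R / r) with hvdef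
  have hv2 : v ^ 2 = R / r := Real.sq_sqrt (by positivity)
  have hv1 : 1 ≤ v := by
    rw [hvdef]; exact Real.one_le_sqrt.2 hv
  have h7 : Real.log (R / r) ≤ 2 * v := by
    rw [← hv2, Real.log_pow]
    have := Real.log_le_sub_one_of_pos (x := v) (by linarith)
    push_cast
    linarith
  have h8 : Real.sqrt (R * r) = v * r := by
    rw [hvdef]
    rw [show R * r = (R / r) * r ^ 2 by field_simp, Real.sqrt_mul (by positivity),
      Real.sqrt_sq hr.le]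
  rw [h8]
  have h9 : D * Real.log (R / r) ≤ D * (2 * v) := by gcongr
  nlinarith [mul_nonneg hD hr.le, mul_nonneg hD (by linarith : 0 ≤ v - 1),
    mul_nonneg (mul_nonneg hD (by linarith : 0 ≤ v - 1)) hr.le,
    mul_nonneg (by linarith : 0 ≤ v - 1) hr.le,
    mul_nonneg (by linarith : 0 ≤ D * (2 * v) - D * Real.log (R / r)) hr.le]

/-- Away from the arc. -/
theorem g_outer {f φ : ℂ → ℂ} {D : ℝ} (hf : SlopeCmp f D)
    (hφ : ∀ z w : ℂ, ‖φ z - φ w‖ ≤ ‖z - w‖) {x y p : ℂ} (hx : ‖x‖ ≤ 1) (hy : ‖y‖ ≤ 1)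
    (hp : ‖p‖ ≤ 1) (hfx : f x = φ x) (hfy : f y = φ y) (hxy : x ≠ y)
    (hle : ‖x - y‖ ≤ ‖x - p‖) :
    ‖f p - φ p‖ ≤ ‖x - p‖ * (2 + D * (1 + Real.log (‖x - p‖ / ‖x - y‖))) := by
  have hr : 0 < ‖x - y‖ := norm_pos_iff.2 (sub_ne_zero.2 hxy)
  have hxp : x ≠ p := sub_ne_zero.1 (norm_pos_iff.1 (hr.trans_le hle))
  have h1 := hf x y p hx hy hp hxy hle
  have h2 := dq_le_one hφ hfx hfy hxy
  have h3 : ‖dq f x p‖ ≤ 1 + D * (1 + Real.log (‖x - p‖ / ‖x - y‖)) := by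
    have e : dq f x p = dq f x y - (dq f x y - dq f x p) := by ring
    rw [e]
    refine (norm_sub_le _ _).trans ?_
    linarith
  have h4 : ‖f x - f p‖ ≤ (1 + D * (1 + Real.log (‖x - p‖ / ‖x - y‖))) * ‖x - p‖ := by
    rw [norm_sub_eq_dq f hxp]
    gcongr
  have h5 : ‖φ x - φ p‖ ≤ ‖x - p‖ := hφ x p
  have h6 : ‖f p - φ p‖ ≤ ‖f x - f p‖ + ‖φ x - φ p‖ := by
    have e : f p - φ p = -(f x - f p) + (φ x - φ p) := by rw [hfx]; ring
    rw [e]
    refine (norm_add_le _ _).trans ?_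
    rw [norm_neg]
  linarith

/-- The density hypothesis on an arc with centre `e^{iθ}` and half length `4r`. -/
def Dense (X : Set ℂ) (θ r c : ℝ) : Prop :=
  ∀ u : ℝ, |u| ≤ 4 * r → ∃ x ∈ X, ‖pt θ u - x‖ < 8 * c * r

theorem inner_bound {X : Set ℂ} (hX : X ⊆ closedBall 0 1) {θ r c : ℝ} (hr : 0 < r)
    (hr1 : 4 * r ≤ Real.pi) (hc : 0 < c) (hc1 : c ≤ 1 / 400) (hd : Dense X θ r c)
    {f φ : ℂ → ℂ} {D : ℝ} (hD : 0 ≤ D) (hf : SlopeCmp f D)
    (hφ : ∀ z w : ℂ, ‖φ z - φ w‖ ≤ ‖z - w‖) (hfφ : ∀ x ∈ X, f x = φ x) {u : ℝ}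
    (hu : |u| ≤ r) : ‖f (pt θ u) - φ (pt θ u)‖ ≤ (2 + 3 * D) * 6 * (Real.sqrt c * r) := by
  have hu' := abs_le.1 hu
  obtain ⟨x, hx, hxd⟩ := hd u (by linarith)
  obtain ⟨y, hy, hyd⟩ := hd (2 * r) (by rw [abs_of_pos (by linarith)]; linarith)
  have hx1 : ‖x‖ ≤ 1 := by simpa using hX hx
  have hy1 : ‖y‖ ≤ 1 := by simpa using hX hy
  have hcr : c * r ≤ r / 400 := by nlinarith
  have hdist1 : |u - 2 * r| = 2 * r - u := by
    rw [abs_of_nonpos (by linarith)]; ring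
  have h1 : 1 / 2 * r ≤ ‖pt θ u - pt θ (2 * r)‖ := by
    refine le_trans ?_ (pt_dist_ge θ u (2 * r) (by rw [hdist1]; linarith))
    rw [hdist1]; linarith
  have h2 : ‖pt θ u - pt θ (2 * r)‖ ≤ 3 * r := by
    refine (pt_dist_le θ u (2 * r)).trans ?_
    rw [hdist1]; linarith
  have hxd' : ‖x - pt θ u‖ < 8 * c * r := by rwa [norm_sub_rev]
  have h3 : ‖x - y‖ ≤ 4 * r := by
    have e : x - y = (x - pt θ u) + (pt θ u - pt θ (2 * r)) + (pt θ (2 * r) - y) := by ring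
    rw [e]
    have := norm_add_le ((x - pt θ u) + (pt θ u - pt θ (2 * r))) (pt θ (2 * r) - y)
    have := norm_add_le (x - pt θ u) (pt θ u - pt θ (2 * r))
    linarith
  have h4 : ‖x - pt θ u‖ ≤ ‖x - y‖ := by
    have e : pt θ u - pt θ (2 * r) = -(x - pt θ u) + (x - y) + -(pt θ (2 * r) - y) := by ring
    have h5 : ‖pt θ u - pt θ (2 * r)‖ ≤ ‖x - pt θ u‖ + ‖x - y‖ + ‖pt θ (2 * r) - y‖ := by
      rw [e]
      refine (norm_add_le _ _).trans ?_
      rw [norm_neg]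
      gcongr
      refine (norm_add_le _ _).trans ?_
      rw [norm_neg]
    linarith
  have h5 := g_inner hD hf hφ hx1 hy1 (norm_pt θ u).le (hfφ x hx) (hfφ y hy) h4 h3
  refine h5.trans ?_
  have h6 : Real.sqrt (4 * r * ‖x - pt θ u‖) ≤ 6 * (Real.sqrt c * r) := by
    rw [Real.sqrt_le_left (by positivity)]
    rw [mul_pow, mul_pow, Real.sq_sqrt hc.le]
    nlinarith [norm_nonneg (x - pt θ u)]
  have : (2 + 3 * D) * Real.sqrt (4 * r * ‖x - pt θ u‖) ≤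
      (2 + 3 * D) * (6 * (Real.sqrt c * r)) := by gcongr
  linarith

theorem outer_bound {X : Set ℂ} (hX : X ⊆ closedBall 0 1) {θ r c : ℝ} (hr : 0 < r)
    (hr1 : 4 * r ≤ Real.pi) (hc1 : c ≤ 1 / 400) (hd : Dense X θ r c)
    {f φ : ℂ → ℂ} {D : ℝ} (hD : 0 ≤ D) (hf : SlopeCmp f D)
    (hφ : ∀ z w : ℂ, ‖φ z - φ w‖ ≤ ‖z - w‖) (hfφ : ∀ x ∈ X, f x = φ x) {u : ℝ}
    (hu : r ≤ |u|) (hu2 : |u| ≤ Real.pi) :
    ‖f (pt θ u) - φ (pt θ u)‖ ≤ (4 + 64 * D) / r * u ^ 2 := by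
  obtain ⟨x, hx, hxd⟩ := hd 0 (by rw [abs_zero]; linarith)
  obtain ⟨y, hy, hyd⟩ := hd (r / 4) (by rw [abs_of_pos (by linarith)]; linarith)
  have hx1 : ‖x‖ ≤ 1 := by simpa using hX hx
  have hy1 : ‖y‖ ≤ 1 := by simpa using hX hy
  have hcr : c * r ≤ r / 400 := by nlinarith
  have hu0 : 0 < |u| := hr.trans_le hu
  have hdist1 : |0 - r / 4| = r / 4 := by
    rw [abs_of_nonpos (by linarith)]; ring
  have h1 : 1 / 2 * (r / 4) ≤ ‖pt θ 0 - pt θ (r / 4)‖ := by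
    refine le_trans ?_ (pt_dist_ge θ 0 (r / 4) (by rw [hdist1]; linarith))
    rw [hdist1]
  have h2 : ‖pt θ 0 - pt θ (r / 4)‖ ≤ r / 4 := by
    refine (pt_dist_le θ 0 (r / 4)).trans ?_
    rw [hdist1]
  have hdist2 : |0 - u| = |u| := by rw [zero_sub, abs_neg]
  have h3 : 1 / 2 * |u| ≤ ‖pt θ 0 - pt θ u‖ := by
    refine le_trans ?_ (pt_dist_ge θ 0 u (by rw [hdist2]; linarith))
    rw [hdist2]
  have h4 : ‖pt θ 0 - pt θ u‖ ≤ |u| := by
    refine (pt_dist_le θ 0 u).trans ?_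
    rw [hdist2]
  have hxd' : ‖x - pt θ 0‖ < 8 * c * r := by rwa [norm_sub_rev]
  have h5 : ‖x - pt θ u‖ ≤ 2 * |u| := by
    have e : x - pt θ u = (x - pt θ 0) + (pt θ 0 - pt θ u) := by ring
    rw [e]
    have := norm_add_le (x - pt θ 0) (pt θ 0 - pt θ u)
    linarith
  have h6 : 1 / 2 * |u| - 8 * c * r ≤ ‖x - pt θ u‖ := by
    have e : pt θ 0 - pt θ u = -(x - pt θ 0) + (x - pt θ u) := by ring
    have : ‖pt θ 0 - pt θ u‖ ≤ ‖x - pt θ 0‖ + ‖x - pt θ u‖ := by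
      rw [e]
      refine (norm_add_le _ _).trans ?_
      rw [norm_neg]
    linarith
  have h7 : ‖x - y‖ ≤ r / 4 + 16 * c * r := by
    have e : x - y = (x - pt θ 0) + (pt θ 0 - pt θ (r / 4)) + (pt θ (r / 4) - y) := by ring
    rw [e]
    have := norm_add_le ((x - pt θ 0) + (pt θ 0 - pt θ (r / 4))) (pt θ (r / 4) - y)
    have := norm_add_le (x - pt θ 0) (pt θ 0 - pt θ (r / 4))
    linarith
  have h8 : r / 16 ≤ ‖x - y‖ := by
    have e : pt θ 0 - pt θ (r / 4) = -(x - pt θ 0) + (x - y) + -(pt θ (r / 4) - y) := by ring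
    have h5 : ‖pt θ 0 - pt θ (r / 4)‖ ≤ ‖x - pt θ 0‖ + ‖x - y‖ + ‖pt θ (r / 4) - y‖ := by
      rw [e]
      refine (norm_add_le _ _).trans ?_
      rw [norm_neg]
      gcongr
      refine (norm_add_le _ _).trans ?_
      rw [norm_neg]
    linarith
  have hxy : x ≠ y := by
    rintro rfl
    rw [sub_self, norm_zero] at h8
    linarith
  have hle : ‖x - y‖ ≤ ‖x - pt θ u‖ := by linarith
  have h9 := g_outer hf hφ hx1 hy1 (norm_pt θ u).le (hfφ x hx) (hfφ y hy) hxy hle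
  refine h9.trans ?_
  have hxy0 : 0 < ‖x - y‖ := by linarith
  have hxp0 : 0 < ‖x - pt θ u‖ := hxy0.trans_le hle
  have h10 : ‖x - pt θ u‖ / ‖x - y‖ ≤ 32 * (|u| / r) := by
    rw [div_le_iff₀ hxy0]
    calc ‖x - pt θ u‖ ≤ 2 * |u| := h5
      _ = 32 * (|u| / r) * (r / 16) := by field_simp; norm_num
      _ ≤ _ := by gcongr
  have h11 : 1 + Real.log (‖x - pt θ u‖ / ‖x - y‖) ≤ 32 * (|u| / r) := by
    have := Real.log_le_sub_one_of_pos (x := ‖x - pt θ u‖ / ‖x - y‖) (by positivity)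
    linarith
  have h12 : 1 ≤ |u| / r := by rw [le_div_iff₀ hr]; linarith
  have h13 : 2 + D * (1 + Real.log (‖x - pt θ u‖ / ‖x - y‖)) ≤ (2 + 32 * D) * (|u| / r) := by
    have : D * (1 + Real.log (‖x - pt θ u‖ / ‖x - y‖)) ≤ D * (32 * (|u| / r)) := by gcongr
    linarith
  have h14 : 0 ≤ 2 + D * (1 + Real.log (‖x - pt θ u‖ / ‖x - y‖)) := by
    have : 0 ≤ Real.log (‖x - pt θ u‖ / ‖x - y‖) := by
      apply Real.log_nonneg
      rw [le_div_iff₀ hxy0]; linarith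
    positivity
  calc ‖x - pt θ u‖ * (2 + D * (1 + Real.log (‖x - pt θ u‖ / ‖x - y‖)))
      ≤ (2 * |u|) * ((2 + 32 * D) * (|u| / r)) := by gcongr
    _ = (4 + 64 * D) / r * |u| ^ 2 := by ring
    _ = (4 + 64 * D) / r * u ^ 2 := by rw [sq_abs]

/-- The estimate of the functional for a single function. -/
theorem LF_bound {X : Set ℂ} (hX : X ⊆ closedBall 0 1) {θ r c : ℝ} (hr : 0 < r)
    (hr1 : 4 * r ≤ Real.pi) (hc : 0 < c) (hc1 : c ≤ 1 / 400) (hd : Dense X θ r c)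
    {f : ℂ → ℂ} (hL : LamStar f) {φ : ℂ →ᵇ ℂ} {D : ℝ} (hD : 0 ≤ D) (hf : SlopeCmp f D)
    (hφ : ∀ z w : ℂ, ‖φ z - φ w‖ ≤ ‖z - w‖) (hfφ : ∀ x ∈ X, f x = φ x) (m : ℕ) :
    ‖LF θ m φ‖ ≤ (12 * (2 + 3 * D) + 512 * (4 + 64 * D)) *
      (Real.sqrt c * r ^ 2 * m ^ 4 + 1 / r ^ 2) := by
  have hpi := Real.pi_pos
  have hfc : Continuous fun u => f (pt θ u) := by
    have := hL.2.1
    refine this.comp_continuous (continuous_pt θ) fun u => ?_
    rw [mem_closedBall_zero_iff]; exact (norm_pt θ u).le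
  set g : ℝ → ℂ := fun u => (f (pt θ u) - φ (pt θ u)) * Tk m u with hg
  have hgc : Continuous g :=
    (hfc.sub (φ.continuous.comp (continuous_pt θ))).mul (continuous_Tk m)
  have hgi : ∀ a b : ℝ, IntervalIntegrable g volume a b := fun a b => hgc.intervalIntegrable a b
  have h1 : LF θ m φ = -∫ u in (-Real.pi)..Real.pi, g u := by
    have h0 := integral_analytic hL.1 hL.2.1 θ m
    have i1 : IntervalIntegrable (fun u => f (pt θ u) * Tk m u) volume (-Real.pi) Real.pi :=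
      (hfc.mul (continuous_Tk m)).intervalIntegrable _ _
    have i2 : IntervalIntegrable (fun u => φ (pt θ u) * Tk m u) volume (-Real.pi) Real.pi :=
      ((φ.continuous.comp (continuous_pt θ)).mul (continuous_Tk m)).intervalIntegrable _ _
    have : ∫ u in (-Real.pi)..Real.pi, g u =
        (∫ u in (-Real.pi)..Real.pi, f (pt θ u) * Tk m u) -
        ∫ u in (-Real.pi)..Real.pi, φ (pt θ u) * Tk m u := by
      rw [← intervalIntegral.integral_sub i1 i2]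
      congr 1
      ext u
      rw [hg]; ring
    rw [LF_apply, this, h0]
    ring
  have hsplit : ∫ u in (-Real.pi)..Real.pi, g u =
      (∫ u in (-Real.pi)..(-r), g u) + (∫ u in (-r)..r, g u) + ∫ u in r..Real.pi, g u := by
    rw [intervalIntegral.integral_add_adjacent_intervals (hgi _ _) (hgi _ _),
      intervalIntegral.integral_add_adjacent_intervals (hgi _ _) (hgi _ _)]
  -- inner part
  have hin : ‖∫ u in (-r)..r, g u‖ ≤ (2 + 3 * D) * 6 * (Real.sqrt c * r) * m ^ 4 * |r - -r| := by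
    apply intervalIntegral.norm_integral_le_of_norm_le_const
    intro u hu
    rw [uIoc_of_le (by linarith)] at hu
    rw [hg]
    simp only [norm_mul]
    have := inner_bound hX hr hr1 hc hc1 hd hD hf hφ hfφ (u := u)
      (abs_le.2 ⟨by linarith [hu.1], hu.2⟩)
    exact mul_le_mul this (norm_Tk_le m u) (norm_nonneg _) (by positivity)
  -- outer part
  have hout : ∀ u : ℝ, r ≤ |u| → |u| ≤ Real.pi → ‖g u‖ ≤ 256 * (4 + 64 * D) / r * u ^ (-2 : ℤ) := by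
    intro u hu1 hu2
    have hu0 : 0 < |u| := hr.trans_le hu1
    have hune : u ≠ 0 := abs_pos.1 hu0
    rw [hg]
    simp only [norm_mul]
    have k1 := outer_bound hX hr hr1 hc1 hd hD hf hφ hfφ hu1 hu2
    have k2 := norm_Tk_le' m hu0 hu2
    calc _ ≤ ((4 + 64 * D) / r * u ^ 2) * (256 / u ^ 4) :=
          mul_le_mul k1 k2 (norm_nonneg _) (by positivity)
      _ = 256 * (4 + 64 * D) / r * u ^ (-2 : ℤ) := by
          rw [zpow_neg]
          norm_cast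
          field_simp
  have hE0 : 0 ≤ 256 * (4 + 64 * D) / r := by positivity
  have hrpi : r ≤ Real.pi := by linarith
  have hright : ‖∫ u in r..Real.pi, g u‖ ≤ 256 * (4 + 64 * D) / r * (1 / r) := by
    have h0 : (0 : ℝ) ∉ uIcc r Real.pi := by
      rw [uIcc_of_le hrpi]; intro h; linarith [h.1]
    have := intervalIntegral.norm_integral_le_of_norm_le (f := g)
      (g := fun u => 256 * (4 + 64 * D) / r * u ^ (-2 : ℤ)) (μ := volume) hrpi
      (Filter.Eventually.of_forall fun u hu => by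
        have hu0 : 0 < u := hr.trans hu.1
        exact hout u (by rw [abs_of_pos hu0]; exact hu.1.le) (by rw [abs_of_pos hu0]; exact hu.2))
      ((intervalIntegral.intervalIntegrable_zpow (Or.inr h0)).const_mul _)
    refine this.trans ?_
    rw [intervalIntegral.integral_const_mul, integral_zpow (Or.inr ⟨by norm_num, h0⟩)]
    refine mul_le_mul_of_nonneg_left ?_ hE0
    have h3 : (0 : ℝ) ≤ Real.pi⁻¹ := by positivity
    have e : (Real.pi ^ ((-2 : ℤ) + 1) - r ^ ((-2 : ℤ) + 1)) / (((-2 : ℤ) : ℝ) + 1) =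
        r⁻¹ - Real.pi⁻¹ := by
      rw [show (-2 : ℤ) + 1 = -1 by norm_num, zpow_neg_one, zpow_neg_one]
      push_cast
      ring
    rw [e, one_div]
    linarith
  have hleft : ‖∫ u in (-Real.pi)..(-r), g u‖ ≤ 256 * (4 + 64 * D) / r * (1 / r) := by
    have h0 : (0 : ℝ) ∉ uIcc (-Real.pi) (-r) := by
      rw [uIcc_of_le (by linarith)]; intro h; linarith [h.2]
    have := intervalIntegral.norm_integral_le_of_norm_le (f := g)
      (g := fun u => 256 * (4 + 64 * D) / r * u ^ (-2 : ℤ)) (μ := volume)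
      (a := -Real.pi) (b := -r) (by linarith)
      (Filter.Eventually.of_forall fun u hu => by
        have hu0 : u < 0 := by linarith [hu.2]
        exact hout u (by rw [abs_of_neg hu0]; linarith [hu.2])
          (by rw [abs_of_neg hu0]; linarith [hu.1]))
      ((intervalIntegral.intervalIntegrable_zpow (Or.inr h0)).const_mul _)
    refine this.trans ?_
    rw [intervalIntegral.integral_const_mul, integral_zpow (Or.inr ⟨by norm_num, h0⟩)]
    refine mul_le_mul_of_nonneg_left ?_ hE0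
    have h3 : (0 : ℝ) ≤ Real.pi⁻¹ := by positivity
    have e : ((-r) ^ ((-2 : ℤ) + 1) - (-Real.pi) ^ ((-2 : ℤ) + 1)) / (((-2 : ℤ) : ℝ) + 1) =
        r⁻¹ - Real.pi⁻¹ := by
      rw [show (-2 : ℤ) + 1 = -1 by norm_num, zpow_neg_one, zpow_neg_one, inv_neg, inv_neg]
      push_cast
      ring
    rw [e, one_div]
    linarith
  rw [h1, norm_neg, hsplit]
  have hfin := (norm_add_le ((∫ u in (-Real.pi)..(-r), g u) + (∫ u in (-r)..r, g u))
    (∫ u in r..Real.pi, g u)).trans (add_le_add (norm_add_le _ _) le_rfl)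
  refine hfin.trans ?_
  have hrr : |r - -r| = 2 * r := by rw [abs_of_pos (by linarith)]; ring
  rw [hrr] at hin
  have t1 : (2 + 3 * D) * 6 * (Real.sqrt c * r) * m ^ 4 * (2 * r) =
      12 * (2 + 3 * D) * (Real.sqrt c * r ^ 2 * m ^ 4) := by ring
  have t2 : 256 * (4 + 64 * D) / r * (1 / r) = 256 * (4 + 64 * D) * (1 / r ^ 2) := by
    field_simp
  rw [t1] at hin
  rw [t2] at hleft hright
  have p1 : 0 ≤ Real.sqrt c * r ^ 2 * m ^ 4 := by positivity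
  have p2 : 0 ≤ 1 / r ^ 2 := by positivity
  have q1 : 0 ≤ 12 * (2 + 3 * D) * (1 / r ^ 2) := by positivity
  have q2 : 0 ≤ 512 * (4 + 64 * D) * (Real.sqrt c * r ^ 2 * m ^ 4) := by positivity
  linarith

/-- Uniform version. -/
theorem uniform_K {X : Set ℂ} (hX : X ⊆ closedBall 0 1) (h : IsInterp X) :
    ∃ C : ℝ, 0 ≤ C ∧ ∀ φ ∈ LK, ∀ (θ r c : ℝ) (m : ℕ), 0 < r → 4 * r ≤ Real.pi → 0 < c →
      c ≤ 1 / 400 → Dense X θ r c →
      ‖LF θ m φ‖ ≤ C * (Real.sqrt c * r ^ 2 * m ^ 4 + 1 / r ^ 2) := by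
  let ι : Type := {p : (ℝ × ℝ × ℝ) × ℕ // 0 < p.1.2.1 ∧ 4 * p.1.2.1 ≤ Real.pi ∧ 0 < p.1.2.2 ∧
    p.1.2.2 ≤ 1 / 400 ∧ Dense X p.1.1 p.1.2.1 p.1.2.2}
  obtain ⟨C, hC0, hC⟩ := baire_uniform LK_closed LK_nonempty LK_convex (fun φ hφ => hφ.1)
    (fun p : ι => LF p.1.1.1 p.1.2)
    (fun p : ι => Real.sqrt p.1.1.2.2 * p.1.1.2.1 ^ 2 * (p.1.2 : ℝ) ^ 4 + 1 / p.1.1.2.1 ^ 2)
    (fun p => by positivity) (by
      intro φ hφ
      obtain ⟨f, hL, hf⟩ := h φ (LK_zygC hφ)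
      obtain ⟨D, hD, hS⟩ := exists_slopeCmp hL
      refine ⟨12 * (2 + 3 * D) + 512 * (4 + 64 * D), fun p => ?_⟩
      obtain ⟨⟨⟨θ, r, c⟩, m⟩, hr, hr1, hc, hc1, hd⟩ := p
      exact LF_bound hX hr hr1 hc hc1 hd hL hD hS hφ.2 hf m)
  refine ⟨C, hC0, fun φ hφ θ r c m hr hr1 hc hc1 hd => ?_⟩
  exact hC φ hφ ⟨⟨⟨θ, r, c⟩, m⟩, hr, hr1, hc, hc1, hd⟩

theorem kcond_of_interp {X : Set ℂ} (hX : X ⊆ closedBall 0 1) (h : IsInterp X) :
    ∃ c > 0, KCond c X := by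
  obtain ⟨C, hC0, hC⟩ := uniform_K hX h
  -- choose the parameters
  obtain ⟨N, hN⟩ := exists_nat_ge (64 * C + 4)
  have hN4 : (4 : ℝ) ≤ N := by linarith
  have hN0 : (0 : ℝ) < N := by linarith
  set c : ℝ := (1 / (400 * (C + 1) * N ^ 2)) ^ 2 with hcdef
  have hc0 : 0 < c := by positivity
  have hsc : Real.sqrt c = 1 / (400 * (C + 1) * N ^ 2) := by
    rw [hcdef, Real.sqrt_sq (by positivity)]
  have hsc1 : Real.sqrt c ≤ 1 / 400 := by
    rw [hsc]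
    apply one_div_le_one_div_of_le (by norm_num)
    nlinarith [sq_nonneg (N : ℝ), mul_nonneg hC0 (sq_nonneg (N : ℝ))]
  have hc1 : c ≤ 1 / 400 := by
    have h1 : c = Real.sqrt c ^ 2 := (Real.sq_sqrt hc0.le).symm
    rw [h1]
    nlinarith [Real.sqrt_nonneg c]
  refine ⟨c, hc0, ?_⟩
  by_contra hK
  unfold KCond at hK
  push Not at hK
  obtain ⟨a, b, hab, hab2, hdense⟩ := hK
  set r : ℝ := (b - a) / 8 with hrdef
  set θ : ℝ := (a + b) / 2 with hθ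
  have hr : 0 < r := by rw [hrdef]; linarith
  have hr1 : 4 * r ≤ Real.pi := by rw [hrdef]; linarith
  have hd : Dense X θ r c := by
    intro u hu
    have hu' := abs_le.1 hu
    obtain ⟨x, hx, hx2⟩ := hdense (θ + u) ⟨by rw [hθ]; rw [hrdef] at hu'; linarith,
      by rw [hθ]; rw [hrdef] at hu'; linarith⟩
    refine ⟨x, hx, ?_⟩
    have e : 8 * c * r = c * (b - a) := by rw [hrdef]; ring
    rw [e]
    exact hx2
  -- choose m
  set m : ℕ := ⌈(N : ℝ) / r⌉₊ with hm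
  have hm1 : (N : ℝ) / r ≤ m := Nat.le_ceil _
  have hm2 : (m : ℝ) < N / r + 1 := Nat.ceil_lt_add_one (by positivity)
  have hmpos : 0 < (m : ℝ) := lt_of_lt_of_le (by positivity) hm1
  have hm3 : 1 ≤ m := by exact_mod_cast hmpos
  have hmr1 : (N : ℝ) ≤ m * r := by
    rwa [div_le_iff₀ hr] at hm1
  have hpi4 := Real.pi_le_four
  have hmr2 : (m : ℝ) * r ≤ 2 * N := by
    have : (m : ℝ) * r < (N / r + 1) * r := by gcongr
    rw [add_mul, div_mul_cancel₀ _ hr.ne', one_mul] at this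
    linarith
  obtain ⟨φ, hφ, hlow⟩ := exists_osc θ m hm3
  have hup := hC φ hφ θ r c m hr hr1 hc0 hc1 hd
  have h1 := hlow.trans hup
  -- multiply by r^2 / (mr)^2
  set M : ℝ := m * r with hM
  have hM0 : 0 < M := by positivity
  have h2 : M ^ 2 / 32 ≤ C * (Real.sqrt c * M ^ 4 + 1) := by
    have h3 : (m : ℝ) ^ 2 / 32 * r ^ 2 ≤
        C * (Real.sqrt c * r ^ 2 * m ^ 4 + 1 / r ^ 2) * r ^ 2 := by gcongr
    have e1 : (m : ℝ) ^ 2 / 32 * r ^ 2 = M ^ 2 / 32 := by rw [hM]; ring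
    have e2 : C * (Real.sqrt c * r ^ 2 * m ^ 4 + 1 / r ^ 2) * r ^ 2 =
        C * (Real.sqrt c * M ^ 4 + 1) := by
      rw [hM]; field_simp
    rwa [e1, e2] at h3
  -- contradiction
  have h3 : C * (Real.sqrt c * M ^ 4) ≤ M ^ 2 / 100 := by
    have h4 : M ^ 2 ≤ 4 * N ^ 2 := by nlinarith
    have h5 : Real.sqrt c * M ^ 2 ≤ 1 / (100 * (C + 1)) := by
      rw [hsc]
      calc 1 / (400 * (C + 1) * (N : ℝ) ^ 2) * M ^ 2 ≤
          1 / (400 * (C + 1) * (N : ℝ) ^ 2) * (4 * N ^ 2) := by gcongr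
        _ = 1 / (100 * (C + 1)) := by field_simp; norm_num
    have h6 : C * (1 / (100 * (C + 1))) ≤ 1 / 100 := by
      rw [mul_one_div, div_le_div_iff₀ (by positivity) (by norm_num)]
      linarith
    calc C * (Real.sqrt c * M ^ 4) = C * (Real.sqrt c * M ^ 2) * M ^ 2 := by ring
      _ ≤ C * (1 / (100 * (C + 1))) * M ^ 2 := by gcongr
      _ ≤ 1 / 100 * M ^ 2 := by gcongr
      _ = M ^ 2 / 100 := by ring
  have h4 : (N : ℝ) ^ 2 ≤ M ^ 2 := by gcongr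
  have h5 : C ≤ N ^ 2 / 64 / 4 := by nlinarith
  nlinarith

end Pool.Agent.H82.Zyg
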