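import Mathlib
import Pool.Agent.H82.Zyg.NecTAux
import Pool.Agent.H82.Zyg.SecondDeriv

/-!
# T4: necessity of the three point condition
-/

namespace Pool.Agent.H82.Zyg

open Complex Metric Set

theorem tcond_of_interp {X : Set ℂ} (hX : X ⊆ closedBall 0 1) (h : IsInterp X) :
    ∃ C, TCond C X :=
  tcond_of_interp_aux second_deriv_bound local_affine slope_change hX h

end Pool.Agent.H82.Zyg
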