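import Mathlib
import Pool.Agent.H82.Zyg.Assemble
import Pool.Agent.H82.Zyg.NecK
import Pool.Agent.H82.Zyg.NecT
import Pool.Agent.H82.Zyg.Circle

/-!
# The characterisation of the interpolation sets of the analytic Zygmund class
-/

namespace Pool.Agent.H82.Zyg

open Metric Set

theorem isInterp_iff {X : Set ℂ} (hX : IsClosed X) (hXD : X ⊆ closedBall 0 1) :
    IsInterp X ↔ (∃ c > 0, KCond c X) ∧ ∃ C, TCond C X := by
  constructor
  · intro h
    exact ⟨kcond_of_interp hXD h, tcond_of_interp hXD h⟩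
  · rintro ⟨⟨c, hc, hK⟩, C, hT⟩
    exact interp_of_finite finite_suff hX hXD hc hK hT

theorem isInterp_iff_of_sphere {X : Set ℂ} (hX : IsClosed X) (hXD : X ⊆ sphere 0 1) :
    IsInterp X ↔ ∃ c > 0, KCond c X := by
  rw [isInterp_iff hX (hXD.trans sphere_subset_closedBall)]
  exact ⟨fun h => h.1, fun h => ⟨h, 5, tcond_of_sphere hXD⟩⟩

end Pool.Agent.H82.Zyg
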